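import Mathlib

set_option autoImplicit false

open MeasureTheory Filter Topology Complex Set

namespace Pool.Agent.Helper311.TI

noncomputable section

/-- conformal map of the right half plane onto the right half disc of radius `R` -/
def kap (R : ℝ) (ω : ℂ) : ℂ :=
  ((ω + 2 * (R : ℂ) * I) ^ (1 / 2 : ℂ) * (ω - 2 * (R : ℂ) * I) ^ (1 / 2 : ℂ) - ω) / 2

/-- the gain function -/
def eta (m S : ℝ → ℝ) (t : ℝ) : ℝ :=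
  min 1 (max (m (S t * Real.exp (-t) / 20) - 1) 0 * Real.exp (-t))

/-- `C²` convex function vanishing on `(-∞,0]`, with `x - 3 ≤ chi x ≤ x` for `0 ≤ x` -/
def chi (x : ℝ) : ℝ := if x ≤ 0 then 0 else x - 3 + Real.exp (-x) * (x ^ 2 / 2 + 2 * x + 3)

/-- the truncated logarithm of `G` in logarithmic polar coordinates -/
def vv (G : ℂ → ℂ) (c x θ : ℝ) : ℝ := chi (Real.log ‖G (cexp ((x : ℂ) + (θ : ℂ) * I))‖ - c)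

/-- the maximum modulus function (positive logarithm) -/
def MM (G : ℂ → ℂ) (r : ℝ) : ℝ :=
  sSup ((fun ζ : ℂ => max (Real.log ‖G ζ‖) 0) '' Metric.closedBall 0 r)

/-- the abstract pair of entire functions -/
structure Pair (F G : ℂ → ℂ) (Fs Gs : ℝ → ℂ → ℂ) (σ₀ C₀ : ℝ) : Prop where
  hσ : 1 ≤ σ₀
  hC : 1 ≤ C₀
  F_diff : Differentiable ℂ F
  G_diff : Differentiable ℂ G
  F_le : ∀ ζ : ℂ, ζ.re ≤ 0 → ‖F ζ‖ ≤ C₀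
  G_le : ∀ ζ : ℂ, ζ.re ≤ 0 → ‖G ζ‖ ≤ C₀
  F_bd : ∀ σ : ℝ, ∃ B : ℝ, ∀ ζ : ℂ, ζ.re ≤ σ → ‖F ζ‖ ≤ B
  G_bd : ∀ σ : ℝ, ∃ B : ℝ, ∀ ζ : ℂ, ζ.re ≤ σ → ‖G ζ‖ ≤ B
  Fs_diff : ∀ σ : ℝ, σ₀ ≤ σ → Differentiable ℂ (Fs σ)
  Gs_diff : ∀ σ : ℝ, σ₀ ≤ σ → Differentiable ℂ (Gs σ)
  Fs_sub : ∀ σ : ℝ, σ₀ ≤ σ → ∀ ζ : ℂ, σ < ζ.re → ‖Fs σ ζ - F ζ‖ ≤ C₀ * (1 + 1 / (ζ.re - σ))
  Gs_sub : ∀ σ : ℝ, σ₀ ≤ σ → ∀ ζ : ℂ, σ < ζ.re → ‖Gs σ ζ - G ζ‖ ≤ C₀ * (1 + 1 / (ζ.re - σ))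
  Fs_meas : Measurable (fun q : ℝ × ℝ => Fs q.1 ((q.1 : ℂ) + (q.2 : ℂ) * I))
  Gs_meas : Measurable (fun q : ℝ × ℝ => Gs q.1 ((q.1 : ℂ) + (q.2 : ℂ) * I))
  key : ∀ σ₁ σ₂ ρ τ₀ : ℝ, σ₀ ≤ σ₁ → σ₁ ≤ σ₂ → 0 < ρ →
    ∫⁻ σ in Ioo σ₁ σ₂, ∫⁻ τ : ℝ,
      (ENNReal.ofReal (‖Fs σ ((σ : ℂ) + (τ : ℂ) * I) - F ((σ : ℂ) + (τ : ℂ) * I)‖ - C₀) +
        ENNReal.ofReal (‖Gs σ ((σ : ℂ) + (τ : ℂ) * I) - G ((σ : ℂ) + (τ : ℂ) * I)‖ - C₀) +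
        ‖Fs σ ((σ : ℂ) + (τ : ℂ) * I) * Gs σ ((σ : ℂ) + (τ : ℂ) * I)‖ₑ) *
      ENNReal.ofReal (ρ / (ρ ^ 2 + (τ - τ₀) ^ 2)) ≤
    ENNReal.ofReal (C₀ * √((σ₂ - σ₁) / ρ))

/-- `m = -(log w)'` for a normalised weight -/
structure NW (m : ℝ → ℝ) : Prop where
  meas : Measurable m
  zero : 0 ≤ m 0
  mono : MonotoneOn m (Ici 0)
  anti : AntitoneOn m (Iic 0)
  top : Tendsto m atTop atTop
  bot : Tendsto m atBot atTop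

/-- the weight with logarithmic derivative `-m` -/
def wm (m : ℝ → ℝ) (x : ℝ) : ℝ := Real.exp (-∫ t in (0 : ℝ)..x, m t)

/-- the data: `f` in `L¹(w)`, `k` in the dual, `k` annihilates the right translates of `f` -/
structure Dat (m : ℝ → ℝ) (f k : ℝ → ℂ) (M : ℝ) : Prop where
  nw : NW m
  fm : Measurable f
  km : Measurable k
  fi : Integrable (fun x => ‖f x‖ * wm m x)
  M0 : 0 ≤ M
  kb : ∀ x, ‖k x‖ ≤ M * wm m x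
  ann : ∀ᵐ y ∂(volume.restrict (Ioi (0 : ℝ))), ∫ x, f x * k (x + y) = 0

def FLap (f : ℝ → ℂ) (ζ : ℂ) : ℂ := ∫ x in Iio (0 : ℝ), f x * cexp (-ζ * (x : ℂ))

def GLap (k : ℝ → ℂ) (ζ : ℂ) : ℂ := ∫ t in Ioi (0 : ℝ), k t * cexp (ζ * (t : ℂ))

def FS (m : ℝ → ℝ) (f : ℝ → ℂ) (σ : ℝ) (ζ : ℂ) : ℂ :=
  ∫ x in {x : ℝ | x < 0 ∨ m x ≤ σ}, f x * cexp (-ζ * (x : ℂ))

def GS (m : ℝ → ℝ) (k : ℝ → ℂ) (σ : ℝ) (ζ : ℂ) : ℂ :=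
  ∫ t in {t : ℝ | 0 < t ∨ m t ≤ σ}, k t * cexp (ζ * (t : ℂ))

/-- the region of integration `RR σ x` (an interval with one end at `x`) -/
def RR (m : ℝ → ℝ) (σ x : ℝ) : Set ℝ :=
  {t | (m x ≤ σ ∧ t < x ∧ m t ≤ σ) ∨ (σ < m x ∧ 0 < x ∧ x < t) ∨
    (σ < m x ∧ x ≤ 0 ∧ x < t ∧ t < 0 ∧ σ < m t)}

/-- the truncated transforms -/
def KR (m : ℝ → ℝ) (k : ℝ → ℂ) (σ x : ℝ) (ζ : ℂ) : ℂ :=
  ∫ t in RR m σ x, k t * cexp (ζ * ((t : ℂ) - (x : ℂ)))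

def KP (k : ℝ → ℂ) (x : ℝ) (ζ : ℂ) : ℂ :=
  ∫ t in Ioi x, k t * cexp (ζ * ((t : ℂ) - (x : ℂ)))

def NN (m : ℝ → ℝ) (σ x : ℝ) : ENNReal :=
  ∫⁻ t in RR m σ x, ENNReal.ofReal (Real.exp (-(2 * |∫ s in x..t, (m s - σ)|)))

/-- the hypotheses on the weight in the frozen statement -/
def FrozenW (w : ℝ → ℝ) : Prop :=
  Continuous w ∧ (∀ x, 0 < w x) ∧
    (∃ a b : ℝ, ConvexOn ℝ (Set.Iic a) (fun x => Real.log (w x)) ∧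
      ConcaveOn ℝ (Set.Ici b) (fun x => Real.log (w x)) ∧
      (∫⁻ x in Set.Iic a, ENNReal.ofReal (-deriv (fun y => Real.log (w y)) x / (1 + x ^ 2))) +
      (∫⁻ x in Set.Ici b, ENNReal.ofReal (-deriv (fun y => Real.log (w y)) x / (1 + x ^ 2))) = ⊤) ∧
    Tendsto (fun x => Real.log (w x) / x) (cocompact ℝ) atBot

end

end Pool.Agent.Helper311.TI
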