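import Mathlib
import Pool.Agent.Helper311.TI.Defs

set_option autoImplicit false

open MeasureTheory Filter Topology Complex Set

namespace Pool.Agent.Helper311.TI.J6634

noncomputable section

lemma disc_jensen_aux (h : ℂ → ℂ) (r : ℝ) (hr0 : 0 < r)
    (han : AnalyticOnNhd ℂ h (Metric.closedBall 0 |r|)) (h0 : h 0 ≠ 0) :
    Real.log ‖h 0‖ ≤ Real.circleAverage (Real.log ‖h ·‖) 0 r := by
  rw [han.circleAverage_log_norm hr0.ne' h0]
  have : 0 ≤ ∑ᶠ u, (MeromorphicOn.divisor h (Metric.closedBall 0 |r|) u : ℝ) *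
      Real.log (r * ‖0 - u‖⁻¹) := by
    refine finsum_nonneg fun u => ?_
    by_cases hu : u ∈ Metric.closedBall (0 : ℂ) |r|
    · refine mul_nonneg ?_ ?_
      · have := MeromorphicOn.AnalyticOnNhd.divisor_nonneg han u
        exact_mod_cast this
      · by_cases hu0 : u = 0
        · subst hu0
          simp
        · apply Real.log_nonneg
          rw [zero_sub, norm_neg, ← div_eq_mul_inv, one_le_div (norm_pos_iff.2 hu0)]
          rw [mem_closedBall_zero_iff, abs_of_pos hr0] at hu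
          exact hu
    · rw [Function.locallyFinsuppWithin.apply_eq_zero_of_notMem _ hu]
      simp
  linarith

lemma disc_jensen (h : ℂ → ℂ) (hd : DifferentiableOn ℂ h (Metric.ball 0 1))
    (hb : ∀ z ∈ Metric.ball (0 : ℂ) 1, ‖h z‖ ≤ 1) (h0 : h 0 ≠ 0) (r : ℝ) (hr0 : 0 < r) (hr : r < 1) :
    ∫⁻ θ in Ioo (0 : ℝ) (2 * Real.pi), ENNReal.ofReal (-Real.log ‖h (r * cexp (θ * I))‖) ≤
      ENNReal.ofReal (2 * Real.pi * (-Real.log ‖h 0‖)) := by
  have han1 : AnalyticOnNhd ℂ h (Metric.ball 0 1) := hd.analyticOnNhd Metric.isOpen_ball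
  have hsub : Metric.closedBall (0 : ℂ) |r| ⊆ Metric.ball 0 1 := by
    apply Metric.closedBall_subset_ball
    rwa [abs_of_pos hr0]
  have han : AnalyticOnNhd ℂ h (Metric.closedBall 0 |r|) := han1.mono hsub
  have hJ := disc_jensen_aux h r hr0 han h0
  have hci : CircleIntegrable (Real.log ‖h ·‖) 0 r :=
    ((han.mono Metric.sphere_subset_closedBall).meromorphicOn).circleIntegrable_log_norm
  have hmap : ∀ θ : ℝ, circleMap 0 r θ = r * cexp (θ * I) := fun θ => by
    rw [circleMap, zero_add]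
  have hII : IntervalIntegrable (fun θ : ℝ => Real.log ‖h (r * cexp (θ * I))‖) volume 0
      (2 * Real.pi) := by
    have := hci
    rw [circleIntegrable_def] at this
    simpa only [hmap] using this
  have hpi : (0 : ℝ) ≤ 2 * Real.pi := by positivity
  have hIoo : IntegrableOn (fun θ : ℝ => -Real.log ‖h (r * cexp (θ * I))‖)
      (Ioo (0 : ℝ) (2 * Real.pi)) volume := by
    have h1 := (intervalIntegrable_iff_integrableOn_Ioc_of_le hpi).1 hII
    exact (h1.mono_set Ioo_subset_Ioc_self).neg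
  have hnn : ∀ θ : ℝ, 0 ≤ -Real.log ‖h (r * cexp (θ * I))‖ := by
    intro θ
    have hz : (r * cexp (θ * I) : ℂ) ∈ Metric.ball (0 : ℂ) 1 := by
      rw [mem_ball_zero_iff, norm_mul, Complex.norm_exp_ofReal_mul_I, mul_one, Complex.norm_real,
        Real.norm_of_nonneg hr0.le]
      exact hr
    have := Real.log_nonpos (norm_nonneg _) (hb _ hz)
    linarith
  rw [← ofReal_integral_eq_lintegral_ofReal hIoo (Filter.Eventually.of_forall hnn)]
  apply ENNReal.ofReal_le_ofReal
  rw [integral_neg, ← MeasureTheory.integral_Ioc_eq_integral_Ioo,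
    ← intervalIntegral.integral_of_le hpi]
  rw [Real.circleAverage_def, smul_eq_mul] at hJ
  simp only [hmap] at hJ
  have h2 : 0 < 2 * Real.pi := by positivity
  rw [inv_mul_eq_div, le_div_iff₀ h2] at hJ
  linarith

end

end Pool.Agent.Helper311.TI.J6634

namespace Pool.Agent.Helper311.TI

alias disc_jensen := J6634.disc_jensen

end Pool.Agent.Helper311.TI

namespace Pool.Agent.Helper311.TI.J6635

noncomputable section

lemma disc_jensen_boundary (h : ℂ → ℂ) (hd : DifferentiableOn ℂ h (Metric.ball 0 1))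
    (hc : ContinuousOn h (Metric.closedBall 0 1 \ {1}))
    (hb : ∀ z ∈ Metric.ball (0 : ℂ) 1, ‖h z‖ ≤ 1) (h0 : h 0 ≠ 0) :
    ∫⁻ θ in Ioo (0 : ℝ) (2 * Real.pi), ENNReal.ofReal (-Real.log ‖h (cexp (θ * I))‖) ≤
      ENNReal.ofReal (2 * Real.pi * (-Real.log ‖h 0‖)) := by
  obtain ⟨r, hr⟩ : ∃ r : ℕ → ℝ, r = fun n : ℕ => 1 - 1 / ((n : ℝ) + 2) := ⟨_, rfl⟩
  have hr0 : ∀ n, 0 < r n := by
    intro n
    rw [hr]
    have h1 : (0 : ℝ) ≤ n := Nat.cast_nonneg n
    have h2 : 1 / ((n : ℝ) + 2) < 1 := by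
      rw [div_lt_one (by linarith)]; linarith
    simp only
    linarith
  have hr1 : ∀ n, r n < 1 := by
    intro n
    rw [hr]
    have h1 : (0 : ℝ) ≤ n := Nat.cast_nonneg n
    have h2 : 0 < 1 / ((n : ℝ) + 2) := by positivity
    simp only
    linarith
  have hrt : Tendsto r atTop (𝓝 1) := by
    rw [hr]
    have h1 : Tendsto (fun n : ℕ => 1 / ((n : ℝ) + 2)) atTop (𝓝 0) := by
      have h2 : Tendsto (fun n : ℕ => (n : ℝ) + 2) atTop atTop :=
        tendsto_atTop_add_const_right _ _ tendsto_natCast_atTop_atTop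
      exact h2.inv_tendsto_atTop.congr (fun n => by simp)
    simpa using h1.const_sub 1
  have hn : ∀ (n : ℕ) (θ : ℝ), ‖(r n : ℂ) * cexp (θ * I)‖ = r n := by
    intro n θ
    rw [norm_mul, Complex.norm_exp_ofReal_mul_I, mul_one, Complex.norm_real, Real.norm_of_nonneg (hr0 n).le]
  have hmeas : ∀ n, Measurable (fun θ : ℝ => ENNReal.ofReal (-Real.log ‖h (r n * cexp (θ * I))‖)) := by
    intro n
    have hcont : Continuous (fun θ : ℝ => h (r n * cexp (θ * I))) := by
      apply hd.continuousOn.comp_continuous (by fun_prop)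
      intro θ
      rw [mem_ball_zero_iff, hn]
      exact hr1 n
    exact (Real.measurable_log.comp hcont.norm.measurable).neg.ennreal_ofReal
  have hF := lintegral_liminf_le (μ := volume.restrict (Ioo (0 : ℝ) (2 * Real.pi))) (u := atTop) hmeas
  have hle : liminf (fun n => ∫⁻ θ in Ioo (0 : ℝ) (2 * Real.pi),
      ENNReal.ofReal (-Real.log ‖h (r n * cexp (θ * I))‖)) atTop ≤
      ENNReal.ofReal (2 * Real.pi * (-Real.log ‖h 0‖)) := by
    refine (liminf_le_liminf (Eventually.of_forall fun n => disc_jensen h hd hb h0 (r n) (hr0 n) (hr1 n))).trans ?_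
    exact (liminf_const _).le
  refine le_trans ?_ (hF.trans hle)
  apply setLIntegral_mono' measurableSet_Ioo
  intro θ hθ
  by_cases hz : h (cexp (θ * I)) = 0
  · rw [hz]; simp
  · have hz1 : cexp (θ * I) ≠ 1 := by
      intro he
      rw [Complex.exp_eq_one_iff] at he
      obtain ⟨k, hk⟩ := he
      have h1 : (θ : ℂ) = k * (2 * Real.pi) := by
        have hI : I ≠ 0 := Complex.I_ne_zero
        apply mul_right_cancel₀ hI
        rw [hk]; ring
      have h2 : θ = k * (2 * Real.pi) := by exact_mod_cast h1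
      have hpi := Real.pi_pos
      have h3 : (0 : ℝ) < k := by
        by_contra hneg
        push Not at hneg
        have := hθ.1
        nlinarith
      have h4 : (k : ℝ) < 1 := by
        by_contra hneg
        push Not at hneg
        have := hθ.2
        nlinarith
      have h5 : 0 < k := by exact_mod_cast h3
      have h6 : k < 1 := by exact_mod_cast h4
      omega
    have hmem : cexp (θ * I) ∈ Metric.closedBall (0 : ℂ) 1 \ {1} := by
      refine ⟨?_, by simpa using hz1⟩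
      rw [mem_closedBall_zero_iff, Complex.norm_exp_ofReal_mul_I]
    have hcw := hc _ hmem
    have ht : Tendsto (fun n => (r n : ℂ) * cexp (θ * I)) atTop
        (𝓝[Metric.closedBall (0 : ℂ) 1 \ {1}] (cexp (θ * I))) := by
      apply tendsto_nhdsWithin_of_tendsto_nhds_of_eventually_within
      · have h1 : Tendsto (fun n => (r n : ℂ)) atTop (𝓝 ((1 : ℝ) : ℂ)) :=
          (Complex.continuous_ofReal.tendsto 1).comp hrt
        have h2 := h1.mul_const (cexp (θ * I))
        simpa using h2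
      · apply Eventually.of_forall
        intro n
        refine ⟨?_, ?_⟩
        · rw [mem_closedBall_zero_iff, hn]; exact (hr1 n).le
        · intro he
          have he' : (r n : ℂ) * cexp (θ * I) = 1 := by simpa using he
          have := hn n θ
          rw [he'] at this
          simp at this
          have := hr1 n
          linarith
    have hlim : Tendsto (fun n => h (r n * cexp (θ * I))) atTop (𝓝 (h (cexp (θ * I)))) := hcw.tendsto.comp ht
    have hlim2 : Tendsto (fun n => ENNReal.ofReal (-Real.log ‖h (r n * cexp (θ * I))‖)) atTop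
        (𝓝 (ENNReal.ofReal (-Real.log ‖h (cexp (θ * I))‖))) := by
      apply (ENNReal.continuous_ofReal.tendsto _).comp
      exact (hlim.norm.log (norm_ne_zero_iff.mpr hz)).neg
    rw [hlim2.liminf_eq]

end

end Pool.Agent.Helper311.TI.J6635

namespace Pool.Agent.Helper311.TI

alias disc_jensen_boundary := J6635.disc_jensen_boundary

end Pool.Agent.Helper311.TI

namespace Pool.Agent.Helper311.TI.J6636

noncomputable section

lemma cayley_cov (Ψ : ℝ → ENNReal) (q : ℝ) (hq : 0 < q) :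
    ∫⁻ y : ℝ, Ψ y * ENNReal.ofReal (q / (q ^ 2 + y ^ 2)) =
      ∫⁻ θ in Ioo (0 : ℝ) (2 * Real.pi),
        Ψ (q * (Real.cos (θ / 2) / Real.sin (θ / 2))) * ENNReal.ofReal (1 / 2) := by
  have hpi := Real.pi_pos
  have hsin : ∀ θ ∈ Ioo (0 : ℝ) (2 * Real.pi), 0 < Real.sin (θ / 2) := by
    intro θ hθ
    exact Real.sin_pos_of_pos_of_lt_pi (by linarith [hθ.1]) (by linarith [hθ.2])
  have hder : ∀ θ ∈ Ioo (0 : ℝ) (2 * Real.pi),
      HasDerivWithinAt (fun θ : ℝ => q * (Real.cos (θ / 2) / Real.sin (θ / 2)))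
        (-(q / 2 / Real.sin (θ / 2) ^ 2)) (Ioo (0 : ℝ) (2 * Real.pi)) θ := by
    intro θ hθ
    have hs := hsin θ hθ
    have h1 : HasDerivAt (fun θ : ℝ => θ / 2) (1 / 2) θ := (hasDerivAt_id θ).div_const 2
    have h2 := h1.cos
    have h3 := h1.sin
    have h4 := (h2.div h3 hs.ne').const_mul q
    refine (h4.congr_deriv ?_).hasDerivWithinAt
    have h5 := Real.sin_sq_add_cos_sq (θ / 2)
    have h6 : (-Real.sin (θ / 2) * (1 / 2) * Real.sin (θ / 2) -
        Real.cos (θ / 2) * (Real.cos (θ / 2) * (1 / 2))) = -(1 / 2) := by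
      linear_combination (-1 / 2 : ℝ) * h5
    rw [h6]
    ring
  have hinj : InjOn (fun θ : ℝ => q * (Real.cos (θ / 2) / Real.sin (θ / 2))) (Ioo (0 : ℝ) (2 * Real.pi)) := by
    intro a ha b hb hab
    have h1 := mul_left_cancel₀ hq.ne' hab
    rw [div_eq_div_iff (hsin a ha).ne' (hsin b hb).ne'] at h1
    have h2 : Real.sin (b / 2 - a / 2) = 0 := by
      rw [Real.sin_sub]; linarith
    have h3 := (Real.sin_eq_zero_iff_of_lt_of_lt (by linarith [ha.2, hb.1]) (by linarith [ha.1, hb.2])).1 h2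
    linarith
  have himg : (fun θ : ℝ => q * (Real.cos (θ / 2) / Real.sin (θ / 2))) '' (Ioo (0 : ℝ) (2 * Real.pi)) = univ := by
    refine eq_univ_of_forall fun y => ?_
    have h1 := Real.arctan_lt_pi_div_two (y / q)
    have h2 := Real.neg_pi_div_two_lt_arctan (y / q)
    refine ⟨2 * (Real.pi / 2 - Real.arctan (y / q)), ⟨by linarith, by linarith⟩, ?_⟩
    have h3 : 2 * (Real.pi / 2 - Real.arctan (y / q)) / 2 = Real.pi / 2 - Real.arctan (y / q) := by ring
    simp only [h3, Real.cos_pi_div_two_sub, Real.sin_pi_div_two_sub]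
    rw [← Real.tan_eq_sin_div_cos, Real.tan_arctan]
    field_simp
  have key := lintegral_image_eq_lintegral_abs_deriv_mul measurableSet_Ioo hder hinj
    (fun y => Ψ y * ENNReal.ofReal (q / (q ^ 2 + y ^ 2)))
  rw [himg, Measure.restrict_univ] at key
  rw [key]
  refine setLIntegral_congr_fun measurableSet_Ioo ?_
  intro θ hθ
  have hs := hsin θ hθ
  simp only
  rw [mul_comm, mul_assoc, ← ENNReal.ofReal_mul (by positivity)]
  congr 2
  rw [abs_neg, abs_of_pos (by positivity)]
  have h5 := Real.sin_sq_add_cos_sq (θ / 2)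
  generalize Real.sin (θ / 2) = s at *
  generalize Real.cos (θ / 2) = c at *
  have h6 : q ^ 2 + (q * (c / s)) ^ 2 = q ^ 2 / s ^ 2 := by
    have : q ^ 2 + (q * (c / s)) ^ 2 = q ^ 2 * (s ^ 2 + c ^ 2) / s ^ 2 := by field_simp
    rw [this, h5, mul_one]
  rw [h6]
  field_simp

end

end Pool.Agent.Helper311.TI.J6636

namespace Pool.Agent.Helper311.TI

alias cayley_cov := J6636.cayley_cov

end Pool.Agent.Helper311.TI

namespace Pool.Agent.Helper311.TI.J6637

noncomputable section

lemma hpj_re (w : ℂ) (hw : w ≠ 1) : ((1 + w) / (1 - w)).re = (1 - ‖w‖ ^ 2) / ‖1 - w‖ ^ 2 := by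
  have h1 : 1 - w ≠ 0 := sub_ne_zero.2 hw.symm
  rw [Complex.div_re, Complex.sq_norm, Complex.sq_norm, Complex.normSq_apply, Complex.normSq_apply]
  simp only [Complex.add_re, Complex.sub_re, Complex.one_re, Complex.add_im, Complex.sub_im,
    Complex.one_im]
  rw [← add_div]
  congr 1
  ring

lemma hpj_re_q (q : ℝ) (w : ℂ) : ((q : ℂ) * ((1 + w) / (1 - w))).re = q * ((1 + w) / (1 - w)).re := by
  rw [Complex.mul_re, Complex.ofReal_re, Complex.ofReal_im]
  ring

lemma hpj_cayley (θ : ℝ) (h : Real.sin (θ / 2) ≠ 0) :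
    (1 + cexp (θ * I)) / (1 - cexp (θ * I)) =
      ((Real.cos (θ / 2) / Real.sin (θ / 2) : ℝ) : ℂ) * I := by
  have e1 : cexp (θ * I) = (((Real.cos (θ / 2) : ℝ) : ℂ) + ((Real.sin (θ / 2) : ℝ) : ℂ) * I) ^ 2 := by
    have : (θ : ℂ) * I = ((2 : ℕ) : ℂ) * (((θ / 2 : ℝ) : ℂ) * I) := by push_cast; ring
    rw [this, Complex.exp_nat_mul, Complex.exp_mul_I]
    push_cast
    rfl
  rw [e1]
  set c := Real.cos (θ / 2) with hc
  set s := Real.sin (θ / 2) with hs
  have hcs : (c : ℂ) ^ 2 + (s : ℂ) ^ 2 = 1 := by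
    have := Real.cos_sq_add_sin_sq (θ / 2)
    rw [← hc, ← hs] at this
    exact_mod_cast this
  have hs0 : (s : ℂ) ≠ 0 := by exact_mod_cast h
  have hu : (c : ℂ) + (s : ℂ) * I ≠ 0 := by
    intro h0
    have h2 := congrArg Complex.im h0
    simp at h2
    exact h h2
  have n1 : 1 + ((c : ℂ) + (s : ℂ) * I) ^ 2 = 2 * c * ((c : ℂ) + (s : ℂ) * I) := by
    linear_combination (s : ℂ) ^ 2 * Complex.I_sq - hcs
  have n2 : 1 - ((c : ℂ) + (s : ℂ) * I) ^ 2 = -(2 * I * s) * ((c : ℂ) + (s : ℂ) * I) := by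
    linear_combination (s : ℂ) ^ 2 * Complex.I_sq - hcs
  rw [n1, n2, mul_div_mul_right _ _ hu, Complex.ofReal_div]
  have hI : (I : ℂ) ≠ 0 := Complex.I_ne_zero
  rw [div_eq_iff (neg_ne_zero.2 (mul_ne_zero (mul_ne_zero two_ne_zero hI) hs0))]
  have e3 : (c : ℂ) / s * I * -(2 * I * s) = -(2 * c * (I ^ 2)) * (s / s) := by ring
  rw [e3, div_self hs0, Complex.I_sq]
  ring

lemma hp_jensen (h : ℂ → ℂ) (hd : DifferentiableOn ℂ h {z | 0 < z.re})
    (hc : ContinuousOn h {z | 0 ≤ z.re}) (B : ℝ) (hB : 0 < B)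
    (hb : ∀ z : ℂ, 0 ≤ z.re → ‖h z‖ ≤ B) (q : ℝ) (hq : 0 < q) (hne : h q ≠ 0) :
    ∫⁻ y : ℝ, ENNReal.ofReal (-Real.log (‖h (y * I)‖ / B)) * ENNReal.ofReal (q / (q ^ 2 + y ^ 2)) ≤
      ENNReal.ofReal (Real.pi * (-Real.log (‖h q‖ / B))) := by
  have hBc : (B : ℂ) ≠ 0 := by exact_mod_cast hB.ne'
  set H : ℂ → ℂ := fun w => h ((q : ℂ) * ((1 + w) / (1 - w))) / B with hH
  have hne1 : ∀ w ∈ Metric.ball (0 : ℂ) 1, w ≠ 1 := by
    rintro w hw rfl
    simp at hw
  have hpos : ∀ w ∈ Metric.ball (0 : ℂ) 1, 0 < ((q : ℂ) * ((1 + w) / (1 - w))).re := by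
    intro w hw
    rw [hpj_re_q, hpj_re w (hne1 w hw)]
    have h1 : ‖w‖ < 1 := mem_ball_zero_iff.1 hw
    have h2 : 0 < ‖1 - w‖ := norm_pos_iff.2 (sub_ne_zero.2 (hne1 w hw).symm)
    have h3 : 0 < 1 - ‖w‖ ^ 2 := by nlinarith [norm_nonneg w]
    positivity
  have hHd : DifferentiableOn ℂ H (Metric.ball 0 1) := by
    have h1 : DifferentiableOn ℂ (fun w : ℂ => (q : ℂ) * ((1 + w) / (1 - w))) (Metric.ball 0 1) := by
      apply DifferentiableOn.const_mul
      apply DifferentiableOn.fun_div (by fun_prop) (by fun_prop)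
      intro w hw
      exact sub_ne_zero.2 (hne1 w hw).symm
    exact (hd.comp h1 hpos).div_const _
  have hHc : ContinuousOn H (Metric.closedBall 0 1 \ {1}) := by
    have h1 : ContinuousOn (fun w : ℂ => (q : ℂ) * ((1 + w) / (1 - w)))
        (Metric.closedBall 0 1 \ {1}) := by
      apply continuousOn_const.mul
      apply ContinuousOn.div (by fun_prop) (by fun_prop)
      rintro w ⟨_, hw⟩
      exact sub_ne_zero.2 (fun h => hw h.symm)
    refine (hc.comp h1 ?_).div_const _
    rintro w ⟨hw1, hw2⟩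
    show 0 ≤ ((q : ℂ) * ((1 + w) / (1 - w))).re
    rw [hpj_re_q, hpj_re w hw2]
    have h1 : ‖w‖ ≤ 1 := mem_closedBall_zero_iff.1 hw1
    have h3 : 0 ≤ 1 - ‖w‖ ^ 2 := by nlinarith [norm_nonneg w]
    positivity
  have hHb : ∀ z ∈ Metric.ball (0 : ℂ) 1, ‖H z‖ ≤ 1 := by
    intro z hz
    rw [hH]
    simp only
    rw [norm_div, Complex.norm_real, Real.norm_of_nonneg hB.le, div_le_one hB]
    exact hb _ (hpos z hz).le
  have hH0 : H 0 = h q / B := by
    simp [hH]
  have hH0' : H 0 ≠ 0 := by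
    rw [hH0]
    exact div_ne_zero hne hBc
  have hJ := disc_jensen_boundary H hHd hHc hHb hH0'
  rw [cayley_cov (fun y => ENNReal.ofReal (-Real.log (‖h (y * I)‖ / B))) q hq,
    lintegral_mul_const' _ _ ENNReal.ofReal_ne_top]
  have hcongr : ∫⁻ θ in Ioo (0 : ℝ) (2 * Real.pi), ENNReal.ofReal (-Real.log (‖h
      (((q * (Real.cos (θ / 2) / Real.sin (θ / 2)) : ℝ) : ℂ) * I)‖ / B)) =
      ∫⁻ θ in Ioo (0 : ℝ) (2 * Real.pi), ENNReal.ofReal (-Real.log ‖H (cexp (θ * I))‖) := by
    refine setLIntegral_congr_fun measurableSet_Ioo fun θ hθ => ?_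
    have hs : 0 < Real.sin (θ / 2) :=
      Real.sin_pos_of_pos_of_lt_pi (by linarith [hθ.1]) (by linarith [hθ.2])
    simp only [hH]
    rw [hpj_cayley θ hs.ne', norm_div, Complex.norm_real, Real.norm_of_nonneg hB.le]
    congr 5
    push_cast
    ring
  rw [hcongr]
  refine (mul_le_mul_left hJ _).trans (le_of_eq ?_)
  rw [← ENNReal.ofReal_mul' (by norm_num)]
  congr 1
  rw [hH0, norm_div, Complex.norm_real, Real.norm_of_nonneg hB.le]
  ring

end

end Pool.Agent.Helper311.TI.J6637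

namespace Pool.Agent.Helper311.TI

alias hp_jensen := J6637.hp_jensen

end Pool.Agent.Helper311.TI

namespace Pool.Agent.Helper311.TI.J6638

noncomputable section

lemma cauchy_int (q : ℝ) (hq : 0 < q) :
    ∫⁻ y : ℝ, ENNReal.ofReal (q / (q ^ 2 + y ^ 2)) = ENNReal.ofReal Real.pi := by
  have e : (fun y : ℝ => q / (q ^ 2 + y ^ 2)) = fun y => q⁻¹ * (1 + (y / q) ^ 2)⁻¹ := by
    funext y
    field_simp
  have hi : Integrable (fun y : ℝ => (1 + (y / q) ^ 2)⁻¹) :=
    integrable_inv_one_add_sq.comp_div hq.ne'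
  rw [← ofReal_integral_eq_lintegral_ofReal]
  · rw [e, integral_const_mul, Measure.integral_comp_div (fun y : ℝ => (1 + y ^ 2)⁻¹) q,
      integral_univ_inv_one_add_sq, abs_of_pos hq, smul_eq_mul, ← mul_assoc,
      inv_mul_cancel₀ hq.ne', one_mul]
  · rw [e]
    exact hi.const_mul _
  · exact Filter.Eventually.of_forall fun y => by
      simp only [Pi.zero_apply]
      positivity

lemma hp_jensen_one (h : ℂ → ℂ) (hd : DifferentiableOn ℂ h {z | 0 < z.re})
    (hc : ContinuousOn h {z | 0 ≤ z.re}) (B : ℝ)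
    (hb : ∀ z : ℂ, 0 ≤ z.re → ‖h z‖ ≤ B) (q : ℝ) (hq : 0 < q) (hne : 1 ≤ ‖h q‖)
    (hz : ∀ᵐ y : ℝ, h (y * I) ≠ 0) :
    ∫⁻ y : ℝ, ENNReal.ofReal (-Real.log ‖h (y * I)‖) * ENNReal.ofReal (q / (q ^ 2 + y ^ 2)) ≤
      ∫⁻ y : ℝ, ENNReal.ofReal (Real.log ‖h (y * I)‖) * ENNReal.ofReal (q / (q ^ 2 + y ^ 2)) := by
  obtain ⟨B', hB'⟩ : ∃ B', B' = max B 1 := ⟨_, rfl⟩
  have hB1 : 1 ≤ B' := by rw [hB']; exact le_max_right _ _
  have hBB : B ≤ B' := by rw [hB']; exact le_max_left _ _
  have hB0 : 0 < B' := by linarith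
  have hlB : 0 ≤ Real.log B' := Real.log_nonneg hB1
  have hcont : Continuous fun y : ℝ => h (y * I) := by
    have h1 : Continuous fun y : ℝ => ((y : ℂ) * I) := by fun_prop
    exact hc.comp_continuous h1 fun y => by simp
  have hmL : Measurable fun y : ℝ => Real.log ‖h (y * I)‖ :=
    Real.measurable_log.comp hcont.norm.measurable
  have hmP : Measurable fun y : ℝ => ENNReal.ofReal (q / (q ^ 2 + y ^ 2)) := by fun_prop
  have hJ := hp_jensen h hd hc B' hB0 (fun z hz => (hb z hz).trans hBB) q hq (by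
    intro h0
    rw [h0, norm_zero] at hne
    linarith)
  have hq0 : 0 < ‖h q‖ := by linarith
  have hJ2 : ENNReal.ofReal (Real.pi * (-Real.log (‖h q‖ / B'))) ≤
      ENNReal.ofReal (Real.log B') * ENNReal.ofReal Real.pi := by
    rw [← ENNReal.ofReal_mul hlB]
    apply ENNReal.ofReal_le_ofReal
    rw [Real.log_div hq0.ne' hB0.ne']
    have h1 := Real.log_nonneg hne
    have h2 := Real.pi_pos
    nlinarith
  have hid : (∫⁻ y : ℝ, ENNReal.ofReal (-Real.log (‖h (y * I)‖ / B')) *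
        ENNReal.ofReal (q / (q ^ 2 + y ^ 2))) +
      ∫⁻ y : ℝ, ENNReal.ofReal (Real.log ‖h (y * I)‖) * ENNReal.ofReal (q / (q ^ 2 + y ^ 2)) =
      (∫⁻ y : ℝ, ENNReal.ofReal (Real.log B') * ENNReal.ofReal (q / (q ^ 2 + y ^ 2))) +
      ∫⁻ y : ℝ, ENNReal.ofReal (-Real.log ‖h (y * I)‖) * ENNReal.ofReal (q / (q ^ 2 + y ^ 2)) := by
    have m1 : Measurable fun y : ℝ => ENNReal.ofReal (Real.log ‖h (y * I)‖) *
      ENNReal.ofReal (q / (q ^ 2 + y ^ 2)) := (ENNReal.measurable_ofReal.comp hmL).mul hmP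
    have m2 : Measurable fun y : ℝ => ENNReal.ofReal (Real.log B') *
      ENNReal.ofReal (q / (q ^ 2 + y ^ 2)) := measurable_const.mul hmP
    rw [← lintegral_add_right _ m1, ← lintegral_add_left m2]
    refine lintegral_congr_ae ?_
    filter_upwards [hz] with y hy
    have hn : 0 < ‖h (y * I)‖ := norm_pos_iff.2 hy
    have hle : Real.log ‖h (y * I)‖ ≤ Real.log B' :=
      Real.log_le_log hn ((hb _ (by simp)).trans hBB)
    rw [← add_mul, ← add_mul]
    congr 1
    rw [Real.log_div hn.ne' hB0.ne']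
    rcases le_total 0 (Real.log ‖h (y * I)‖) with h0 | h0
    · rw [ENNReal.ofReal_of_nonpos (show -Real.log ‖h (y * I)‖ ≤ 0 by linarith), add_zero,
        ← ENNReal.ofReal_add (by linarith) h0]
      congr 1
      ring
    · rw [ENNReal.ofReal_of_nonpos h0, add_zero, ← ENNReal.ofReal_add hlB (by linarith)]
      congr 1
      ring
  have hconst : ∫⁻ y : ℝ, ENNReal.ofReal (Real.log B') * ENNReal.ofReal (q / (q ^ 2 + y ^ 2)) =
      ENNReal.ofReal (Real.log B') * ENNReal.ofReal Real.pi := by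
    rw [lintegral_const_mul _ hmP, cauchy_int q hq]
  have hfin : ENNReal.ofReal (Real.log B') * ENNReal.ofReal Real.pi ≠ ⊤ :=
    ENNReal.mul_ne_top ENNReal.ofReal_ne_top ENNReal.ofReal_ne_top
  rw [hconst] at hid
  refine (ENNReal.add_le_add_iff_left hfin).1 ?_
  rw [← hid]
  gcongr
  exact hJ.trans hJ2

end

end Pool.Agent.Helper311.TI.J6638

namespace Pool.Agent.Helper311.TI

alias hp_jensen_one := J6638.hp_jensen_one

end Pool.Agent.Helper311.TI

namespace Pool.Agent.Helper311.TI.J6639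

noncomputable section

lemma kap_sq_half (z : ℂ) : (z ^ (1 / 2 : ℂ)) ^ 2 = z := by
  have h := Complex.cpow_nat_inv_pow z (n := 2) (by norm_num)
  have h2 : ((2 : ℕ) : ℂ)⁻¹ = 1 / 2 := by norm_num
  rw [h2] at h
  exact h

lemma kap_half_re (z : ℂ) : 0 ≤ (z ^ (1 / 2 : ℂ)).re := by
  by_cases hz : z = 0
  · subst hz
    rw [Complex.zero_cpow (by norm_num)]
    simp
  · rw [Complex.cpow_def_of_ne_zero hz, Complex.exp_re]
    apply mul_nonneg (Real.exp_pos _).le
    have h1 : (Complex.log z * (1 / 2)).im = z.arg / 2 := by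
      have : (1 / 2 : ℂ) = ((1 / 2 : ℝ) : ℂ) := by push_cast; rfl
      rw [this, Complex.im_mul_ofReal, Complex.log_im]
      ring
    rw [h1]
    apply Real.cos_nonneg_of_neg_pi_div_two_le_of_le
    · have := Complex.neg_pi_lt_arg z
      linarith
    · have := Complex.arg_le_pi z
      linarith

lemma kap_half_im (z : ℂ) (hz : 0 ≤ z.re) :
    |(z ^ (1 / 2 : ℂ)).im| ≤ (z ^ (1 / 2 : ℂ)).re := by
  have h1 := congrArg Complex.re (kap_sq_half z)
  rw [sq, Complex.mul_re] at h1
  have h2 := kap_half_re z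
  apply abs_le_of_sq_le_sq _ h2
  nlinarith

lemma kap_s_sq (R : ℝ) (ω : ℂ) :
    ((ω + 2 * (R : ℂ) * I) ^ (1 / 2 : ℂ) * (ω - 2 * (R : ℂ) * I) ^ (1 / 2 : ℂ)) ^ 2 =
      ω ^ 2 + 4 * (R : ℂ) ^ 2 := by
  rw [mul_pow, kap_sq_half, kap_sq_half]
  ring_nf
  rw [Complex.I_sq]
  ring

lemma kap_s_re (R : ℝ) (ω : ℂ) (hω : 0 ≤ ω.re) :
    0 ≤ ((ω + 2 * (R : ℂ) * I) ^ (1 / 2 : ℂ) * (ω - 2 * (R : ℂ) * I) ^ (1 / 2 : ℂ)).re := by
  have h1 : 0 ≤ (ω + 2 * (R : ℂ) * I).re := by simpa using hω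
  have h2 : 0 ≤ (ω - 2 * (R : ℂ) * I).re := by simpa using hω
  have h3 := kap_half_im _ h1
  have h4 := kap_half_im _ h2
  have h5 := kap_half_re (ω + 2 * (R : ℂ) * I)
  have h6 := kap_half_re (ω - 2 * (R : ℂ) * I)
  rw [Complex.mul_re]
  have h7 := abs_le.1 h3
  have h8 := abs_le.1 h4
  nlinarith [mul_nonneg (sub_nonneg.2 h7.2) (sub_nonneg.2 h8.2),
    mul_nonneg (neg_le_iff_add_nonneg.1 h7.1) (neg_le_iff_add_nonneg.1 h8.1),
    mul_nonneg (sub_nonneg.2 h7.2) (neg_le_iff_add_nonneg.1 h8.1),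
    mul_nonneg (neg_le_iff_add_nonneg.1 h7.1) (sub_nonneg.2 h8.2)]

lemma kap_quad (R : ℝ) (ω : ℂ) : kap R ω ^ 2 + ω * kap R ω = (R : ℂ) ^ 2 := by
  have h := kap_s_sq R ω
  unfold kap
  linear_combination h / 4

lemma kap_ne (R : ℝ) (hR : 0 < R) (ω : ℂ) : kap R ω ≠ 0 := by
  intro h0
  have h := kap_quad R ω
  rw [h0] at h
  have h1 : (R : ℂ) ≠ 0 := by exact_mod_cast hR.ne'
  apply h1
  have h2 : (R : ℂ) ^ 2 = 0 := by rw [← h]; ring
  exact pow_eq_zero_iff (two_ne_zero) |>.1 h2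

lemma kap_re (R : ℝ) (hR : 0 < R) (ω : ℂ) (hω : 0 ≤ ω.re) : 0 ≤ (kap R ω).re := by
  have h := kap_quad R ω
  have hne := kap_ne R hR ω
  set z := kap R ω with hz
  -- z' = - ω - z has nonpositive real part
  have h1 : (- ω - z).re ≤ 0 := by
    have h2 := kap_s_re R ω hω
    have h3 : - ω - z = - (((ω + 2 * (R : ℂ) * I) ^ (1 / 2 : ℂ) *
        (ω - 2 * (R : ℂ) * I) ^ (1 / 2 : ℂ)) + ω) / 2 := by
      rw [hz]
      unfold kap
      ring
    rw [h3]
    have h4 : ∀ w : ℂ, (- w / 2).re = - w.re / 2 := by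
      intro w
      have : (-w / 2 : ℂ) = ((1/2 : ℝ) : ℂ) * (- w) := by push_cast; ring
      rw [this, Complex.re_ofReal_mul, Complex.neg_re]
      ring
    rw [h4, Complex.add_re]
    linarith
  have h5 : - ω - z = - ((R ^ 2 : ℝ) : ℂ) / z := by
    rw [eq_div_iff hne]
    push_cast
    linear_combination -h
  rw [h5] at h1
  have h6 : (- ((R ^ 2 : ℝ) : ℂ) / z).re = - (R ^ 2 * z.re / Complex.normSq z) := by
    rw [neg_div, Complex.neg_re, Complex.div_re, Complex.ofReal_re, Complex.ofReal_im]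
    ring
  rw [h6] at h1
  have h7 : 0 < Complex.normSq z := Complex.normSq_pos.2 hne
  have h8 : 0 ≤ R ^ 2 * z.re / Complex.normSq z := by linarith
  by_contra hcon
  push Not at hcon
  have h9 : R ^ 2 * z.re / Complex.normSq z < 0 :=
    div_neg_of_neg_of_pos (mul_neg_of_pos_of_neg (by positivity) hcon) h7
  linarith

lemma kap_norm_pos (R : ℝ) (hR : 0 < R) (ω : ℂ) (hω : 0 < ω.re) : ‖kap R ω‖ ≤ R := by
  have h := kap_quad R ω
  have hne := kap_ne R hR ω
  have hre := kap_re R hR ω hω.le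
  set z := kap R ω with hz
  have h5 : ω = ((R ^ 2 : ℝ) : ℂ) / z - z := by
    field_simp
    push_cast
    linear_combination h
  have h7 : 0 < Complex.normSq z := Complex.normSq_pos.2 hne
  have h6 : ω.re = R ^ 2 * z.re / Complex.normSq z - z.re := by
    conv_lhs => rw [h5]
    rw [Complex.sub_re, Complex.div_re, Complex.ofReal_re, Complex.ofReal_im]
    ring
  have h8 : 0 < (R ^ 2 - Complex.normSq z) * z.re / Complex.normSq z := by
    have : (R ^ 2 - Complex.normSq z) * z.re / Complex.normSq z =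
        R ^ 2 * z.re / Complex.normSq z - z.re := by
      field_simp
    rw [this, ← h6]
    exact hω
  have h9 : 0 < (R ^ 2 - Complex.normSq z) * z.re := by
    by_contra hcon
    push Not at hcon
    have := div_nonpos_of_nonpos_of_nonneg hcon h7.le
    linarith
  have h10 : 0 < R ^ 2 - Complex.normSq z := by
    by_contra hcon
    push Not at hcon
    have := mul_nonpos_of_nonpos_of_nonneg hcon hre
    linarith
  rw [Complex.normSq_eq_norm_sq] at h10
  have h11 : 0 ≤ ‖z‖ := norm_nonneg z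
  nlinarith

lemma kap_cont (R : ℝ) : ContinuousOn (kap R) {z | 0 ≤ z.re} := by
  intro ω hω
  have hω' : 0 ≤ ω.re := hω
  apply ContinuousAt.continuousWithinAt
  unfold kap
  have h1 : ContinuousAt (fun ω : ℂ => (ω + 2 * (R : ℂ) * I) ^ (1 / 2 : ℂ)) ω := by
    have h2 : ContinuousAt (fun x : ℂ => x ^ (1 / 2 : ℂ)) (ω + 2 * (R : ℂ) * I) :=
      Complex.continuousAt_cpow_const_of_re_pos (Or.inl (by simpa using hω')) (by norm_num)
    exact ContinuousAt.comp (f := fun ω : ℂ => ω + 2 * (R : ℂ) * I)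
      (g := fun x : ℂ => x ^ (1 / 2 : ℂ)) h2 (by fun_prop)
  have h3 : ContinuousAt (fun ω : ℂ => (ω - 2 * (R : ℂ) * I) ^ (1 / 2 : ℂ)) ω := by
    have h2 : ContinuousAt (fun x : ℂ => x ^ (1 / 2 : ℂ)) (ω - 2 * (R : ℂ) * I) :=
      Complex.continuousAt_cpow_const_of_re_pos (Or.inl (by simpa using hω')) (by norm_num)
    exact ContinuousAt.comp (f := fun ω : ℂ => ω - 2 * (R : ℂ) * I)
      (g := fun x : ℂ => x ^ (1 / 2 : ℂ)) h2 (by fun_prop)
  exact ((h1.mul h3).sub continuousAt_id).div_const 2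

lemma kap_diff (R : ℝ) : DifferentiableOn ℂ (kap R) {z | 0 < z.re} := by
  intro ω hω
  have hω' : 0 < ω.re := hω
  apply DifferentiableAt.differentiableWithinAt
  unfold kap
  have h1 : DifferentiableAt ℂ (fun ω : ℂ => (ω + 2 * (R : ℂ) * I) ^ (1 / 2 : ℂ)) ω := by
    apply DifferentiableAt.cpow (by fun_prop) (by fun_prop)
    left
    simpa using hω'
  have h3 : DifferentiableAt ℂ (fun ω : ℂ => (ω - 2 * (R : ℂ) * I) ^ (1 / 2 : ℂ)) ω := by
    apply DifferentiableAt.cpow (by fun_prop) (by fun_prop)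
    left
    simpa using hω'
  exact ((h1.mul h3).sub differentiableAt_id).div_const 2

lemma kap_norm (R : ℝ) (hR : 0 < R) (ω : ℂ) (hω : 0 ≤ ω.re) : ‖kap R ω‖ ≤ R := by
  have h1 : Tendsto (fun n : ℕ => ω + ((1 / ((n : ℝ) + 1) : ℝ) : ℂ)) atTop
      (𝓝[{z | 0 ≤ z.re}] ω) := by
    rw [tendsto_nhdsWithin_iff]
    constructor
    · have h2 : Tendsto (fun n : ℕ => ((1 / ((n : ℝ) + 1) : ℝ) : ℂ)) atTop (𝓝 ((0 : ℝ) : ℂ)) :=
        (Complex.continuous_ofReal.tendsto 0).comp tendsto_one_div_add_atTop_nhds_zero_nat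
      have h3 := h2.const_add ω
      simpa using h3
    · filter_upwards with n
      show 0 ≤ (ω + ((1 / ((n : ℝ) + 1) : ℝ) : ℂ)).re
      rw [Complex.add_re, Complex.ofReal_re]
      positivity
  have h4 := (kap_cont R ω hω).tendsto.comp h1
  refine le_of_tendsto h4.norm ?_
  filter_upwards with n
  apply kap_norm_pos R hR
  rw [Complex.add_re, Complex.ofReal_re]
  positivity

lemma kap_root (R : ℝ) (ω a b : ℂ) (hs : a + b = - ω) (hp : a * b = - (R : ℂ) ^ 2) :
    kap R ω = a ∨ kap R ω = b := by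
  have h := kap_quad R ω
  have h1 : (kap R ω - a) * (kap R ω - b) = 0 := by
    linear_combination h - kap R ω * hs + hp
  rcases mul_eq_zero.1 h1 with h2 | h2
  · left; exact sub_eq_zero.1 h2
  · right; exact sub_eq_zero.1 h2

lemma kap_props (R : ℝ) (hR : 0 < R) :
    DifferentiableOn ℂ (kap R) {z | 0 < z.re} ∧ ContinuousOn (kap R) {z | 0 ≤ z.re} ∧
    (∀ ω : ℂ, 0 ≤ ω.re → kap R ω ^ 2 + ω * kap R ω = (R : ℂ) ^ 2) ∧
    (∀ ω : ℂ, 0 ≤ ω.re → ‖kap R ω‖ ≤ R ∧ 0 ≤ (kap R ω).re ∧ kap R ω ≠ 0) ∧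
    (∀ d : ℝ, 0 < d → d < R → kap R (((R ^ 2 - d ^ 2) / d : ℝ) : ℂ) = d) ∧
    (∀ t : ℝ, 0 < |t| → |t| < R → kap R (((-(R ^ 2 / t + t) : ℝ) : ℂ) * I) = (t : ℂ) * I) ∧
    (∀ φ : ℝ, |φ| < Real.pi / 2 →
      kap R (((-(2 * R * Real.sin φ) : ℝ) : ℂ) * I) = (R : ℂ) * cexp (φ * I)) := by
  have hR0 : (R : ℂ) ≠ 0 := by exact_mod_cast hR.ne'
  refine ⟨kap_diff R, kap_cont R, fun ω _ => kap_quad R ω,
    fun ω hω => ⟨kap_norm R hR ω hω, kap_re R hR ω hω, kap_ne R hR ω⟩, ?_, ?_, ?_⟩
  · intro d hd hdR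
    have hd0 : (d : ℂ) ≠ 0 := by exact_mod_cast hd.ne'
    have hω : 0 ≤ ((((R ^ 2 - d ^ 2) / d : ℝ) : ℂ)).re := by
      rw [Complex.ofReal_re]
      apply div_nonneg _ hd.le
      nlinarith
    have h1 := kap_re R hR _ hω
    rcases kap_root R (((R ^ 2 - d ^ 2) / d : ℝ) : ℂ) (d : ℂ) (((-(R ^ 2 / d) : ℝ)) : ℂ)
      (by push_cast; field_simp; ring) (by push_cast; field_simp) with h2 | h2
    · exact h2
    · exfalso
      rw [h2, Complex.ofReal_re] at h1
      have : 0 < R ^ 2 / d := by positivity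
      linarith
  · intro t ht htR
    have ht0 : t ≠ 0 := abs_pos.1 ht
    have ht1 : (t : ℂ) ≠ 0 := by exact_mod_cast ht0
    have hω : 0 ≤ (((-(R ^ 2 / t + t) : ℝ) : ℂ) * I).re := by
      rw [Complex.re_ofReal_mul, Complex.I_re, mul_zero]
    have h1 := kap_norm R hR _ hω
    rcases kap_root R (((-(R ^ 2 / t + t) : ℝ) : ℂ) * I) ((t : ℂ) * I)
      ((((R ^ 2 / t) : ℝ) : ℂ) * I) (by push_cast; ring)
      (by
        push_cast
        have : (t : ℂ) * I * ((R : ℂ) ^ 2 / t * I) = (t / t) * (R : ℂ) ^ 2 * I ^ 2 := by ring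
        rw [this, div_self ht1, Complex.I_sq]
        ring) with h2 | h2
    · exact h2
    · exfalso
      rw [h2, norm_mul, Complex.norm_I, mul_one, Complex.norm_real, Real.norm_eq_abs, abs_div,
        abs_of_pos (by positivity : (0:ℝ) < R ^ 2), div_le_iff₀ ht] at h1
      nlinarith
  · intro φ hφ
    have hω : 0 ≤ (((-(2 * R * Real.sin φ) : ℝ) : ℂ) * I).re := by
      rw [Complex.re_ofReal_mul, Complex.I_re, mul_zero]
    have h1 := kap_re R hR _ hω
    have hcos : 0 < Real.cos φ := by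
      apply Real.cos_pos_of_mem_Ioo
      exact ⟨by linarith [(abs_lt.1 hφ).1], (abs_lt.1 hφ).2⟩
    have he : cexp (φ * I) * cexp (-(φ * I)) = 1 := by
      rw [← Complex.exp_add]
      simp
    have hsin : cexp (φ * I) - cexp (-(φ * I)) = 2 * Complex.sin φ * I := by
      rw [Complex.exp_mul_I, ← neg_mul, Complex.exp_mul_I, Complex.cos_neg, Complex.sin_neg]
      ring
    rcases kap_root R (((-(2 * R * Real.sin φ) : ℝ) : ℂ) * I) ((R : ℂ) * cexp (φ * I))
      (-((R : ℂ) * cexp (-(φ * I))))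
      (by push_cast; linear_combination (R : ℂ) * hsin)
      (by linear_combination -((R : ℂ) ^ 2) * he) with h2 | h2
    · exact h2
    · exfalso
      rw [h2, Complex.neg_re, Complex.re_ofReal_mul,
        show -((φ : ℂ) * I) = (-(φ : ℂ)) * I by ring, Complex.exp_mul_I,
        Complex.cos_neg, Complex.sin_neg, ← Complex.ofReal_cos, ← Complex.ofReal_sin] at h1
      have h3 : (((Real.cos φ : ℝ) : ℂ) + -((Real.sin φ : ℝ) : ℂ) * I).re = Real.cos φ := by
        rw [Complex.add_re, Complex.ofReal_re, ← Complex.ofReal_neg, Complex.re_ofReal_mul,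
          Complex.I_re, mul_zero, add_zero]
      rw [h3] at h1
      have : 0 < R * Real.cos φ := by positivity
      linarith

end

end Pool.Agent.Helper311.TI.J6639

namespace Pool.Agent.Helper311.TI

alias kap_props := J6639.kap_props

end Pool.Agent.Helper311.TI

namespace Pool.Agent.Helper311.TI.J6640

noncomputable section

lemma cov_image1 (R : ℝ) (hR : 0 < R) :
    (fun t : ℝ => -(R ^ 2 / t + t)) '' (Ioo (-R) 0 ∪ Ioo 0 R) = Iio (-(2 * R)) ∪ Ioi (2 * R) := by
  ext y
  constructor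
  · rintro ⟨t, ht, rfl⟩
    rcases ht with ⟨h1, h2⟩ | ⟨h1, h2⟩
    · right
      show 2 * R < -(R ^ 2 / t + t)
      have ht0 : t ≠ 0 := h2.ne
      have h3 : -(R ^ 2 / t + t) - 2 * R = (R + t) ^ 2 / (-t) := by
        field_simp
        ring
      have h4 : 0 < (R + t) ^ 2 / (-t) := div_pos (by
        have : 0 < R + t := by linarith
        positivity) (by linarith)
      linarith
    · left
      show -(R ^ 2 / t + t) < -(2 * R)
      have ht0 : t ≠ 0 := h1.ne'
      have h3 : R ^ 2 / t + t - 2 * R = (R - t) ^ 2 / t := by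
        field_simp
        ring
      have h4 : 0 < (R - t) ^ 2 / t := div_pos (by
        have : 0 < R - t := by linarith
        positivity) h1
      linarith
  · intro hy
    have hS : 0 < y ^ 2 - 4 * R ^ 2 := by
      rcases hy with hy | hy
      · have : y < -(2 * R) := hy
        nlinarith
      · have : 2 * R < y := hy
        nlinarith
    set S := Real.sqrt (y ^ 2 - 4 * R ^ 2) with hSdef
    have hS2 : S ^ 2 = y ^ 2 - 4 * R ^ 2 := Real.sq_sqrt hS.le
    have hS0 : 0 < S := Real.sqrt_pos.2 hS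
    rcases hy with hy | hy
    · have hy' : y < -(2 * R) := hy
      have hSy : S < -y := by nlinarith
      have hSR : -y - 2 * R < S := by
        by_contra hcon
        push Not at hcon
        nlinarith
      refine ⟨(-y - S) / 2, Or.inr ⟨by linarith, by linarith⟩, ?_⟩
      have hne : (-y - S) / 2 ≠ 0 := by
        have : 0 < (-y - S) / 2 := by linarith
        exact this.ne'
      show -(R ^ 2 / ((-y - S) / 2) + (-y - S) / 2) = y
      rw [neg_eq_iff_eq_neg, div_add' _ _ _ hne, div_eq_iff hne]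
      nlinarith
    · have hy' : 2 * R < y := hy
      have hSy : S < y := by nlinarith
      have hSR : y - 2 * R < S := by
        by_contra hcon
        push Not at hcon
        nlinarith
      refine ⟨(-y + S) / 2, Or.inl ⟨by linarith, by linarith⟩, ?_⟩
      have hne : (-y + S) / 2 ≠ 0 := by
        have : (-y + S) / 2 < 0 := by linarith
        exact this.ne
      show -(R ^ 2 / ((-y + S) / 2) + (-y + S) / 2) = y
      rw [neg_eq_iff_eq_neg, div_add' _ _ _ hne, div_eq_iff hne]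
      nlinarith

lemma cov_inj1 (R : ℝ) (hR : 0 < R) :
    InjOn (fun t : ℝ => -(R ^ 2 / t + t)) (Ioo (-R) 0 ∪ Ioo 0 R) := by
  have hb : ∀ t ∈ Ioo (-R) 0 ∪ Ioo 0 R, t ≠ 0 ∧ |t| < R := by
    rintro t (⟨h1, h2⟩ | ⟨h1, h2⟩)
    · exact ⟨h2.ne, by rw [abs_of_neg h2]; linarith⟩
    · exact ⟨h1.ne', by rw [abs_of_pos h1]; linarith⟩
  intro t ht s hs hts
  obtain ⟨ht0, htR⟩ := hb t ht
  obtain ⟨hs0, hsR⟩ := hb s hs
  have h1 : R ^ 2 / t + t = R ^ 2 / s + s := neg_injective hts
  have h2 : (t - s) * (t * s - R ^ 2) = 0 := by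
    field_simp at h1
    nlinarith
  rcases mul_eq_zero.1 h2 with h | h
  · linarith
  · exfalso
    have h3 : |t * s| < R ^ 2 := by
      rw [abs_mul]
      have := abs_nonneg t
      have := abs_nonneg s
      nlinarith
    have h4 : t * s = R ^ 2 := by linarith
    rw [h4, abs_of_pos (by positivity)] at h3
    exact lt_irrefl _ h3

lemma cov_image2 (R : ℝ) (hR : 0 < R) :
    (fun φ : ℝ => -(2 * R * Real.sin φ)) '' Ioo (-(Real.pi / 2)) (Real.pi / 2) =
      Ioo (-(2 * R)) (2 * R) := by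
  ext y
  constructor
  · rintro ⟨φ, ⟨h1, h2⟩, rfl⟩
    have hc : 0 < Real.cos φ := Real.cos_pos_of_mem_Ioo ⟨h1, h2⟩
    have hs := Real.sin_sq_add_cos_sq φ
    have h3 : Real.sin φ < 1 := by nlinarith
    have h4 : -1 < Real.sin φ := by nlinarith
    constructor
    · show -(2 * R) < -(2 * R * Real.sin φ)
      nlinarith
    · show -(2 * R * Real.sin φ) < 2 * R
      nlinarith
  · rintro ⟨h1, h2⟩
    have h3 : -1 < -y / (2 * R) := by
      rw [lt_div_iff₀ (by positivity)]
      linarith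
    have h4 : -y / (2 * R) < 1 := by
      rw [div_lt_iff₀ (by positivity)]
      linarith
    refine ⟨Real.arcsin (-y / (2 * R)), ⟨?_, ?_⟩, ?_⟩
    · exact Real.neg_pi_div_two_lt_arcsin.2 h3
    · exact Real.arcsin_lt_pi_div_two.2 h4
    · show -(2 * R * Real.sin (Real.arcsin (-y / (2 * R)))) = y
      rw [Real.sin_arcsin h3.le h4.le]
      field_simp

lemma cov_inj2 (R : ℝ) (hR : 0 < R) :
    InjOn (fun φ : ℝ => -(2 * R * Real.sin φ)) (Ioo (-(Real.pi / 2)) (Real.pi / 2)) := by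
  intro a ha b hb hab
  have h1 : 2 * R * Real.sin a = 2 * R * Real.sin b := neg_injective hab
  have h2 : Real.sin a = Real.sin b := mul_left_cancel₀ (by positivity) h1
  exact Real.injOn_sin ⟨ha.1.le, ha.2.le⟩ ⟨hb.1.le, hb.2.le⟩ h2

lemma kap_cov (Ψ : ℂ → ENNReal) (hΨ : Measurable Ψ) (R d : ℝ) (hd : 0 < d) (hR : d < R) :
    ∫⁻ y : ℝ, Ψ (kap R (y * I)) * ENNReal.ofReal (((R ^ 2 - d ^ 2) / d) /
        (((R ^ 2 - d ^ 2) / d) ^ 2 + y ^ 2)) =
      (∫⁻ t in Ioo (-R) R, Ψ (t * I) * ENNReal.ofReal (d / (d ^ 2 + t ^ 2) *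
        ((R ^ 2 - d ^ 2) * (R ^ 2 - t ^ 2) / (R ^ 4 + t ^ 2 * d ^ 2)))) +
      ∫⁻ φ in Ioo (-(Real.pi / 2)) (Real.pi / 2), Ψ (R * cexp (φ * I)) *
        ENNReal.ofReal (((R ^ 2 - d ^ 2) / d) /
          (((R ^ 2 - d ^ 2) / d) ^ 2 + (2 * R * Real.sin φ) ^ 2) * (2 * R * Real.cos φ)) := by
  have hR0 : 0 < R := hd.trans hR
  obtain ⟨-, -, -, -, -, hk1, hk2⟩ := kap_props R hR0
  set q : ℝ := (R ^ 2 - d ^ 2) / d with hq
  have hq0 : 0 < q := div_pos (by nlinarith) hd
  set F : ℝ → ENNReal := fun y => Ψ (kap R (y * I)) * ENNReal.ofReal (q / (q ^ 2 + y ^ 2)) with hF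
  -- splitting
  have hsplit : ∫⁻ y : ℝ, F y = (∫⁻ y in Iio (-(2 * R)) ∪ Ioi (2 * R), F y) +
      ∫⁻ y in Ioo (-(2 * R)) (2 * R), F y := by
    rw [← lintegral_union measurableSet_Ioo]
    · rw [← setLIntegral_univ]
      refine setLIntegral_congr ?_
      have hnull : volume ({-(2 * R), 2 * R} : Set ℝ) = 0 := by
        have : ({-(2 * R), 2 * R} : Set ℝ).Finite := by simp
        exact this.measure_zero _
      have hae : ∀ᵐ y : ℝ, y ∉ ({-(2 * R), 2 * R} : Set ℝ) :=
        measure_eq_zero_iff_ae_notMem.1 hnull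
      filter_upwards [hae] with y hy
      apply propext
      show y ∈ (univ : Set ℝ) ↔ y ∈ (Iio (-(2 * R)) ∪ Ioi (2 * R)) ∪ Ioo (-(2 * R)) (2 * R)
      simp only [mem_univ, true_iff]
      simp only [mem_insert_iff, mem_singleton_iff, not_or] at hy
      rcases lt_or_gt_of_ne hy.1 with h | h
      · exact Or.inl (Or.inl h)
      · rcases lt_or_gt_of_ne hy.2 with h' | h'
        · exact Or.inr ⟨h, h'⟩
        · exact Or.inl (Or.inr h')
    · rw [Set.disjoint_left]
      rintro y (hy | hy) ⟨h1, h2⟩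
      · exact lt_asymm hy h1
      · exact lt_asymm hy h2
  rw [hsplit]
  congr 1
  · rw [← cov_image1 R hR0]
    have hmeas : MeasurableSet (Ioo (-R) 0 ∪ Ioo 0 R) := measurableSet_Ioo.union measurableSet_Ioo
    rw [lintegral_image_eq_lintegral_abs_deriv_mul (f' := fun t => -(-(R ^ 2) / t ^ 2 + 1)) hmeas
      ?_ (cov_inj1 R hR0)]
    · have hset : (Ioo (-R) 0 ∪ Ioo 0 R : Set ℝ) =ᵐ[volume] Ioo (-R) R := by
        have hae : ∀ᵐ y : ℝ, y ∉ ({0} : Set ℝ) := by
          rw [ae_iff]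
          simp
        filter_upwards [hae] with y hy
        apply propext
        show y ∈ (Ioo (-R) 0 ∪ Ioo 0 R : Set ℝ) ↔ y ∈ Ioo (-R) R
        have hy0 : y ≠ 0 := hy
        constructor
        · rintro (⟨h1, h2⟩ | ⟨h1, h2⟩)
          · exact ⟨h1, h2.trans hR0⟩
          · exact ⟨by linarith, h2⟩
        · rintro ⟨h1, h2⟩
          rcases lt_or_gt_of_ne hy0 with h | h
          · exact Or.inl ⟨h1, h⟩
          · exact Or.inr ⟨h, h2⟩
      rw [← setLIntegral_congr hset]
      refine setLIntegral_congr_fun hmeas ?_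
      intro t ht
      have hb : t ≠ 0 ∧ |t| < R := by
        rcases ht with ⟨h1, h2⟩ | ⟨h1, h2⟩
        · exact ⟨h2.ne, by rw [abs_of_neg h2]; linarith⟩
        · exact ⟨h1.ne', by rw [abs_of_pos h1]; linarith⟩
      obtain ⟨ht0, htR⟩ := hb
      have ht2 : t ^ 2 < R ^ 2 := by
        rw [← sq_abs t]
        have := abs_nonneg t
        nlinarith
      have ht2' : 0 < t ^ 2 := by positivity
      have hk := hk1 t (abs_pos.2 ht0) htR
      simp only [hF]
      rw [hk]
      have habs : |(-(-(R ^ 2) / t ^ 2 + 1))| = (R ^ 2 - t ^ 2) / t ^ 2 := by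
        have : (-(-(R ^ 2) / t ^ 2 + 1)) = (R ^ 2 - t ^ 2) / t ^ 2 := by
          field_simp
          ring
        rw [this]
        exact abs_of_pos (div_pos (by linarith) ht2')
      rw [habs, mul_left_comm, ← ENNReal.ofReal_mul (div_pos (by linarith) ht2').le]
      congr 2
      rw [hq]
      have hd2 : 0 < d ^ 2 + t ^ 2 := by positivity
      have hR4 : 0 < R ^ 4 + t ^ 2 * d ^ 2 := by positivity
      have hdn : ((R ^ 2 - d ^ 2) / d) ^ 2 + (-(R ^ 2 / t + t)) ^ 2 =
          (d ^ 2 + t ^ 2) * (R ^ 4 + t ^ 2 * d ^ 2) / (d ^ 2 * t ^ 2) := by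
        field_simp
        ring
      rw [hdn]
      field_simp
    · rintro t ht
      have ht0 : t ≠ 0 := by
        rcases ht with ⟨h1, h2⟩ | ⟨h1, h2⟩
        · exact h2.ne
        · exact h1.ne'
      have h1 : HasDerivAt (fun t : ℝ => R ^ 2 / t) (-(R ^ 2) / t ^ 2) t := by
        have h0 := (hasDerivAt_inv ht0).const_mul (R ^ 2)
        have h00 : -(R ^ 2) / t ^ 2 = R ^ 2 * -(t ^ 2)⁻¹ := by
          rw [div_eq_mul_inv]
          ring
        rw [h00]
        exact h0
      exact ((h1.add (hasDerivAt_id t)).neg).hasDerivWithinAt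
  · rw [← cov_image2 R hR0]
    rw [lintegral_image_eq_lintegral_abs_deriv_mul (f' := fun φ => -(2 * R * Real.cos φ))
      measurableSet_Ioo ?_ (cov_inj2 R hR0)]
    · refine setLIntegral_congr_fun measurableSet_Ioo ?_
      rintro φ ⟨h1, h2⟩
      have hc : 0 < Real.cos φ := Real.cos_pos_of_mem_Ioo ⟨h1, h2⟩
      have hk := hk2 φ (abs_lt.2 ⟨h1, h2⟩)
      simp only [hF]
      rw [hk]
      have habs : |(-(2 * R * Real.cos φ))| = 2 * R * Real.cos φ := by
        rw [abs_neg]
        exact abs_of_pos (by positivity)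
      rw [habs, mul_left_comm, mul_comm (ENNReal.ofReal (2 * R * Real.cos φ)),
        ← ENNReal.ofReal_mul (by positivity)]
      congr 3
      rw [neg_sq]
    · intro φ _
      exact ((((Real.hasDerivAt_sin φ).const_mul (2 * R))).neg).hasDerivWithinAt

end

end Pool.Agent.Helper311.TI.J6640

namespace Pool.Agent.Helper311.TI

alias kap_cov := J6640.kap_cov

end Pool.Agent.Helper311.TI

namespace Pool.Agent.Helper311.TI.J6641

noncomputable section

lemma halfdisc_jensen_ae (g : ℂ → ℂ) (hg : Differentiable ℂ g) (b : ℂ) (R d : ℝ) (hR0 : 0 < R)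
    (h1 : 1 ≤ ‖g (b + d)‖) : ∀ᵐ y : ℝ, g (b + kap R (y * I)) ≠ 0 := by
  obtain ⟨-, -, hK3, hK4, -, -, -⟩ := kap_props R hR0
  have hne : g (b + d) ≠ 0 := by
    intro h
    rw [h, norm_zero] at h1
    linarith
  have han : AnalyticOnNhd ℂ g univ := fun z _ => hg.analyticAt z
  have hcod := han.preimage_zero_mem_codiscrete hne
  obtain ⟨ho, hdis⟩ := mem_codiscrete'.1 hcod
  have hfin : (Metric.closedBall b R ∩ (g ⁻¹' {0}ᶜ)ᶜ).Finite := by
    apply ((isCompact_closedBall b R).inter_right ho.isClosed_compl).finite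
    exact hdis.mono Set.inter_subset_right
  have hinj : Function.Injective (fun y : ℝ => b + kap R (y * I)) := by
    intro y y' h
    have h' : b + kap R (y * I) = b + kap R (y' * I) := h
    have h2 : kap R (y * I) = kap R (y' * I) := add_left_cancel h'
    have e1 := hK3 (y * I) (by simp)
    have e2 := hK3 (y' * I) (by simp)
    have e3 := (hK4 (y' * I) (by simp)).2.2
    rw [h2] at e1
    have e4 : (y : ℂ) * I * kap R (y' * I) = (y' : ℂ) * I * kap R (y' * I) := by
      linear_combination e1 - e2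
    have e5 : (y : ℂ) * I = (y' : ℂ) * I := mul_right_cancel₀ e3 e4
    have e6 : (y : ℂ) = (y' : ℂ) := mul_right_cancel₀ I_ne_zero e5
    exact_mod_cast e6
  have hsub : {y : ℝ | ¬ g (b + kap R (y * I)) ≠ 0} ⊆
      (fun y : ℝ => b + kap R (y * I)) ⁻¹' (Metric.closedBall b R ∩ (g ⁻¹' {0}ᶜ)ᶜ) := by
    intro y hy
    have hy' : g (b + kap R (y * I)) = 0 := not_not.1 hy
    refine ⟨?_, ?_⟩
    · rw [Metric.mem_closedBall, dist_eq_norm, add_sub_cancel_left]
      exact (hK4 (y * I) (by simp)).1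
    · intro hc
      exact hc hy'
  have hfin2 := (hfin.preimage hinj.injOn).subset hsub
  exact hfin2.measure_zero volume

lemma halfdisc_jensen (g : ℂ → ℂ) (hg : Differentiable ℂ g) (b : ℂ) (R d : ℝ) (hd : 0 < d)
    (hR : 2 * d ≤ R) (h1 : 1 ≤ ‖g (b + d)‖) :
    ∫⁻ t in Ioo (-(R / 2)) (R / 2), ENNReal.ofReal (-Real.log ‖g (b + t * I)‖) *
        ENNReal.ofReal (9 / 25 * (d / (d ^ 2 + t ^ 2))) ≤
      (∫⁻ t in Ioo (-R) R, ENNReal.ofReal (Real.log ‖g (b + t * I)‖) *
        ENNReal.ofReal (d / (d ^ 2 + t ^ 2))) +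
      ∫⁻ φ in Ioo (-(Real.pi / 2)) (Real.pi / 2),
        ENNReal.ofReal (Real.log ‖g (b + R * cexp (φ * I))‖) *
          ENNReal.ofReal (2 * Real.cos φ) := by
  have hR0 : 0 < R := by linarith
  have hdR : d < R := by linarith
  obtain ⟨hK1, hK2, hK3, hK4, hK5, -, -⟩ := kap_props R hR0
  have hq : 0 < (R ^ 2 - d ^ 2) / d := by
    apply div_pos _ hd
    nlinarith
  have hqR : R ≤ (R ^ 2 - d ^ 2) / d := by
    rw [le_div_iff₀ hd]
    nlinarith
  obtain ⟨B, hB⟩ : ∃ B : ℝ, ∀ z ∈ Metric.closedBall b R, ‖g z‖ ≤ B := by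
    obtain ⟨B, hB⟩ := (isCompact_closedBall b R).exists_bound_of_continuousOn
      hg.continuous.continuousOn
    exact ⟨B, hB⟩
  have key := hp_jensen_one (fun ω => g (b + kap R ω))
    (hg.comp_differentiableOn (hK1.const_add b))
    (hg.continuous.comp_continuousOn (continuousOn_const.add hK2)) B
    (by
      intro z hz
      apply hB
      rw [Metric.mem_closedBall, dist_eq_norm, add_sub_cancel_left]
      exact (hK4 z hz).1)
    ((R ^ 2 - d ^ 2) / d) hq
    (by
      show 1 ≤ ‖g (b + kap R (((R ^ 2 - d ^ 2) / d : ℝ) : ℂ))‖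
      rw [hK5 d hd hdR]
      exact h1)
    (halfdisc_jensen_ae g hg b R d hR0 h1)
  have hm1 : Measurable (fun z : ℂ => ENNReal.ofReal (-Real.log ‖g (b + z)‖)) := by
    apply ENNReal.measurable_ofReal.comp
    apply Measurable.neg
    apply Real.measurable_log.comp
    exact (hg.continuous.comp (continuous_const.add continuous_id)).norm.measurable
  have hm2 : Measurable (fun z : ℂ => ENNReal.ofReal (Real.log ‖g (b + z)‖)) := by
    apply ENNReal.measurable_ofReal.comp
    apply Real.measurable_log.comp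
    exact (hg.continuous.comp (continuous_const.add continuous_id)).norm.measurable
  have c1 := kap_cov _ hm1 R d hd hdR
  have c2 := kap_cov _ hm2 R d hd hdR
  have key2 : (∫⁻ y : ℝ, ENNReal.ofReal (-Real.log ‖g (b + kap R (y * I))‖) *
        ENNReal.ofReal (((R ^ 2 - d ^ 2) / d) / (((R ^ 2 - d ^ 2) / d) ^ 2 + y ^ 2))) ≤
      ∫⁻ y : ℝ, ENNReal.ofReal (Real.log ‖g (b + kap R (y * I))‖) *
        ENNReal.ofReal (((R ^ 2 - d ^ 2) / d) / (((R ^ 2 - d ^ 2) / d) ^ 2 + y ^ 2)) := key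
  rw [c1, c2] at key2
  -- the lower bound of the left side
  have hfac : ∀ t : ℝ, t ∈ Ioo (-(R / 2)) (R / 2) → 9 / 25 * (d / (d ^ 2 + t ^ 2)) ≤
      d / (d ^ 2 + t ^ 2) * ((R ^ 2 - d ^ 2) * (R ^ 2 - t ^ 2) / (R ^ 4 + t ^ 2 * d ^ 2)) := by
    intro t ht
    have ht2 : t ^ 2 ≤ (R / 2) ^ 2 := sq_le_sq' ht.1.le ht.2.le
    have hd2 : d ^ 2 ≤ (R / 2) ^ 2 := sq_le_sq' (by linarith) (by linarith)
    have hpos : 0 < R ^ 4 + t ^ 2 * d ^ 2 := by positivity
    have h0 : 0 ≤ d / (d ^ 2 + t ^ 2) := by positivity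
    have h2 : 9 / 25 ≤ (R ^ 2 - d ^ 2) * (R ^ 2 - t ^ 2) / (R ^ 4 + t ^ 2 * d ^ 2) := by
      rw [le_div_iff₀ hpos]
      have a1 : (3 / 4 * R ^ 2) * (3 / 4 * R ^ 2) ≤ (R ^ 2 - d ^ 2) * (R ^ 2 - t ^ 2) :=
        mul_le_mul (by nlinarith) (by nlinarith) (by positivity) (by nlinarith)
      have a2 : t ^ 2 * d ^ 2 ≤ (R / 2) ^ 2 * (R / 2) ^ 2 :=
        mul_le_mul ht2 hd2 (by positivity) (by positivity)
      nlinarith [sq_nonneg (R ^ 2)]
    calc 9 / 25 * (d / (d ^ 2 + t ^ 2)) = d / (d ^ 2 + t ^ 2) * (9 / 25) := by ring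
      _ ≤ _ := mul_le_mul_of_nonneg_left h2 h0
  have low : ∫⁻ t in Ioo (-(R / 2)) (R / 2), ENNReal.ofReal (-Real.log ‖g (b + t * I)‖) *
        ENNReal.ofReal (9 / 25 * (d / (d ^ 2 + t ^ 2))) ≤
      ∫⁻ t in Ioo (-R) R, ENNReal.ofReal (-Real.log ‖g (b + t * I)‖) *
        ENNReal.ofReal (d / (d ^ 2 + t ^ 2) *
        ((R ^ 2 - d ^ 2) * (R ^ 2 - t ^ 2) / (R ^ 4 + t ^ 2 * d ^ 2))) := by
    refine le_trans (setLIntegral_mono' measurableSet_Ioo ?_)
      (lintegral_mono_set (Ioo_subset_Ioo (by linarith) (by linarith)))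
    intro t ht
    exact mul_le_mul_right (ENNReal.ofReal_le_ofReal (hfac t ht)) _
  refine low.trans ((le_add_of_nonneg_right zero_le).trans (key2.trans ?_))
  apply add_le_add
  · apply setLIntegral_mono' measurableSet_Ioo
    intro t ht
    apply mul_le_mul_right
    apply ENNReal.ofReal_le_ofReal
    have h0 : 0 ≤ d / (d ^ 2 + t ^ 2) := by positivity
    have hpos : 0 < R ^ 4 + t ^ 2 * d ^ 2 := by positivity
    have h2 : (R ^ 2 - d ^ 2) * (R ^ 2 - t ^ 2) / (R ^ 4 + t ^ 2 * d ^ 2) ≤ 1 := by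
      rw [div_le_one hpos]
      nlinarith [mul_nonneg (sq_nonneg R) (sq_nonneg d), mul_nonneg (sq_nonneg R) (sq_nonneg t)]
    calc _ ≤ d / (d ^ 2 + t ^ 2) * 1 := mul_le_mul_of_nonneg_left h2 h0
      _ = _ := mul_one _
  · apply setLIntegral_mono' measurableSet_Ioo
    intro φ hφ
    apply mul_le_mul_right
    apply ENNReal.ofReal_le_ofReal
    have hcos : 0 < Real.cos φ := Real.cos_pos_of_mem_Ioo hφ
    set q : ℝ := (R ^ 2 - d ^ 2) / d with hqdef
    have hden : 0 < q ^ 2 + (2 * R * Real.sin φ) ^ 2 := by positivity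
    rw [div_mul_eq_mul_div, div_le_iff₀ hden]
    have a1 : q * (2 * R * Real.cos φ) ≤ 2 * Real.cos φ * q ^ 2 := by
      have : q * (2 * R * Real.cos φ) = 2 * Real.cos φ * q * R := by ring
      rw [this]
      have h3 : 2 * Real.cos φ * q ^ 2 = 2 * Real.cos φ * q * q := by ring
      rw [h3]
      exact mul_le_mul_of_nonneg_left hqR (by positivity)
    have a2 : 0 ≤ 2 * Real.cos φ * (2 * R * Real.sin φ) ^ 2 := by positivity
    linarith

end

end Pool.Agent.Helper311.TI.J6641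

namespace Pool.Agent.Helper311.TI

alias halfdisc_jensen := J6641.halfdisc_jensen

end Pool.Agent.Helper311.TI

namespace Pool.Agent.Helper311.TI.J6642

noncomputable section

lemma zero_null (F : ℂ → ℂ) (hF : Differentiable ℂ F) (z₀ : ℂ) (h0 : F z₀ ≠ 0) (σ : ℝ) :
    ∀ᵐ τ : ℝ, F ((σ : ℂ) + (τ : ℂ) * I) ≠ 0 := by
  have hFa : AnalyticOnNhd ℂ F univ := fun z _ => hF.analyticAt z
  have hline : AnalyticOnNhd ℝ (fun τ : ℝ => (σ : ℂ) + (τ : ℂ) * I) univ := by
    intro τ _
    have h1 : AnalyticAt ℝ (fun τ : ℝ => (τ : ℂ)) τ := Complex.ofRealCLM.analyticAt τ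
    exact analyticAt_const.add (h1.mul analyticAt_const)
  have hg : AnalyticOnNhd ℝ (fun τ : ℝ => F ((σ : ℂ) + (τ : ℂ) * I)) univ := by
    intro τ _
    have h2 : AnalyticAt ℝ F ((σ : ℂ) + (τ : ℂ) * I) := (hF.analyticAt _).restrictScalars
    exact AnalyticAt.fun_comp h2 (hline τ (Set.mem_univ _))
  rcases hg.eqOn_zero_or_eventually_ne_zero_of_preconnected isPreconnected_univ with h | h
  · exfalso
    apply h0
    have hfreq : ∃ᶠ z in 𝓝[≠] (σ : ℂ), F z = 0 := by
      have ht : Tendsto (fun τ : ℝ => (σ : ℂ) + (τ : ℂ) * I) (𝓝[≠] 0) (𝓝[≠] (σ : ℂ)) := by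
        refine tendsto_nhdsWithin_of_tendsto_nhds_of_eventually_within _ ?_ ?_
        · have hc : Continuous (fun τ : ℝ => (σ : ℂ) + (τ : ℂ) * I) := by fun_prop
          have := hc.tendsto 0
          simp only [Complex.ofReal_zero, zero_mul, add_zero] at this
          exact this.mono_left nhdsWithin_le_nhds
        · filter_upwards [self_mem_nhdsWithin] with τ hτ
          simp only [Set.mem_compl_iff, Set.mem_singleton_iff] at hτ ⊢
          intro h3
          apply hτ
          have h4 : (τ : ℂ) * I = 0 := by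
            have := congrArg (fun w => w - (σ : ℂ)) h3
            simpa using this
          simpa using h4
      have h5 : ∃ᶠ τ : ℝ in 𝓝[≠] 0, F ((σ : ℂ) + (τ : ℂ) * I) = 0 := by
        refine Filter.Eventually.frequently (Filter.Eventually.of_forall (fun τ => ?_))
        exact h (Set.mem_univ τ)
      exact ht.frequently h5
    have := hFa.eqOn_zero_of_preconnected_of_frequently_eq_zero isPreconnected_univ
      (Set.mem_univ (σ : ℂ)) hfreq
    exact this (Set.mem_univ z₀)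
  · have h6 := ae_restrict_le_codiscreteWithin (μ := (volume : Measure ℝ)) (U := (univ : Set ℝ))
      MeasurableSet.univ
    rw [Measure.restrict_univ] at h6
    exact h6 h

end

end Pool.Agent.Helper311.TI.J6642

namespace Pool.Agent.Helper311.TI

alias zero_null := J6642.zero_null

end Pool.Agent.Helper311.TI

namespace Pool.Agent.Helper311.TI.J6643

noncomputable section

lemma tiCircle_one {h : ℂ → ℂ} (hh : Differentiable ℂ h) (c : ℂ) {r : ℝ} (hr : 0 < r) :
    Real.log (‖h c‖ + 1) ≤ Real.circleAverage (fun z => Real.log (‖h z‖ + 1)) c r := by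
  obtain ⟨b, hb, hcb⟩ : ∃ b : ℂ, ‖b‖ = 1 ∧ ‖h c + b‖ = ‖h c‖ + 1 := by
    by_cases h0 : h c = 0
    · exact ⟨1, by simp, by simp [h0]⟩
    · have hn : ‖h c‖ ≠ 0 := norm_ne_zero_iff.mpr h0
      refine ⟨h c / ‖h c‖, ?_, ?_⟩
      · rw [norm_div, Complex.norm_real, norm_norm, div_self hn]
      · have h1 : h c + h c / (‖h c‖ : ℂ) = h c * ((1 + ‖h c‖⁻¹ : ℝ) : ℂ) := by
          push_cast; ring
        rw [h1, norm_mul, Complex.norm_real, Real.norm_eq_abs, abs_of_pos (by positivity)]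
        field_simp
  set g : ℂ → ℂ := fun z => h z + b with hg
  have hga : Differentiable ℂ g := hh.add_const b
  have hgan : AnalyticOnNhd ℂ g (Metric.closedBall c |r|) := fun z _ => hga.analyticAt z
  have hgc : g c ≠ 0 := by
    intro h0
    have : ‖g c‖ = ‖h c‖ + 1 := hcb
    rw [h0, norm_zero] at this
    have := norm_nonneg (h c)
    linarith
  have hJ := hgan.circleAverage_log_norm hr.ne' hgc
  have hsum : 0 ≤ ∑ᶠ u, (MeromorphicOn.divisor g (Metric.closedBall c |r|) u : ℝ) * Real.log (r * ‖c - u‖⁻¹) := by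
    apply finsum_nonneg
    intro u
    by_cases hu : u ∈ Metric.closedBall c |r|
    · apply mul_nonneg
      · exact_mod_cast MeromorphicOn.AnalyticOnNhd.divisor_nonneg hgan u
      · rw [mem_closedBall_iff_norm', abs_of_pos hr] at hu
        rcases (norm_nonneg (c - u)).eq_or_lt with h0 | h0
        · rw [← h0, inv_zero, mul_zero, Real.log_zero]
        · apply Real.log_nonneg
          rw [← div_eq_mul_inv, le_div_iff₀ h0, one_mul]
          exact hu
    · have : MeromorphicOn.divisor g (Metric.closedBall c |r|) u = 0 :=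
        Function.locallyFinsuppWithin.apply_eq_zero_of_notMem _ hu
      rw [this]; simp
  have h1 : Real.log (‖h c‖ + 1) ≤ Real.circleAverage (Real.log ‖g ·‖) c r := by
    rw [hJ]
    have : Real.log ‖g c‖ = Real.log (‖h c‖ + 1) := by rw [← hcb]
    rw [this]; linarith
  refine h1.trans ?_
  apply Real.circleAverage_mono
  · exact (hgan.mono Metric.sphere_subset_closedBall).meromorphicOn.circleIntegrable_log_norm
  · apply ContinuousOn.circleIntegrable'
    apply Continuous.continuousOn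
    have hc : Continuous (fun z => ‖h z‖ + 1) := hh.continuous.norm.add continuous_const
    exact hc.log (fun z => by positivity)
  · intro z _
    by_cases h0 : g z = 0
    · rw [h0, norm_zero, Real.log_zero]
      exact Real.log_nonneg (by linarith [norm_nonneg (h z)])
    · apply Real.log_le_log (norm_pos_iff.mpr h0)
      calc ‖g z‖ ≤ ‖h z‖ + ‖b‖ := norm_add_le _ _
        _ = ‖h z‖ + 1 := by rw [hb]

lemma tiArea_of_circle {U : ℂ → ℝ} (hU : Continuous U) (c : ℂ)
    (h : ∀ r : ℝ, 0 < r → U c ≤ Real.circleAverage U c r) {R : ℝ} (hR : 0 < R) :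
    Real.pi * R ^ 2 * U c ≤ ∫ z in Metric.ball c R, U z := by
  -- the rotated integrals
  have hrot : ∀ θ : ℝ, ∫ z in Metric.ball (0 : ℂ) R, U (c + Complex.exp (θ * Complex.I) * z) =
      ∫ z in Metric.ball c R, U z := by
    intro θ
    have h1 : ∫ z in Metric.ball (0 : ℂ) R, U (c + Complex.exp (θ * Complex.I) * z) =
        ∫ z in Metric.ball (0 : ℂ) R, U (c + z) := by
      have hmp := (rotation (Circle.exp θ)).measurePreserving
      have hpre : (rotation (Circle.exp θ)) ⁻¹' (Metric.ball (0 : ℂ) R) = Metric.ball (0 : ℂ) R := by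
        rw [LinearIsometryEquiv.preimage_ball, map_zero]
      have h2 := hmp.setIntegral_preimage_emb
        (rotation (Circle.exp θ)).toHomeomorph.measurableEmbedding (fun z => U (c + z))
        (Metric.ball (0 : ℂ) R)
      rw [hpre] at h2
      rw [← h2]
      congr 1
    have h3 : ∫ z in Metric.ball (0 : ℂ) R, U (c + z) = ∫ z in Metric.ball c R, U z := by
      have hmp := measurePreserving_add_left (volume : Measure ℂ) c
      have hpre : (fun z => c + z) ⁻¹' (Metric.ball c R) = Metric.ball (0 : ℂ) R := by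
        ext z
        simp [Metric.mem_ball, dist_eq_norm]
      have h2 := hmp.setIntegral_preimage_emb (measurableEmbedding_addLeft c) U (Metric.ball c R)
      rw [hpre] at h2
      exact h2
    rw [h1, h3]
  -- mean over the angle
  have hcircle : ∀ z : ℂ, 2 * Real.pi * U c ≤
      ∫ θ in (0 : ℝ)..(2 * Real.pi), U (c + Complex.exp (θ * Complex.I) * z) := by
    intro z
    have hpi : 0 < 2 * Real.pi := Real.two_pi_pos
    by_cases hz : z = 0
    · simp [hz]
    · have h1 := h ‖z‖ (norm_pos_iff.mpr hz)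
      rw [Real.circleAverage_eq_integral_add z.arg, smul_eq_mul, le_inv_mul_iff₀ hpi] at h1
      refine h1.trans (le_of_eq ?_)
      congr 1
      funext θ
      congr 1
      unfold circleMap
      congr 1
      have h2 : z = ‖z‖ * Complex.exp (z.arg * Complex.I) := (Complex.norm_mul_exp_arg_mul_I z).symm
      conv_rhs => rw [h2]
      rw [Complex.ofReal_add, add_mul, Complex.exp_add]
      ring
  have hcontF : Continuous (fun p : ℝ × ℂ => U (c + Complex.exp (p.1 * Complex.I) * p.2)) := by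
    fun_prop
  have hint : Integrable (Function.uncurry (fun (θ : ℝ) (z : ℂ) => U (c + Complex.exp (θ * Complex.I) * z)))
      ((volume.restrict (uIoc 0 (2 * Real.pi))).prod (volume.restrict (Metric.ball (0 : ℂ) R))) := by
    rw [Measure.prod_restrict]
    have hK : IsCompact (Icc (0 : ℝ) (2 * Real.pi) ×ˢ Metric.closedBall (0 : ℂ) R) :=
      isCompact_Icc.prod (isCompact_closedBall _ _)
    have := (hcontF.continuousOn (s := Icc (0 : ℝ) (2 * Real.pi) ×ˢ Metric.closedBall (0 : ℂ) R)).integrableOn_compact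
      (μ := (volume : Measure ℝ).prod (volume : Measure ℂ)) hK
    refine this.mono_set ?_
    apply Set.prod_mono
    · rw [uIoc_of_le Real.two_pi_pos.le]; exact Ioc_subset_Icc_self
    · exact Metric.ball_subset_closedBall
  have hswap := intervalIntegral_integral_swap hint
  have hlhs : ∫ θ in (0 : ℝ)..(2 * Real.pi), ∫ z in Metric.ball (0 : ℂ) R,
      U (c + Complex.exp (θ * Complex.I) * z) = 2 * Real.pi * ∫ z in Metric.ball c R, U z := by
    simp_rw [hrot]
    rw [intervalIntegral.integral_const, sub_zero, smul_eq_mul]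
  rw [hlhs] at hswap
  have hge : ∫ z in Metric.ball (0 : ℂ) R, 2 * Real.pi * U c ≤ ∫ z in Metric.ball (0 : ℂ) R,
      ∫ θ in (0 : ℝ)..(2 * Real.pi), U (c + Complex.exp (θ * Complex.I) * z) := by
    apply setIntegral_mono
    · apply integrableOn_const
      · exact measure_ball_lt_top.ne
      · exact enorm_ne_top
    · have := hint.integral_prod_right
      refine (this.congr ?_)
      filter_upwards with z
      rw [intervalIntegral.intervalIntegral_eq_integral_uIoc]
      simp [Real.two_pi_pos.le]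
    · exact hcircle
  have hvol : (volume : Measure ℂ).real (Metric.ball (0 : ℂ) R) = Real.pi * R ^ 2 := by
    rw [Measure.real, Complex.volume_ball]
    simp [ENNReal.toReal_mul, hR.le]
    ring
  rw [setIntegral_const, hvol, smul_eq_mul, ← hswap] at hge
  have hpi : 0 < 2 * Real.pi := Real.two_pi_pos
  have : 2 * Real.pi * (Real.pi * R ^ 2 * U c) ≤ 2 * Real.pi * ∫ z in Metric.ball c R, U z := by
    linarith
  exact le_of_mul_le_mul_left this hpi

/-- area sub-mean-value property of log(|h|+δ) for entire h -/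
theorem tiLog_add_le_area {h : ℂ → ℂ} (hh : Differentiable ℂ h) {δ : ℝ} (hδ : 0 < δ) (c : ℂ)
    {R : ℝ} (hR : 0 < R) :
    Real.pi * R ^ 2 * Real.log (‖h c‖ + δ) ≤ ∫ z in Metric.ball c R, Real.log (‖h z‖ + δ) := by
  set k : ℂ → ℂ := fun z => (δ : ℂ)⁻¹ * h z with hk
  have hkd : Differentiable ℂ k := hh.const_mul _
  have heq : ∀ z, Real.log (‖h z‖ + δ) = Real.log δ + Real.log (‖k z‖ + 1) := by
    intro z
    have h1 : ‖k z‖ = δ⁻¹ * ‖h z‖ := by
      rw [hk]
      simp only
      rw [norm_mul, norm_inv, Complex.norm_real, Real.norm_eq_abs, abs_of_pos hδ]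
    rw [← Real.log_mul hδ.ne' (by positivity), h1]
    congr 1
    field_simp
  have hkc : Continuous (fun z => Real.log (‖k z‖ + 1)) := by
    have hc : Continuous (fun z => ‖k z‖ + 1) := hkd.continuous.norm.add continuous_const
    exact hc.log (fun z => by positivity)
  have hUc : Continuous (fun z => Real.log (‖h z‖ + δ)) := by
    have hc : Continuous (fun z => ‖h z‖ + δ) := hh.continuous.norm.add continuous_const
    exact hc.log (fun z => by positivity)
  apply tiArea_of_circle hUc c _ hR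
  intro r hr
  have h1 := tiCircle_one hkd c hr
  have h2 : Real.circleAverage (fun z => Real.log (‖h z‖ + δ)) c r =
      Real.log δ + Real.circleAverage (fun z => Real.log (‖k z‖ + 1)) c r := by
    have h3 : (fun z => Real.log (‖h z‖ + δ)) = (fun _ => Real.log δ) + (fun z => Real.log (‖k z‖ + 1)) := by
      funext z; exact heq z
    rw [h3, Real.circleAverage_add (circleIntegrable_const _ _ _)
      (hkc.continuousOn.circleIntegrable'), Real.circleAverage_const]
  rw [h2, heq c]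
  linarith


lemma submean (g : ℂ → ℂ) (hg : Differentiable ℂ g) (z : ℂ) (ρ : ℝ) (hρ : 0 < ρ) :
    ENNReal.ofReal (Real.log ‖g z‖ * (Real.pi * ρ ^ 2)) ≤
      ∫⁻ s in Ioo (z.re - ρ) (z.re + ρ), ∫⁻ t in Ioo (z.im - ρ) (z.im + ρ),
        ENNReal.ofReal (Real.log ‖g ((s : ℂ) + (t : ℂ) * I)‖) := by
  by_cases h0 : g z = 0
  · rw [h0, norm_zero, Real.log_zero, zero_mul, ENNReal.ofReal_zero]
    exact bot_le
  have hgn : 0 < ‖g z‖ := norm_pos_iff.mpr h0
  have hmeas : Measurable (fun w : ℂ => ENNReal.ofReal (Real.log ‖g w‖)) := by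
    have := hg.continuous.measurable
    fun_prop
  -- step 1: the bound by the integral over the ball
  have h1 : ENNReal.ofReal (Real.log ‖g z‖ * (Real.pi * ρ ^ 2)) ≤
      ∫⁻ w in Metric.ball z ρ, ENNReal.ofReal (Real.log ‖g w‖) := by
    have hδ : ∀ δ : ℝ, 0 < δ → ENNReal.ofReal (Real.log ‖g z‖ * (Real.pi * ρ ^ 2)) ≤
        (∫⁻ w in Metric.ball z ρ, ENNReal.ofReal (Real.log ‖g w‖)) +
          ENNReal.ofReal δ * volume (Metric.ball z ρ) := by
      intro δ hδ
      have ha := tiLog_add_le_area hg hδ z hρ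
      have hlog : Real.log ‖g z‖ ≤ Real.log (‖g z‖ + δ) :=
        Real.log_le_log hgn (by linarith)
      have hp : 0 ≤ Real.pi * ρ ^ 2 := by positivity
      have hb : Real.log ‖g z‖ * (Real.pi * ρ ^ 2) ≤
          ∫ w in Metric.ball z ρ, Real.log (‖g w‖ + δ) := by
        calc _ ≤ Real.log (‖g z‖ + δ) * (Real.pi * ρ ^ 2) :=
              mul_le_mul_of_nonneg_right hlog hp
          _ = Real.pi * ρ ^ 2 * Real.log (‖g z‖ + δ) := by ring
          _ ≤ _ := ha
      calc ENNReal.ofReal (Real.log ‖g z‖ * (Real.pi * ρ ^ 2))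
          ≤ ENNReal.ofReal (∫ w in Metric.ball z ρ, Real.log (‖g w‖ + δ)) :=
            ENNReal.ofReal_le_ofReal hb
        _ ≤ ∫⁻ w in Metric.ball z ρ, ENNReal.ofReal (Real.log (‖g w‖ + δ)) := by
            by_cases hf : IntegrableOn (fun w => Real.log (‖g w‖ + δ)) (Metric.ball z ρ)
            · rw [integral_eq_lintegral_pos_part_sub_lintegral_neg_part hf]
              exact (ENNReal.ofReal_le_ofReal (sub_le_self _ ENNReal.toReal_nonneg)).trans
                ENNReal.ofReal_toReal_le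
            · rw [integral_undef hf, ENNReal.ofReal_zero]
              exact bot_le
        _ ≤ ∫⁻ w in Metric.ball z ρ, (ENNReal.ofReal (Real.log ‖g w‖) + ENNReal.ofReal δ) := by
            apply lintegral_mono
            intro w
            show ENNReal.ofReal (Real.log (‖g w‖ + δ)) ≤
              ENNReal.ofReal (Real.log ‖g w‖) + ENNReal.ofReal δ
            by_cases h1 : 1 ≤ ‖g w‖
            · rw [← ENNReal.ofReal_add (Real.log_nonneg h1) hδ.le]
              apply ENNReal.ofReal_le_ofReal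
              have h2 : ‖g w‖ + δ ≤ ‖g w‖ * (1 + δ) := by nlinarith
              have h3 : Real.log (‖g w‖ + δ) ≤ Real.log (‖g w‖ * (1 + δ)) :=
                Real.log_le_log (by linarith) h2
              rw [Real.log_mul (by linarith) (by linarith)] at h3
              have h4 := Real.log_le_sub_one_of_pos (x := 1 + δ) (by linarith)
              linarith
            · push Not at h1
              refine le_trans ?_ (le_add_self)
              apply ENNReal.ofReal_le_ofReal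
              have h5 : 0 ≤ ‖g w‖ := norm_nonneg _
              have h3 : Real.log (‖g w‖ + δ) ≤ Real.log (1 + δ) :=
                Real.log_le_log (by linarith) (by linarith)
              have h4 := Real.log_le_sub_one_of_pos (x := 1 + δ) (by linarith)
              linarith
        _ = _ := by
            rw [lintegral_add_left hmeas, lintegral_const, Measure.restrict_apply_univ]
    have hlim : Tendsto (fun δ : ℝ => (∫⁻ w in Metric.ball z ρ, ENNReal.ofReal (Real.log ‖g w‖)) +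
          ENNReal.ofReal δ * volume (Metric.ball z ρ)) (𝓝[>] 0)
        (𝓝 ((∫⁻ w in Metric.ball z ρ, ENNReal.ofReal (Real.log ‖g w‖)) +
          ENNReal.ofReal 0 * volume (Metric.ball z ρ))) := by
      apply tendsto_nhdsWithin_of_tendsto_nhds
      apply Tendsto.const_add
      apply ENNReal.Tendsto.mul_const
      · exact ENNReal.tendsto_ofReal tendsto_id
      · right; exact measure_ball_lt_top.ne
    have := ge_of_tendsto hlim (by
      filter_upwards [self_mem_nhdsWithin] with δ h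
      exact hδ δ h)
    rw [ENNReal.ofReal_zero, zero_mul, add_zero] at this
    exact this
  refine h1.trans ?_
  -- step 2: compare the ball with the square
  have hmp := Complex.volume_preserving_equiv_real_prod.symm
  have h2 : ∫⁻ w in Metric.ball z ρ, ENNReal.ofReal (Real.log ‖g w‖) ≤
      ∫⁻ w in Complex.measurableEquivRealProd ⁻¹' (Ioo (z.re - ρ) (z.re + ρ) ×ˢ
        Ioo (z.im - ρ) (z.im + ρ)), ENNReal.ofReal (Real.log ‖g w‖) := by
    apply lintegral_mono_set
    intro w hw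
    rw [Metric.mem_ball, dist_eq_norm] at hw
    have hr := (Complex.abs_re_le_norm (w - z)).trans_lt hw
    have hi := (Complex.abs_im_le_norm (w - z)).trans_lt hw
    rw [Complex.sub_re, abs_lt] at hr
    rw [Complex.sub_im, abs_lt] at hi
    refine ⟨⟨?_, ?_⟩, ⟨?_, ?_⟩⟩
    · show z.re - ρ < w.re; linarith
    · show w.re < z.re + ρ; linarith
    · show z.im - ρ < w.im; linarith
    · show w.im < z.im + ρ; linarith
  refine h2.trans (le_of_eq ?_)
  have h3 : ∀ w : ℂ, ENNReal.ofReal (Real.log ‖g w‖) =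
      (fun p : ℝ × ℝ => ENNReal.ofReal (Real.log ‖g ((p.1 : ℂ) + (p.2 : ℂ) * I)‖))
        (Complex.measurableEquivRealProd w) := by
    intro w
    show _ = ENNReal.ofReal (Real.log ‖g ((w.re : ℂ) + (w.im : ℂ) * I)‖)
    rw [Complex.re_add_im]
  have h3' : (fun w : ℂ => ENNReal.ofReal (Real.log ‖g w‖)) = fun w =>
      (fun p : ℝ × ℝ => ENNReal.ofReal (Real.log ‖g ((p.1 : ℂ) + (p.2 : ℂ) * I)‖))
        (Complex.measurableEquivRealProd w) := funext h3
  rw [h3']
  have h4 := Complex.volume_preserving_equiv_real_prod.setLIntegral_comp_preimage_emb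
    Complex.measurableEquivRealProd.measurableEmbedding
    (fun p : ℝ × ℝ => ENNReal.ofReal (Real.log ‖g ((p.1 : ℂ) + (p.2 : ℂ) * I)‖))
    (Ioo (z.re - ρ) (z.re + ρ) ×ˢ Ioo (z.im - ρ) (z.im + ρ))
  rw [h4, Measure.volume_eq_prod, ← Measure.prod_restrict, lintegral_prod]
  have hc : Continuous (fun p : ℝ × ℝ => g ((p.1 : ℂ) + (p.2 : ℂ) * I)) :=
    hg.continuous.comp (by fun_prop)
  have hcm := hc.measurable
  exact (ENNReal.measurable_ofReal.comp (Real.measurable_log.comp hcm.norm)).aemeasurable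

end

end Pool.Agent.Helper311.TI.J6643

namespace Pool.Agent.Helper311.TI

alias submean := J6643.submean

end Pool.Agent.Helper311.TI
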