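import Mathlib
import Pool.Agent.Helper311.TI.Defs

set_option autoImplicit false

open MeasureTheory Filter Topology Complex Set

namespace Pool.Agent.Helper311.TI.J6646

noncomputable section

lemma wirt_eps (y y' : ℝ → ℝ) (a b δ L ε : ℝ) (hab : a ≤ b)
    (hy : ∀ x ∈ Icc a b, HasDerivAt y (y' x) x) (hy' : ContinuousOn y' (Icc a b))
    (ha : y a ≤ δ) (hb : y b ≤ δ) (hL : 0 < L) (hε : 0 < ε)
    (hcomp : ∀ p q : ℝ, a ≤ p → p < q → q ≤ b → (∀ x ∈ Ioo p q, δ < y x) → q - p ≤ L) :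
    (Real.pi / (L + 2 * ε)) ^ 2 * ∫ x in a..b, (max (y x - δ) 0) ^ 2
      ≤ ∫ x in a..b, (y' x) ^ 2 := by
  obtain ⟨κ, hκ⟩ : ∃ κ, κ = Real.pi / (L + 2 * ε) := ⟨_, rfl⟩
  rw [← hκ]
  have hκ0 : 0 < κ := by rw [hκ]; exact div_pos Real.pi_pos (by linarith)
  have hκ1 : κ * (L + 2 * ε) = Real.pi := by
    rw [hκ, div_mul_cancel₀ _ (by linarith : L + 2 * ε ≠ 0)]
  obtain ⟨A, hAdef⟩ : ∃ A : ℝ → Set ℝ, A = fun x => {t | a ≤ t ∧ t ≤ x ∧ y t ≤ δ} := ⟨_, rfl⟩
  have hAm : ∀ x t, t ∈ A x ↔ (a ≤ t ∧ t ≤ x ∧ y t ≤ δ) := by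
    intro x t; rw [hAdef]; rfl
  obtain ⟨l, hl⟩ : ∃ l : ℝ → ℝ, l = fun x => sSup (A x) := ⟨_, rfl⟩
  have hl' : ∀ x, l x = sSup (A x) := fun x => by rw [hl]
  have hA : ∀ x, a ≤ x → (A x).Nonempty := fun x hx => ⟨a, (hAm x a).2 ⟨le_rfl, hx, ha⟩⟩
  have hAb : ∀ x, BddAbove (A x) := fun x => ⟨x, fun t ht => ((hAm x t).1 ht).2.1⟩
  have hl1 : ∀ x, a ≤ x → l x ≤ x := by
    intro x hx
    rw [hl']
    exact csSup_le (hA x hx) fun t ht => ((hAm x t).1 ht).2.1
  have hl0 : ∀ x, a ≤ x → a ≤ l x := by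
    intro x hx
    rw [hl']
    exact le_csSup (hAb x) ((hAm x a).2 ⟨le_rfl, hx, ha⟩)
  have hl2 : ∀ x, a ≤ x → x ≤ b → x - l x ≤ L := by
    intro x hx hxb
    rcases (hl1 x hx).lt_or_eq with h | h
    · refine hcomp (l x) x (hl0 x hx) h hxb ?_
      intro t ht
      by_contra hcon
      push Not at hcon
      have : t ≤ l x := by
        rw [hl']
        exact le_csSup (hAb x) ((hAm x t).2 ⟨(hl0 x hx).trans ht.1.le, ht.2.le, hcon⟩)
      linarith [ht.1]
    · rw [h]; linarith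
  obtain ⟨θ, hθd⟩ : ∃ θ : ℝ → ℝ, θ = fun x => κ * (x - l x + ε) := ⟨_, rfl⟩
  have hθ' : ∀ x, θ x = κ * (x - l x + ε) := fun x => by rw [hθd]
  have hκε : 0 < κ * ε := mul_pos hκ0 hε
  have hθ : ∀ x ∈ Icc a b, θ x ∈ Icc (κ * ε) (Real.pi - κ * ε) := by
    intro x hx
    have h1 := hl1 x hx.1
    have h2 := hl2 x hx.1 hx.2
    rw [hθ']
    constructor
    · exact mul_le_mul_of_nonneg_left (by linarith) hκ0.le
    · have e1 : κ * (x - l x + ε) ≤ κ * (L + ε) := mul_le_mul_of_nonneg_left (by linarith) hκ0.le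
      have e2 : κ * (L + ε) = Real.pi - κ * ε := by rw [← hκ1]; ring
      linarith
  have hsin : ∀ t ∈ Icc (κ * ε) (Real.pi - κ * ε), 0 < Real.sin t := fun t ht =>
    Real.sin_pos_of_pos_of_lt_pi (lt_of_lt_of_le hκε ht.1) (by linarith [ht.2])
  obtain ⟨C, hC⟩ : ∃ C, ∀ t ∈ Icc (κ * ε) (Real.pi - κ * ε), ‖Real.cos t / Real.sin t‖ ≤ C :=
    isCompact_Icc.exists_bound_of_continuousOn
      (Real.continuous_cos.continuousOn.div Real.continuous_sin.continuousOn
        (fun t ht => (hsin t ht).ne'))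
  obtain ⟨W, hWd⟩ : ∃ W : ℝ → ℝ, W = fun x => (max (y x - δ) 0) ^ 2 *
      (κ * (Real.cos (θ x) / Real.sin (θ x))) := ⟨_, rfl⟩
  have hW' : ∀ x, W x = (max (y x - δ) 0) ^ 2 *
      (κ * (Real.cos (θ x) / Real.sin (θ x))) := fun x => by rw [hWd]
  obtain ⟨g, hgd⟩ : ∃ g : ℝ → ℝ, g = fun x => if δ < y x then
      2 * (y x - δ) * y' x * (κ * (Real.cos (θ x) / Real.sin (θ x)))
        - (y x - δ) ^ 2 * (κ ^ 2 / (Real.sin (θ x)) ^ 2) else 0 := ⟨_, rfl⟩
  have hg' : ∀ x, g x = if δ < y x then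
      2 * (y x - δ) * y' x * (κ * (Real.cos (θ x) / Real.sin (θ x)))
        - (y x - δ) ^ 2 * (κ ^ 2 / (Real.sin (θ x)) ^ 2) else 0 := fun x => by rw [hgd]
  have hder : ∀ x ∈ Icc a b, HasDerivWithinAt W (g x) (Icc a b) x := by
    intro x hx
    by_cases hd : δ < y x
    · apply HasDerivAt.hasDerivWithinAt
      have hxa : a < x := lt_of_le_of_ne hx.1 (fun h => by rw [← h] at hd; linarith)
      have hxb : x < b := lt_of_le_of_ne hx.2 (fun h => by rw [h] at hd; linarith)
      have hev : ∀ᶠ x' in 𝓝 x, δ < y x' :=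
        (hy x hx).continuousAt.eventually (lt_mem_nhds hd)
      obtain ⟨η, hη, hball⟩ := Metric.eventually_nhds_iff.1 hev
      have hlc : ∀ x', |x' - x| < η → l x' = l x := by
        intro x' hx'
        have hAA : A x' = A x := by
          ext t
          rw [hAm, hAm]
          rw [abs_lt] at hx'
          constructor
          · rintro ⟨h1, h2, h3⟩
            refine ⟨h1, ?_, h3⟩
            by_contra hcon
            push Not at hcon
            have : δ < y t := by
              apply hball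
              rw [Real.dist_eq, abs_lt]
              constructor <;> linarith [hx'.1, hx'.2]
            linarith
          · rintro ⟨h1, h2, h3⟩
            refine ⟨h1, ?_, h3⟩
            by_contra hcon
            push Not at hcon
            have : δ < y t := by
              apply hball
              rw [Real.dist_eq, abs_lt]
              constructor <;> linarith [hx'.1, hx'.2]
            linarith
        rw [hl', hl', hAA]
      have hs := hsin _ (hθ x hx)
      have hθx : θ x = κ * (x - l x + ε) := hθ' x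
      have d1 : HasDerivAt (fun x' => κ * (x' - l x + ε)) κ x := by
        have := (((hasDerivAt_id x).sub_const (l x)).add_const ε).const_mul κ
        simpa using this
      have d2 : HasDerivAt (fun x' => Real.cos (κ * (x' - l x + ε)))
          (-Real.sin (κ * (x - l x + ε)) * κ) x := (Real.hasDerivAt_cos _).comp x d1
      have d3 : HasDerivAt (fun x' => Real.sin (κ * (x' - l x + ε)))
          (Real.cos (κ * (x - l x + ε)) * κ) x := (Real.hasDerivAt_sin _).comp x d1
      rw [hθx] at hs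
      have d4 := d2.div d3 hs.ne'
      have d5 := d4.const_mul κ
      have d6 := ((hy x hx).sub_const δ).pow 2
      have d7 := d6.mul d5
      have hgx : g x = 2 * (y x - δ) * y' x *
          (κ * (Real.cos (κ * (x - l x + ε)) / Real.sin (κ * (x - l x + ε))))
            - (y x - δ) ^ 2 * (κ ^ 2 / (Real.sin (κ * (x - l x + ε))) ^ 2) := by
        rw [hg', if_pos hd, hθx]
      refine HasDerivAt.congr_of_eventuallyEq (f := fun x' => (y x' - δ) ^ 2 *
        (κ * (Real.cos (κ * (x' - l x + ε)) / Real.sin (κ * (x' - l x + ε))))) ?_ ?_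
      · refine HasDerivAt.congr_deriv d7 ?_
        rw [hgx]
        have hsq := Real.sin_sq_add_cos_sq (κ * (x - l x + ε))
        have e3 : (-Real.sin (κ * (x - l x + ε)) * κ) * Real.sin (κ * (x - l x + ε))
            - Real.cos (κ * (x - l x + ε)) * (Real.cos (κ * (x - l x + ε)) * κ) = -κ := by
          have : (-Real.sin (κ * (x - l x + ε)) * κ) * Real.sin (κ * (x - l x + ε))
            - Real.cos (κ * (x - l x + ε)) * (Real.cos (κ * (x - l x + ε)) * κ)
            = -κ * (Real.sin (κ * (x - l x + ε)) ^ 2 + Real.cos (κ * (x - l x + ε)) ^ 2) := by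
            ring
          rw [this, hsq]; ring
        rw [e3]
        simp only [Pi.pow_apply, Pi.div_apply]
        push_cast
        ring
      · filter_upwards [hev, Metric.ball_mem_nhds x hη] with x' h1 h2
        rw [Metric.mem_ball, Real.dist_eq] at h2
        rw [hW', hθ', hlc x' h2, max_eq_left (by linarith)]
    · have hg0 : g x = 0 := by rw [hg', if_neg hd]
      push Not at hd
      rw [hg0]
      have hW0 : W x = 0 := by
        rw [hW', max_eq_right (by linarith)]; simp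
      have hG : HasDerivAt (fun x' => κ * C * (y x' - y x) ^ 2) 0 x := by
        have := (((hy x hx).sub_const (y x)).pow 2).const_mul (κ * C)
        simpa using this
      have hGo := hG.isLittleO
      simp only [sub_self, smul_zero, sub_zero, ne_eq, OfNat.ofNat_ne_zero, not_false_eq_true,
        zero_pow, mul_zero] at hGo
      rw [hasDerivWithinAt_iff_isLittleO]
      simp only [smul_zero, sub_zero, hW0]
      refine Asymptotics.IsBigO.trans_isLittleO (g := fun x' => κ * C * (y x' - y x) ^ 2) ?_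
        (hGo.mono nhdsWithin_le_nhds)
      refine Asymptotics.IsBigO.of_bound 1 ?_
      filter_upwards [self_mem_nhdsWithin] with x' hx'
      rw [hW', one_mul]
      have hc := hC _ (hθ x' hx')
      have hC0 : 0 ≤ C := (norm_nonneg _).trans hc
      rw [norm_mul, norm_mul, Real.norm_of_nonneg (sq_nonneg _), Real.norm_of_nonneg hκ0.le,
        Real.norm_of_nonneg (mul_nonneg (mul_nonneg hκ0.le hC0) (sq_nonneg _))]
      have hz : (max (y x' - δ) 0) ^ 2 ≤ (y x' - y x) ^ 2 := by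
        rcases le_total (y x' - δ) 0 with h | h
        · rw [max_eq_right h, zero_pow two_ne_zero]; exact sq_nonneg _
        · rw [max_eq_left h]
          exact pow_le_pow_left₀ h (by linarith) 2
      calc (max (y x' - δ) 0) ^ 2 * (κ * ‖Real.cos (θ x') / Real.sin (θ x')‖)
          ≤ (y x' - y x) ^ 2 * (κ * C) := by
            exact mul_le_mul hz (mul_le_mul_of_nonneg_left hc hκ0.le)
              (mul_nonneg hκ0.le (norm_nonneg _)) (sq_nonneg _)
        _ = _ := by ring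
  have hWcont : ContinuousOn W (Icc a b) := fun x hx => (hder x hx).continuousWithinAt
  have hycont : ContinuousOn y (Icc a b) := fun x hx => (hy x hx).continuousAt.continuousWithinAt
  have hzc : ContinuousOn (fun x => (max (y x - δ) 0) ^ 2) (Icc a b) :=
    ((hycont.sub continuousOn_const).sup continuousOn_const).pow 2
  have hφc : ContinuousOn (fun x => (y' x) ^ 2 - κ ^ 2 * (max (y x - δ) 0) ^ 2) (Icc a b) :=
    (hy'.pow 2).sub (continuousOn_const.mul hzc)
  have key := intervalIntegral.sub_le_integral_of_hasDeriv_right_of_le (g := W) (g' := g)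
    (φ := fun x => (y' x) ^ 2 - κ ^ 2 * (max (y x - δ) 0) ^ 2) hab hWcont
    (fun x hx => (hder x ⟨hx.1.le, hx.2.le⟩).mono_of_mem_nhdsWithin
      (Icc_mem_nhdsGT_of_mem ⟨hx.1.le, hx.2⟩))
    hφc.integrableOn_Icc
    (by
      intro x hx
      rw [hg']
      split_ifs with hd
      · have hx' : x ∈ Icc a b := ⟨hx.1.le, hx.2.le⟩
        have hs := hsin _ (hθ x hx')
        have hsq := Real.sin_sq_add_cos_sq (θ x)
        have e1 : κ ^ 2 / (Real.sin (θ x)) ^ 2
            = κ ^ 2 * (1 + (Real.cos (θ x) / Real.sin (θ x)) ^ 2) := by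
          field_simp
          linarith
        rw [e1, max_eq_left (by linarith : 0 ≤ y x - δ)]
        nlinarith [sq_nonneg (y' x - (y x - δ) * (κ * (Real.cos (θ x) / Real.sin (θ x))))]
      · push Not at hd
        rw [max_eq_right (by linarith : y x - δ ≤ 0)]
        have := sq_nonneg (y' x)
        linarith)
  have hWa : W a = 0 := by rw [hW', max_eq_right (by linarith)]; simp
  have hWb : W b = 0 := by rw [hW', max_eq_right (by linarith)]; simp
  rw [hWa, hWb, intervalIntegral.integral_sub, intervalIntegral.integral_const_mul] at key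
  · linarith
  · exact (hy'.pow 2).intervalIntegrable_of_Icc hab
  · exact (continuousOn_const.mul hzc).intervalIntegrable_of_Icc hab

lemma wirt (y y' : ℝ → ℝ) (a b δ L : ℝ) (hab : a ≤ b)
    (hy : ∀ x ∈ Icc a b, HasDerivAt y (y' x) x) (hy' : ContinuousOn y' (Icc a b))
    (ha : y a ≤ δ) (hb : y b ≤ δ) (hL : 0 < L)
    (hcomp : ∀ p q : ℝ, a ≤ p → p < q → q ≤ b → (∀ x ∈ Ioo p q, δ < y x) → q - p ≤ L) :
    (Real.pi / L) ^ 2 * ∫ x in a..b, (max (y x - δ) 0) ^ 2 ≤ ∫ x in a..b, (y' x) ^ 2 := by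
  have ht : Tendsto (fun ε : ℝ => (Real.pi / (L + 2 * ε)) ^ 2 *
      ∫ x in a..b, (max (y x - δ) 0) ^ 2) (𝓝[>] 0)
      (𝓝 ((Real.pi / (L + 2 * 0)) ^ 2 * ∫ x in a..b, (max (y x - δ) 0) ^ 2)) := by
    apply Tendsto.mono_left _ nhdsWithin_le_nhds
    have : ContinuousAt (fun ε : ℝ => (Real.pi / (L + 2 * ε)) ^ 2 *
      ∫ x in a..b, (max (y x - δ) 0) ^ 2) 0 := by
      refine ContinuousAt.mul (ContinuousAt.pow (ContinuousAt.div continuousAt_const ?_ ?_) 2)
        continuousAt_const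
      · fun_prop
      · simp; exact hL.ne'
    exact this
  have := le_of_tendsto ht (b := ∫ x in a..b, (y' x) ^ 2) (by
    filter_upwards [self_mem_nhdsWithin] with ε hε
    exact wirt_eps y y' a b δ L ε hab hy hy' ha hb hL hε hcomp)
  simpa using this

end

end Pool.Agent.Helper311.TI.J6646

namespace Pool.Agent.Helper311.TI

alias wirt := J6646.wirt

end Pool.Agent.Helper311.TI

namespace Pool.Agent.Helper311.TI.J6647

noncomputable section

lemma sqrt_pi_le : √Real.pi ≤ 1.775 := by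
  rw [Real.sqrt_le_left (by norm_num)]
  have := Real.pi_lt_d2
  norm_num at this ⊢
  linarith

lemma cs_int (w : ℝ → ℝ) (hw : Continuous w) :
    (∫ θ in (-(Real.pi / 2))..(Real.pi / 2), w θ) ^ 2 ≤
      Real.pi * ∫ θ in (-(Real.pi / 2))..(Real.pi / 2), w θ ^ 2 := by
  have hpi := Real.pi_pos
  set S := ∫ θ in (-(Real.pi / 2))..(Real.pi / 2), w θ with hS
  set Q := ∫ θ in (-(Real.pi / 2))..(Real.pi / 2), w θ ^ 2 with hQ
  have h1 : 0 ≤ ∫ θ in (-(Real.pi / 2))..(Real.pi / 2), (w θ - S / Real.pi) ^ 2 :=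
    intervalIntegral.integral_nonneg (by linarith) fun θ _ => sq_nonneg _
  have hc1 : Continuous (fun θ => w θ ^ 2) := by fun_prop
  have hc2 : Continuous (fun θ => 2 * (S / Real.pi) * w θ) := by fun_prop
  have hc3 : Continuous (fun _ : ℝ => (S / Real.pi) ^ 2) := by fun_prop
  have hc4 : Continuous (fun θ => w θ ^ 2 - 2 * (S / Real.pi) * w θ) := by fun_prop
  have h2 : ∫ θ in (-(Real.pi / 2))..(Real.pi / 2), (w θ - S / Real.pi) ^ 2 = Q - S ^ 2 / Real.pi := by
    have h3 : (fun θ => (w θ - S / Real.pi) ^ 2) = fun θ => (w θ ^ 2 - 2 * (S / Real.pi) * w θ) + (S / Real.pi) ^ 2 := by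
      funext θ
      ring
    rw [h3, intervalIntegral.integral_add (hc4.intervalIntegrable _ _) (hc3.intervalIntegrable _ _),
      intervalIntegral.integral_sub (hc1.intervalIntegrable _ _) (hc2.intervalIntegrable _ _),
      intervalIntegral.integral_const_mul, intervalIntegral.integral_const, ← hS, ← hQ, smul_eq_mul]
    field_simp
    ring
  rw [h2, sub_nonneg, div_le_iff₀ hpi] at h1
  linarith

lemma mink (v : ℝ → ℝ) (hv : Continuous v) (hv0 : ∀ x, 0 ≤ v x) (δ : ℝ) (hδ : 0 ≤ δ) :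
    √(∫ θ in (-(Real.pi / 2))..(Real.pi / 2), v θ ^ 2) ≤
      √(∫ θ in (-(Real.pi / 2))..(Real.pi / 2), (max (v θ - δ) 0) ^ 2) + δ * √Real.pi := by
  have hpi := Real.pi_pos
  have hle : -(Real.pi / 2) ≤ Real.pi / 2 := by linarith
  set w : ℝ → ℝ := fun θ => max (v θ - δ) 0 with hw
  have hwc : Continuous w := by
    rw [hw]
    fun_prop
  have hw0 : ∀ θ, 0 ≤ w θ := fun θ => le_max_right _ _
  have hvw : ∀ θ, v θ ≤ w θ + δ := by
    intro θ
    have : v θ - δ ≤ w θ := le_max_left _ _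
    linarith
  set S := ∫ θ in (-(Real.pi / 2))..(Real.pi / 2), w θ with hS
  set Q := ∫ θ in (-(Real.pi / 2))..(Real.pi / 2), w θ ^ 2 with hQ
  have hQ0 : 0 ≤ Q := intervalIntegral.integral_nonneg hle fun θ _ => sq_nonneg _
  have hS0 : 0 ≤ S := intervalIntegral.integral_nonneg hle fun θ _ => hw0 θ
  have hcs := cs_int w hwc
  rw [← hS, ← hQ] at hcs
  have hSQ : S ≤ √Real.pi * √Q := by
    rw [← Real.sqrt_mul hpi.le]
    exact Real.le_sqrt_of_sq_le hcs
  have hc0 : Continuous (fun θ => v θ ^ 2) := by fun_prop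
  have hc1 : Continuous (fun θ => w θ ^ 2) := by fun_prop
  have hc2 : Continuous (fun θ => 2 * δ * w θ) := by fun_prop
  have hc3 : Continuous (fun _ : ℝ => δ ^ 2) := by fun_prop
  have hc4 : Continuous (fun θ => w θ ^ 2 + 2 * δ * w θ) := by fun_prop
  have hc5 : Continuous (fun θ => w θ ^ 2 + 2 * δ * w θ + δ ^ 2) := by fun_prop
  have h1 : ∫ θ in (-(Real.pi / 2))..(Real.pi / 2), v θ ^ 2 ≤
      ∫ θ in (-(Real.pi / 2))..(Real.pi / 2), (w θ ^ 2 + 2 * δ * w θ + δ ^ 2) := by
    apply intervalIntegral.integral_mono_on hle (hc0.intervalIntegrable _ _) (hc5.intervalIntegrable _ _)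
    intro θ _
    have h2 := hvw θ
    have h3 := hv0 θ
    nlinarith
  have h2 : ∫ θ in (-(Real.pi / 2))..(Real.pi / 2), (w θ ^ 2 + 2 * δ * w θ + δ ^ 2) =
      Q + 2 * δ * S + δ ^ 2 * Real.pi := by
    rw [intervalIntegral.integral_add (hc4.intervalIntegrable _ _) (hc3.intervalIntegrable _ _),
      intervalIntegral.integral_add (hc1.intervalIntegrable _ _) (hc2.intervalIntegrable _ _),
      intervalIntegral.integral_const_mul, intervalIntegral.integral_const, ← hS, ← hQ, smul_eq_mul]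
    ring
  rw [h2] at h1
  rw [Real.sqrt_le_left (by positivity)]
  have h3 : √Q ^ 2 = Q := Real.sq_sqrt hQ0
  have h4 : √Real.pi ^ 2 = Real.pi := Real.sq_sqrt hpi.le
  have h5 : 2 * δ * S ≤ 2 * δ * (√Real.pi * √Q) := mul_le_mul_of_nonneg_left hSQ (by positivity)
  calc ∫ θ in (-(Real.pi / 2))..(Real.pi / 2), v θ ^ 2 ≤ Q + 2 * δ * S + δ ^ 2 * Real.pi := h1
    _ ≤ Q + 2 * δ * (√Real.pi * √Q) + δ ^ 2 * Real.pi := by linarith
    _ = √Q ^ 2 + 2 * δ * (√Real.pi * √Q) + δ ^ 2 * √Real.pi ^ 2 := by rw [h3, h4]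
    _ = (√Q + δ * √Real.pi) ^ 2 := by ring

lemma num1 (η ε x : ℝ) (hη0 : 0 ≤ η) (hη1 : η ≤ 1) (hε : 0 ≤ ε) (hx0 : 0 ≤ x) (hx1 : x < 1 / 2)
    (hD : 0 < Real.pi - η + ε) :
    4 + η - 16 * ε - 10 * x ≤ 4 * (1 - √Real.pi * x) * Real.pi / (Real.pi - η + ε) := by
  have hpi := Real.pi_pos
  have hp1 := Real.pi_gt_d2
  have hp2 := Real.pi_lt_d2
  norm_num at hp1 hp2
  have hsp := sqrt_pi_le
  have hsp0 : 0 ≤ √Real.pi := Real.sqrt_nonneg _
  set κ := √Real.pi * x with hκ
  have hκ0 : 0 ≤ κ := by positivity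
  have hκx : κ ≤ 1.775 * x := mul_le_mul_of_nonneg_right hsp hx0
  have hκ1 : κ < 1 := by norm_num at hκx; linarith
  rw [le_div_iff₀ hD]
  by_cases hs : ε ≤ η
  · set s := η - ε with hs'
    have hs0 : 0 ≤ s := by linarith
    have hs1 : s ≤ 1 := by linarith
    have hDs : Real.pi - η + ε = Real.pi - s := by rw [hs']; ring
    have hT : 4 + η - 16 * ε - 10 * x ≤ 4 + s - 10 * x := by linarith
    have hM : 4 + s - 10 * x ≤ 4 * (1 - κ) * (1 + s / Real.pi) := by
      have h1 : s / Real.pi ≤ 0.32 := by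
        rw [div_le_iff₀ hpi]
        norm_num
        nlinarith
      have h2 : s ≤ 4 * (s / Real.pi) := by
        have : 4 * (s / Real.pi) = s * (4 / Real.pi) := by ring
        rw [this]
        have h3 : 1 ≤ 4 / Real.pi := by
          rw [le_div_iff₀ hpi]
          linarith
        nlinarith
      have h4 : 0 ≤ s / Real.pi := by positivity
      have h5 : κ * (1 + s / Real.pi) ≤ 1.775 * x * 1.32 := by
        apply mul_le_mul hκx _ (by positivity) (by positivity)
        norm_num at h1 ⊢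
        linarith
      norm_num at h5
      nlinarith
    have hMD : 4 * (1 - κ) * (1 + s / Real.pi) * (Real.pi - s) ≤ 4 * (1 - κ) * Real.pi := by
      have h1 : (1 + s / Real.pi) * (Real.pi - s) = Real.pi - s ^ 2 / Real.pi := by
        field_simp
        ring
      have h2 : 0 ≤ s ^ 2 / Real.pi := by positivity
      have h3 : 0 ≤ 4 * (1 - κ) := by linarith
      calc 4 * (1 - κ) * (1 + s / Real.pi) * (Real.pi - s) = 4 * (1 - κ) * ((1 + s / Real.pi) * (Real.pi - s)) := by ring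
        _ = 4 * (1 - κ) * (Real.pi - s ^ 2 / Real.pi) := by rw [h1]
        _ ≤ 4 * (1 - κ) * Real.pi := by
            apply mul_le_mul_of_nonneg_left _ h3
            linarith
    rw [hDs] at hD ⊢
    exact (mul_le_mul_of_nonneg_right (hT.trans hM) hD.le).trans hMD
  · push Not at hs
    set t := ε - η with ht
    have ht0 : 0 < t := by linarith
    have hDt : Real.pi - η + ε = Real.pi + t := by rw [ht]; ring
    have hT : 4 + η - 16 * ε - 10 * x ≤ 4 - 16 * t - 10 * x := by linarith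
    rw [hDt] at hD ⊢
    refine (mul_le_mul_of_nonneg_right hT hD.le).trans ?_
    norm_num at hκx
    have h1 : 0 ≤ t * x := by positivity
    have h2 : 0 ≤ t ^ 2 := sq_nonneg t
    have h3 : (4 : ℝ) * κ ≤ 10 * x := by linarith
    have h4 : 4 * κ * Real.pi ≤ 10 * x * Real.pi := mul_le_mul_of_nonneg_right h3 hpi.le
    nlinarith

lemma two_wirt (v v' u u' : ℝ → ℝ) (η ε δ : ℝ) (hη0 : 0 ≤ η) (hη1 : η ≤ 1) (hε : 0 ≤ ε)
    (hδ : 0 ≤ δ) (hv : ∀ x, HasDerivAt v (v' x) x) (hv' : Continuous v') (hv0 : ∀ x, 0 ≤ v x)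
    (hu : ∀ x, HasDerivAt u (u' x) x) (hu' : Continuous u') (hu0 : ∀ x, 0 ≤ u x)
    (hve : v (Real.pi / 2) = 0 ∧ v (-(Real.pi / 2)) = 0)
    (hue : u (Real.pi / 2) = 0 ∧ u (-(Real.pi / 2)) = 0)
    (hzone : ∀ θ : ℝ, |θ| ≤ Real.pi / 2 → Real.pi / 2 - η ≤ |θ| → v θ ≤ δ)
    (hov : volume {θ : ℝ | |θ| ≤ Real.pi / 2 ∧ 0 < v θ ∧ 0 < u θ} ≤ ENNReal.ofReal ε)
    (hIv : 0 < ∫ θ in (-(Real.pi / 2))..(Real.pi / 2), v θ ^ 2)
    (hIu : 0 < ∫ θ in (-(Real.pi / 2))..(Real.pi / 2), u θ ^ 2) :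
    4 + η - 16 * ε - 10 * (δ / √(∫ θ in (-(Real.pi / 2))..(Real.pi / 2), v θ ^ 2)) ≤
      √((∫ θ in (-(Real.pi / 2))..(Real.pi / 2), v' θ ^ 2) /
        ∫ θ in (-(Real.pi / 2))..(Real.pi / 2), v θ ^ 2) +
      √((∫ θ in (-(Real.pi / 2))..(Real.pi / 2), u' θ ^ 2) /
        ∫ θ in (-(Real.pi / 2))..(Real.pi / 2), u θ ^ 2) := by
  have hpi := Real.pi_pos
  have hp1 := Real.pi_gt_d2
  have hp2 := Real.pi_lt_d2
  norm_num at hp1 hp2
  have hle : -(Real.pi / 2) ≤ Real.pi / 2 := by linarith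
  have hvc : Continuous v := continuous_iff_continuousAt.mpr fun x => (hv x).continuousAt
  have huc : Continuous u := continuous_iff_continuousAt.mpr fun x => (hu x).continuousAt
  have hmk := mink v hvc hv0 δ hδ
  set Iv := ∫ θ in (-(Real.pi / 2))..(Real.pi / 2), v θ ^ 2 with hIvdef
  set Jv := ∫ θ in (-(Real.pi / 2))..(Real.pi / 2), v' θ ^ 2 with hJvdef
  set Iu := ∫ θ in (-(Real.pi / 2))..(Real.pi / 2), u θ ^ 2 with hIudef
  set Ju := ∫ θ in (-(Real.pi / 2))..(Real.pi / 2), u' θ ^ 2 with hJudef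
  set W := ∫ θ in (-(Real.pi / 2))..(Real.pi / 2), (max (v θ - δ) 0) ^ 2 with hWdef
  have hsIv : 0 < √Iv := Real.sqrt_pos.mpr hIv
  set x := δ / √Iv with hx
  have hx0 : 0 ≤ x := by positivity
  have hR1 : 0 ≤ √(Jv / Iv) := Real.sqrt_nonneg _
  have hR2 : 0 ≤ √(Ju / Iu) := Real.sqrt_nonneg _
  by_cases hx1 : x < 1 / 2
  swap
  · push Not at hx1
    linarith
  have hsp := sqrt_pi_le
  norm_num at hsp
  have hsp0 : 0 ≤ √Real.pi := Real.sqrt_nonneg _
  have hκx : √Real.pi * x ≤ 71 / 40 * x := mul_le_mul_of_nonneg_right hsp hx0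
  have hκ0 : 0 ≤ √Real.pi * x := by positivity
  have hκ1 : √Real.pi * x < 1 := by linarith
  -- the set where v > δ
  set Ev : Set ℝ := {θ : ℝ | |θ| ≤ Real.pi / 2 ∧ δ < v θ} with hEv
  have hEvsub : Ev ⊆ Icc (-(Real.pi / 2)) (Real.pi / 2) := fun θ hθ => abs_le.mp hθ.1
  have hEvfin : volume Ev ≠ ⊤ := ((measure_mono hEvsub).trans_lt (by
    rw [Real.volume_Icc]
    exact ENNReal.ofReal_lt_top)).ne
  set a := (volume Ev).toReal with ha
  have ha0 : 0 ≤ a := ENNReal.toReal_nonneg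
  -- Wirtinger for v
  have hV : ∀ L : ℝ, 0 < L → a ≤ L → (1 - √Real.pi * x) * (Real.pi / L) ≤ √(Jv / Iv) := by
    intro L hL haL
    have h1 := wirt v v' (-(Real.pi / 2)) (Real.pi / 2) δ L hle (fun y _ => hv y) hv'.continuousOn
      (by rw [hve.2]; exact hδ) (by rw [hve.1]; exact hδ) hL (by
        intro p q hp hpq hq hpos
        refine le_trans ?_ haL
        have hsub : Ioo p q ⊆ Ev := by
          intro y hy
          exact ⟨abs_le.mpr ⟨by linarith [hy.1], by linarith [hy.2]⟩, hpos y hy⟩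
        have h2 := measure_mono (μ := volume) hsub
        rw [Real.volume_Ioo] at h2
        have h3 := ENNReal.toReal_mono hEvfin h2
        rwa [ENNReal.toReal_ofReal (by linarith)] at h3)
    rw [← hWdef, ← hJvdef] at h1
    have hW0 : 0 ≤ W := intervalIntegral.integral_nonneg hle fun θ _ => sq_nonneg _
    have h2 : Real.pi / L * √W ≤ √Jv := by
      apply Real.le_sqrt_of_sq_le
      rw [mul_pow, Real.sq_sqrt hW0]
      exact h1
    have h3 : √Iv - δ * √Real.pi ≤ √W := by linarith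
    rw [Real.sqrt_div' _ hIv.le, le_div_iff₀ hsIv]
    have h4 : (1 - √Real.pi * x) * (Real.pi / L) * √Iv = Real.pi / L * (√Iv - δ * √Real.pi) := by
      rw [hx]
      field_simp
    rw [h4]
    exact (mul_le_mul_of_nonneg_left h3 (by positivity)).trans h2
  -- sup of lengths for u
  set Sb : Set ℝ := {l : ℝ | ∃ p q : ℝ, -(Real.pi / 2) ≤ p ∧ p < q ∧ q ≤ Real.pi / 2 ∧
    (∀ y ∈ Ioo p q, 0 < u y) ∧ l = q - p} with hSb
  have hbdd : BddAbove Sb := by
    refine ⟨Real.pi, ?_⟩
    rintro l ⟨p, q, hp, hpq, hq, _, rfl⟩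
    linarith
  have hne : Sb.Nonempty := by
    have h1 : ∃ θ ∈ Icc (-(Real.pi / 2)) (Real.pi / 2), u θ ≠ 0 := by
      by_contra hcon
      push Not at hcon
      have h2 : Iu = 0 := by
        rw [hIudef]
        have h3 : ∫ θ in (-(Real.pi / 2))..(Real.pi / 2), u θ ^ 2 = ∫ θ in (-(Real.pi / 2))..(Real.pi / 2), (0 : ℝ) := by
          apply intervalIntegral.integral_congr
          intro θ hθ
          rw [uIcc_of_le hle] at hθ
          simp only
          rw [hcon θ hθ]
          norm_num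
        rw [h3]
        simp
      linarith
    obtain ⟨θ, hθ, hθ0⟩ := h1
    have hpos : 0 < u θ := lt_of_le_of_ne (hu0 θ) (Ne.symm hθ0)
    have hθ1 : θ ≠ Real.pi / 2 := by
      rintro rfl
      exact hθ0 hue.1
    have hθ2 : θ ≠ -(Real.pi / 2) := by
      rintro rfl
      exact hθ0 hue.2
    have hlt1 : θ < Real.pi / 2 := lt_of_le_of_ne hθ.2 hθ1
    have hlt2 : -(Real.pi / 2) < θ := lt_of_le_of_ne hθ.1 (Ne.symm hθ2)
    have hopen : IsOpen {y : ℝ | 0 < u y} := isOpen_lt continuous_const huc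
    obtain ⟨d, hd, hball⟩ := Metric.isOpen_iff.mp hopen θ hpos
    set d' := min d (min (Real.pi / 2 - θ) (θ + Real.pi / 2)) with hd'
    have hd'0 : 0 < d' := lt_min hd (lt_min (by linarith) (by linarith))
    have hd'1 : d' ≤ d := min_le_left _ _
    have hd'2 : d' ≤ Real.pi / 2 - θ := (min_le_right _ _).trans (min_le_left _ _)
    have hd'3 : d' ≤ θ + Real.pi / 2 := (min_le_right _ _).trans (min_le_right _ _)
    refine ⟨(θ + d') - (θ - d'), θ - d', θ + d', by linarith, by linarith, by linarith, ?_, rfl⟩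
    intro y hy
    apply hball
    rw [Metric.mem_ball, Real.dist_eq, abs_lt]
    constructor <;> linarith [hy.1, hy.2]
  set b := sSup Sb with hb
  have hbpos : 0 < b := by
    obtain ⟨l, hl⟩ := hne
    have h1 : l ≤ b := le_csSup hbdd hl
    obtain ⟨p, q, _, hpq, _, _, rfl⟩ := hl
    linarith
  have hbpi : b ≤ Real.pi := by
    apply csSup_le hne
    rintro l ⟨p, q, hp, hpq, hq, _, rfl⟩
    linarith
  have hU : Real.pi / b ≤ √(Ju / Iu) := by
    have h1 := wirt u u' (-(Real.pi / 2)) (Real.pi / 2) 0 b hle (fun y _ => hu y) hu'.continuousOn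
      (by rw [hue.2]) (by rw [hue.1]) hbpos (by
        intro p q hp hpq hq hpos
        exact le_csSup hbdd ⟨p, q, hp, hpq, hq, hpos, rfl⟩)
    have h2 : ∫ y in (-(Real.pi / 2))..(Real.pi / 2), (max (u y - 0) 0) ^ 2 = Iu := by
      rw [hIudef]
      congr 1
      funext y
      rw [sub_zero, max_eq_left (hu0 y)]
    rw [h2, ← hJudef] at h1
    apply Real.le_sqrt_of_sq_le
    rw [le_div_iff₀ hIu]
    exact h1
  -- the geometric estimate
  have hgeo : ∀ p q : ℝ, -(Real.pi / 2) ≤ p → p < q → q ≤ Real.pi / 2 → (∀ y ∈ Ioo p q, 0 < u y) →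
      a ≤ ε ∨ a + (q - p) ≤ Real.pi - η + ε := by
    intro p q hp hpq hq hpos
    have hcover : Ev ⊆ {θ : ℝ | |θ| ≤ Real.pi / 2 ∧ 0 < v θ ∧ 0 < u θ} ∪
        (Icc (-(Real.pi / 2) + η) p ∪ Icc q (Real.pi / 2 - η)) := by
      intro θ hθ
      have hmid : |θ| < Real.pi / 2 - η := by
        by_contra hcon
        push Not at hcon
        have := hzone θ hθ.1 hcon
        linarith [hθ.2]
      rw [abs_lt] at hmid
      by_cases h1 : θ ≤ p
      · exact Or.inr (Or.inl ⟨by linarith [hmid.1], h1⟩)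
      · by_cases h2 : q ≤ θ
        · exact Or.inr (Or.inr ⟨h2, hmid.2.le⟩)
        · push Not at h1 h2
          exact Or.inl ⟨hθ.1, hδ.trans_lt hθ.2, hpos θ ⟨h1, h2⟩⟩
    have h1 : volume Ev ≤ ENNReal.ofReal (ε + (max (p + Real.pi / 2 - η) 0 + max (Real.pi / 2 - η - q) 0)) := by
      refine (measure_mono hcover).trans ((measure_union_le _ _).trans ?_)
      rw [ENNReal.ofReal_add hε (by positivity)]
      refine add_le_add hov ?_
      refine (measure_union_le _ _).trans ?_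
      rw [ENNReal.ofReal_add (le_max_right _ _) (le_max_right _ _), Real.volume_Icc, Real.volume_Icc]
      apply add_le_add
      · apply ENNReal.ofReal_le_ofReal
        refine le_trans (le_of_eq ?_) (le_max_left _ _)
        ring
      · exact ENNReal.ofReal_le_ofReal (le_max_left _ _)
    have h2 : a ≤ ε + (max (p + Real.pi / 2 - η) 0 + max (Real.pi / 2 - η - q) 0) :=
      ENNReal.toReal_le_of_le_ofReal (by positivity) h1
    rcases le_total (p + Real.pi / 2 - η) 0 with h3 | h3 <;>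
      rcases le_total (Real.pi / 2 - η - q) 0 with h4 | h4
    · left
      rw [max_eq_right h3, max_eq_right h4] at h2
      linarith
    · right
      rw [max_eq_right h3, max_eq_left h4] at h2
      linarith
    · right
      rw [max_eq_left h3, max_eq_right h4] at h2
      linarith
    · right
      rw [max_eq_left h3, max_eq_left h4] at h2
      linarith
  by_cases hcase : a ≤ ε
  · -- case 2
    by_cases hε2 : 5 / 16 ≤ ε
    · linarith
    · push Not at hε2
      have h1 := hV (5 / 16) (by norm_num) (by linarith)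
      have h2 : 10 * (1 - √Real.pi * x) ≤ (1 - √Real.pi * x) * (Real.pi / (5 / 16)) := by
        have h3 : 10 ≤ Real.pi / (5 / 16) := by
          rw [le_div_iff₀ (by norm_num)]
          norm_num
          linarith
        have h4 : 0 ≤ 1 - √Real.pi * x := by linarith
        calc 10 * (1 - √Real.pi * x) = (1 - √Real.pi * x) * 10 := by ring
          _ ≤ (1 - √Real.pi * x) * (Real.pi / (5 / 16)) := mul_le_mul_of_nonneg_left h3 h4
      have h5 : 1 ≤ Real.pi / b := by
        rw [le_div_iff₀ hbpos]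
        linarith
      linarith
  · push Not at hcase
    have ha1 : 0 < a := lt_of_le_of_lt hε hcase
    have hab : a + b ≤ Real.pi - η + ε := by
      have h1 : b ≤ Real.pi - η + ε - a := by
        apply csSup_le hne
        rintro l ⟨p, q, hp, hpq, hq, hpos, rfl⟩
        rcases hgeo p q hp hpq hq hpos with h | h
        · linarith
        · linarith
      linarith
    have hD : 0 < Real.pi - η + ε := by linarith
    have h1 := hV a ha1 le_rfl
    have h2 := num1 η ε x hη0 hη1 hε hx0 hx1 hD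
    have h4 : 0 ≤ 1 - √Real.pi * x := by linarith
    have h3 : 4 * (1 - √Real.pi * x) * Real.pi / (Real.pi - η + ε) ≤
        (1 - √Real.pi * x) * (Real.pi / a) + Real.pi / b := by
      have h5 : 4 * (1 - √Real.pi * x) * Real.pi / (Real.pi - η + ε) ≤ 4 * (1 - √Real.pi * x) * Real.pi / (a + b) := by
        apply div_le_div_of_nonneg_left (by positivity) (by linarith) hab
      have h6 : 4 * Real.pi / (a + b) ≤ Real.pi / a + Real.pi / b := by
        rw [div_add_div _ _ ha1.ne' hbpos.ne', div_le_div_iff₀ (by linarith) (by positivity)]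
        nlinarith [sq_nonneg (a - b)]
      have h7 : 4 * (1 - √Real.pi * x) * Real.pi / (a + b) = (1 - √Real.pi * x) * (4 * Real.pi / (a + b)) := by ring
      have h8 : (1 - √Real.pi * x) * (Real.pi / b) ≤ Real.pi / b := by
        apply mul_le_of_le_one_left (by positivity)
        linarith
      have h9 := mul_le_mul_of_nonneg_left h6 h4
      rw [mul_add] at h9
      linarith
    linarith

end

end Pool.Agent.Helper311.TI.J6647

namespace Pool.Agent.Helper311.TI

alias two_wirt := J6647.two_wirt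

end Pool.Agent.Helper311.TI

namespace Pool.Agent.Helper311.TI.J6651

noncomputable section

lemma chi_aux_mono : MonotoneOn (fun x : ℝ => x - 3 + Real.exp (-x) * (x ^ 2 / 2 + 2 * x + 3))
    (Set.Ici 0) := by
  have hd : ∀ x : ℝ, HasDerivAt (fun x : ℝ => x - 3 + Real.exp (-x) * (x ^ 2 / 2 + 2 * x + 3))
      (1 - Real.exp (-x) * (x ^ 2 / 2 + x + 1)) x := by
    intro x
    have h1 : HasDerivAt (fun x : ℝ => Real.exp (-x)) (-Real.exp (-x)) x := by
      have := (hasDerivAt_neg x).exp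
      simpa using this
    have h2 : HasDerivAt (fun x : ℝ => x ^ 2 / 2 + 2 * x + 3) (x + 2) x := by
      have h := (((hasDerivAt_id x).pow 2).div_const 2).add ((hasDerivAt_id x).const_mul 2)
      have h' := h.add_const (3 : ℝ)
      refine HasDerivAt.congr_deriv (h'.congr_of_eventuallyEq ?_) ?_
      · filter_upwards with y
        simp
      · simp
    have h3 := ((hasDerivAt_id x).sub_const (3 : ℝ)).add (h1.mul h2)
    refine HasDerivAt.congr_deriv (h3.congr_of_eventuallyEq ?_) ?_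
    · filter_upwards with y
      simp
    · ring
  apply monotoneOn_of_deriv_nonneg (convex_Ici 0)
  · exact fun x _ => (hd x).continuousAt.continuousWithinAt
  · exact fun x _ => (hd x).differentiableAt.differentiableWithinAt
  · intro x hx
    rw [interior_Ici] at hx
    rw [(hd x).deriv]
    have hx' : (0 : ℝ) < x := hx
    have h := Real.quadratic_le_exp_of_nonneg hx'.le
    have h2 : Real.exp (-x) * (x ^ 2 / 2 + x + 1) ≤ Real.exp (-x) * Real.exp x := by
      apply mul_le_mul_of_nonneg_left _ (Real.exp_pos _).le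
      linarith
    rw [← Real.exp_add] at h2
    simp at h2
    linarith

lemma chi_props :
    (∀ x : ℝ, x ≤ 0 → chi x = 0) ∧ (∀ x : ℝ, 0 ≤ chi x) ∧ (∀ x : ℝ, chi x ≤ max x 0) ∧
    (∀ x : ℝ, x - 3 ≤ chi x) ∧ Monotone chi ∧ Continuous chi := by
  have h0 : ∀ x : ℝ, x ≤ 0 → chi x = 0 := fun x hx => by simp [chi, hx]
  have h1 : ∀ x : ℝ, 0 ≤ x → chi x = x - 3 + Real.exp (-x) * (x ^ 2 / 2 + 2 * x + 3) := by
    intro x hx
    rcases hx.eq_or_lt with rfl | hx
    · simp [chi]
    · simp [chi, not_le.mpr hx]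
  have hm : Monotone chi := by
    intro x y hxy
    rcases le_total x 0 with hx | hx
    · rw [h0 x hx]
      rcases le_total y 0 with hy | hy
      · rw [h0 y hy]
      · rw [← h0 0 le_rfl, h1 0 le_rfl, h1 y hy]
        exact chi_aux_mono (Set.mem_Ici.mpr le_rfl) hy hy
    · rw [h1 x hx, h1 y (hx.trans hxy)]
      exact chi_aux_mono hx (hx.trans hxy : (0:ℝ) ≤ y) hxy
  have hnn : ∀ x : ℝ, 0 ≤ chi x := by
    intro x
    rcases le_total x 0 with hx | hx
    · rw [h0 x hx]
    · rw [← h0 0 le_rfl]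
      exact hm hx
  refine ⟨h0, hnn, ?_, ?_, hm, ?_⟩
  · intro x
    rcases le_total x 0 with hx | hx
    · rw [h0 x hx]
      exact le_max_right _ _
    · rw [h1 x hx]
      refine le_trans ?_ (le_max_left _ _)
      have h := Real.quadratic_le_exp_of_nonneg hx
      have h2 : Real.exp (-x) * (x ^ 2 / 2 + 2 * x + 3) ≤ Real.exp (-x) * (3 * Real.exp x) := by
        apply mul_le_mul_of_nonneg_left _ (Real.exp_pos _).le
        nlinarith
      have h3 : Real.exp (-x) * (3 * Real.exp x) = 3 := by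
        rw [mul_left_comm, ← Real.exp_add]
        simp
      linarith
  · intro x
    rcases le_total x 0 with hx | hx
    · rw [h0 x hx]
      linarith
    · rw [h1 x hx]
      have : 0 ≤ Real.exp (-x) * (x ^ 2 / 2 + 2 * x + 3) := by positivity
      linarith
  · unfold chi
    apply Continuous.if_le
    · exact continuous_const
    · fun_prop
    · exact continuous_id
    · exact continuous_const
    · intro x hx
      rw [hx]
      simp

end

end Pool.Agent.Helper311.TI.J6651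

namespace Pool.Agent.Helper311.TI

alias chi_props := J6651.chi_props

end Pool.Agent.Helper311.TI

namespace Pool.Agent.Helper311.TI.J6652

noncomputable section

lemma glue6652 (φ φ' : ℝ → ℝ) (hφ : ∀ x, HasDerivAt φ (φ' x) x) (h0 : φ 0 = 0) (h0' : φ' 0 = 0)
    (x : ℝ) : HasDerivAt (fun x => if x ≤ 0 then 0 else φ x) (if x ≤ 0 then 0 else φ' x) x := by
  rcases lt_trichotomy x 0 with h | h | h
  · rw [if_pos h.le]
    refine (hasDerivAt_const x (0 : ℝ)).congr_of_eventuallyEq ?_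
    filter_upwards [Iio_mem_nhds h] with y hy
    rw [if_pos (le_of_lt hy)]
  · subst h
    rw [if_pos le_rfl]
    have h1 : HasDerivWithinAt (fun x => if x ≤ 0 then 0 else φ x) 0 (Iic 0) 0 := by
      refine (hasDerivWithinAt_const (0 : ℝ) (Iic 0) (0 : ℝ)).congr (fun y hy => ?_) ?_
      · exact if_pos hy
      · exact if_pos le_rfl
    have h2 : HasDerivWithinAt (fun x => if x ≤ 0 then 0 else φ x) 0 (Ici 0) 0 := by
      have h3 := (hφ 0).hasDerivWithinAt (s := Ici 0)
      rw [h0'] at h3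
      refine h3.congr (fun y hy => ?_) ?_
      · by_cases hy0 : y ≤ 0
        · have : y = 0 := le_antisymm hy0 hy
          subst this
          simp [h0]
        · rw [if_neg hy0]
      · simp [h0]
    have h4 := h1.union h2
    rw [Iic_union_Ici] at h4
    exact hasDerivWithinAt_univ.1 h4
  · rw [if_neg (not_le.2 h)]
    refine (hφ x).congr_of_eventuallyEq ?_
    filter_upwards [Ioi_mem_nhds h] with y hy
    rw [if_neg (not_le.2 hy)]

def chi1 (x : ℝ) : ℝ := if x ≤ 0 then 0 else 1 - Real.exp (-x) * (x ^ 2 / 2 + x + 1)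

def chi2 (x : ℝ) : ℝ := if x ≤ 0 then 0 else Real.exp (-x) * (x ^ 2 / 2)

lemma hasDerivAt_chi (x : ℝ) : HasDerivAt chi (chi1 x) x := by
  refine glue6652 (fun x => x - 3 + Real.exp (-x) * (x ^ 2 / 2 + 2 * x + 3))
    (fun x => 1 - Real.exp (-x) * (x ^ 2 / 2 + x + 1)) (fun x => ?_) (by simp) (by simp) x
  have h1 : HasDerivAt (fun x : ℝ => Real.exp (-x)) (-Real.exp (-x)) x := by
    have := (hasDerivAt_neg x).exp
    simpa using this
  have h2 : HasDerivAt (fun x : ℝ => x ^ 2 / 2 + 2 * x + 3) (x + 2) x := by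
    have e1 := ((hasDerivAt_pow 2 x).div_const 2).add ((hasDerivAt_id x).const_mul 2)
    refine ((e1.add_const 3).congr_deriv ?_)
    simp
  have h3 := ((hasDerivAt_id x).sub_const 3).add (h1.mul h2)
  refine h3.congr_deriv ?_
  ring

lemma hasDerivAt_chi1 (x : ℝ) : HasDerivAt chi1 (chi2 x) x := by
  refine glue6652 (fun x => 1 - Real.exp (-x) * (x ^ 2 / 2 + x + 1))
    (fun x => Real.exp (-x) * (x ^ 2 / 2)) (fun x => ?_) (by simp) (by simp) x
  have h1 : HasDerivAt (fun x : ℝ => Real.exp (-x)) (-Real.exp (-x)) x := by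
    have := (hasDerivAt_neg x).exp
    simpa using this
  have h2 : HasDerivAt (fun x : ℝ => x ^ 2 / 2 + x + 1) (x + 1) x := by
    have e1 := ((hasDerivAt_pow 2 x).div_const 2).add (hasDerivAt_id x)
    refine ((e1.add_const 1).congr_deriv ?_)
    simp
  have h3 := (h1.mul h2).const_sub 1
  refine h3.congr_deriv ?_
  ring

lemma continuous_chi2 : Continuous chi2 := by
  unfold chi2
  refine Continuous.if_le continuous_const (by fun_prop) continuous_id continuous_const ?_
  intro x hx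
  have : x = 0 := hx
  rw [this]
  simp

lemma chi2_nonneg (x : ℝ) : 0 ≤ chi2 x := by
  unfold chi2
  split_ifs
  · exact le_rfl
  · positivity

def FF6652 (c u : ℝ) : ℝ := chi (Real.log u / 2 - c)
def FF1 (c u : ℝ) : ℝ := chi1 (Real.log u / 2 - c) / (2 * u)
def FF2 (c u : ℝ) : ℝ := chi2 (Real.log u / 2 - c) / (4 * u ^ 2)
  - chi1 (Real.log u / 2 - c) / (2 * u ^ 2)

lemma arg_nonpos {c u : ℝ} (hc : 0 ≤ c) (hu : |u| < 1) : Real.log u / 2 - c ≤ 0 := by
  have : Real.log u ≤ 0 := by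
    rw [← Real.log_abs]
    exact Real.log_nonpos (abs_nonneg _) hu.le
  linarith

lemma FF_zero {c u : ℝ} (hc : 0 ≤ c) (hu : |u| < 1) : FF6652 c u = 0 := by
  unfold FF6652 chi
  rw [if_pos (arg_nonpos hc hu)]

lemma FF1_zero {c u : ℝ} (hc : 0 ≤ c) (hu : |u| < 1) : FF1 c u = 0 := by
  unfold FF1 chi1
  rw [if_pos (arg_nonpos hc hu), zero_div]

lemma FF2_zero {c u : ℝ} (hc : 0 ≤ c) (hu : |u| < 1) : FF2 c u = 0 := by
  unfold FF2 chi1 chi2
  rw [if_pos (arg_nonpos hc hu), if_pos (arg_nonpos hc hu), zero_div, zero_div, sub_zero]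

lemma nhds_small {u : ℝ} (hu : |u| < 1) : ∀ᶠ y in 𝓝 u, |y| < 1 :=
  (continuous_abs.tendsto u).eventually (gt_mem_nhds hu)

lemma hasDerivAt_FF {c u : ℝ} (hc : 0 ≤ c) (hu : 0 ≤ u) :
    HasDerivAt (FF6652 c) (FF1 c u) u := by
  rcases hu.eq_or_lt with h | h
  · have hu' : |u| < 1 := by rw [← h]; simp
    rw [FF1_zero hc hu']
    refine (hasDerivAt_const u (0 : ℝ)).congr_of_eventuallyEq ?_
    filter_upwards [nhds_small hu'] with y hy
    exact FF_zero hc hy
  · have h1 : HasDerivAt (fun u => Real.log u / 2 - c) (u⁻¹ / 2) u :=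
      ((Real.hasDerivAt_log h.ne').div_const 2).sub_const c
    have h2 := (hasDerivAt_chi (Real.log u / 2 - c)).comp u h1
    refine (h2.congr_deriv ?_)
    unfold FF1
    field_simp

lemma hasDerivAt_FF1 {c u : ℝ} (hc : 0 ≤ c) (hu : 0 ≤ u) :
    HasDerivAt (FF1 c) (FF2 c u) u := by
  rcases hu.eq_or_lt with h | h
  · have hu' : |u| < 1 := by rw [← h]; simp
    rw [FF2_zero hc hu']
    refine (hasDerivAt_const u (0 : ℝ)).congr_of_eventuallyEq ?_
    filter_upwards [nhds_small hu'] with y hy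
    exact FF1_zero hc hy
  · have h1 : HasDerivAt (fun u => Real.log u / 2 - c) (u⁻¹ / 2) u :=
      ((Real.hasDerivAt_log h.ne').div_const 2).sub_const c
    have h2 := (hasDerivAt_chi1 (Real.log u / 2 - c)).comp u h1
    have h3 : HasDerivAt (fun u : ℝ => 2 * u) 2 u := by
      simpa using (hasDerivAt_id u).const_mul (2 : ℝ)
    have h4 := h2.div h3 (by positivity)
    refine (h4.congr_deriv ?_)
    unfold FF2
    simp only [Function.comp]
    field_simp
    ring

lemma continuousAt_FF2 {c u : ℝ} (hc : 0 ≤ c) (hu : 0 ≤ u) : ContinuousAt (FF2 c) u := by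
  rcases hu.eq_or_lt with h | h
  · have hu' : |u| < 1 := by rw [← h]; simp
    have h1 : FF2 c =ᶠ[𝓝 u] fun _ => 0 := by
      filter_upwards [nhds_small hu'] with y hy
      exact FF2_zero hc hy
    exact continuousAt_const.congr h1.symm
  · have h1 : ContinuousAt (fun u => Real.log u / 2 - c) u :=
      ((Real.continuousAt_log h.ne').div_const 2).sub continuousAt_const
    have h2 : ContinuousAt (fun u => chi2 (Real.log u / 2 - c)) u :=
      ContinuousAt.comp (f := fun u => Real.log u / 2 - c) (g := chi2) continuous_chi2.continuousAt h1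
    have h3 : ContinuousAt (fun u => chi1 (Real.log u / 2 - c)) u :=
      ContinuousAt.comp (f := fun u => Real.log u / 2 - c) (g := chi1)
        (hasDerivAt_chi1 _).continuousAt h1
    have h4 : ContinuousAt (fun u : ℝ => 4 * u ^ 2) u := by fun_prop
    have h5 : ContinuousAt (fun u : ℝ => 2 * u ^ 2) u := by fun_prop
    exact (h2.div h4 (by positivity)).sub (h3.div h5 (by positivity))

lemma FF_sub {c u : ℝ} (hc : 0 ≤ c) (hu : 0 ≤ u) : 0 ≤ u * FF2 c u + FF1 c u := by
  rcases hu.eq_or_lt with h | h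
  · have hu' : |u| < 1 := by rw [← h]; simp
    rw [FF2_zero hc hu', FF1_zero hc hu']
    simp
  · unfold FF1 FF2
    have h1 := chi2_nonneg (Real.log u / 2 - c)
    have h2 : u * (chi2 (Real.log u / 2 - c) / (4 * u ^ 2)
        - chi1 (Real.log u / 2 - c) / (2 * u ^ 2)) + chi1 (Real.log u / 2 - c) / (2 * u) =
        chi2 (Real.log u / 2 - c) / (4 * u) := by
      field_simp
      ring
    rw [h2]
    positivity

/-- derivative of real and imaginary parts along a curve -/
lemma hasDerivAt_reim {γ : ℝ → ℂ} {γ' : ℂ} {t : ℝ} (h : HasDerivAt γ γ' t) :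
    HasDerivAt (fun t => (γ t).re) γ'.re t ∧ HasDerivAt (fun t => (γ t).im) γ'.im t :=
  ⟨(Complex.reCLM.hasFDerivAt (x := γ t)).comp_hasDerivAt t h,
    (Complex.imCLM.hasFDerivAt (x := γ t)).comp_hasDerivAt t h⟩

lemma vv_smooth (G : ℂ → ℂ) (hG : Differentiable ℂ G) (c : ℝ) (hc : 0 ≤ c) :
    ∃ vx vt vxx vtt : ℝ → ℝ → ℝ,
      (∀ x θ, HasDerivAt (fun x => vv G c x θ) (vx x θ) x) ∧
      (∀ x θ, HasDerivAt (fun θ => vv G c x θ) (vt x θ) θ) ∧
      (∀ x θ, HasDerivAt (fun x => vx x θ) (vxx x θ) x) ∧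
      (∀ x θ, HasDerivAt (fun θ => vt x θ) (vtt x θ) θ) ∧
      Continuous (fun p : ℝ × ℝ => vv G c p.1 p.2) ∧
      Continuous (fun p : ℝ × ℝ => vx p.1 p.2) ∧ Continuous (fun p : ℝ × ℝ => vt p.1 p.2) ∧
      Continuous (fun p : ℝ × ℝ => vxx p.1 p.2) ∧ Continuous (fun p : ℝ × ℝ => vtt p.1 p.2) ∧
      ∀ x θ, 0 ≤ vxx x θ + vtt x θ := by
  obtain ⟨g, hg⟩ : ∃ g : ℂ → ℂ, g = fun z => G (cexp z) := ⟨_, rfl⟩
  have hgd : Differentiable ℂ g := by
    rw [hg]
    exact hG.comp Complex.differentiable_exp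
  have hgd1 : Differentiable ℂ (deriv g) := by
    have := hgd.differentiableOn (s := univ)
    exact differentiableOn_univ.1 (this.deriv isOpen_univ)
  have hgd2 : Differentiable ℂ (deriv (deriv g)) := by
    have := hgd1.differentiableOn (s := univ)
    exact differentiableOn_univ.1 (this.deriv isOpen_univ)
  -- derivatives along the two directions
  have hx : ∀ f : ℂ → ℂ, Differentiable ℂ f → ∀ x θ : ℝ,
      HasDerivAt (fun x : ℝ => f ((x : ℂ) + (θ : ℂ) * I)) (deriv f ((x : ℂ) + (θ : ℂ) * I)) x := by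
    intro f hf x θ
    have h1 : HasDerivAt (fun x : ℝ => (x : ℂ) + (θ : ℂ) * I) 1 x :=
      (Complex.ofRealCLM.hasDerivAt (x := x)).add_const _
    have h2 := (hf ((x : ℂ) + (θ : ℂ) * I)).hasDerivAt.comp x h1
    rw [mul_one] at h2
    exact h2
  have ht : ∀ f : ℂ → ℂ, Differentiable ℂ f → ∀ x θ : ℝ,
      HasDerivAt (fun θ : ℝ => f ((x : ℂ) + (θ : ℂ) * I))
        (deriv f ((x : ℂ) + (θ : ℂ) * I) * I) θ := by
    intro f hf x θ
    have h1 : HasDerivAt (fun θ : ℝ => (x : ℂ) + (θ : ℂ) * I) I θ := by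
      have := ((Complex.ofRealCLM.hasDerivAt (x := θ)).mul_const I).const_add (x : ℂ)
      simpa using this
    exact (hf ((x : ℂ) + (θ : ℂ) * I)).hasDerivAt.comp θ h1
  obtain ⟨Z, hZ⟩ : ∃ Z : ℝ → ℝ → ℂ, ∀ x θ, Z x θ = (x : ℂ) + (θ : ℂ) * I := ⟨_, fun _ _ => rfl⟩
  obtain ⟨a, ha⟩ : ∃ a : ℝ → ℝ → ℝ, ∀ x θ, a x θ = (g (Z x θ)).re := ⟨_, fun _ _ => rfl⟩
  obtain ⟨b, hb⟩ : ∃ b : ℝ → ℝ → ℝ, ∀ x θ, b x θ = (g (Z x θ)).im := ⟨_, fun _ _ => rfl⟩
  obtain ⟨p, hp⟩ : ∃ p : ℝ → ℝ → ℝ, ∀ x θ, p x θ = (deriv g (Z x θ)).re := ⟨_, fun _ _ => rfl⟩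
  obtain ⟨q, hq⟩ : ∃ q : ℝ → ℝ → ℝ, ∀ x θ, q x θ = (deriv g (Z x θ)).im := ⟨_, fun _ _ => rfl⟩
  obtain ⟨r, hr⟩ : ∃ r : ℝ → ℝ → ℝ, ∀ x θ, r x θ = (deriv (deriv g) (Z x θ)).re :=
    ⟨_, fun _ _ => rfl⟩
  obtain ⟨s, hs⟩ : ∃ s : ℝ → ℝ → ℝ, ∀ x θ, s x θ = (deriv (deriv g) (Z x θ)).im :=
    ⟨_, fun _ _ => rfl⟩
  have hax : ∀ x θ, HasDerivAt (fun x => a x θ) (p x θ) x := by
    intro x θ
    simp only [ha, hp, hZ]
    exact (hasDerivAt_reim (hx g hgd x θ)).1
  have hbx : ∀ x θ, HasDerivAt (fun x => b x θ) (q x θ) x := by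
    intro x θ
    simp only [hb, hq, hZ]
    exact (hasDerivAt_reim (hx g hgd x θ)).2
  have hpx : ∀ x θ, HasDerivAt (fun x => p x θ) (r x θ) x := by
    intro x θ
    simp only [hp, hr, hZ]
    exact (hasDerivAt_reim (hx (deriv g) hgd1 x θ)).1
  have hqx : ∀ x θ, HasDerivAt (fun x => q x θ) (s x θ) x := by
    intro x θ
    simp only [hq, hs, hZ]
    exact (hasDerivAt_reim (hx (deriv g) hgd1 x θ)).2
  have hat : ∀ x θ, HasDerivAt (fun θ => a x θ) (-q x θ) θ := by
    intro x θ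
    simp only [ha, hq, hZ]
    refine (hasDerivAt_reim (ht g hgd x θ)).1.congr_deriv ?_
    simp
  have hbt : ∀ x θ, HasDerivAt (fun θ => b x θ) (p x θ) θ := by
    intro x θ
    simp only [hb, hp, hZ]
    refine (hasDerivAt_reim (ht g hgd x θ)).2.congr_deriv ?_
    simp
  have hpt : ∀ x θ, HasDerivAt (fun θ => p x θ) (-s x θ) θ := by
    intro x θ
    simp only [hp, hs, hZ]
    refine (hasDerivAt_reim (ht (deriv g) hgd1 x θ)).1.congr_deriv ?_
    simp
  have hqt : ∀ x θ, HasDerivAt (fun θ => q x θ) (r x θ) θ := by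
    intro x θ
    simp only [hq, hr, hZ]
    refine (hasDerivAt_reim (ht (deriv g) hgd1 x θ)).2.congr_deriv ?_
    simp
  have hZc : Continuous (fun y : ℝ × ℝ => Z y.1 y.2) := by
    simp only [hZ]
    fun_prop
  have hac : Continuous (fun y : ℝ × ℝ => a y.1 y.2) := by
    simp only [ha]
    exact Complex.continuous_re.comp (hgd.continuous.comp hZc)
  have hbc : Continuous (fun y : ℝ × ℝ => b y.1 y.2) := by
    simp only [hb]
    exact Complex.continuous_im.comp (hgd.continuous.comp hZc)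
  have hpc : Continuous (fun y : ℝ × ℝ => p y.1 y.2) := by
    simp only [hp]
    exact Complex.continuous_re.comp (hgd1.continuous.comp hZc)
  have hqc : Continuous (fun y : ℝ × ℝ => q y.1 y.2) := by
    simp only [hq]
    exact Complex.continuous_im.comp (hgd1.continuous.comp hZc)
  have hrc : Continuous (fun y : ℝ × ℝ => r y.1 y.2) := by
    simp only [hr]
    exact Complex.continuous_re.comp (hgd2.continuous.comp hZc)
  have hsc : Continuous (fun y : ℝ × ℝ => s y.1 y.2) := by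
    simp only [hs]
    exact Complex.continuous_im.comp (hgd2.continuous.comp hZc)
  obtain ⟨u, hu⟩ : ∃ u : ℝ → ℝ → ℝ, ∀ x θ, u x θ = a x θ ^ 2 + b x θ ^ 2 := ⟨_, fun _ _ => rfl⟩
  have hu0 : ∀ x θ, 0 ≤ u x θ := fun x θ => by rw [hu]; positivity
  have huc : Continuous (fun y : ℝ × ℝ => u y.1 y.2) := by
    simp only [hu]
    exact (hac.pow 2).add (hbc.pow 2)
  have hvv : ∀ x θ, vv G c x θ = FF6652 c (u x θ) := by
    intro x θ
    have h1 : u x θ = ‖g (Z x θ)‖ ^ 2 := by
      rw [hu, ha, hb, ← Complex.normSq_eq_norm_sq, Complex.normSq_apply]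
      ring
    unfold vv FF6652
    rw [h1, Real.log_pow, hg, hZ]
    congr 1
    push_cast
    ring
  have hux : ∀ x θ, HasDerivAt (fun x => u x θ) (2 * (a x θ * p x θ + b x θ * q x θ)) x := by
    intro x θ
    simp only [hu]
    refine (((hax x θ).pow 2).add ((hbx x θ).pow 2)).congr_deriv ?_
    simp
    ring
  have hut : ∀ x θ, HasDerivAt (fun θ => u x θ) (2 * (b x θ * p x θ - a x θ * q x θ)) θ := by
    intro x θ
    simp only [hu]
    refine (((hat x θ).pow 2).add ((hbt x θ).pow 2)).congr_deriv ?_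
    simp
    ring
  have hFc : ∀ F : ℝ → ℝ, (∀ w, 0 ≤ w → ContinuousAt F w) →
      Continuous (fun y : ℝ × ℝ => F (u y.1 y.2)) := by
    intro F hF
    rw [continuous_iff_continuousAt]
    intro y
    exact ContinuousAt.comp (f := fun y : ℝ × ℝ => u y.1 y.2) (g := F) (hF _ (hu0 _ _))
      huc.continuousAt
  have hFc0 := hFc (FF6652 c) (fun w hw => (hasDerivAt_FF hc hw).continuousAt)
  have hFc1 := hFc (FF1 c) (fun w hw => (hasDerivAt_FF1 hc hw).continuousAt)
  have hFc2 := hFc (FF2 c) (fun w hw => continuousAt_FF2 hc hw)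
  refine ⟨fun x θ => FF1 c (u x θ) * (2 * (a x θ * p x θ + b x θ * q x θ)),
    fun x θ => FF1 c (u x θ) * (2 * (b x θ * p x θ - a x θ * q x θ)),
    fun x θ => FF2 c (u x θ) * (2 * (a x θ * p x θ + b x θ * q x θ)) ^ 2 +
      FF1 c (u x θ) * (2 * (p x θ ^ 2 + a x θ * r x θ + q x θ ^ 2 + b x θ * s x θ)),
    fun x θ => FF2 c (u x θ) * (2 * (b x θ * p x θ - a x θ * q x θ)) ^ 2 +
      FF1 c (u x θ) * (2 * (p x θ ^ 2 - b x θ * s x θ + q x θ ^ 2 - a x θ * r x θ)),
    ?_, ?_, ?_, ?_, ?_, ?_, ?_, ?_, ?_, ?_⟩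
  · intro x θ
    simp only [hvv]
    exact HasDerivAt.comp (h₂ := FF6652 c) (h := fun x => u x θ) x
      (hasDerivAt_FF hc (hu0 x θ)) (hux x θ)
  · intro x θ
    simp only [hvv]
    exact HasDerivAt.comp (h₂ := FF6652 c) (h := fun θ => u x θ) θ
      (hasDerivAt_FF hc (hu0 x θ)) (hut x θ)
  · intro x θ
    have h1 := (hasDerivAt_FF1 hc (hu0 x θ)).comp x (hux x θ)
    have h2 := (((hax x θ).mul (hpx x θ)).add ((hbx x θ).mul (hqx x θ))).const_mul 2
    refine (h1.mul h2).congr_deriv ?_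
    simp only [Function.comp, Pi.add_apply, Pi.mul_apply]
    ring
  · intro x θ
    have h1 := (hasDerivAt_FF1 hc (hu0 x θ)).comp θ (hut x θ)
    have h2 := (((hbt x θ).mul (hpt x θ)).sub ((hat x θ).mul (hqt x θ))).const_mul 2
    refine (h1.mul h2).congr_deriv ?_
    simp only [Function.comp, Pi.sub_apply, Pi.mul_apply]
    ring
  · simp only [hvv]
    exact hFc0
  · exact hFc1.mul (continuous_const.mul ((hac.mul hpc).add (hbc.mul hqc)))
  · exact hFc1.mul (continuous_const.mul ((hbc.mul hpc).sub (hac.mul hqc)))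
  · exact (hFc2.mul ((continuous_const.mul ((hac.mul hpc).add (hbc.mul hqc))).pow 2)).add
      (hFc1.mul (continuous_const.mul ((((hpc.pow 2).add (hac.mul hrc)).add (hqc.pow 2)).add
        (hbc.mul hsc))))
  · exact (hFc2.mul ((continuous_const.mul ((hbc.mul hpc).sub (hac.mul hqc))).pow 2)).add
      (hFc1.mul (continuous_const.mul ((((hpc.pow 2).sub (hbc.mul hsc)).add (hqc.pow 2)).sub
        (hac.mul hrc))))
  · intro x θ
    have h1 := FF_sub hc (hu0 x θ)
    have h2 : FF2 c (u x θ) * (2 * (a x θ * p x θ + b x θ * q x θ)) ^ 2 +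
        FF1 c (u x θ) * (2 * (p x θ ^ 2 + a x θ * r x θ + q x θ ^ 2 + b x θ * s x θ)) +
        (FF2 c (u x θ) * (2 * (b x θ * p x θ - a x θ * q x θ)) ^ 2 +
        FF1 c (u x θ) * (2 * (p x θ ^ 2 - b x θ * s x θ + q x θ ^ 2 - a x θ * r x θ))) =
        4 * (p x θ ^ 2 + q x θ ^ 2) * ((a x θ ^ 2 + b x θ ^ 2) * FF2 c (u x θ) + FF1 c (u x θ)) := by
      ring
    simp only
    rw [h2, ← hu]
    positivity

end

end Pool.Agent.Helper311.TI.J6652

namespace Pool.Agent.Helper311.TI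

alias vv_smooth := J6652.vv_smooth

end Pool.Agent.Helper311.TI

namespace Pool.Agent.Helper311.TI.J6653

noncomputable section

lemma hd_param (F F' : ℝ → ℝ → ℝ) (hF : Continuous (fun p : ℝ × ℝ => F p.1 p.2))
    (hF' : Continuous (fun p : ℝ × ℝ => F' p.1 p.2))
    (h : ∀ x θ, HasDerivAt (fun x => F x θ) (F' x θ) x) (a b x : ℝ) :
    HasDerivAt (fun x => ∫ θ in a..b, F x θ) (∫ θ in a..b, F' x θ) x := by
  have hK : IsCompact ((Metric.closedBall x 1) ×ˢ (uIcc a b) : Set (ℝ × ℝ)) :=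
    (isCompact_closedBall x 1).prod isCompact_uIcc
  obtain ⟨C, hC⟩ := hK.exists_bound_of_continuousOn hF'.continuousOn
  have hFc : ∀ y, Continuous (fun θ => F y θ) := fun y => hF.comp (by fun_prop : Continuous (fun θ : ℝ => ((y, θ) : ℝ × ℝ)))
  have hFc' : ∀ y, Continuous (fun θ => F' y θ) := fun y => hF'.comp (by fun_prop : Continuous (fun θ : ℝ => ((y, θ) : ℝ × ℝ)))
  refine (intervalIntegral.hasDerivAt_integral_of_dominated_loc_of_deriv_le
    (F := F) (F' := F') (bound := fun _ => C) (s := Metric.ball x 1) (Metric.ball_mem_nhds x one_pos) ?_ ?_ ?_ ?_ ?_ ?_).2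
  · exact Filter.Eventually.of_forall fun y => (hFc y).aestronglyMeasurable
  · exact (hFc x).intervalIntegrable _ _
  · exact (hFc' x).aestronglyMeasurable
  · refine Filter.Eventually.of_forall fun θ hθ y hy => ?_
    exact hC (y, θ) ⟨Metric.ball_subset_closedBall hy, uIoc_subset_uIcc hθ⟩
  · exact intervalIntegrable_const
  · exact Filter.Eventually.of_forall fun θ _ y _ => h y θ

lemma carleman (v vx vt vxx vtt : ℝ → ℝ → ℝ) (a : ℝ)
    (hx : ∀ x θ, HasDerivAt (fun x => v x θ) (vx x θ) x)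
    (ht : ∀ x θ, HasDerivAt (fun θ => v x θ) (vt x θ) θ)
    (hxx : ∀ x θ, HasDerivAt (fun x => vx x θ) (vxx x θ) x)
    (htt : ∀ x θ, HasDerivAt (fun θ => vt x θ) (vtt x θ) θ)
    (cv : Continuous (fun p : ℝ × ℝ => v p.1 p.2))
    (cx : Continuous (fun p : ℝ × ℝ => vx p.1 p.2))
    (ct : Continuous (fun p : ℝ × ℝ => vt p.1 p.2))
    (cxx : Continuous (fun p : ℝ × ℝ => vxx p.1 p.2))
    (ctt : Continuous (fun p : ℝ × ℝ => vtt p.1 p.2))
    (hsub : ∀ x θ, 0 ≤ vxx x θ + vtt x θ)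
    (hv0 : ∀ x θ, 0 ≤ v x θ)
    (hend : ∀ x, v x (Real.pi / 2) = 0 ∧ v x (-(Real.pi / 2)) = 0)
    (hleft : ∀ x θ, x ≤ a → |θ| ≤ Real.pi / 2 → v x θ = 0) :
    ∃ I1 I2 : ℝ → ℝ, Continuous I2 ∧
      (∀ x, HasDerivAt (fun x => ∫ θ in (-(Real.pi / 2))..(Real.pi / 2), v x θ ^ 2) (I1 x) x) ∧
      (∀ x, HasDerivAt I1 (I2 x) x) ∧ (∀ x, 0 ≤ I1 x) ∧ (∀ x, 0 ≤ I2 x) ∧
      (∀ x, 0 < (∫ θ in (-(Real.pi / 2))..(Real.pi / 2), v x θ ^ 2) →
        2 * √((∫ θ in (-(Real.pi / 2))..(Real.pi / 2), vt x θ ^ 2) /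
          (∫ θ in (-(Real.pi / 2))..(Real.pi / 2), v x θ ^ 2)) * I1 x ≤ I2 x) := by
  have hpi := Real.pi_pos
  have hle : (-(Real.pi / 2)) ≤ Real.pi / 2 := by linarith
  have sl : ∀ (F : ℝ → ℝ → ℝ), Continuous (fun p : ℝ × ℝ => F p.1 p.2) → ∀ y, Continuous (fun θ => F y θ) :=
    fun F hF y => hF.comp (by fun_prop : Continuous (fun θ : ℝ => ((y, θ) : ℝ × ℝ)))
  have cvs := sl v cv
  have cxs := sl vx cx
  have cts := sl vt ct
  have cxxs := sl vxx cxx
  have ctts := sl vtt ctt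
  have hI1 : ∀ x, HasDerivAt (fun x => ∫ θ in (-(Real.pi / 2))..(Real.pi / 2), v x θ ^ 2)
      (∫ θ in (-(Real.pi / 2))..(Real.pi / 2), 2 * v x θ * vx x θ) x := by
    intro x
    refine hd_param (fun x θ => v x θ ^ 2) (fun x θ => 2 * v x θ * vx x θ) (by fun_prop) (by fun_prop) ?_ _ _ _
    intro x θ
    have := (hx x θ).fun_pow 2
    simpa using this
  have hI2 : ∀ x, HasDerivAt (fun x => ∫ θ in (-(Real.pi / 2))..(Real.pi / 2), 2 * v x θ * vx x θ)
      (∫ θ in (-(Real.pi / 2))..(Real.pi / 2), (2 * vx x θ * vx x θ + 2 * v x θ * vxx x θ)) x := by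
    intro x
    refine hd_param (fun x θ => 2 * v x θ * vx x θ) (fun x θ => 2 * vx x θ * vx x θ + 2 * v x θ * vxx x θ)
      (by fun_prop) (by fun_prop) ?_ _ _ _
    intro x θ
    exact ((hx x θ).const_mul 2).mul (hxx x θ)
  -- I2 lower bound
  have key : ∀ x, 2 * (∫ θ in (-(Real.pi / 2))..(Real.pi / 2), vx x θ ^ 2)
      + 2 * (∫ θ in (-(Real.pi / 2))..(Real.pi / 2), vt x θ ^ 2) ≤
      ∫ θ in (-(Real.pi / 2))..(Real.pi / 2), (2 * vx x θ * vx x θ + 2 * v x θ * vxx x θ) := by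
    intro x
    have hparts := intervalIntegral.integral_mul_deriv_eq_deriv_mul (a := -(Real.pi / 2)) (b := Real.pi / 2)
      (u := fun θ => v x θ) (u' := fun θ => vt x θ) (v := fun θ => vt x θ) (v' := fun θ => vtt x θ)
      (fun θ _ => ht x θ) (fun θ _ => htt x θ) ((cts x).intervalIntegrable _ _) ((ctts x).intervalIntegrable _ _)
    simp only [(hend x).1, (hend x).2, zero_mul, sub_zero, zero_sub] at hparts
    have h1 : (∫ θ in (-(Real.pi / 2))..(Real.pi / 2), vt x θ ^ 2) =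
        - ∫ θ in (-(Real.pi / 2))..(Real.pi / 2), v x θ * vtt x θ := by
      rw [hparts, neg_neg]
      congr 1; ext θ; ring
    rw [h1, ← intervalIntegral.integral_neg, ← intervalIntegral.integral_const_mul, ← intervalIntegral.integral_const_mul,
      ← intervalIntegral.integral_add]
    · refine intervalIntegral.integral_mono_on hle ?_ ?_ ?_
      · apply Continuous.intervalIntegrable
        have := cvs x; have := cxs x; have := ctts x
        fun_prop
      · apply Continuous.intervalIntegrable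
        have := cvs x; have := cxs x; have := cxxs x
        fun_prop
      · intro θ _
        nlinarith [mul_nonneg (hv0 x θ) (hsub x θ)]
    · apply Continuous.intervalIntegrable
      have := cxs x
      fun_prop
    · apply Continuous.intervalIntegrable
      have := cvs x; have := ctts x
      fun_prop
  have hA0 : ∀ x, 0 ≤ ∫ θ in (-(Real.pi / 2))..(Real.pi / 2), vx x θ ^ 2 := fun x =>
    intervalIntegral.integral_nonneg hle fun θ _ => sq_nonneg _
  have hJ0 : ∀ x, 0 ≤ ∫ θ in (-(Real.pi / 2))..(Real.pi / 2), vt x θ ^ 2 := fun x =>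
    intervalIntegral.integral_nonneg hle fun θ _ => sq_nonneg _
  have hI2n : ∀ x, 0 ≤ ∫ θ in (-(Real.pi / 2))..(Real.pi / 2), (2 * vx x θ * vx x θ + 2 * v x θ * vxx x θ) :=
    fun x => by linarith [key x, hA0 x, hJ0 x]
  have hI1n : ∀ x, 0 ≤ ∫ θ in (-(Real.pi / 2))..(Real.pi / 2), 2 * v x θ * vx x θ := by
    intro x
    have hmono : Monotone (fun x => ∫ θ in (-(Real.pi / 2))..(Real.pi / 2), 2 * v x θ * vx x θ) := by
      apply monotone_of_deriv_nonneg
      · exact fun y => (hI2 y).differentiableAt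
      · intro y; rw [(hI2 y).deriv]; exact hI2n y
    have h0 : (∫ θ in (-(Real.pi / 2))..(Real.pi / 2), 2 * v (min x a) θ * vx (min x a) θ) = 0 := by
      have : ∀ θ ∈ uIcc (-(Real.pi / 2)) (Real.pi / 2), 2 * v (min x a) θ * vx (min x a) θ = 0 := by
        intro θ hθ
        rw [uIcc_of_le hle] at hθ
        rw [hleft (min x a) θ (min_le_right _ _) (abs_le.2 ⟨by linarith [hθ.1], hθ.2⟩)]
        ring
      rw [intervalIntegral.integral_congr this]; simp
    rw [← h0]
    exact hmono (min_le_left x a)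
  refine ⟨fun x => ∫ θ in (-(Real.pi / 2))..(Real.pi / 2), 2 * v x θ * vx x θ,
    fun x => ∫ θ in (-(Real.pi / 2))..(Real.pi / 2), (2 * vx x θ * vx x θ + 2 * v x θ * vxx x θ), ?_, hI1, hI2, hI1n, hI2n, ?_⟩
  · apply intervalIntegral.continuous_parametric_intervalIntegral_of_continuous'
    simp only [Function.uncurry_def]
    fun_prop
  · intro x hI
    set I := ∫ θ in (-(Real.pi / 2))..(Real.pi / 2), v x θ ^ 2 with hIdef
    set J := ∫ θ in (-(Real.pi / 2))..(Real.pi / 2), vt x θ ^ 2 with hJdef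
    set A := ∫ θ in (-(Real.pi / 2))..(Real.pi / 2), vx x θ ^ 2 with hAdef
    set B := ∫ θ in (-(Real.pi / 2))..(Real.pi / 2), v x θ * vx x θ with hBdef
    have hB : (∫ θ in (-(Real.pi / 2))..(Real.pi / 2), 2 * v x θ * vx x θ) = 2 * B := by
      rw [hBdef, ← intervalIntegral.integral_const_mul]; congr 1; ext θ; ring
    have hCS : ∀ t : ℝ, 0 ≤ A - 2 * t * B + t ^ 2 * I := by
      intro t
      have h0 : 0 ≤ ∫ θ in (-(Real.pi / 2))..(Real.pi / 2), (vx x θ - t * v x θ) ^ 2 :=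
        intervalIntegral.integral_nonneg hle fun θ _ => sq_nonneg _
      have h1 : (∫ θ in (-(Real.pi / 2))..(Real.pi / 2), (vx x θ - t * v x θ) ^ 2) = A - 2 * t * B + t ^ 2 * I := by
        have e : (fun θ => (vx x θ - t * v x θ) ^ 2) = fun θ => (vx x θ ^ 2 - (2 * t) * (v x θ * vx x θ)) + t ^ 2 * v x θ ^ 2 := by
          ext θ; ring
        rw [e, intervalIntegral.integral_add, intervalIntegral.integral_sub, intervalIntegral.integral_const_mul,
          intervalIntegral.integral_const_mul]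
        all_goals
          apply Continuous.intervalIntegrable
          have := cvs x; have := cxs x
          fun_prop
      linarith
    have hk : 2 * A + 2 * J ≤ ∫ θ in (-(Real.pi / 2))..(Real.pi / 2), (2 * vx x θ * vx x θ + 2 * v x θ * vxx x θ) := key x
    have hAB : B ^ 2 / I ≤ A := by
      have := hCS (B / I)
      have e : A - 2 * (B / I) * B + (B / I) ^ 2 * I = A - B ^ 2 / I := by field_simp; ring
      linarith
    set s := √(J / I) with hs
    have hs2 : s ^ 2 = J / I := Real.sq_sqrt (div_nonneg (hJ0 x) hI.le)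
    have hJ : J = s ^ 2 * I := by rw [hs2]; field_simp
    show 2 * s * (∫ θ in (-(Real.pi / 2))..(Real.pi / 2), 2 * v x θ * vx x θ) ≤ _
    rw [hB]
    refine le_trans ?_ hk
    have h3 : 0 ≤ 2 / I * (B - s * I) ^ 2 := by positivity
    have h4 : 2 / I * (B - s * I) ^ 2 = 2 * (B ^ 2 / I) + 2 * (s ^ 2 * I) - 4 * s * B := by
      field_simp; ring
    nlinarith [h3, h4, hAB, hJ]

end

end Pool.Agent.Helper311.TI.J6653

namespace Pool.Agent.Helper311.TI

alias carleman := J6653.carleman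

end Pool.Agent.Helper311.TI

namespace Pool.Agent.Helper311.TI.J6655

noncomputable section

lemma log_growth (p q p' q' φ : ℝ → ℝ) (x₀ x : ℝ) (hx : x₀ ≤ x)
    (hp : ∀ t, x₀ ≤ t → 0 < p t) (hq : ∀ t, x₀ ≤ t → 0 < q t)
    (hp' : ∀ t, HasDerivAt p (p' t) t) (hq' : ∀ t, HasDerivAt q (q' t) t)
    (cp : Continuous p') (cq : Continuous q') (hφ : IntervalIntegrable φ volume x₀ x)
    (h : ∀ t, x₀ ≤ t → φ t ≤ p' t / p t + q' t / q t) :
    p x₀ * q x₀ * Real.exp (∫ t in x₀..x, φ t) ≤ p x * q x := by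
  have cpp : Continuous p := by
    rw [continuous_iff_continuousAt]
    exact fun t => (hp' t).continuousAt
  have cqq : Continuous q := by
    rw [continuous_iff_continuousAt]
    exact fun t => (hq' t).continuousAt
  have hderiv : ∀ t ∈ Set.uIcc x₀ x, HasDerivAt (fun t => Real.log (p t) + Real.log (q t))
      (p' t / p t + q' t / q t) t := by
    intro t ht
    rw [Set.uIcc_of_le hx] at ht
    exact ((hp' t).log (hp t ht.1).ne').add ((hq' t).log (hq t ht.1).ne')
  have hcont : ContinuousOn (fun t => p' t / p t + q' t / q t) (Set.uIcc x₀ x) := by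
    rw [Set.uIcc_of_le hx]
    apply ContinuousOn.add
    · exact cp.continuousOn.div cpp.continuousOn (fun t ht => (hp t ht.1).ne')
    · exact cq.continuousOn.div cqq.continuousOn (fun t ht => (hq t ht.1).ne')
  have hint := hcont.intervalIntegrable (μ := volume)
  have hftc := intervalIntegral.integral_eq_sub_of_hasDerivAt hderiv hint
  have hmono := intervalIntegral.integral_mono_on hx hφ hint (fun t ht => h t ht.1)
  rw [hftc] at hmono
  have hp0 := hp x₀ le_rfl
  have hq0 := hq x₀ le_rfl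
  have hpx := hp x hx
  have hqx := hq x hx
  have h1 : Real.log (p x₀ * q x₀) + (∫ t in x₀..x, φ t) ≤ Real.log (p x * q x) := by
    rw [Real.log_mul hp0.ne' hq0.ne', Real.log_mul hpx.ne' hqx.ne']
    linarith
  have h2 := Real.exp_le_exp.mpr h1
  rwa [Real.exp_add, Real.exp_log (mul_pos hp0 hq0), Real.exp_log (mul_pos hpx hqx)] at h2

end

end Pool.Agent.Helper311.TI.J6655

namespace Pool.Agent.Helper311.TI

alias log_growth := J6655.log_growth

end Pool.Agent.Helper311.TI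

namespace Pool.Agent.Helper311.TI.J6656

noncomputable section

lemma MM_props_cont (G : ℂ → ℂ) (hG : Continuous G) :
    Continuous (fun ζ : ℂ => max (Real.log ‖G ζ‖) 0) := by
  have e : (fun ζ : ℂ => max (Real.log ‖G ζ‖) 0) = fun ζ => Real.log (max ‖G ζ‖ 1) := by
    funext ζ
    rcases le_total ‖G ζ‖ 1 with h | h
    · rw [max_eq_right h, Real.log_one, max_eq_right (Real.log_nonpos (norm_nonneg _) h)]
    · rw [max_eq_left h, max_eq_left (Real.log_nonneg h)]
  rw [e]
  refine Continuous.log (hG.norm.max continuous_const) ?_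
  intro ζ
  have : (0 : ℝ) < max ‖G ζ‖ 1 := lt_of_lt_of_le one_pos (le_max_right _ _)
  exact this.ne'

lemma MM_props (G : ℂ → ℂ) (hG : Differentiable ℂ G) :
    Monotone (MM G) ∧ (∀ r, 0 ≤ MM G r) ∧ (∀ r (ζ : ℂ), ‖ζ‖ ≤ r → Real.log ‖G ζ‖ ≤ MM G r) ∧
    (∀ r a : ℝ, 0 ≤ a → (∀ ζ : ℂ, ‖ζ‖ ≤ r → Real.log ‖G ζ‖ ≤ a) → MM G r ≤ a) ∧
    ((¬ ∃ B : ℝ, ∀ ζ : ℂ, ‖G ζ‖ ≤ B) → Tendsto (MM G) atTop atTop) := by
  have hcont := MM_props_cont G hG.continuous
  have hbdd : ∀ r, BddAbove ((fun ζ : ℂ => max (Real.log ‖G ζ‖) 0) '' Metric.closedBall 0 r) :=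
    fun r => (isCompact_closedBall (0 : ℂ) r).bddAbove_image hcont.continuousOn
  have hle : ∀ r (ζ : ℂ), ‖ζ‖ ≤ r → max (Real.log ‖G ζ‖) 0 ≤ MM G r := by
    intro r ζ hζ
    exact le_csSup (hbdd r) ⟨ζ, by simpa using hζ, rfl⟩
  have hnn : ∀ r, 0 ≤ MM G r := by
    intro r
    refine Real.sSup_nonneg ?_
    rintro _ ⟨ζ, -, rfl⟩
    exact le_max_right _ _
  have hup : ∀ r a : ℝ, 0 ≤ a → (∀ ζ : ℂ, ‖ζ‖ ≤ r → Real.log ‖G ζ‖ ≤ a) → MM G r ≤ a := by
    intro r a ha h
    refine Real.sSup_le ?_ ha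
    rintro _ ⟨ζ, hζ, rfl⟩
    exact max_le (h ζ (by simpa using hζ)) ha
  have hlog : ∀ r (ζ : ℂ), ‖ζ‖ ≤ r → Real.log ‖G ζ‖ ≤ MM G r :=
    fun r ζ hζ => le_trans (le_max_left _ _) (hle r ζ hζ)
  have hmono : Monotone (MM G) := by
    intro r s hrs
    exact hup r _ (hnn s) (fun ζ hζ => hlog s ζ (hζ.trans hrs))
  refine ⟨hmono, hnn, hlog, hup, ?_⟩
  intro hunb
  refine tendsto_atTop_atTop_of_monotone hmono ?_
  intro b
  by_contra hcon
  push Not at hcon
  apply hunb
  refine ⟨Real.exp b, fun ζ => ?_⟩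
  rcases eq_or_lt_of_le (norm_nonneg (G ζ)) with h | h
  · rw [← h]; exact (Real.exp_pos b).le
  · rw [← Real.exp_log h]
    exact Real.exp_le_exp.2 (le_trans (hlog ‖ζ‖ ζ le_rfl) (hcon ‖ζ‖).le)

end

end Pool.Agent.Helper311.TI.J6656

namespace Pool.Agent.Helper311.TI

alias MM_props := J6656.MM_props

end Pool.Agent.Helper311.TI
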