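import Mathlib
import Pool.Agent.Helper311.TI.Defs
import Pool.Agent.Helper311.TI.Jensen
import Pool.Agent.Helper311.TI.Wirt

set_option autoImplicit false

open MeasureTheory Filter Topology Complex Set

namespace Pool.Agent.Helper311.TI.J6654

noncomputable section

lemma h441_contL (c : ℝ) (hc : 0 ≤ c) : Continuous (fun w : ℂ => chi (Real.log ‖w‖ - c)) := by
  obtain ⟨h1, h2, h3, h4, h5, h6⟩ := chi_props
  rw [continuous_iff_continuousAt]
  intro w
  by_cases hw : w = 0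
  · subst hw
    have : (fun w : ℂ => chi (Real.log ‖w‖ - c)) =ᶠ[𝓝 0] fun _ => 0 := by
      filter_upwards [Metric.ball_mem_nhds (0 : ℂ) one_pos] with z hz
      apply h1
      have hz' : ‖z‖ ≤ 1 := by
        have := Metric.mem_ball.mp hz
        rw [dist_zero_right] at this
        exact this.le
      have := Real.log_nonpos (norm_nonneg z) hz'
      linarith
    exact this.continuousAt
  · have : ContinuousAt (fun w : ℂ => Real.log ‖w‖ - c) w :=
      (continuous_norm.continuousAt.log (norm_ne_zero_iff.mpr hw)).sub continuousAt_const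
    exact h6.continuousAt.comp this

lemma h441_contF (G : ℂ → ℂ) (hG : Differentiable ℂ G) (c : ℝ) (hc : 0 ≤ c) :
    Continuous (fun w : ℂ => chi (Real.log ‖G w‖ - c)) :=
  (h441_contL c hc).comp hG.continuous

lemma h441_contvv (G : ℂ → ℂ) (hG : Differentiable ℂ G) (c : ℝ) (hc : 0 ≤ c) (x : ℝ) :
    Continuous (fun θ : ℝ => vv G c x θ) := by
  have h1 : Continuous (fun θ : ℝ => cexp ((x : ℂ) + (θ : ℂ) * I)) := by fun_prop
  exact (h441_contF G hG c hc).comp h1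

lemma h441_CS (g : ℝ → ℝ) (hg : Continuous g) :
    (∫ θ in (-(Real.pi / 2))..(Real.pi / 2), g θ) ^ 2 ≤
      Real.pi * ∫ θ in (-(Real.pi / 2))..(Real.pi / 2), g θ ^ 2 := by
  have hpi := Real.pi_pos
  set A := ∫ θ in (-(Real.pi / 2))..(Real.pi / 2), g θ with hA
  have h1 : 0 ≤ ∫ θ in (-(Real.pi / 2))..(Real.pi / 2), (g θ - A / Real.pi) ^ 2 := by
    apply intervalIntegral.integral_nonneg
    · linarith
    · intro θ _
      positivity
  have h2 : ∫ θ in (-(Real.pi / 2))..(Real.pi / 2), (g θ - A / Real.pi) ^ 2 =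
      (∫ θ in (-(Real.pi / 2))..(Real.pi / 2), g θ ^ 2) - 2 * (A / Real.pi) * A +
        (A / Real.pi) ^ 2 * Real.pi := by
    have e1 : ∀ θ : ℝ, (g θ - A / Real.pi) ^ 2 =
        (g θ ^ 2 - 2 * (A / Real.pi) * g θ) + (A / Real.pi) ^ 2 := fun θ => by ring
    simp only [e1]
    rw [intervalIntegral.integral_add, intervalIntegral.integral_sub,
      intervalIntegral.integral_const_mul, intervalIntegral.integral_const]
    · rw [smul_eq_mul, ← hA]
      ring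
    · exact (hg.pow 2).intervalIntegrable _ _
    · exact (hg.const_mul _).intervalIntegrable _ _
    · exact ((hg.pow 2).sub (hg.const_mul _)).intervalIntegrable _ _
    · exact continuous_const.intervalIntegrable _ _
  rw [h2] at h1
  have h3 : - 2 * (A / Real.pi) * A + (A / Real.pi) ^ 2 * Real.pi = - A ^ 2 / Real.pi := by
    field_simp
    ring
  have h4 : A ^ 2 / Real.pi ≤ ∫ θ in (-(Real.pi / 2))..(Real.pi / 2), g θ ^ 2 := by
    have : - A ^ 2 / Real.pi = - (A ^ 2 / Real.pi) := by ring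
    linarith
  rw [div_le_iff₀ hpi] at h4
  linarith

lemma h441_exp (ρ θ : ℝ) (hρ : 0 < ρ) :
    cexp ((Real.log ρ : ℂ) + (θ : ℂ) * I) =
      ((ρ * Real.cos θ : ℝ) : ℂ) + ((ρ * Real.sin θ : ℝ) : ℂ) * I := by
  rw [Complex.exp_add, Complex.exp_mul_I, ← Complex.ofReal_exp, Real.exp_log hρ]
  push_cast
  ring

lemma h441_inner (G : ℂ → ℂ) (hG : Differentiable ℂ G) (c : ℝ) (hc : 0 ≤ c)
    (h0 : ∀ ζ : ℂ, ζ.re ≤ 0 → Real.log ‖G ζ‖ ≤ c)
    (hmono : Monotone (fun x : ℝ => ∫ θ in (-(Real.pi / 2))..(Real.pi / 2), vv G c x θ ^ 2))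
    (r : ℝ) (ρ : ℝ) (hρ : 0 < ρ) (hρr : ρ < 2 * r) :
    ∫⁻ θ in Ioo (-Real.pi) Real.pi, ENNReal.ofReal
      (chi (Real.log ‖G (((ρ * Real.cos θ : ℝ) : ℂ) + ((ρ * Real.sin θ : ℝ) : ℂ) * I)‖ - c)) ≤
    ENNReal.ofReal (√Real.pi *
      √(∫ θ in (-(Real.pi / 2))..(Real.pi / 2), vv G c (Real.log (2 * r)) θ ^ 2)) := by
  have hpi := Real.pi_pos
  obtain ⟨c1, c2, c3, c4, c5, c6⟩ := chi_props
  have hcont := h441_contvv G hG c hc (Real.log ρ)
  have hnn : ∀ θ, 0 ≤ vv G c (Real.log ρ) θ := fun θ => c2 _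
  have step1 : ∫⁻ θ in Ioo (-Real.pi) Real.pi, ENNReal.ofReal
      (chi (Real.log ‖G (((ρ * Real.cos θ : ℝ) : ℂ) + ((ρ * Real.sin θ : ℝ) : ℂ) * I)‖ - c)) ≤
      ∫⁻ θ in Ioc (-(Real.pi / 2)) (Real.pi / 2), ENNReal.ofReal (vv G c (Real.log ρ) θ) := by
    rw [← lintegral_indicator measurableSet_Ioc]
    refine le_trans (setLIntegral_mono' measurableSet_Ioo (g := (Ioc (-(Real.pi / 2)) (Real.pi / 2)).indicator
      (fun θ => ENNReal.ofReal (vv G c (Real.log ρ) θ))) ?_) (setLIntegral_le_lintegral _ _)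
    intro θ hθ
    by_cases hB : θ ∈ Ioc (-(Real.pi / 2)) (Real.pi / 2)
    · rw [indicator_of_mem hB]
      unfold vv
      rw [h441_exp ρ θ hρ]
    · rw [indicator_of_notMem hB]
      have hcos : Real.cos θ ≤ 0 := by
        rcases le_or_gt θ (-(Real.pi / 2)) with h | h
        · rw [← Real.cos_neg]
          apply Real.cos_nonpos_of_pi_div_two_le_of_le
          · linarith
          · linarith [hθ.1]
        · have h' : Real.pi / 2 < θ := by
            by_contra hcon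
            exact hB ⟨h, not_lt.mp hcon⟩
          apply Real.cos_nonpos_of_pi_div_two_le_of_le
          · linarith
          · linarith [hθ.2]
      have hre : (((ρ * Real.cos θ : ℝ) : ℂ) + ((ρ * Real.sin θ : ℝ) : ℂ) * I).re ≤ 0 := by
        simp only [add_re, ofReal_re, mul_re, I_re, mul_zero, ofReal_im, I_im, zero_mul, sub_self,
          add_zero]
        nlinarith
      have := h0 _ hre
      rw [c1 _ (by linarith)]
      simp
  refine step1.trans ?_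
  have hle : -(Real.pi / 2) ≤ Real.pi / 2 := by linarith
  rw [← ofReal_integral_eq_lintegral_ofReal
    ((hcont.intervalIntegrable (-(Real.pi / 2)) (Real.pi / 2)).1)
    (Eventually.of_forall hnn), ← intervalIntegral.integral_of_le hle]
  apply ENNReal.ofReal_le_ofReal
  have hCS := h441_CS _ hcont
  have hm := hmono (Real.log_le_log hρ hρr.le)
  simp only at hm
  rw [← Real.sqrt_mul hpi.le]
  apply Real.le_sqrt_of_sq_le
  refine hCS.trans ?_
  exact mul_le_mul_of_nonneg_left hm hpi.le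

lemma h441_radial (r : ℝ) (hr : 0 < r) :
    ∫⁻ ρ in Ioc 0 (2 * r), ENNReal.ofReal ρ = ENNReal.ofReal (2 * r ^ 2) := by
  rw [← ofReal_integral_eq_lintegral_ofReal]
  · rw [← intervalIntegral.integral_of_le (by linarith), integral_id]
    congr 1
    ring
  · exact (continuous_id.intervalIntegrable 0 (2 * r)).1
  · rw [EventuallyLE, ae_restrict_iff' measurableSet_Ioc]
    exact Eventually.of_forall fun x hx => hx.1.le

lemma h441_V (G : ℂ → ℂ) (hG : Differentiable ℂ G) (c : ℝ) (hc : 0 ≤ c)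
    (h0 : ∀ ζ : ℂ, ζ.re ≤ 0 → Real.log ‖G ζ‖ ≤ c)
    (hmono : Monotone (fun x : ℝ => ∫ θ in (-(Real.pi / 2))..(Real.pi / 2), vv G c x θ ^ 2))
    (r : ℝ) (hr : 0 < r) (ζ : ℂ) (hζ : ‖ζ‖ ≤ r) :
    ∫⁻ s in Ioo (ζ.re - r / 2) (ζ.re + r / 2), ∫⁻ t in Ioo (ζ.im - r / 2) (ζ.im + r / 2),
        ENNReal.ofReal (chi (Real.log ‖G ((s : ℂ) + (t : ℂ) * I)‖ - c)) ≤
      ENNReal.ofReal (√Real.pi *
      √(∫ θ in (-(Real.pi / 2))..(Real.pi / 2), vv G c (Real.log (2 * r)) θ ^ 2)) *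
      ENNReal.ofReal (2 * r ^ 2) := by
  set S := √Real.pi *
      √(∫ θ in (-(Real.pi / 2))..(Real.pi / 2), vv G c (Real.log (2 * r)) θ ^ 2) with hS
  have hcont : Continuous (fun p : ℝ × ℝ =>
      ENNReal.ofReal (chi (Real.log ‖G ((p.1 : ℂ) + (p.2 : ℂ) * I)‖ - c))) := by
    apply ENNReal.continuous_ofReal.comp
    exact (h441_contF G hG c hc).comp (by fun_prop)
  set Fr : ℝ × ℝ → ENNReal := fun p =>
      ENNReal.ofReal (chi (Real.log ‖G ((p.1 : ℂ) + (p.2 : ℂ) * I)‖ - c)) with hFr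
  set B : Set (ℝ × ℝ) := {p | p.1 ^ 2 + p.2 ^ 2 < (2 * r) ^ 2} with hB
  have hBm : MeasurableSet B := by
    apply IsOpen.measurableSet
    apply isOpen_lt <;> fun_prop
  set Q : Set (ℝ × ℝ) := Ioo (ζ.re - r / 2) (ζ.re + r / 2) ×ˢ Ioo (ζ.im - r / 2) (ζ.im + r / 2)
    with hQ
  have hQm : MeasurableSet Q := measurableSet_Ioo.prod measurableSet_Ioo
  have hζ2 : ζ.re ^ 2 + ζ.im ^ 2 ≤ r ^ 2 := by
    have h1 : ‖ζ‖ ^ 2 ≤ r ^ 2 := pow_le_pow_left₀ (norm_nonneg _) hζ 2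
    rw [← Complex.normSq_eq_norm_sq, Complex.normSq_apply] at h1
    nlinarith
  have hQB : Q ⊆ B := by
    rintro ⟨x, y⟩ ⟨hx, hy⟩
    simp only [mem_Ioo] at hx hy
    show x ^ 2 + y ^ 2 < (2 * r) ^ 2
    have hx1 : (x - ζ.re) ^ 2 ≤ (r / 2) ^ 2 := by
      apply sq_le_sq'
      · linarith [hx.1]
      · linarith [hx.2]
    have hy1 : (y - ζ.im) ^ 2 ≤ (r / 2) ^ 2 := by
      apply sq_le_sq'
      · linarith [hy.1]
      · linarith [hy.2]
    nlinarith [sq_nonneg (x - 2 * ζ.re), sq_nonneg (y - 2 * ζ.im), sq_nonneg (x - ζ.re - ζ.re), sq_nonneg (y - ζ.im - ζ.im)]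
  have e1 : ∫⁻ s in Ioo (ζ.re - r / 2) (ζ.re + r / 2), ∫⁻ t in Ioo (ζ.im - r / 2) (ζ.im + r / 2),
        ENNReal.ofReal (chi (Real.log ‖G ((s : ℂ) + (t : ℂ) * I)‖ - c)) = ∫⁻ p in Q, Fr p := by
    rw [hQ, Measure.volume_eq_prod, ← Measure.prod_restrict, lintegral_prod _ hcont.aemeasurable]
  rw [e1]
  have e2 : ∫⁻ p in Q, Fr p ≤ ∫⁻ p, B.indicator Fr p := by
    rw [lintegral_indicator hBm]
    exact lintegral_mono_set hQB
  refine e2.trans ?_
  rw [← lintegral_comp_polarCoord_symm]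
  have htarget : polarCoord.target = Ioi (0 : ℝ) ×ˢ Ioo (-Real.pi) Real.pi := rfl
  rw [htarget, Measure.volume_eq_prod, ← Measure.prod_restrict]
  have hmeas : Measurable (fun p : ℝ × ℝ => ENNReal.ofReal p.1 • B.indicator Fr (polarCoord.symm p)) := by
    simp only [smul_eq_mul]
    apply Measurable.mul
    · exact ENNReal.measurable_ofReal.comp measurable_fst
    · exact (hcont.measurable.indicator hBm).comp continuous_polarCoord_symm.measurable
  rw [lintegral_prod _ hmeas.aemeasurable]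
  have hrho : ∀ ρ ∈ Ioi (0 : ℝ), ∫⁻ θ in Ioo (-Real.pi) Real.pi,
      ENNReal.ofReal (ρ, θ).1 • B.indicator Fr (polarCoord.symm (ρ, θ)) ≤
      (Ioc 0 (2 * r)).indicator (fun ρ => ENNReal.ofReal S * ENNReal.ofReal ρ) ρ := by
    intro ρ hρ
    have hρ0 : 0 < ρ := hρ
    have hsq : ∀ θ, (ρ * Real.cos θ) ^ 2 + (ρ * Real.sin θ) ^ 2 = ρ ^ 2 := by
      intro θ
      have := Real.sin_sq_add_cos_sq θ
      nlinarith
    by_cases hρr : ρ < 2 * r
    · have e3 : ∀ θ, B.indicator Fr (polarCoord.symm (ρ, θ)) = ENNReal.ofReal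
          (chi (Real.log ‖G (((ρ * Real.cos θ : ℝ) : ℂ) + ((ρ * Real.sin θ : ℝ) : ℂ) * I)‖ - c)) := by
        intro θ
        have hmem : polarCoord.symm (ρ, θ) ∈ B := by
          show (ρ * Real.cos θ) ^ 2 + (ρ * Real.sin θ) ^ 2 < (2 * r) ^ 2
          rw [hsq]
          exact pow_lt_pow_left₀ hρr hρ0.le (by norm_num)
        rw [indicator_of_mem hmem]
        rfl
      simp only [e3, smul_eq_mul]
      rw [lintegral_const_mul' _ _ ENNReal.ofReal_ne_top,
        indicator_of_mem (show ρ ∈ Ioc 0 (2 * r) from ⟨hρ0, hρr.le⟩), mul_comm]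
      exact mul_le_mul_left (h441_inner G hG c hc h0 hmono r ρ hρ0 hρr) _
    · have e3 : ∀ θ, B.indicator Fr (polarCoord.symm (ρ, θ)) = 0 := by
        intro θ
        have hmem : polarCoord.symm (ρ, θ) ∉ B := by
          show ¬ ((ρ * Real.cos θ) ^ 2 + (ρ * Real.sin θ) ^ 2 < (2 * r) ^ 2)
          rw [hsq]
          push Not at hρr ⊢
          exact pow_le_pow_left₀ (by linarith) hρr 2
        rw [indicator_of_notMem hmem]
      simp only [e3, smul_zero, lintegral_zero]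
      exact bot_le
  refine (setLIntegral_mono' measurableSet_Ioi hrho).trans ?_
  refine (setLIntegral_le_lintegral _ _).trans ?_
  rw [lintegral_indicator measurableSet_Ioc, lintegral_const_mul' _ _ ENNReal.ofReal_ne_top,
    h441_radial r hr]

lemma h441_final (r : ℝ) (hr : 0 < r) (L c S : ℝ) (hc : 0 ≤ c) (hS : 0 ≤ S)
    (h : L * (Real.pi * (r / 2) ^ 2) ≤ (c + 3) * r ^ 2 + √Real.pi * S * (2 * r ^ 2)) :
    L ≤ 16 * (c + 3) + 5 * S := by
  have hpi := Real.pi_pos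
  have hpi3 := Real.pi_gt_three
  have h1 : L * Real.pi ≤ 4 * (c + 3) + 8 * √Real.pi * S := by
    have hr2 : 0 < r ^ 2 := by positivity
    have : (L * Real.pi) * r ^ 2 ≤ (4 * (c + 3) + 8 * √Real.pi * S) * r ^ 2 := by nlinarith
    exact le_of_mul_le_mul_right this hr2
  set q := √Real.pi with hq
  have hqq : q * q = Real.pi := Real.mul_self_sqrt hpi.le
  have hq0 : 0 < q := Real.sqrt_pos.mpr hpi
  have hq1 : 1.6 ≤ q := by
    apply Real.le_sqrt_of_sq_le
    have := Real.pi_gt_d2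
    norm_num at this ⊢
    linarith
  have h2 : 8 * q * S ≤ 5 * S * Real.pi := by
    rw [← hqq]
    have : 0 ≤ q * S := by positivity
    nlinarith
  have h3 : 4 * (c + 3) ≤ 16 * (c + 3) * Real.pi := by nlinarith
  have h4 : L * Real.pi ≤ (16 * (c + 3) + 5 * S) * Real.pi := by nlinarith
  exact le_of_mul_le_mul_right h4 hpi


lemma sup_of_L2 (G : ℂ → ℂ) (hG : Differentiable ℂ G) (c : ℝ) (hc : 0 ≤ c)
    (h0 : ∀ ζ : ℂ, ζ.re ≤ 0 → Real.log ‖G ζ‖ ≤ c)
    (hmono : Monotone (fun x : ℝ => ∫ θ in (-(Real.pi / 2))..(Real.pi / 2), vv G c x θ ^ 2))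
    (r : ℝ) (hr : 0 < r) (ζ : ℂ) (hζ : ‖ζ‖ ≤ r) :
    Real.log ‖G ζ‖ ≤ 16 * (c + 3) +
      5 * √(∫ θ in (-(Real.pi / 2))..(Real.pi / 2), vv G c (Real.log (2 * r)) θ ^ 2) := by
  obtain ⟨c1, c2, c3, c4, c5, c6⟩ := chi_props
  have hsub := submean G hG ζ (r / 2) (by linarith)
  have hV := h441_V G hG c hc h0 hmono r hr ζ hζ
  set S := √(∫ θ in (-(Real.pi / 2))..(Real.pi / 2), vv G c (Real.log (2 * r)) θ ^ 2) with hS
  have hS0 : 0 ≤ S := Real.sqrt_nonneg _
  have hcont : Continuous (fun p : ℝ × ℝ =>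
      ENNReal.ofReal (chi (Real.log ‖G ((p.1 : ℂ) + (p.2 : ℂ) * I)‖ - c))) := by
    apply ENNReal.continuous_ofReal.comp
    exact (h441_contF G hG c hc).comp (by fun_prop)
  have hcont2 : ∀ s : ℝ, Measurable (fun t : ℝ =>
      ENNReal.ofReal (chi (Real.log ‖G ((s : ℂ) + (t : ℂ) * I)‖ - c))) := fun s =>
    (hcont.comp (by fun_prop : Continuous (fun t : ℝ => (s, t)))).measurable
  have hpt : ∀ s t : ℝ, ENNReal.ofReal (Real.log ‖G ((s : ℂ) + (t : ℂ) * I)‖) ≤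
      ENNReal.ofReal (c + 3) + ENNReal.ofReal (chi (Real.log ‖G ((s : ℂ) + (t : ℂ) * I)‖ - c)) := by
    intro s t
    rw [← ENNReal.ofReal_add (by linarith) (c2 _)]
    apply ENNReal.ofReal_le_ofReal
    have := c4 (Real.log ‖G ((s : ℂ) + (t : ℂ) * I)‖ - c)
    linarith
  have hbound : ∫⁻ s in Ioo (ζ.re - r / 2) (ζ.re + r / 2), ∫⁻ t in Ioo (ζ.im - r / 2) (ζ.im + r / 2),
        ENNReal.ofReal (Real.log ‖G ((s : ℂ) + (t : ℂ) * I)‖) ≤
      ENNReal.ofReal ((c + 3) * r ^ 2) + ENNReal.ofReal (√Real.pi * S) *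
      ENNReal.ofReal (2 * r ^ 2) := by
    calc ∫⁻ s in Ioo (ζ.re - r / 2) (ζ.re + r / 2), ∫⁻ t in Ioo (ζ.im - r / 2) (ζ.im + r / 2),
        ENNReal.ofReal (Real.log ‖G ((s : ℂ) + (t : ℂ) * I)‖)
        ≤ ∫⁻ s in Ioo (ζ.re - r / 2) (ζ.re + r / 2), ∫⁻ t in Ioo (ζ.im - r / 2) (ζ.im + r / 2),
        (ENNReal.ofReal (c + 3) +
          ENNReal.ofReal (chi (Real.log ‖G ((s : ℂ) + (t : ℂ) * I)‖ - c))) :=
          lintegral_mono fun s => lintegral_mono fun t => hpt s t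
      _ = ∫⁻ s in Ioo (ζ.re - r / 2) (ζ.re + r / 2), (ENNReal.ofReal (c + 3) * ENNReal.ofReal r +
        ∫⁻ t in Ioo (ζ.im - r / 2) (ζ.im + r / 2),
          ENNReal.ofReal (chi (Real.log ‖G ((s : ℂ) + (t : ℂ) * I)‖ - c))) := by
          apply lintegral_congr
          intro s
          rw [lintegral_add_left measurable_const, setLIntegral_const, Real.volume_Ioo]
          congr 3
          ring
      _ = ENNReal.ofReal (c + 3) * ENNReal.ofReal r * ENNReal.ofReal r +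
        ∫⁻ s in Ioo (ζ.re - r / 2) (ζ.re + r / 2), ∫⁻ t in Ioo (ζ.im - r / 2) (ζ.im + r / 2),
          ENNReal.ofReal (chi (Real.log ‖G ((s : ℂ) + (t : ℂ) * I)‖ - c)) := by
          rw [lintegral_add_left measurable_const, setLIntegral_const, Real.volume_Ioo]
          congr 3
          ring
      _ ≤ ENNReal.ofReal ((c + 3) * r ^ 2) + ENNReal.ofReal (√Real.pi * S) *
          ENNReal.ofReal (2 * r ^ 2) := by
          have e1 : ENNReal.ofReal (c + 3) * ENNReal.ofReal r * ENNReal.ofReal r =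
              ENNReal.ofReal ((c + 3) * r ^ 2) := by
            rw [← ENNReal.ofReal_mul (by linarith), ← ENNReal.ofReal_mul (by nlinarith)]
            congr 1
            ring
          rw [e1]
          gcongr
  have hfin := hsub.trans hbound
  rw [← ENNReal.ofReal_mul (by positivity), ← ENNReal.ofReal_add (by positivity) (by positivity),
    ENNReal.ofReal_le_ofReal_iff (by positivity)] at hfin
  exact h441_final r hr _ c S hc hS0 hfin

end

end Pool.Agent.Helper311.TI.J6654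

namespace Pool.Agent.Helper311.TI

alias sup_of_L2 := J6654.sup_of_L2

end Pool.Agent.Helper311.TI

namespace Pool.Agent.Helper311.TI.J6659

noncomputable section

lemma overlap {F G : ℂ → ℂ} {Fs Gs : ℝ → ℂ → ℂ} {σ₀ C₀ : ℝ} (hP : Pair F G Fs Gs σ₀ C₀) (T : ℝ)
    (hT : 4 * C₀ ≤ T) (hTG : ∀ ζ : ℂ, ζ.re ≤ σ₀ → ‖G ζ‖ ≤ T) :
    ∫⁻ x : ℝ, volume {θ : ℝ | |θ| ≤ Real.pi / 2 ∧ T < ‖F (cexp ((x : ℂ) + (θ : ℂ) * I))‖ ∧
        T < ‖G (cexp ((x : ℂ) + (θ : ℂ) * I))‖} ≤ ENNReal.ofReal (2 * C₀) := by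
  have hσ := hP.hσ
  have hC := hP.hC
  have hσpos : 0 < σ₀ := by linarith
  have hFc : Continuous F := hP.F_diff.continuous
  have hGc : Continuous G := hP.G_diff.continuous
  have hOopen : IsOpen {ζ : ℂ | T < ‖F ζ‖ ∧ T < ‖G ζ‖} :=
    (isOpen_lt continuous_const hFc.norm).inter (isOpen_lt continuous_const hGc.norm)
  obtain ⟨O, hO⟩ : ∃ O : Set ℂ, O = {ζ : ℂ | T < ‖F ζ‖ ∧ T < ‖G ζ‖} := ⟨_, rfl⟩
  rw [← hO] at hOopen
  have hOm : MeasurableSet O := hOopen.measurableSet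
  have hOmem : ∀ ζ, ζ ∈ O ↔ (T < ‖F ζ‖ ∧ T < ‖G ζ‖) := by
    intro ζ; rw [hO]; rfl
  have hOre : ∀ ζ ∈ O, σ₀ < ζ.re := by
    intro ζ hζ
    by_contra h
    exact absurd (hTG ζ (not_lt.mp h)) (not_le.mpr ((hOmem ζ).1 hζ).2)
  -- Step 1
  have step1 : ∀ σ τ : ℝ, ((σ : ℂ) + (τ : ℂ) * I) ∈ O →
     (1 : ENNReal) ≤ ENNReal.ofReal (‖Fs σ ((σ : ℂ) + (τ : ℂ) * I) - F ((σ : ℂ) + (τ : ℂ) * I)‖ - C₀) +
        ENNReal.ofReal (‖Gs σ ((σ : ℂ) + (τ : ℂ) * I) - G ((σ : ℂ) + (τ : ℂ) * I)‖ - C₀) +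
        ‖Fs σ ((σ : ℂ) + (τ : ℂ) * I) * Gs σ ((σ : ℂ) + (τ : ℂ) * I)‖ₑ := by
    intro σ τ h
    generalize ((σ : ℂ) + (τ : ℂ) * I) = ζ at h ⊢
    obtain ⟨h1, h2⟩ := (hOmem ζ).1 h
    by_cases hF : ‖Fs σ ζ - F ζ‖ ≤ ‖F ζ‖ / 2
    · by_cases hG : ‖Gs σ ζ - G ζ‖ ≤ ‖G ζ‖ / 2
      · have h3 : 2 ≤ ‖Fs σ ζ‖ := by
          have := norm_sub_norm_le (F ζ) (Fs σ ζ)
          rw [norm_sub_rev] at this
          linarith
        have h4 : 2 ≤ ‖Gs σ ζ‖ := by
          have := norm_sub_norm_le (G ζ) (Gs σ ζ)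
          rw [norm_sub_rev] at this
          linarith
        have h5 : (1 : ℝ) ≤ ‖Fs σ ζ * Gs σ ζ‖ := by
          rw [norm_mul]; nlinarith
        refine le_trans ?_ (le_add_left le_rfl)
        rw [← ofReal_norm]
        exact ENNReal.one_le_ofReal.2 h5
      · have h3 : 1 ≤ ‖Gs σ ζ - G ζ‖ - C₀ := by
          have := not_le.1 hG
          linarith
        refine le_trans ?_ (le_add_right (le_add_left le_rfl))
        exact ENNReal.one_le_ofReal.2 h3
    · have h3 : 1 ≤ ‖Fs σ ζ - F ζ‖ - C₀ := by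
        have := not_le.1 hF
        linarith
      refine le_trans ?_ (le_add_right (le_add_right le_rfl))
      exact ENNReal.one_le_ofReal.2 h3
  -- the density
  let g : ℂ → ENNReal := fun ζ => O.indicator (fun ζ => ENNReal.ofReal (1 / ‖ζ‖ ^ 2)) ζ
  have hgm : Measurable g := by
    apply Measurable.indicator _ hOm
    fun_prop
  -- Step 2/3: strips
  have strip : ∀ k : ℕ, ∫⁻ σ in Ioc (σ₀ * 2 ^ k) (σ₀ * 2 ^ (k + 1)), ∫⁻ τ : ℝ, g ((σ : ℂ) + (τ : ℂ) * I)
      ≤ ENNReal.ofReal C₀ * (ENNReal.ofReal (1 / 2)) ^ k := by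
    intro k
    have hρ : 0 < σ₀ * 2 ^ k := by positivity
    have hk1 : (1 : ℝ) ≤ 2 ^ k := one_le_pow₀ (by norm_num)
    have hkey := hP.key (σ₀ * 2 ^ k) (σ₀ * 2 ^ (k + 1)) (σ₀ * 2 ^ k) 0
      (by nlinarith) (by rw [pow_succ]; nlinarith) hρ
    have e1 : (σ₀ * 2 ^ (k + 1) - σ₀ * 2 ^ k) / (σ₀ * 2 ^ k) = 1 := by
      rw [pow_succ]; field_simp; ring
    rw [e1, Real.sqrt_one, mul_one] at hkey
    rw [restrict_Ioo_eq_restrict_Ioc.symm]
    have hb : ∫⁻ σ in Ioo (σ₀ * 2 ^ k) (σ₀ * 2 ^ (k + 1)), ∫⁻ τ : ℝ, g ((σ : ℂ) + (τ : ℂ) * I)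
       ≤ ENNReal.ofReal (1 / (σ₀ * 2 ^ k)) * ENNReal.ofReal C₀ := by
      refine le_trans ?_ (mul_le_mul_right hkey _)
      rw [← lintegral_const_mul' _ _ ENNReal.ofReal_ne_top]
      apply setLIntegral_mono' measurableSet_Ioo
      intro σ hσ'
      rw [← lintegral_const_mul' _ _ ENNReal.ofReal_ne_top]
      apply lintegral_mono
      intro τ
      simp only [g]
      by_cases hmem : ((σ : ℂ) + (τ : ℂ) * I) ∈ O
      · rw [indicator_of_mem hmem]
        have h1 := step1 σ τ hmem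
        have hn : ‖((σ : ℂ) + (τ : ℂ) * I)‖ ^ 2 = σ ^ 2 + τ ^ 2 := by
          rw [← Complex.normSq_eq_norm_sq, Complex.normSq_add_mul_I]
        rw [hn]
        have h2 : (1 : ℝ) / (σ ^ 2 + τ ^ 2) ≤ 1 / (σ₀ * 2 ^ k) *
            (σ₀ * 2 ^ k / ((σ₀ * 2 ^ k) ^ 2 + (τ - 0) ^ 2)) := by
          have : 1 / (σ₀ * 2 ^ k) * (σ₀ * 2 ^ k / ((σ₀ * 2 ^ k) ^ 2 + (τ - 0) ^ 2))
             = 1 / ((σ₀ * 2 ^ k) ^ 2 + τ ^ 2) := by
            rw [sub_zero]; field_simp
          rw [this]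
          apply one_div_le_one_div_of_le (by positivity)
          have h3 : σ₀ * 2 ^ k ≤ σ := hσ'.1.le
          have : (σ₀ * 2 ^ k) ^ 2 ≤ σ ^ 2 := pow_le_pow_left₀ hρ.le h3 2
          linarith
        calc ENNReal.ofReal (1 / (σ ^ 2 + τ ^ 2)) ≤ ENNReal.ofReal (1 / (σ₀ * 2 ^ k) *
            (σ₀ * 2 ^ k / ((σ₀ * 2 ^ k) ^ 2 + (τ - 0) ^ 2))) := ENNReal.ofReal_le_ofReal h2
          _ = ENNReal.ofReal (1 / (σ₀ * 2 ^ k)) * (1 *
            ENNReal.ofReal (σ₀ * 2 ^ k / ((σ₀ * 2 ^ k) ^ 2 + (τ - 0) ^ 2))) := by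
              rw [one_mul, ENNReal.ofReal_mul (by positivity)]
          _ ≤ _ := by
              gcongr
      · rw [indicator_of_notMem hmem]
        exact zero_le
    refine hb.trans ?_
    rw [mul_comm]
    gcongr
    rw [← ENNReal.ofReal_pow (by norm_num)]
    apply ENNReal.ofReal_le_ofReal
    rw [one_div_pow]
    apply one_div_le_one_div_of_le (by positivity)
    nlinarith
  -- total
  have total : ∫⁻ ζ : ℂ, g ζ ≤ ENNReal.ofReal (2 * C₀) := by
    have h1 : ∫⁻ ζ : ℂ, g ζ = ∫⁻ p : ℝ × ℝ, g ((p.1 : ℂ) + (p.2 : ℂ) * I) := by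
      have := (Complex.volume_preserving_equiv_real_prod.symm).lintegral_comp_emb
        (Complex.measurableEquivRealProd.symm.measurableEmbedding) g
      rw [← this]
      apply lintegral_congr
      intro p
      congr 1
      rw [Complex.measurableEquivRealProd_symm_apply]
      apply Complex.ext <;> simp
    have h2 : ∫⁻ p : ℝ × ℝ, g ((p.1 : ℂ) + (p.2 : ℂ) * I)
        = ∫⁻ σ : ℝ, ∫⁻ τ : ℝ, g ((σ : ℂ) + (τ : ℂ) * I) := by
      rw [Measure.volume_eq_prod, lintegral_prod]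
      apply Measurable.aemeasurable
      apply hgm.comp
      fun_prop
    have h3 : ∫⁻ σ : ℝ, ∫⁻ τ : ℝ, g ((σ : ℂ) + (τ : ℂ) * I)
        = ∫⁻ σ in Ioi σ₀, ∫⁻ τ : ℝ, g ((σ : ℂ) + (τ : ℂ) * I) := by
      rw [← lintegral_indicator measurableSet_Ioi]
      apply lintegral_congr
      intro σ
      by_cases hs : σ ∈ Ioi σ₀
      · rw [indicator_of_mem hs]
      · rw [indicator_of_notMem hs]
        have : ∀ τ : ℝ, g ((σ : ℂ) + (τ : ℂ) * I) = 0 := by
          intro τ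
          apply indicator_of_notMem
          intro hm
          have := hOre _ hm
          simp at this
          exact hs this
        simp [this]
    have h4 : Ioi σ₀ ⊆ ⋃ k : ℕ, Ioc (σ₀ * 2 ^ k) (σ₀ * 2 ^ (k + 1)) := by
      intro σ hs
      have hs' : σ₀ < σ := hs
      have hex : ∃ n : ℕ, σ ≤ σ₀ * 2 ^ n := by
        obtain ⟨n, hn⟩ := pow_unbounded_of_one_lt (σ / σ₀) (by norm_num : (1 : ℝ) < 2)
        refine ⟨n, ?_⟩
        rw [div_lt_iff₀ hσpos] at hn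
        linarith
      classical
      have hmin := Nat.find_spec hex
      have hne : Nat.find hex ≠ 0 := by
        intro h0
        rw [h0] at hmin
        simp at hmin
        linarith
      obtain ⟨m, hm⟩ := Nat.exists_eq_succ_of_ne_zero hne
      have hlt : ¬ σ ≤ σ₀ * 2 ^ m := Nat.find_min hex (by omega)
      rw [mem_iUnion]
      refine ⟨m, not_le.1 hlt, ?_⟩
      rw [hm] at hmin
      exact hmin
    rw [h1, h2, h3]
    calc ∫⁻ σ in Ioi σ₀, ∫⁻ τ : ℝ, g ((σ : ℂ) + (τ : ℂ) * I)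
        ≤ ∫⁻ σ in ⋃ k : ℕ, Ioc (σ₀ * 2 ^ k) (σ₀ * 2 ^ (k + 1)), ∫⁻ τ : ℝ, g ((σ : ℂ) + (τ : ℂ) * I) :=
          lintegral_mono_set h4
      _ ≤ ∑' k : ℕ, ∫⁻ σ in Ioc (σ₀ * 2 ^ k) (σ₀ * 2 ^ (k + 1)), ∫⁻ τ : ℝ, g ((σ : ℂ) + (τ : ℂ) * I) :=
          lintegral_iUnion_le _ _
      _ ≤ ∑' k : ℕ, ENNReal.ofReal C₀ * (ENNReal.ofReal (1 / 2)) ^ k :=
          ENNReal.tsum_le_tsum strip
      _ = ENNReal.ofReal (2 * C₀) := by
          rw [ENNReal.tsum_mul_left, ENNReal.tsum_geometric]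
          have : (1 - ENNReal.ofReal (1 / 2))⁻¹ = ENNReal.ofReal 2 := by
            rw [← ENNReal.ofReal_one, ← ENNReal.ofReal_sub _ (by norm_num),
              ← ENNReal.ofReal_inv_of_pos (by norm_num)]
            norm_num
          rw [this, ← ENNReal.ofReal_mul (by linarith), mul_comm]
  -- polar coordinates
  refine le_trans ?_ total
  rw [← Complex.lintegral_comp_polarCoord_symm g]
  have hpol : ∀ p : ℝ × ℝ, Complex.polarCoord.symm p = (p.1 : ℂ) * cexp ((p.2 : ℂ) * I) := by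
    intro p
    rw [Complex.polarCoord_symm_apply, Complex.exp_mul_I]
    push_cast
    rfl
  have h5 : ∫⁻ (p : ℝ × ℝ) in polarCoord.target, ENNReal.ofReal p.1 • g (Complex.polarCoord.symm p)
      = ∫⁻ r in Ioi (0 : ℝ), ∫⁻ θ in Ioo (-Real.pi) Real.pi,
        ENNReal.ofReal r * g ((r : ℂ) * cexp ((θ : ℂ) * I)) := by
    rw [polarCoord_target, Measure.volume_eq_prod, ← Measure.prod_restrict, lintegral_prod]
    · simp only [hpol, smul_eq_mul]
    · apply Measurable.aemeasurable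
      simp only [hpol, smul_eq_mul]
      apply Measurable.mul
      · fun_prop
      · apply hgm.comp
        fun_prop
  rw [h5]
  have h6 : Ioi (0 : ℝ) = Real.exp '' univ := by
    rw [image_univ, Real.range_exp]
  rw [h6, lintegral_image_eq_lintegral_abs_deriv_mul MeasurableSet.univ
    (fun x _ => (Real.hasDerivAt_exp x).hasDerivWithinAt) Real.exp_injective.injOn, setLIntegral_univ]
  apply lintegral_mono
  intro x
  have hx : 0 < Real.exp x := Real.exp_pos x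
  have hval : ∀ θ : ℝ, g ((Real.exp x : ℂ) * cexp ((θ : ℂ) * I)) =
      {θ : ℝ | cexp ((x : ℂ) + (θ : ℂ) * I) ∈ O}.indicator (fun _ => ENNReal.ofReal (1 / Real.exp x ^ 2)) θ := by
    intro θ
    have e1 : ((Real.exp x : ℝ) : ℂ) * cexp ((θ : ℂ) * I) = cexp ((x : ℂ) + (θ : ℂ) * I) := by
      rw [Complex.exp_add, Complex.ofReal_exp]
    rw [e1]
    have e2 : ‖cexp ((x : ℂ) + (θ : ℂ) * I)‖ = Real.exp x := by
      rw [Complex.norm_exp]; simp
    simp only [g]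
    by_cases hm : cexp ((x : ℂ) + (θ : ℂ) * I) ∈ O
    · rw [indicator_of_mem hm, indicator_of_mem (by exact hm), e2]
    · rw [indicator_of_notMem hm, indicator_of_notMem (by exact hm)]
  have hmeasS : MeasurableSet {θ : ℝ | cexp ((x : ℂ) + (θ : ℂ) * I) ∈ O} := by
    apply hOm.preimage
    fun_prop
  show volume {θ : ℝ | |θ| ≤ Real.pi / 2 ∧ T < ‖F (cexp ((x : ℂ) + (θ : ℂ) * I))‖ ∧
        T < ‖G (cexp ((x : ℂ) + (θ : ℂ) * I))‖} ≤ ENNReal.ofReal |Real.exp x| *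
      ∫⁻ θ in Ioo (-Real.pi) Real.pi, ENNReal.ofReal (Real.exp x) * g ((Real.exp x : ℂ) * cexp ((θ : ℂ) * I))
  simp only [hval]
  rw [lintegral_const_mul' _ _ ENNReal.ofReal_ne_top, lintegral_indicator hmeasS, setLIntegral_const,
    Measure.restrict_apply hmeasS, abs_of_pos hx, ← mul_assoc, ← mul_assoc,
    ← ENNReal.ofReal_mul hx.le, ← ENNReal.ofReal_mul (by positivity)]
  have e3 : Real.exp x * Real.exp x * (1 / Real.exp x ^ 2) = 1 := by
    field_simp
  rw [e3, ENNReal.ofReal_one, one_mul]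
  apply measure_mono
  rintro θ ⟨h7, h8, h9⟩
  refine ⟨(hOmem _).2 ⟨h8, h9⟩, ?_⟩
  have hpi := Real.pi_pos
  rw [abs_le] at h7
  exact ⟨by linarith [h7.1], by linarith [h7.2]⟩

end

end Pool.Agent.Helper311.TI.J6659

namespace Pool.Agent.Helper311.TI

alias overlap := J6659.overlap

end Pool.Agent.Helper311.TI

namespace Pool.Agent.Helper311.TI.J6660

noncomputable section

lemma B_ineq {F G : ℂ → ℂ} {Fs Gs : ℝ → ℂ → ℂ} {σ₀ C₀ : ℝ} (hP : Pair F G Fs Gs σ₀ C₀)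
    (m : ℝ → ℝ)
    (hp5 : ∀ s y : ℝ, 0 ≤ s → 0 ≤ y → s + 1 ≤ m y → ∀ ζ : ℂ, ζ.re ≤ s →
      ‖G ζ‖ ≤ C₀ * (1 + y) * Real.exp (s * y))
    (c : ℝ) (hc0 : 0 ≤ c) (hc : 4 * C₀ ≤ Real.exp c)
    (hFT : ∀ ζ : ℂ, ζ.re ≤ σ₀ → ‖F ζ‖ ≤ Real.exp c)
    (hGT : ∀ ζ : ℂ, ζ.re ≤ σ₀ → ‖G ζ‖ ≤ Real.exp c)
    (vt ut : ℝ → ℝ → ℝ) (hvt : ∀ x θ, HasDerivAt (fun θ => vv G c x θ) (vt x θ) θ)
    (hut : ∀ x θ, HasDerivAt (fun θ => vv F c x θ) (ut x θ) θ)
    (cvt : ∀ x, Continuous (vt x)) (cut : ∀ x, Continuous (ut x)) (x : ℝ)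
    (hIv : 0 < ∫ θ in (-(Real.pi / 2))..(Real.pi / 2), vv G c x θ ^ 2)
    (hIu : 0 < ∫ θ in (-(Real.pi / 2))..(Real.pi / 2), vv F c x θ ^ 2) :
    4 + eta m (fun x => √(∫ θ in (-(Real.pi / 2))..(Real.pi / 2), vv G c x θ ^ 2)) x / 2 -
      16 * (volume {θ : ℝ | |θ| ≤ Real.pi / 2 ∧
        Real.exp c < ‖F (cexp ((x : ℂ) + (θ : ℂ) * I))‖ ∧
        Real.exp c < ‖G (cexp ((x : ℂ) + (θ : ℂ) * I))‖}).toReal - Real.exp (-x) / 2 ≤
      √((∫ θ in (-(Real.pi / 2))..(Real.pi / 2), vt x θ ^ 2) /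
        ∫ θ in (-(Real.pi / 2))..(Real.pi / 2), vv G c x θ ^ 2) +
      √((∫ θ in (-(Real.pi / 2))..(Real.pi / 2), ut x θ ^ 2) /
        ∫ θ in (-(Real.pi / 2))..(Real.pi / 2), vv F c x θ ^ 2) := by
  have hchi := chi_props
  obtain ⟨chi0, chinn, chimax, -, -, -⟩ := hchi
  set S : ℝ := √(∫ θ in (-(Real.pi / 2))..(Real.pi / 2), vv G c x θ ^ 2) with hS
  have hSpos : 0 < S := Real.sqrt_pos.mpr hIv
  set y0 : ℝ := S * Real.exp (-x) / 20 with hy0
  have hy0nn : 0 ≤ y0 := by positivity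
  have heta : eta m (fun x => √(∫ θ in (-(Real.pi / 2))..(Real.pi / 2), vv G c x θ ^ 2)) x
      = min 1 (max (m y0 - 1) 0 * Real.exp (-x)) := rfl
  rw [heta]
  set η0 : ℝ := min 1 (max (m y0 - 1) 0 * Real.exp (-x)) with hη0
  have hη0nn : 0 ≤ η0 := by
    apply le_min zero_le_one
    exact mul_nonneg (le_max_right _ _) (Real.exp_pos _).le
  have hη01 : η0 ≤ 1 := min_le_left _ _
  set A : Set ℝ := {θ : ℝ | |θ| ≤ Real.pi / 2 ∧
        Real.exp c < ‖F (cexp ((x : ℂ) + (θ : ℂ) * I))‖ ∧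
        Real.exp c < ‖G (cexp ((x : ℂ) + (θ : ℂ) * I))‖} with hA
  have hAfin : volume A ≠ ⊤ := by
    have h1 : A ⊆ Icc (-(Real.pi / 2)) (Real.pi / 2) := by
      intro θ hθ
      exact abs_le.mp hθ.1
    exact ((measure_mono h1).trans_lt (by simp)).ne
  have hre : ∀ θ : ℝ, (cexp ((x : ℂ) + (θ : ℂ) * I)).re = Real.exp x * Real.cos θ := by
    intro θ
    rw [Complex.exp_re]
    simp
  -- positivity of the truncated logarithm
  have hpos : ∀ (H : ℂ → ℂ) (θ : ℝ), 0 < vv H c x θ →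
      Real.exp c < ‖H (cexp ((x : ℂ) + (θ : ℂ) * I))‖ := by
    intro H θ h
    unfold vv at h
    have h1 : 0 < Real.log ‖H (cexp ((x : ℂ) + (θ : ℂ) * I))‖ - c := by
      by_contra hcon
      rw [chi0 _ (not_lt.mp hcon)] at h
      exact lt_irrefl _ h
    have h2 : 0 < ‖H (cexp ((x : ℂ) + (θ : ℂ) * I))‖ := by
      rcases (norm_nonneg (H (cexp ((x : ℂ) + (θ : ℂ) * I)))).eq_or_lt with h3 | h3
      · rw [← h3, Real.log_zero] at h1
        linarith
      · exact h3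
    rw [← Real.lt_log_iff_exp_lt h2]
    linarith
  have hle : ∀ (H : ℂ → ℂ) (θ : ℝ) (δ : ℝ), 0 ≤ δ →
      ‖H (cexp ((x : ℂ) + (θ : ℂ) * I))‖ ≤ Real.exp (c + δ) → vv H c x θ ≤ δ := by
    intro H θ δ hδ h
    unfold vv
    refine (chimax _).trans (max_le ?_ hδ)
    rcases (norm_nonneg (H (cexp ((x : ℂ) + (θ : ℂ) * I)))).eq_or_lt with h3 | h3
    · rw [← h3, Real.log_zero]
      linarith
    · have := (Real.log_le_iff_le_exp h3).mpr h
      linarith
  have hvnn : ∀ (H : ℂ → ℂ) (θ : ℝ), 0 ≤ vv H c x θ := fun H θ => chinn _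
  have hend : ∀ (H : ℂ → ℂ), (∀ ζ : ℂ, ζ.re ≤ σ₀ → ‖H ζ‖ ≤ Real.exp c) → ∀ θ : ℝ,
      Real.cos θ = 0 → vv H c x θ = 0 := by
    intro H hH θ hθ
    refine le_antisymm ?_ (hvnn H θ)
    apply hle H θ 0 le_rfl
    rw [add_zero]
    apply hH
    rw [hre, hθ, mul_zero]
    linarith [hP.hσ]
  have hc1 : Real.cos (Real.pi / 2) = 0 := Real.cos_pi_div_two
  have hc2 : Real.cos (-(Real.pi / 2)) = 0 := by rw [Real.cos_neg, Real.cos_pi_div_two]
  set δ : ℝ := Real.log (1 + y0) + η0 * S / 20 with hδ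
  have hδnn : 0 ≤ δ := by
    have h1 : 0 ≤ Real.log (1 + y0) := Real.log_nonneg (by linarith)
    have h2 : 0 ≤ η0 * S / 20 := by positivity
    linarith
  have hzone : ∀ θ : ℝ, |θ| ≤ Real.pi / 2 → Real.pi / 2 - η0 ≤ |θ| → vv G c x θ ≤ δ := by
    intro θ h1 h2
    rcases hη0nn.eq_or_lt with h0 | h0
    · have h3 : |θ| = Real.pi / 2 := by
        apply le_antisymm h1
        rw [← h0] at h2
        linarith
      have h4 : Real.cos θ = 0 := by
        rw [← Real.cos_abs, h3, Real.cos_pi_div_two]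
      rw [hend G hGT θ h4]
      exact hδnn
    · have h3 : η0 ≤ max (m y0 - 1) 0 * Real.exp (-x) := min_le_right _ _
      have h4 : 0 < max (m y0 - 1) 0 := by
        by_contra hcon
        have h5 : max (m y0 - 1) 0 = 0 := le_antisymm (not_lt.mp hcon) (le_max_right _ _)
        rw [h5, zero_mul] at h3
        linarith
      have h5 : max (m y0 - 1) 0 = m y0 - 1 := by
        rcases le_total (m y0 - 1) 0 with h6 | h6
        · rw [max_eq_right h6] at h4
          exact absurd h4 (lt_irrefl _)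
        · exact max_eq_left h6
      rw [h5] at h3
      have hexp : Real.exp (-x) * Real.exp x = 1 := by
        rw [← Real.exp_add]; simp
      have h6 : η0 * Real.exp x ≤ m y0 - 1 := by
        calc η0 * Real.exp x ≤ ((m y0 - 1) * Real.exp (-x)) * Real.exp x :=
              mul_le_mul_of_nonneg_right h3 (Real.exp_pos x).le
          _ = (m y0 - 1) * (Real.exp (-x) * Real.exp x) := by ring
          _ = m y0 - 1 := by rw [hexp, mul_one]
      have h7 : Real.cos θ ≤ η0 := by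
        rw [← Real.cos_abs]
        have hpi : (3 : ℝ) < Real.pi := Real.pi_gt_three
        calc Real.cos |θ| ≤ Real.cos (Real.pi / 2 - η0) := by
              apply Real.cos_le_cos_of_nonneg_of_le_pi
              · linarith
              · linarith
              · exact h2
          _ = Real.sin η0 := Real.cos_pi_div_two_sub η0
          _ ≤ η0 := Real.sin_le hη0nn
      have h8 := hp5 (η0 * Real.exp x) y0 (by positivity) hy0nn (by linarith)
        (cexp ((x : ℂ) + (θ : ℂ) * I)) (by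
          rw [hre, mul_comm]
          exact mul_le_mul_of_nonneg_right h7 (Real.exp_pos x).le)
      have h9 : η0 * Real.exp x * y0 = η0 * S / 20 := by
        rw [hy0]
        calc η0 * Real.exp x * (S * Real.exp (-x) / 20)
            = η0 * S / 20 * (Real.exp (-x) * Real.exp x) := by ring
          _ = η0 * S / 20 := by rw [hexp, mul_one]
      rw [h9] at h8
      apply hle G θ δ hδnn
      refine h8.trans ?_
      have h10 : Real.exp (c + δ) = Real.exp c * (1 + y0) * Real.exp (η0 * S / 20) := by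
        rw [hδ, Real.exp_add, Real.exp_add, Real.exp_log (by linarith)]
        ring
      rw [h10]
      have h11 : C₀ ≤ Real.exp c := by linarith [hP.hC]
      gcongr
  have hov : volume {θ : ℝ | |θ| ≤ Real.pi / 2 ∧ 0 < vv G c x θ ∧ 0 < vv F c x θ} ≤
      ENNReal.ofReal (volume A).toReal := by
    rw [ENNReal.ofReal_toReal hAfin]
    apply measure_mono
    intro θ hθ
    exact ⟨hθ.1, hpos F θ hθ.2.2, hpos G θ hθ.2.1⟩
  have key := two_wirt (fun θ => vv G c x θ) (vt x) (fun θ => vv F c x θ) (ut x) η0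
    (volume A).toReal δ hη0nn hη01 ENNReal.toReal_nonneg hδnn (hvt x) (cvt x)
    (fun θ => hvnn G θ) (hut x) (cut x) (fun θ => hvnn F θ)
    ⟨hend G hGT _ hc1, hend G hGT _ hc2⟩ ⟨hend F hFT _ hc1, hend F hFT _ hc2⟩
    hzone hov hIv hIu
  rw [← hS] at key
  have hfin : 10 * (δ / S) ≤ Real.exp (-x) / 2 + η0 / 2 := by
    have h1 : Real.log (1 + y0) ≤ y0 := by
      have := Real.log_le_sub_one_of_pos (show (0 : ℝ) < 1 + y0 by linarith)
      linarith
    have h2 : δ ≤ S * (Real.exp (-x) / 20 + η0 / 20) := by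
      rw [hδ]
      calc Real.log (1 + y0) + η0 * S / 20 ≤ y0 + η0 * S / 20 := by linarith
        _ = S * (Real.exp (-x) / 20 + η0 / 20) := by rw [hy0]; ring
    have h3 : δ / S ≤ Real.exp (-x) / 20 + η0 / 20 := by
      rw [div_le_iff₀ hSpos]
      linarith
    linarith
  refine le_trans ?_ key
  linarith

end

end Pool.Agent.Helper311.TI.J6660

namespace Pool.Agent.Helper311.TI

alias B_ineq := J6660.B_ineq

end Pool.Agent.Helper311.TI

namespace Pool.Agent.Helper311.TI.J6661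

noncomputable section

lemma exp_polar_re (x θ : ℝ) : (cexp ((x : ℂ) + (θ : ℂ) * I)).re = Real.exp x * Real.cos θ := by
  rw [Complex.exp_re]; simp

lemma exp_polar_norm (x θ : ℝ) : ‖cexp ((x : ℂ) + (θ : ℂ) * I)‖ = Real.exp x := by
  rw [Complex.norm_exp]; simp

lemma log_le_of_norm {c y : ℝ} (hc : 0 ≤ c) (hy : 0 ≤ y) (h : y ≤ Real.exp c) : Real.log y ≤ c := by
  rcases eq_or_lt_of_le hy with h0 | h0
  · rw [← h0, Real.log_zero]; exact hc
  · rw [Real.log_le_iff_le_exp h0]; exact h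

lemma vv_zero_of {H : ℂ → ℂ} {c σ₀ : ℝ} (hc : 0 ≤ c)
    (hH : ∀ ζ : ℂ, ζ.re ≤ σ₀ → ‖H ζ‖ ≤ Real.exp c) (x θ : ℝ)
    (h : (cexp ((x : ℂ) + (θ : ℂ) * I)).re ≤ σ₀) : vv H c x θ = 0 := by
  unfold vv
  apply chi_props.1
  have := log_le_of_norm hc (norm_nonneg _) (hH _ h)
  linarith

lemma vv_nonneg (H : ℂ → ℂ) (c x θ : ℝ) : 0 ≤ vv H c x θ := chi_props.2.1 _

lemma vv_le_MM {H : ℂ → ℂ} (hd : Differentiable ℂ H) {c : ℝ} (hc : 0 ≤ c) (x θ : ℝ) :
    vv H c x θ ≤ MM H (Real.exp x) := by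
  have h1 := chi_props.2.2.1 (Real.log ‖H (cexp ((x : ℂ) + (θ : ℂ) * I))‖ - c)
  have h2 := (MM_props H hd).2.2.1 (Real.exp x) (cexp ((x : ℂ) + (θ : ℂ) * I)) (exp_polar_norm x θ).le
  have h3 := (MM_props H hd).2.1 (Real.exp x)
  refine h1.trans (max_le ?_ h3)
  linarith

lemma one_fun (H : ℂ → ℂ) (hd : Differentiable ℂ H) (c σ₀ : ℝ) (hc : 0 ≤ c) (hσ : 1 ≤ σ₀)
    (hH : ∀ ζ : ℂ, ζ.re ≤ σ₀ → ‖H ζ‖ ≤ Real.exp c) (hu : ¬ ∃ B : ℝ, ∀ ζ : ℂ, ‖H ζ‖ ≤ B) :
    ∃ (vt : ℝ → ℝ → ℝ) (I1 I2 : ℝ → ℝ) (x₀ : ℝ),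
      (∀ x θ, HasDerivAt (fun θ => vv H c x θ) (vt x θ) θ) ∧ (∀ x, Continuous (vt x)) ∧
      Continuous I2 ∧
      (∀ x, HasDerivAt (fun x => ∫ θ in (-(Real.pi / 2))..(Real.pi / 2), vv H c x θ ^ 2) (I1 x) x) ∧
      (∀ x, HasDerivAt I1 (I2 x) x) ∧
      Monotone (fun x => ∫ θ in (-(Real.pi / 2))..(Real.pi / 2), vv H c x θ ^ 2) ∧
      (∀ x, x₀ ≤ x → 0 < ∫ θ in (-(Real.pi / 2))..(Real.pi / 2), vv H c x θ ^ 2) ∧
      (∀ x, x₀ ≤ x → 0 < I1 x) ∧
      (∀ x, x₀ ≤ x → 2 * √((∫ θ in (-(Real.pi / 2))..(Real.pi / 2), vt x θ ^ 2) /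
          (∫ θ in (-(Real.pi / 2))..(Real.pi / 2), vv H c x θ ^ 2)) ≤ I2 x / I1 x) ∧
      (∀ x, I1 x ≤ Real.pi * MM H (Real.exp (x + 1)) ^ 2) := by
  obtain ⟨vx, vt, vxx, vtt, hx, ht, hxx, htt, cv, cx, ct, cxx, ctt, hsub⟩ := vv_smooth H hd c hc
  have hσ0 : 0 < σ₀ := by linarith
  have hpi := Real.pi_pos
  have hend : ∀ x, vv H c x (Real.pi / 2) = 0 ∧ vv H c x (-(Real.pi / 2)) = 0 := by
    intro x
    constructor
    · apply vv_zero_of hc hH
      rw [exp_polar_re, Real.cos_pi_div_two, mul_zero]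
      exact hσ0.le
    · apply vv_zero_of hc hH
      rw [exp_polar_re, Real.cos_neg, Real.cos_pi_div_two, mul_zero]
      exact hσ0.le
  have hleft : ∀ x θ, x ≤ Real.log σ₀ → |θ| ≤ Real.pi / 2 → vv H c x θ = 0 := by
    intro x θ hx _
    apply vv_zero_of hc hH
    rw [exp_polar_re]
    have h1 : Real.exp x ≤ σ₀ := by
      rw [← Real.exp_log hσ0]
      exact Real.exp_le_exp.mpr hx
    have h2 := Real.cos_le_one θ
    have h3 := Real.exp_pos x
    nlinarith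
  obtain ⟨I1, I2, cI2, hI1, hI2, hI1n, hI2n, hcar⟩ := carleman (vv H c) vx vt vxx vtt (Real.log σ₀)
    hx ht hxx htt cv cx ct cxx ctt hsub (vv_nonneg H c) hend hleft
  set IV : ℝ → ℝ := fun x => ∫ θ in (-(Real.pi / 2))..(Real.pi / 2), vv H c x θ ^ 2 with hIV
  have hmonoV : Monotone IV := monotone_of_hasDerivAt_nonneg hI1 (fun x => hI1n x)
  have hmono1 : Monotone I1 := monotone_of_hasDerivAt_nonneg hI2 (fun x => hI2n x)
  have hcontV : Continuous IV := continuous_iff_continuousAt.mpr (fun x => (hI1 x).continuousAt)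
  have hab : -(Real.pi / 2) < Real.pi / 2 := by linarith
  have hIVleft : ∀ x, x ≤ Real.log σ₀ → IV x = 0 := by
    intro x hxl
    simp only [hIV]
    have : ∫ θ in (-(Real.pi / 2))..(Real.pi / 2), vv H c x θ ^ 2 =
        ∫ θ in (-(Real.pi / 2))..(Real.pi / 2), (0 : ℝ) := by
      apply intervalIntegral.integral_congr
      intro θ hθ
      rw [uIcc_of_le hab.le] at hθ
      simp only
      rw [hleft x θ hxl (abs_le.mpr hθ)]
      norm_num
    rw [this, intervalIntegral.integral_zero]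
  have hIVn : ∀ x, 0 ≤ IV x := fun x =>
    intervalIntegral.integral_nonneg_of_forall hab.le (fun θ => sq_nonneg _)
  -- a point with positive integral
  have hpos : ∃ x₀, 0 < IV x₀ := by
    push Not at hu
    obtain ⟨ζ, hζ⟩ := hu (Real.exp (c + 4))
    have hre : σ₀ < ζ.re := by
      by_contra hle
      have h1 := hH ζ (not_lt.mp hle)
      have h2 : Real.exp c ≤ Real.exp (c + 4) := Real.exp_le_exp.mpr (by linarith)
      linarith
    have hre0 : 0 < ζ.re := hσ0.trans hre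
    have hζ0 : ζ ≠ 0 := by
      rintro rfl
      simp at hre0
    have hpol : cexp (((Real.log ‖ζ‖ : ℝ) : ℂ) + ((Complex.arg ζ : ℝ) : ℂ) * I) = ζ := by
      have := Complex.exp_log hζ0
      unfold Complex.log at this
      exact this
    have harg : |Complex.arg ζ| < Real.pi / 2 := Complex.abs_arg_lt_pi_div_two_iff.mpr (Or.inl hre0)
    refine ⟨Real.log ‖ζ‖, ?_⟩
    have hcv : Continuous (fun θ => vv H c (Real.log ‖ζ‖) θ ^ 2) :=
      (cv.comp (continuous_const.prodMk continuous_id)).pow 2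
    apply intervalIntegral.integral_pos hab hcv.continuousOn (fun θ _ => sq_nonneg _)
    refine ⟨Complex.arg ζ, ⟨(abs_lt.mp harg).1.le, (abs_lt.mp harg).2.le⟩, ?_⟩
    have h1 : 0 < vv H c (Real.log ‖ζ‖) (Complex.arg ζ) := by
      unfold vv
      rw [hpol]
      have h2 := chi_props.2.2.2.1 (Real.log ‖H ζ‖ - c)
      have h3 : c + 4 < Real.log ‖H ζ‖ := by
        rw [Real.lt_log_iff_exp_lt ((Real.exp_pos _).trans hζ)]
        exact hζ
      linarith
    positivity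
  obtain ⟨x₀, hx₀⟩ := hpos
  have hpos' : ∀ x, x₀ ≤ x → 0 < IV x := fun x hx => lt_of_lt_of_le hx₀ (hmonoV hx)
  have hpos1 : ∀ x, x₀ ≤ x → 0 < I1 x := by
    intro x hx
    have hxa : Real.log σ₀ < x := by
      by_contra hle
      have := hIVleft x (not_lt.mp hle)
      have := hpos' x hx
      linarith
    obtain ⟨ξ, hξ, hs⟩ := exists_hasDerivAt_eq_slope IV I1 hxa hcontV.continuousOn (fun y _ => hI1 y)
    have h1 : 0 < I1 ξ := by
      rw [hs, hIVleft _ le_rfl, sub_zero]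
      exact div_pos (hpos' x hx) (by linarith)
    exact lt_of_lt_of_le h1 (hmono1 hξ.2.le)
  refine ⟨vt, I1, I2, x₀, ht, ?_, cI2, hI1, hI2, hmonoV, hpos', hpos1, ?_, ?_⟩
  · intro x
    exact ct.comp (continuous_const.prodMk continuous_id)
  · intro x hx
    rw [le_div_iff₀ (hpos1 x hx)]
    exact hcar x (hpos' x hx)
  · intro x
    obtain ⟨ξ, hξ, hs⟩ := exists_hasDerivAt_eq_slope IV I1 (by linarith : x < x + 1) hcontV.continuousOn
      (fun y _ => hI1 y)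
    have h1 : I1 x ≤ I1 ξ := hmono1 hξ.1.le
    have h2 : I1 ξ = IV (x + 1) - IV x := by
      rw [hs]; field_simp; ring
    have h3 := hIVn x
    have h4 : IV (x + 1) ≤ Real.pi * MM H (Real.exp (x + 1)) ^ 2 := by
      have h5 : ‖∫ θ in (-(Real.pi / 2))..(Real.pi / 2), vv H c (x + 1) θ ^ 2‖ ≤
          MM H (Real.exp (x + 1)) ^ 2 * |Real.pi / 2 - -(Real.pi / 2)| := by
        apply intervalIntegral.norm_integral_le_of_norm_le_const
        intro θ _
        rw [Real.norm_of_nonneg (sq_nonneg _)]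
        exact pow_le_pow_left₀ (vv_nonneg H c _ _) (vv_le_MM hd hc _ _) 2
      have h6 : |Real.pi / 2 - -(Real.pi / 2)| = Real.pi := by
        rw [sub_neg_eq_add, add_halves, abs_of_pos hpi]
      rw [h6] at h5
      have h7 := (le_abs_self (IV (x + 1)))
      rw [← Real.norm_eq_abs] at h7
      have := h7.trans h5
      linarith
    linarith

lemma eta_meas (m S : ℝ → ℝ) (hm : MonotoneOn m (Ici 0)) (hS : Continuous S) (hS0 : ∀ x, 0 ≤ S x) :
    Measurable (eta m S) := by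
  have h1 : Monotone (fun y : ℝ => m (max y 0)) := by
    intro a b hab
    apply hm
    · exact le_max_right a 0
    · exact le_max_right b 0
    · exact max_le_max_right 0 hab
  have h2 : Measurable (fun t : ℝ => m (max (S t * Real.exp (-t) / 20) 0)) :=
    h1.measurable.comp ((hS.mul (Real.continuous_exp.comp continuous_neg)).div_const 20).measurable
  have h3 : ∀ t, m (max (S t * Real.exp (-t) / 20) 0) = m (S t * Real.exp (-t) / 20) := by
    intro t
    rw [max_eq_left]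
    have := hS0 t
    positivity
  simp only [h3] at h2
  unfold eta
  exact measurable_const.min (((h2.sub_const 1).max measurable_const).mul
    (Real.continuous_exp.comp continuous_neg).measurable)

lemma eta_bd (m S : ℝ → ℝ) (t : ℝ) : 0 ≤ eta m S t ∧ eta m S t ≤ 1 := by
  unfold eta
  constructor
  · apply le_min zero_le_one
    apply mul_nonneg (le_max_right _ _) (Real.exp_pos _).le
  · exact min_le_left _ _

lemma eps_meas (F G : ℂ → ℂ) (hF : Differentiable ℂ F) (hG : Differentiable ℂ G) (T : ℝ) :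
    Measurable (fun x : ℝ => volume {θ : ℝ | |θ| ≤ Real.pi / 2 ∧
        T < ‖F (cexp ((x : ℂ) + (θ : ℂ) * I))‖ ∧ T < ‖G (cexp ((x : ℂ) + (θ : ℂ) * I))‖}) := by
  have hc : Continuous (fun p : ℝ × ℝ => cexp ((p.1 : ℂ) + (p.2 : ℂ) * I)) := by fun_prop
  have hs : MeasurableSet {p : ℝ × ℝ | |p.2| ≤ Real.pi / 2 ∧
      T < ‖F (cexp ((p.1 : ℂ) + (p.2 : ℂ) * I))‖ ∧ T < ‖G (cexp ((p.1 : ℂ) + (p.2 : ℂ) * I))‖} := by
    apply MeasurableSet.inter
    · exact (isClosed_le (continuous_abs.comp continuous_snd) continuous_const).measurableSet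
    apply MeasurableSet.inter
    · exact (isOpen_lt continuous_const (hF.continuous.comp hc).norm).measurableSet
    · exact (isOpen_lt continuous_const (hG.continuous.comp hc).norm).measurableSet
  exact measurable_measure_prodMk_left hs

lemma eps_le (F G : ℂ → ℂ) (T x : ℝ) :
    volume {θ : ℝ | |θ| ≤ Real.pi / 2 ∧
        T < ‖F (cexp ((x : ℂ) + (θ : ℂ) * I))‖ ∧ T < ‖G (cexp ((x : ℂ) + (θ : ℂ) * I))‖} ≤
      ENNReal.ofReal Real.pi := by
  have h1 : {θ : ℝ | |θ| ≤ Real.pi / 2 ∧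
        T < ‖F (cexp ((x : ℂ) + (θ : ℂ) * I))‖ ∧ T < ‖G (cexp ((x : ℂ) + (θ : ℂ) * I))‖} ⊆
      Icc (-(Real.pi / 2)) (Real.pi / 2) := by
    intro θ hθ
    exact abs_le.mp hθ.1
  refine (measure_mono h1).trans ?_
  rw [Real.volume_Icc]
  apply ENNReal.ofReal_le_ofReal
  linarith

theorem B_main {F G : ℂ → ℂ} {Fs Gs : ℝ → ℂ → ℂ} {σ₀ C₀ : ℝ} (hP : Pair F G Fs Gs σ₀ C₀)
    (m : ℝ → ℝ) (hm : MonotoneOn m (Ici 0))
    (hp5 : ∀ s y : ℝ, 0 ≤ s → 0 ≤ y → s + 1 ≤ m y → ∀ ζ : ℂ, ζ.re ≤ s →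
      ‖G ζ‖ ≤ C₀ * (1 + y) * Real.exp (s * y))
    (hF : ¬ ∃ B : ℝ, ∀ ζ : ℂ, ‖F ζ‖ ≤ B) (hG : ¬ ∃ B : ℝ, ∀ ζ : ℂ, ‖G ζ‖ ≤ B) :
    ∃ (S : ℝ → ℝ) (c C x₀ : ℝ), Monotone S ∧ Continuous S ∧ (∀ x, 0 ≤ S x) ∧ 0 < c ∧ 0 ≤ C ∧
      (∀ r, 0 < r → ∀ ζ : ℂ, ‖ζ‖ ≤ r → Real.log ‖G ζ‖ ≤ C + 5 * S (Real.log (2 * r))) ∧
      ∀ x, x₀ ≤ x → c * Real.exp (8 * x + ∫ t in x₀..x, eta m S t) ≤
        MM G (Real.exp (x + 1)) ^ 2 * MM F (Real.exp (x + 1)) ^ 2 := by
  obtain ⟨BF, hBF⟩ := hP.F_bd σ₀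
  obtain ⟨BG, hBG⟩ := hP.G_bd σ₀
  set M : ℝ := max (4 * C₀) (max BF BG) with hM
  have hC := hP.hC
  have hM4 : 4 * C₀ ≤ M := le_max_left _ _
  have hMF : BF ≤ M := (le_max_left _ _).trans (le_max_right _ _)
  have hMG : BG ≤ M := (le_max_right _ _).trans (le_max_right _ _)
  have hM1 : 1 ≤ M := by linarith
  set c : ℝ := Real.log M with hc
  have hc0 : 0 ≤ c := Real.log_nonneg hM1
  have hec : Real.exp c = M := Real.exp_log (by linarith)
  have hFT : ∀ ζ : ℂ, ζ.re ≤ σ₀ → ‖F ζ‖ ≤ Real.exp c := by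
    intro ζ hζ; rw [hec]; exact (hBF ζ hζ).trans hMF
  have hGT : ∀ ζ : ℂ, ζ.re ≤ σ₀ → ‖G ζ‖ ≤ Real.exp c := by
    intro ζ hζ; rw [hec]; exact (hBG ζ hζ).trans hMG
  have hec4 : 4 * C₀ ≤ Real.exp c := by rw [hec]; exact hM4
  obtain ⟨vt, V1, V2, xV, hvt, cvt, cV2, hV1, hV2, monoV, posV, posV1, carV, bdV⟩ :=
    one_fun G hP.G_diff c σ₀ hc0 hP.hσ hGT hG
  obtain ⟨ut, U1, U2, xU, hut, cut, cU2, hU1, hU2, monoU, posU, posU1, carU, bdU⟩ :=
    one_fun F hP.F_diff c σ₀ hc0 hP.hσ hFT hF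
  set S : ℝ → ℝ := fun x => √(∫ θ in (-(Real.pi / 2))..(Real.pi / 2), vv G c x θ ^ 2) with hS
  have hSmono : Monotone S := fun a b hab => Real.sqrt_le_sqrt (monoV hab)
  have hScont : Continuous S :=
    Real.continuous_sqrt.comp (continuous_iff_continuousAt.mpr (fun x => (hV1 x).continuousAt))
  have hS0 : ∀ x, 0 ≤ S x := fun x => Real.sqrt_nonneg _
  set x₀ : ℝ := max xV xU with hx₀
  have hx₀V : xV ≤ x₀ := le_max_left _ _
  have hx₀U : xU ≤ x₀ := le_max_right _ _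
  set eps : ℝ → ENNReal := fun x => volume {θ : ℝ | |θ| ≤ Real.pi / 2 ∧
        Real.exp c < ‖F (cexp ((x : ℂ) + (θ : ℂ) * I))‖ ∧
        Real.exp c < ‖G (cexp ((x : ℂ) + (θ : ℂ) * I))‖} with heps
  have hepsm : Measurable eps := eps_meas F G hP.F_diff hP.G_diff (Real.exp c)
  have hepsle : ∀ x, eps x ≤ ENNReal.ofReal Real.pi := fun x => eps_le F G (Real.exp c) x
  have hepsint : ∫⁻ x, eps x ≤ ENNReal.ofReal (2 * C₀) := overlap hP (Real.exp c) hec4 hGT
  set φ : ℝ → ℝ := fun t => 8 + eta m S t - 32 * (eps t).toReal - Real.exp (-t) with hφ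
  have hepsb : ∀ t, 0 ≤ (eps t).toReal ∧ (eps t).toReal ≤ Real.pi := by
    intro t
    refine ⟨ENNReal.toReal_nonneg, ?_⟩
    exact ENNReal.toReal_le_of_le_ofReal Real.pi_pos.le (hepsle t)
  have hetam : Measurable (eta m S) := eta_meas m S hm hScont hS0
  have hetai : ∀ a b : ℝ, IntervalIntegrable (eta m S) volume a b := by
    intro a b
    apply (intervalIntegrable_const (c := (1:ℝ)) (μ := volume) (a := a) (b := b)).mono_fun'
      hetam.aestronglyMeasurable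
    apply Filter.Eventually.of_forall
    intro t
    simp only
    rw [Real.norm_of_nonneg (eta_bd m S t).1]
    exact (eta_bd m S t).2
  have hepsi : ∀ a b : ℝ, IntervalIntegrable (fun t => (eps t).toReal) volume a b := by
    intro a b
    apply (intervalIntegrable_const (c := Real.pi) (μ := volume) (a := a) (b := b)).mono_fun'
      hepsm.ennreal_toReal.aestronglyMeasurable
    apply Filter.Eventually.of_forall
    intro t
    simp only
    rw [Real.norm_of_nonneg (hepsb t).1]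
    exact (hepsb t).2
  have hexpi : ∀ a b : ℝ, IntervalIntegrable (fun t : ℝ => Real.exp (-t)) volume a b := fun a b =>
    (Real.continuous_exp.comp continuous_neg).intervalIntegrable a b
  have hφi : ∀ a b : ℝ, IntervalIntegrable φ volume a b := fun a b =>
    ((intervalIntegrable_const.add (hetai a b)).sub ((hepsi a b).const_mul 32)).sub (hexpi a b)
  have hφint : ∀ x, x₀ ≤ x → 8 * (x - x₀) + (∫ t in x₀..x, eta m S t) - 64 * C₀ - Real.exp (-x₀) ≤
      ∫ t in x₀..x, φ t := by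
    intro x hx
    have e1 : ∫ t in x₀..x, φ t = (x - x₀) * 8 + (∫ t in x₀..x, eta m S t) -
        32 * (∫ t in x₀..x, (eps t).toReal) - ∫ t in x₀..x, Real.exp (-t) := by
      simp only [hφ]
      rw [intervalIntegral.integral_sub ((intervalIntegrable_const.add (hetai x₀ x)).sub
        ((hepsi x₀ x).const_mul 32)) (hexpi x₀ x),
        intervalIntegral.integral_sub (intervalIntegrable_const.add (hetai x₀ x)) ((hepsi x₀ x).const_mul 32),
        intervalIntegral.integral_add intervalIntegrable_const (hetai x₀ x),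
        intervalIntegral.integral_const, intervalIntegral.integral_const_mul, smul_eq_mul]
    have e2 : ∫ t in x₀..x, Real.exp (-t) = Real.exp (-x₀) - Real.exp (-x) := by
      have hd : ∀ t ∈ uIcc x₀ x, HasDerivAt (fun t : ℝ => -Real.exp (-t)) (Real.exp (-t)) t := by
        intro t _
        have h0 : HasDerivAt (fun t : ℝ => -t) (-1) t := (hasDerivAt_id t).neg
        have h1 : HasDerivAt (fun t : ℝ => -Real.exp (-t)) (-(Real.exp (-t) * (-1))) t := (h0.exp).neg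
        rw [mul_neg, mul_one, neg_neg] at h1
        exact h1
      rw [intervalIntegral.integral_eq_sub_of_hasDerivAt hd (hexpi x₀ x)]
      ring
    have e3 : ∫ t in x₀..x, (eps t).toReal ≤ 2 * C₀ := by
      rw [intervalIntegral.integral_of_le hx]
      rw [integral_toReal hepsm.aemeasurable
        (Filter.Eventually.of_forall fun t => (hepsle t).trans_lt ENNReal.ofReal_lt_top)]
      apply ENNReal.toReal_le_of_le_ofReal (by linarith)
      exact (setLIntegral_le_lintegral _ _).trans hepsint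
    have e4 := Real.exp_pos (-x)
    rw [e1, e2]
    linarith
  have hineq : ∀ t, x₀ ≤ t → φ t ≤ V2 t / V1 t + U2 t / U1 t := by
    intro t ht
    have h1 := B_ineq hP m hp5 c hc0 hec4 hFT hGT vt ut hvt hut cvt cut t (posV t (hx₀V.trans ht))
      (posU t (hx₀U.trans ht))
    have h2 := carV t (hx₀V.trans ht)
    have h3 := carU t (hx₀U.trans ht)
    simp only [hφ]
    linarith
  have hlog : ∀ x, x₀ ≤ x → V1 x₀ * U1 x₀ * Real.exp (∫ t in x₀..x, φ t) ≤ V1 x * U1 x := by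
    intro x hx
    exact log_growth V1 U1 V2 U2 φ x₀ x hx (fun t ht => posV1 t (hx₀V.trans ht))
      (fun t ht => posU1 t (hx₀U.trans ht)) hV2 hU2 cV2 cU2 (hφi x₀ x) hineq
  have hV10 := posV1 x₀ hx₀V
  have hU10 := posU1 x₀ hx₀U
  have hpi := Real.pi_pos
  refine ⟨S, V1 x₀ * U1 x₀ * Real.exp (-(8 * x₀) - 64 * C₀ - Real.exp (-x₀)) / Real.pi ^ 2,
    16 * (c + 3), x₀, hSmono, hScont, hS0, by positivity, by positivity, ?_, ?_⟩
  · intro r hr ζ hζ
    refine sup_of_L2 G hP.G_diff c hc0 ?_ monoV r hr ζ hζ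
    intro ξ hξ
    exact log_le_of_norm hc0 (norm_nonneg _) (hGT ξ (hξ.trans (by linarith [hP.hσ])))
  · intro x hx
    have h1 := hlog x hx
    have h2 := hφint x hx
    have h3 : V1 x * U1 x ≤ (Real.pi * MM G (Real.exp (x + 1)) ^ 2) * (Real.pi * MM F (Real.exp (x + 1)) ^ 2) :=
      mul_le_mul (bdV x) (bdU x) (posU1 x (hx₀U.trans hx)).le (by positivity)
    have h4 : V1 x₀ * U1 x₀ * Real.exp (-(8 * x₀) - 64 * C₀ - Real.exp (-x₀)) *
        Real.exp (8 * x + ∫ t in x₀..x, eta m S t) ≤ V1 x₀ * U1 x₀ * Real.exp (∫ t in x₀..x, φ t) := by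
      rw [mul_assoc (V1 x₀ * U1 x₀), ← Real.exp_add]
      apply mul_le_mul_of_nonneg_left _ (by positivity)
      apply Real.exp_le_exp.mpr
      linarith
    rw [div_mul_eq_mul_div, div_le_iff₀ (by positivity)]
    have h5 := (h4.trans h1).trans h3
    refine h5.trans (le_of_eq ?_)
    ring

end

end Pool.Agent.Helper311.TI.J6661

namespace Pool.Agent.Helper311.TI

alias B_main := J6661.B_main

end Pool.Agent.Helper311.TI
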