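import Mathlib
import Pool.Agent.Helper311.TI.Defs
import Pool.Agent.Helper311.TI.Jensen

set_option autoImplicit false

open MeasureTheory Filter Topology Complex Set

namespace Pool.Agent.Helper311.TI.J6644

noncomputable section

lemma cauchy_lint (d : ℝ) (hd : 0 < d) :
    ∫⁻ t : ℝ, ENNReal.ofReal (d / (d ^ 2 + t ^ 2)) = ENNReal.ofReal Real.pi := by
  have e : ∀ t : ℝ, d / (d ^ 2 + t ^ 2) = d⁻¹ * (1 + (t / d) ^ 2)⁻¹ := by
    intro t; field_simp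
  have hi : Integrable (fun t : ℝ => d⁻¹ * (1 + (t / d) ^ 2)⁻¹) :=
    (integrable_inv_one_add_sq.comp_div hd.ne').const_mul _
  simp_rw [e]
  rw [← ofReal_integral_eq_lintegral_ofReal hi (ae_of_all _ fun t => by positivity)]
  rw [integral_const_mul]
  have h := MeasureTheory.Measure.integral_comp_div (fun x : ℝ => (1 + x ^ 2)⁻¹) d
  rw [h, integral_univ_inv_one_add_sq, abs_of_pos hd, smul_eq_mul]
  rw [inv_mul_cancel_left₀ hd.ne']

lemma log_bd (h g : ℂ) (D A : ℝ) (hD : 0 ≤ D) (hA : 0 ≤ A) (h1 : ‖h - g‖ ≤ D)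
    (h2 : Real.log ‖g‖ ≤ A) : Real.log ‖h‖ ≤ A + 1 + D := by
  have h3 : ‖h‖ ≤ ‖g‖ + D := by
    have := norm_sub_norm_le h g
    linarith
  have hg : ‖g‖ ≤ Real.exp A := by
    rcases (norm_nonneg g).eq_or_lt with h0 | h0
    · rw [← h0]; exact (Real.exp_pos A).le
    · exact (Real.log_le_iff_le_exp h0).1 h2
  rcases (norm_nonneg h).eq_or_lt with h0 | h0
  · rw [← h0, Real.log_zero]; linarith
  · rw [Real.log_le_iff_le_exp h0]
    have e2 : 1 ≤ Real.exp A := Real.one_le_exp hA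
    have e4 : D + 1 ≤ Real.exp D := Real.add_one_le_exp D
    calc ‖h‖ ≤ Real.exp A + D := by linarith
      _ ≤ Real.exp A * (D + 1) := by nlinarith
      _ ≤ Real.exp A * Real.exp D := by gcongr
      _ ≤ Real.exp (A + 1 + D) := by
        rw [← Real.exp_add]
        exact Real.exp_le_exp.2 (by linarith)

lemma line_est (G H : ℂ → ℂ) (hG : Continuous G) (hH : Differentiable ℂ H)
    (C₀ r A σ : ℝ) (hC : 1 ≤ C₀) (hr : 1 ≤ r) (hA : 0 ≤ A) (hσ0 : 0 ≤ σ) (hσ : σ < 2 * r)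
    (ζ₀ : ℂ) (h0 : ‖ζ₀‖ ≤ 128 * r) (h1 : 4 * r ≤ ζ₀.re) (h2 : 4 * C₀ ≤ ‖G ζ₀‖)
    (hsub : ∀ ζ : ℂ, σ < ζ.re → ‖H ζ - G ζ‖ ≤ C₀ * (1 + 1 / (ζ.re - σ)))
    (hGA : ∀ ζ : ℂ, ‖ζ‖ ≤ 640 * r → Real.log ‖G ζ‖ ≤ A) :
    ∫⁻ τ in Ioo (-(2 * r)) (2 * r), ENNReal.ofReal (-Real.log ‖H ((σ : ℂ) + (τ : ℂ) * I)‖) ≤
      ENNReal.ofReal (10 ^ 6 * C₀ * r * (A + 1)) +
      ENNReal.ofReal (2 * 10 ^ 6 * r) *
        ∫⁻ τ : ℝ, ENNReal.ofReal (‖H ((σ : ℂ) + (τ : ℂ) * I) - G ((σ : ℂ) + (τ : ℂ) * I)‖ - C₀) *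
          ENNReal.ofReal (2 * r / ((2 * r) ^ 2 + (τ - ζ₀.im) ^ 2)) := by
  set τ0 := ζ₀.im with hτ0
  have hτ0le : |τ0| ≤ 128 * r := (Complex.abs_im_le_norm ζ₀).trans h0
  have hre : ζ₀.re ≤ 128 * r := (Complex.re_le_norm ζ₀).trans h0
  obtain ⟨d, hd⟩ : ∃ d : ℝ, d = ζ₀.re - σ := ⟨_, rfl⟩
  have hd1 : 2 * r ≤ d := by linarith
  have hd2 : d ≤ 128 * r := by linarith
  have hdpos : 0 < d := by linarith
  have hrpos : 0 < r := by linarith
  have hC0 : 0 < C₀ := by linarith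
  obtain ⟨b, hb⟩ : ∃ b : ℂ, b = (σ : ℂ) + (τ0 : ℂ) * I := ⟨_, rfl⟩
  have hbd : b + d = ζ₀ := by
    apply Complex.ext <;> simp [hb, hd, hτ0]
  have hH1 : 1 ≤ ‖H (b + d)‖ := by
    rw [hbd]
    have h3 := hsub ζ₀ (by linarith)
    rw [← hd] at h3
    have h4 : 1 / d ≤ 1 := by rw [div_le_one hdpos]; linarith
    have h5 : C₀ * (1 + 1 / d) ≤ C₀ * 2 := by
      apply mul_le_mul_of_nonneg_left _ hC0.le
      linarith
    have h6 := norm_sub_norm_le (G ζ₀) (H ζ₀)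
    rw [norm_sub_rev] at h6
    linarith
  have hJ := halfdisc_jensen H hH b (400 * r) d hdpos (by linarith) hH1
  have hbt : ∀ t : ℝ, b + (t : ℂ) * I = (σ : ℂ) + ((t + τ0 : ℝ) : ℂ) * I := by
    intro t; rw [hb]; push_cast; ring
  have hbn : ‖b‖ ≤ 130 * r := by
    rw [hb]
    refine (norm_add_le _ _).trans ?_
    rw [norm_mul, Complex.norm_I, mul_one, Complex.norm_real, Complex.norm_real,
      Real.norm_eq_abs, Real.norm_eq_abs, abs_of_nonneg hσ0]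
    linarith
  have hnorm_line : ∀ t : ℝ, |t| ≤ 400 * r → ‖b + (t : ℂ) * I‖ ≤ 640 * r := by
    intro t ht
    refine (norm_add_le _ _).trans ?_
    rw [norm_mul, Complex.norm_I, mul_one, Complex.norm_real, Real.norm_eq_abs]
    linarith
  have h64 : (64 : ENNReal) = ENNReal.ofReal 64 := by simp
  have hker : ∀ t : ℝ, ENNReal.ofReal (d / (d ^ 2 + t ^ 2)) ≤
      64 * ENNReal.ofReal (2 * r / ((2 * r) ^ 2 + t ^ 2)) := by
    intro t
    rw [h64, ← ENNReal.ofReal_mul (by norm_num)]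
    refine ENNReal.ofReal_le_ofReal ?_
    rw [mul_div_assoc', div_le_div_iff₀ (by positivity) (by positivity)]
    have h7 : (2 * r) ^ 2 + t ^ 2 ≤ d ^ 2 + t ^ 2 := by nlinarith
    calc d * ((2 * r) ^ 2 + t ^ 2) ≤ (128 * r) * (d ^ 2 + t ^ 2) :=
          mul_le_mul hd2 h7 (by positivity) (by positivity)
      _ = 64 * (2 * r) * (d ^ 2 + t ^ 2) := by ring
  obtain ⟨K, hK⟩ : ∃ K : ℝ → ENNReal, K = fun t : ℝ =>
      ENNReal.ofReal (‖H (b + t * I) - G (b + t * I)‖ - C₀) *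
      ENNReal.ofReal (2 * r / ((2 * r) ^ 2 + t ^ 2)) := ⟨_, rfl⟩
  have hL : ∫⁻ t in Ioo (-(400 * r)) (400 * r), ENNReal.ofReal (Real.log ‖H (b + t * I)‖) *
      ENNReal.ofReal (d / (d ^ 2 + t ^ 2)) ≤
      ENNReal.ofReal ((A + 1 + C₀) * Real.pi) + 64 * ∫⁻ t : ℝ, K t := by
    calc ∫⁻ t in Ioo (-(400 * r)) (400 * r), ENNReal.ofReal (Real.log ‖H (b + t * I)‖) *
      ENNReal.ofReal (d / (d ^ 2 + t ^ 2))
        ≤ ∫⁻ t in Ioo (-(400 * r)) (400 * r), (ENNReal.ofReal (A + 1 + C₀) *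
            ENNReal.ofReal (d / (d ^ 2 + t ^ 2)) + 64 * K t) := by
          refine setLIntegral_mono' measurableSet_Ioo fun t ht => ?_
          have ht' : |t| ≤ 400 * r := abs_le.2 ⟨ht.1.le, ht.2.le⟩
          have h3 := log_bd (H (b + t * I)) (G (b + t * I)) ‖H (b + t * I) - G (b + t * I)‖ A
            (norm_nonneg _) hA le_rfl (hGA _ (hnorm_line t ht'))
          have h4 : ENNReal.ofReal (Real.log ‖H (b + t * I)‖) ≤ ENNReal.ofReal (A + 1 + C₀) +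
              ENNReal.ofReal (‖H (b + t * I) - G (b + t * I)‖ - C₀) :=
            (ENNReal.ofReal_le_ofReal (by linarith : _ ≤ (A + 1 + C₀) +
              (‖H (b + t * I) - G (b + t * I)‖ - C₀))).trans ENNReal.ofReal_add_le
          calc ENNReal.ofReal (Real.log ‖H (b + t * I)‖) * ENNReal.ofReal (d / (d ^ 2 + t ^ 2))
              ≤ (ENNReal.ofReal (A + 1 + C₀) +
                ENNReal.ofReal (‖H (b + t * I) - G (b + t * I)‖ - C₀)) *
                ENNReal.ofReal (d / (d ^ 2 + t ^ 2)) := by gcongr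
            _ = ENNReal.ofReal (A + 1 + C₀) * ENNReal.ofReal (d / (d ^ 2 + t ^ 2)) +
                ENNReal.ofReal (‖H (b + t * I) - G (b + t * I)‖ - C₀) *
                ENNReal.ofReal (d / (d ^ 2 + t ^ 2)) := add_mul _ _ _
            _ ≤ ENNReal.ofReal (A + 1 + C₀) * ENNReal.ofReal (d / (d ^ 2 + t ^ 2)) + 64 * K t := by
                refine add_le_add le_rfl ?_
                rw [hK]
                calc ENNReal.ofReal (‖H (b + t * I) - G (b + t * I)‖ - C₀) *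
                    ENNReal.ofReal (d / (d ^ 2 + t ^ 2))
                    ≤ ENNReal.ofReal (‖H (b + t * I) - G (b + t * I)‖ - C₀) *
                      (64 * ENNReal.ofReal (2 * r / ((2 * r) ^ 2 + t ^ 2))) :=
                      mul_le_mul_right (hker t) _
                  _ = _ := by ring
      _ ≤ ∫⁻ t : ℝ, (ENNReal.ofReal (A + 1 + C₀) *
            ENNReal.ofReal (d / (d ^ 2 + t ^ 2)) + 64 * K t) := setLIntegral_le_lintegral _ _
      _ = (∫⁻ t : ℝ, ENNReal.ofReal (A + 1 + C₀) * ENNReal.ofReal (d / (d ^ 2 + t ^ 2))) +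
            ∫⁻ t : ℝ, 64 * K t := by
          rw [lintegral_add_left]
          fun_prop
      _ = ENNReal.ofReal ((A + 1 + C₀) * Real.pi) + 64 * ∫⁻ t : ℝ, K t := by
          rw [lintegral_const_mul' _ _ ENNReal.ofReal_ne_top,
            lintegral_const_mul' _ _ (by norm_num), cauchy_lint d hdpos,
            ← ENNReal.ofReal_mul (by positivity)]
  have hArc : ∫⁻ φ in Ioo (-(Real.pi / 2)) (Real.pi / 2),
        ENNReal.ofReal (Real.log ‖H (b + ((400 * r : ℝ) : ℂ) * cexp (φ * I))‖) *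
          ENNReal.ofReal (2 * Real.cos φ) ≤
      ENNReal.ofReal ((2 * (A + 1 + C₀) + 2 * C₀) * Real.pi) := by
    calc ∫⁻ φ in Ioo (-(Real.pi / 2)) (Real.pi / 2),
        ENNReal.ofReal (Real.log ‖H (b + ((400 * r : ℝ) : ℂ) * cexp (φ * I))‖) *
          ENNReal.ofReal (2 * Real.cos φ)
        ≤ ∫⁻ φ in Ioo (-(Real.pi / 2)) (Real.pi / 2),
            ENNReal.ofReal (2 * (A + 1 + C₀) + 2 * C₀) := by
          refine setLIntegral_mono' measurableSet_Ioo fun φ hφ => ?_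
          have hc : 0 < Real.cos φ := Real.cos_pos_of_mem_Ioo hφ
          have hc1 := Real.cos_le_one φ
          rw [← ENNReal.ofReal_mul' (by positivity)]
          refine ENNReal.ofReal_le_ofReal ?_
          obtain ⟨z, hz⟩ : ∃ z : ℂ, z = b + ((400 * r : ℝ) : ℂ) * cexp (φ * I) := ⟨_, rfl⟩
          rw [← hz]
          have hzre : z.re = σ + 400 * r * Real.cos φ := by
            rw [hz, Complex.add_re, Complex.re_ofReal_mul, Complex.exp_ofReal_mul_I_re, hb]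
            simp
          have hzn : ‖z‖ ≤ 640 * r := by
            rw [hz]
            refine (norm_add_le _ _).trans ?_
            rw [norm_mul, Complex.norm_exp_ofReal_mul_I, mul_one, Complex.norm_real,
              Real.norm_eq_abs, abs_of_pos (by positivity)]
            linarith
          have hrc : 0 < 400 * r * Real.cos φ := by positivity
          have hs := hsub z (by rw [hzre]; linarith)
          have hzσ : z.re - σ = 400 * r * Real.cos φ := by rw [hzre]; ring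
          rw [hzσ] at hs
          have hl := log_bd (H z) (G z) (C₀ * (1 + 1 / (400 * r * Real.cos φ))) A (by positivity)
            hA hs (hGA z hzn)
          have hr2 : C₀ * 2 / (400 * r) ≤ C₀ * 2 := by
            apply div_le_self (by positivity)
            linarith
          have hcc : (A + 1 + C₀) * (2 * Real.cos φ) ≤ (A + 1 + C₀) * 2 := by
            apply mul_le_mul_of_nonneg_left _ (by positivity)
            linarith
          calc Real.log ‖H z‖ * (2 * Real.cos φ)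
              ≤ (A + 1 + C₀ * (1 + 1 / (400 * r * Real.cos φ))) * (2 * Real.cos φ) :=
                mul_le_mul_of_nonneg_right hl (by positivity)
            _ = (A + 1 + C₀) * (2 * Real.cos φ) + C₀ * 2 / (400 * r) := by field_simp; ring
            _ ≤ 2 * (A + 1 + C₀) + 2 * C₀ := by linarith
      _ = ENNReal.ofReal ((2 * (A + 1 + C₀) + 2 * C₀) * Real.pi) := by
          rw [setLIntegral_const, Real.volume_Ioo, ← ENNReal.ofReal_mul (by positivity)]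
          congr 1
          ring
  have hlow : ∫⁻ τ in Ioo (-(2 * r)) (2 * r),
      ENNReal.ofReal (-Real.log ‖H ((σ : ℂ) + (τ : ℂ) * I)‖) ≤
      ENNReal.ofReal (8500 * r * (25 / 9)) * ∫⁻ t in Ioo (-(400 * r / 2)) (400 * r / 2),
        ENNReal.ofReal (-Real.log ‖H (b + t * I)‖) *
        ENNReal.ofReal (9 / 25 * (d / (d ^ 2 + t ^ 2))) := by
    rw [← lintegral_const_mul' _ _ ENNReal.ofReal_ne_top]
    rw [← lintegral_indicator measurableSet_Ioo, ← lintegral_indicator measurableSet_Ioo]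
    rw [← lintegral_add_right_eq_self _ τ0]
    refine lintegral_mono fun t => ?_
    by_cases ht : t + τ0 ∈ Ioo (-(2 * r)) (2 * r)
    · have ha := abs_le.1 hτ0le
      have ht1 : -(130 * r) ≤ t := by linarith [ht.1, ha.2]
      have ht2 : t ≤ 130 * r := by linarith [ht.2, ha.1]
      have ht3 : t ∈ Ioo (-(400 * r / 2)) (400 * r / 2) := ⟨by linarith, by linarith⟩
      rw [indicator_of_mem ht, indicator_of_mem ht3, hbt]
      have hge : 1 ≤ ENNReal.ofReal (8500 * r * (25 / 9)) *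
          ENNReal.ofReal (9 / 25 * (d / (d ^ 2 + t ^ 2))) := by
        rw [← ENNReal.ofReal_mul (by positivity), ← ENNReal.ofReal_one]
        refine ENNReal.ofReal_le_ofReal ?_
        have hq : 8500 * r * (25 / 9) * (9 / 25 * (d / (d ^ 2 + t ^ 2))) =
            (8500 * r * d) / (d ^ 2 + t ^ 2) := by
          field_simp
        rw [hq, le_div_iff₀ (by positivity), one_mul]
        have ht4 : t ^ 2 ≤ (130 * r) ^ 2 := by nlinarith
        have hdd : 0 ≤ (d - 2 * r) * (128 * r - d) :=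
          mul_nonneg (by linarith) (by linarith)
        have hrd : r * (2 * r) ≤ r * d := mul_le_mul_of_nonneg_left hd1 hrpos.le
        nlinarith
      calc ENNReal.ofReal (-Real.log ‖H ((σ : ℂ) + ((t + τ0 : ℝ) : ℂ) * I)‖)
          = ENNReal.ofReal (-Real.log ‖H ((σ : ℂ) + ((t + τ0 : ℝ) : ℂ) * I)‖) * 1 :=
            (mul_one _).symm
        _ ≤ ENNReal.ofReal (-Real.log ‖H ((σ : ℂ) + ((t + τ0 : ℝ) : ℂ) * I)‖) *
            (ENNReal.ofReal (8500 * r * (25 / 9)) *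
          ENNReal.ofReal (9 / 25 * (d / (d ^ 2 + t ^ 2)))) := mul_le_mul_right hge _
        _ = _ := by ring
    · rw [indicator_of_notMem ht]
      exact zero_le
  have hKeq : ∫⁻ t : ℝ, K t = ∫⁻ τ : ℝ,
      ENNReal.ofReal (‖H ((σ : ℂ) + (τ : ℂ) * I) - G ((σ : ℂ) + (τ : ℂ) * I)‖ - C₀) *
          ENNReal.ofReal (2 * r / ((2 * r) ^ 2 + (τ - τ0) ^ 2)) := by
    rw [← lintegral_add_right_eq_self (fun τ : ℝ =>
      ENNReal.ofReal (‖H ((σ : ℂ) + (τ : ℂ) * I) - G ((σ : ℂ) + (τ : ℂ) * I)‖ - C₀) *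
          ENNReal.ofReal (2 * r / ((2 * r) ^ 2 + (τ - τ0) ^ 2))) τ0]
    refine lintegral_congr fun t => ?_
    rw [hK]
    simp only
    rw [hbt, add_sub_cancel_right]
  rw [← hKeq]
  have hpi : Real.pi < 3.15 := Real.pi_lt_d2
  calc ∫⁻ τ in Ioo (-(2 * r)) (2 * r),
      ENNReal.ofReal (-Real.log ‖H ((σ : ℂ) + (τ : ℂ) * I)‖)
      ≤ ENNReal.ofReal (8500 * r * (25 / 9)) * ((ENNReal.ofReal ((A + 1 + C₀) * Real.pi) +
          64 * ∫⁻ t : ℝ, K t) + ENNReal.ofReal ((2 * (A + 1 + C₀) + 2 * C₀) * Real.pi)) :=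
        hlow.trans (mul_le_mul_right (hJ.trans (add_le_add hL hArc)) _)
    _ = ENNReal.ofReal (8500 * r * (25 / 9)) * (ENNReal.ofReal ((A + 1 + C₀) * Real.pi) +
          ENNReal.ofReal ((2 * (A + 1 + C₀) + 2 * C₀) * Real.pi)) +
          (ENNReal.ofReal (8500 * r * (25 / 9)) * 64) * ∫⁻ t : ℝ, K t := by ring
    _ ≤ ENNReal.ofReal (10 ^ 6 * C₀ * r * (A + 1)) +
        ENNReal.ofReal (2 * 10 ^ 6 * r) * ∫⁻ t : ℝ, K t := by
      refine add_le_add ?_ (mul_le_mul_left ?_ _)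
      · rw [← ENNReal.ofReal_add (by positivity) (by positivity),
          ← ENNReal.ofReal_mul (by positivity)]
        refine ENNReal.ofReal_le_ofReal ?_
        have h8 : A + 1 ≤ C₀ * (A + 1) := by nlinarith
        have h9 : C₀ ≤ C₀ * (A + 1) := by nlinarith
        have hX : 0 ≤ C₀ * (A + 1) := by positivity
        have h10 : (A + 1 + C₀) * Real.pi + (2 * (A + 1 + C₀) + 2 * C₀) * Real.pi ≤
            (8 * (C₀ * (A + 1))) * 3.15 := by
          have : (A + 1 + C₀) * Real.pi + (2 * (A + 1 + C₀) + 2 * C₀) * Real.pi =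
            (3 * (A + 1) + 5 * C₀) * Real.pi := by ring
          rw [this]
          exact mul_le_mul (by linarith) hpi.le Real.pi_pos.le (by positivity)
        calc 8500 * r * (25 / 9) * ((A + 1 + C₀) * Real.pi +
              (2 * (A + 1 + C₀) + 2 * C₀) * Real.pi)
            ≤ 8500 * r * (25 / 9) * ((8 * (C₀ * (A + 1))) * 3.15) :=
              mul_le_mul_of_nonneg_left h10 (by positivity)
          _ = (8500 * (25 / 9) * 8 * 3.15) * (C₀ * r * (A + 1)) := by ring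
          _ ≤ 10 ^ 6 * (C₀ * r * (A + 1)) :=
              mul_le_mul_of_nonneg_right (by norm_num) (by positivity)
          _ = 10 ^ 6 * C₀ * r * (A + 1) := by ring
      · rw [h64, ← ENNReal.ofReal_mul (by positivity)]
        refine ENNReal.ofReal_le_ofReal ?_
        nlinarith

end

end Pool.Agent.Helper311.TI.J6644

namespace Pool.Agent.Helper311.TI

alias line_est := J6644.line_est

end Pool.Agent.Helper311.TI

namespace Pool.Agent.Helper311.TI.J6645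

noncomputable section

lemma j6645_sin_re (w : ℂ) : (Complex.sin w).re = Real.sin w.re * Real.cosh w.im := by
  rw [Complex.sin_eq, ← Complex.ofReal_sin, ← Complex.ofReal_cosh, ← Complex.ofReal_cos,
    ← Complex.ofReal_sinh]
  simp only [Complex.add_re, Complex.mul_re, Complex.mul_im, Complex.ofReal_re, Complex.ofReal_im,
    Complex.I_re, Complex.I_im]
  ring

lemma j6645_sin_ge {u : ℝ} (h0 : Real.pi / 4 ≤ u) (h1 : u ≤ 3 * Real.pi / 4) :
    1 / 2 ≤ Real.sin u := by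
  have hpi := Real.pi_le_four
  have h2 : |u - Real.pi / 2| ≤ 1 := abs_le.2 ⟨by linarith, by linarith⟩
  have h3 : (u - Real.pi / 2) ^ 2 ≤ 1 := by
    rw [← sq_abs]
    exact pow_le_one₀ (abs_nonneg _) h2
  have h4 := Real.one_sub_sq_div_two_le_cos (x := u - Real.pi / 2)
  rw [Real.cos_sub_pi_div_two] at h4
  linarith

lemma j6645_cosh_big : (20 / 9 : ℝ) * 10 ^ 10 ≤ Real.cosh (8 * Real.pi) := by
  have h1 : (2.7 : ℝ) ≤ Real.exp 1 := by
    have := Real.exp_one_gt_d9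
    linarith
  have h2 : (2.7 : ℝ) ^ 25 ≤ Real.exp 1 ^ 25 := pow_le_pow_left₀ (by norm_num) h1 25
  have h3 : Real.exp 1 ^ 25 = Real.exp 25 := by
    rw [← Real.exp_nat_mul]
    norm_num
  have h4 : Real.exp 25 ≤ Real.exp (8 * Real.pi) := by
    apply Real.exp_le_exp.2
    have := Real.pi_gt_d2
    linarith
  have h5 : (5 : ℝ) * 10 ^ 10 ≤ 2.7 ^ 25 := by norm_num
  have h6 := Real.exp_pos (-(8 * Real.pi))
  rw [Real.cosh_eq]
  rw [h3] at h2
  have h7 : (5 : ℝ) * 10 ^ 10 ≤ Real.exp (8 * Real.pi) := h5.trans (h2.trans h4)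
  norm_num at h7 ⊢
  linarith

lemma j6645_cosh_small {v : ℝ} (hv : |v| ≤ 2 / 5) : Real.cosh v ≤ 10 / 9 := by
  have h1 := Real.cosh_le_exp_half_sq v
  have h2 : v ^ 2 / 2 ≤ 2 / 25 := by
    have : v ^ 2 ≤ (2 / 5) ^ 2 := by
      rw [← sq_abs]
      exact pow_le_pow_left₀ (abs_nonneg _) hv 2
    norm_num at this
    linarith
  have h3 := Real.one_sub_le_exp_neg (2 / 25 : ℝ)
  have h4 : Real.exp (v ^ 2 / 2) ≤ Real.exp (2 / 25) := Real.exp_le_exp.2 h2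
  have h5 : Real.exp (2 / 25) * Real.exp (-(2 / 25)) = 1 := by
    rw [← Real.exp_add]
    norm_num
  have h6 : 0 < Real.exp (2 / 25 : ℝ) := Real.exp_pos _
  have h7 := mul_le_mul_of_nonneg_left h3 h6.le
  rw [h5] at h7
  linarith

/-- the comparison function -/
lemma j6645_factor (Bc r : ℝ) (z : ℂ) :
    ‖Complex.exp (-((Bc : ℝ) : ℂ) * Complex.sin (((Real.pi / (8 * r) : ℝ) : ℂ) * (z + ((2 * r : ℝ) : ℂ))))‖
      = Real.exp (-(Bc * (Real.sin (Real.pi / (8 * r) * (z.re + 2 * r)) *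
        Real.cosh (Real.pi / (8 * r) * z.im)))) := by
  rw [Complex.norm_exp, ← Complex.ofReal_neg, Complex.re_ofReal_mul, j6645_sin_re,
    Complex.re_ofReal_mul, Complex.im_ofReal_mul, Complex.add_re, Complex.add_im, Complex.ofReal_re,
    Complex.ofReal_im, add_zero, neg_mul]

lemma j6645_u {r x : ℝ} (hr : 0 < r) (h0 : 0 ≤ x) (h1 : x ≤ 4 * r) :
    1 / 2 ≤ Real.sin (Real.pi / (8 * r) * (x + 2 * r)) := by
  have hpi := Real.pi_pos
  have e1 : Real.pi / (8 * r) * (x + 2 * r) = Real.pi / 4 + Real.pi / (8 * r) * x := by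
    field_simp
    ring
  have e2 : Real.pi / (8 * r) * (4 * r) = Real.pi / 2 := by
    field_simp
    ring
  have h2 : 0 ≤ Real.pi / (8 * r) * x := by positivity
  have h3 : Real.pi / (8 * r) * x ≤ Real.pi / (8 * r) * (4 * r) :=
    mul_le_mul_of_nonneg_left h1 (by positivity)
  rw [e2] at h3
  rw [e1]
  exact j6645_sin_ge (by linarith) (by linarith)

lemma rect_G (G : ℂ → ℂ) (hG : Differentiable ℂ G) (C₀ r A : ℝ) (hC : 1 ≤ C₀) (hr : 0 < r)
    (hA : 0 ≤ A) (h0 : ∀ ζ : ℂ, ζ.re ≤ 0 → ‖G ζ‖ ≤ C₀)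
    (h1 : ∀ ζ : ℂ, ‖ζ‖ ≤ 128 * r → 4 * r ≤ ζ.re → ‖G ζ‖ ≤ 4 * C₀)
    (h2 : ∀ ζ : ℂ, ‖ζ‖ ≤ 128 * r → Real.log ‖G ζ‖ ≤ A) (ζ : ℂ) (hζ : ‖ζ‖ ≤ r) :
    Real.log ‖G ζ‖ ≤ Real.log (4 * C₀) + A / 10 ^ 10 := by
  have hlog : 0 ≤ Real.log (4 * C₀) := Real.log_nonneg (by linarith)
  have hA10 : 0 ≤ A / 10 ^ 10 := by positivity
  by_cases hG0 : ‖G ζ‖ = 0
  · rw [hG0, Real.log_zero]
    linarith
  have hGpos : 0 < ‖G ζ‖ := lt_of_le_of_ne (norm_nonneg _) (Ne.symm hG0)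
  by_cases hre : ζ.re ≤ 0
  · have h3 := Real.log_le_log hGpos ((h0 ζ hre).trans (show C₀ ≤ 4 * C₀ by linarith))
    linarith
  push Not at hre
  have hpi := Real.pi_pos
  set Bc : ℝ := 9 / 10 * (A / 10 ^ 10) with hBc
  have hBc0 : 0 ≤ Bc := by positivity
  set U : Set ℂ := Ioo 0 (4 * r) ×ℂ Ioo (-(64 * r)) (64 * r) with hU
  set h : ℂ → ℂ := fun z => G z * Complex.exp (-((Bc : ℝ) : ℂ) *
    Complex.sin (((Real.pi / (8 * r) : ℝ) : ℂ) * (z + ((2 * r : ℝ) : ℂ)))) with hh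
  have hnorm : ∀ z, ‖h z‖ = ‖G z‖ * Real.exp (-(Bc * (Real.sin (Real.pi / (8 * r) * (z.re + 2 * r)) *
        Real.cosh (Real.pi / (8 * r) * z.im)))) := by
    intro z
    rw [hh]
    simp only []
    rw [norm_mul, j6645_factor]
  have hdiff : Differentiable ℂ h := by
    rw [hh]
    refine hG.mul (Complex.differentiable_exp.comp ?_)
    refine (differentiable_const _).mul (Complex.differentiable_sin.comp ?_)
    exact (differentiable_const _).mul (differentiable_id.add_const _)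
  have hnz : ∀ z : ℂ, 0 ≤ z.re → z.re ≤ 4 * r → |z.im| ≤ 64 * r → ‖z‖ ≤ 128 * r := by
    intro z hz0 hz1 hz2
    have h3 := Complex.norm_le_abs_re_add_abs_im z
    rw [abs_of_nonneg hz0] at h3
    linarith
  have hle1 : ∀ z : ℂ, 0 ≤ z.re → z.re ≤ 4 * r → ‖h z‖ ≤ ‖G z‖ := by
    intro z hz0 hz1
    rw [hnorm]
    have h3 : Real.exp (-(Bc * (Real.sin (Real.pi / (8 * r) * (z.re + 2 * r)) *
        Real.cosh (Real.pi / (8 * r) * z.im)))) ≤ 1 := by
      apply Real.exp_le_one_iff.2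
      have h4 := j6645_u hr hz0 hz1
      have h5 := Real.cosh_pos (Real.pi / (8 * r) * z.im)
      have h6 : 0 ≤ Bc * (Real.sin (Real.pi / (8 * r) * (z.re + 2 * r)) *
        Real.cosh (Real.pi / (8 * r) * z.im)) := mul_nonneg hBc0 (mul_nonneg (by linarith) h5.le)
      linarith
    have := mul_le_mul_of_nonneg_left h3 (norm_nonneg (G z))
    linarith
  have hfr : ∀ z ∈ frontier U, ‖h z‖ ≤ 4 * C₀ := by
    intro z hz
    rw [hU, Complex.frontier_reProdIm, closure_Ioo (by linarith), closure_Ioo (by linarith),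
      frontier_Ioo (by linarith), frontier_Ioo (by linarith)] at hz
    rcases hz with hz | hz
    · rw [Complex.mem_reProdIm] at hz
      rcases hz with ⟨⟨hz0, hz1⟩, hz2⟩
      have him : |z.im| = 64 * r := by
        rcases hz2 with h3 | h3
        · rw [h3, abs_neg, abs_of_pos (by linarith)]
        · rw [mem_singleton_iff.1 h3, abs_of_pos (by linarith)]
      have hn := hnz z hz0 hz1 him.le
      have hGA : ‖G z‖ ≤ Real.exp A := by
        by_cases h3 : ‖G z‖ = 0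
        · rw [h3]
          exact (Real.exp_pos A).le
        · have h4 : 0 < ‖G z‖ := lt_of_le_of_ne (norm_nonneg _) (Ne.symm h3)
          exact (Real.log_le_iff_le_exp h4).1 (h2 z hn)
      have hcosh : Real.cosh (Real.pi / (8 * r) * z.im) = Real.cosh (8 * Real.pi) := by
        rw [← Real.cosh_abs, abs_mul, him, abs_of_pos (by positivity)]
        congr 1
        field_simp
        ring
      have h4 := j6645_u hr hz0 hz1
      have h5 := j6645_cosh_big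
      have h6 : A ≤ Bc * (Real.sin (Real.pi / (8 * r) * (z.re + 2 * r)) *
          Real.cosh (8 * Real.pi)) := by
        have h7 : (1 / 2 : ℝ) * ((20 / 9 : ℝ) * 10 ^ 10) ≤
            Real.sin (Real.pi / (8 * r) * (z.re + 2 * r)) * Real.cosh (8 * Real.pi) :=
          mul_le_mul h4 h5 (by positivity) (by linarith)
        have h8 := mul_le_mul_of_nonneg_left h7 hBc0
        have h9 : Bc * ((1 / 2 : ℝ) * ((20 / 9 : ℝ) * 10 ^ 10)) = A := by
          rw [hBc]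
          ring
        linarith
      rw [hnorm, hcosh]
      have h7 : Real.exp (-(Bc * (Real.sin (Real.pi / (8 * r) * (z.re + 2 * r)) *
          Real.cosh (8 * Real.pi)))) ≤ Real.exp (-A) := Real.exp_le_exp.2 (by linarith)
      have h8 : ‖G z‖ * Real.exp (-(Bc * (Real.sin (Real.pi / (8 * r) * (z.re + 2 * r)) *
          Real.cosh (8 * Real.pi)))) ≤ Real.exp A * Real.exp (-A) :=
        mul_le_mul hGA h7 (Real.exp_pos _).le (Real.exp_pos _).le
      rw [← Real.exp_add, add_neg_cancel, Real.exp_zero] at h8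
      linarith
    · rw [Complex.mem_reProdIm] at hz
      rcases hz with ⟨hz0, hz1, hz2⟩
      have him : |z.im| ≤ 64 * r := abs_le.2 ⟨hz1, hz2⟩
      rcases hz0 with h3 | h3
      · have h4 := hle1 z h3.ge (by linarith)
        have h5 := h0 z h3.le
        linarith
      · have h3' : z.re = 4 * r := mem_singleton_iff.1 h3
        have h4 := hle1 z (by linarith) h3'.le
        have h5 := h1 z (hnz z (by linarith) h3'.le him) h3'.ge
        linarith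
  have hbd : Bornology.IsBounded U := (Metric.isBounded_Ioo _ _).reProdIm (Metric.isBounded_Ioo _ _)
  have hζre : ζ.re ≤ r := (Complex.re_le_norm ζ).trans hζ
  have hζim : |ζ.im| ≤ r := (Complex.abs_im_le_norm ζ).trans hζ
  have hmem : ζ ∈ closure U := by
    rw [hU, Complex.closure_reProdIm, closure_Ioo (by linarith), closure_Ioo (by linarith),
      Complex.mem_reProdIm]
    have h3 := abs_le.1 hζim
    exact ⟨⟨hre.le, by linarith⟩, ⟨by linarith [h3.1], by linarith [h3.2]⟩⟩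
  have hmax := Complex.norm_le_of_forall_mem_frontier_norm_le hbd hdiff.diffContOnCl hfr hmem
  rw [hnorm] at hmax
  have hv : |Real.pi / (8 * r) * ζ.im| ≤ 2 / 5 := by
    rw [abs_mul, abs_of_pos (show 0 < Real.pi / (8 * r) by positivity)]
    have h3 : Real.pi / (8 * r) * |ζ.im| ≤ Real.pi / (8 * r) * r :=
      mul_le_mul_of_nonneg_left hζim (by positivity)
    have h4 : Real.pi / (8 * r) * r = Real.pi / 8 := by
      field_simp
    have h5 := Real.pi_lt_d2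
    rw [h4] at h3
    norm_num at h5
    linarith
  have hc := j6645_cosh_small hv
  have hcp := Real.cosh_pos (Real.pi / (8 * r) * ζ.im)
  have hs := Real.sin_le_one (Real.pi / (8 * r) * (ζ.re + 2 * r))
  have h3 : Real.sin (Real.pi / (8 * r) * (ζ.re + 2 * r)) * Real.cosh (Real.pi / (8 * r) * ζ.im)
      ≤ 10 / 9 := by
    have := mul_le_mul_of_nonneg_right hs hcp.le
    linarith
  have h4 : Bc * (Real.sin (Real.pi / (8 * r) * (ζ.re + 2 * r)) *
      Real.cosh (Real.pi / (8 * r) * ζ.im)) ≤ A / 10 ^ 10 := by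
    have h5 := mul_le_mul_of_nonneg_left h3 hBc0
    have h6 : Bc * (10 / 9) = A / 10 ^ 10 := by
      rw [hBc]
      ring
    linarith
  have h5 := Real.log_le_log (mul_pos hGpos (Real.exp_pos _)) hmax
  rw [Real.log_mul hGpos.ne' (Real.exp_pos _).ne', Real.log_exp] at h5
  linarith

end

end Pool.Agent.Helper311.TI.J6645

namespace Pool.Agent.Helper311.TI

alias rect_G := J6645.rect_G

end Pool.Agent.Helper311.TI

namespace Pool.Agent.Helper311.TI.J6657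

noncomputable section

lemma ptw (a b g d C₀ : ℝ) (ha : 0 ≤ a) (hb : 0 ≤ b) (hg : 0 < g) (hd : 0 ≤ d) (hC : 1 ≤ C₀)
    (hab : a ≤ b + d) :
    Real.log a ≤ (1 + C₀) + b * g + max (-Real.log g) 0 + max (d - C₀) 0 := by
  have hL : 0 ≤ max (-Real.log g) 0 := le_max_right _ _
  have hL' : 0 ≤ max (d - C₀) 0 := le_max_right _ _
  have hbg : 0 ≤ b * g := by positivity
  rcases ha.eq_or_lt with h0 | h0
  · rw [← h0, Real.log_zero]; linarith
  · have h1 : 1 ≤ g * Real.exp (max (-Real.log g) 0) := by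
      have : Real.exp (-Real.log g) ≤ Real.exp (max (-Real.log g) 0) :=
        Real.exp_le_exp.mpr (le_max_left _ _)
      rw [Real.exp_neg, Real.exp_log hg] at this
      calc (1:ℝ) = g * g⁻¹ := (mul_inv_cancel₀ hg.ne').symm
        _ ≤ _ := mul_le_mul_of_nonneg_left this hg.le
    have h2 : 1 ≤ Real.exp (max (-Real.log g) 0) := Real.one_le_exp hL
    have h3 : b + d ≤ (b * g + d) * Real.exp (max (-Real.log g) 0) := by
      have e1 : b * 1 ≤ b * (g * Real.exp (max (-Real.log g) 0)) :=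
        mul_le_mul_of_nonneg_left h1 hb
      have e2 : d * 1 ≤ d * Real.exp (max (-Real.log g) 0) := mul_le_mul_of_nonneg_left h2 hd
      nlinarith
    have h4 : 0 < b * g + d := by
      by_contra hcon
      push Not at hcon
      have := Real.exp_pos (max (-Real.log g) 0)
      have h5 : (b * g + d) * Real.exp (max (-Real.log g) 0) ≤ 0 :=
        mul_nonpos_of_nonpos_of_nonneg hcon this.le
      linarith
    have h5 : Real.log a ≤ Real.log ((b * g + d) * Real.exp (max (-Real.log g) 0)) :=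
      Real.log_le_log h0 (hab.trans h3)
    rw [Real.log_mul h4.ne' (Real.exp_pos _).ne', Real.log_exp] at h5
    have h6 := Real.log_le_sub_one_of_pos h4
    have h7 : d ≤ C₀ + max (d - C₀) 0 := by
      have := le_max_left (d - C₀) 0
      linarith
    linarith

lemma ptwE (f fs gs : ℂ) (C₀ : ℝ) (hC : 1 ≤ C₀) (hg : gs ≠ 0) :
    ENNReal.ofReal (Real.log ‖f‖) ≤
      ENNReal.ofReal (1 + C₀) + (‖fs * gs‖ₑ + ENNReal.ofReal (‖fs - f‖ - C₀)) +
        ENNReal.ofReal (-Real.log ‖gs‖) := by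
  have h := ptw ‖f‖ ‖fs‖ ‖gs‖ ‖fs - f‖ C₀ (norm_nonneg _) (norm_nonneg _) (norm_pos_iff.mpr hg)
    (norm_nonneg _) hC (by
      have : f = fs - (fs - f) := by ring
      calc ‖f‖ = ‖fs - (fs - f)‖ := by rw [← this]
        _ ≤ _ := norm_sub_le _ _)
  have e1 : ∀ x : ℝ, ENNReal.ofReal (max x 0) = ENNReal.ofReal x := by
    intro x
    rcases le_total x 0 with hx | hx
    · rw [max_eq_right hx, ENNReal.ofReal_zero, ENNReal.ofReal_of_nonpos hx]
    · rw [max_eq_left hx]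
  calc ENNReal.ofReal (Real.log ‖f‖) ≤ ENNReal.ofReal ((1 + C₀) + ‖fs‖ * ‖gs‖ +
        max (-Real.log ‖gs‖) 0 + max (‖fs - f‖ - C₀) 0) := ENNReal.ofReal_le_ofReal h
    _ = ENNReal.ofReal (1 + C₀) + ENNReal.ofReal (‖fs‖ * ‖gs‖) +
        ENNReal.ofReal (-Real.log ‖gs‖) + ENNReal.ofReal (‖fs - f‖ - C₀) := by
        rw [ENNReal.ofReal_add (by positivity) (le_max_right _ _),
          ENNReal.ofReal_add (by positivity) (le_max_right _ _),
          ENNReal.ofReal_add (by positivity) (by positivity), e1, e1]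
    _ = _ := by
        rw [← norm_mul, ofReal_norm_eq_enorm]
        ring

lemma match_int {F G : ℂ → ℂ} {Fs Gs : ℝ → ℂ → ℂ} {σ₀ C₀ : ℝ} (hP : Pair F G Fs Gs σ₀ C₀)
    (r A : ℝ) (hr : 1 ≤ r) (hr2 : σ₀ ≤ 2 * r) (hA : 0 ≤ A)
    (hGA : ∀ ζ : ℂ, ‖ζ‖ ≤ 640 * r → Real.log ‖G ζ‖ ≤ A)
    (ζ₀ : ℂ) (h0 : ‖ζ₀‖ ≤ 128 * r) (h1 : 4 * r ≤ ζ₀.re) (h2 : 4 * C₀ ≤ ‖G ζ₀‖) :
    ∫⁻ σ in Ioo σ₀ (2 * r), ∫⁻ τ in Ioo (-(2 * r)) (2 * r),
        ENNReal.ofReal (Real.log ‖F ((σ : ℂ) + (τ : ℂ) * I)‖) ≤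
      ENNReal.ofReal (10 ^ 7 * C₀ * r ^ 2 * (A + 1)) := by
  have hσ1 := hP.hσ
  have hC := hP.hC
  have hr0 : 0 < r := by linarith
  have hline : ∀ σ ∈ Ioo σ₀ (2 * r),
      ∫⁻ τ in Ioo (-(2 * r)) (2 * r), ENNReal.ofReal (Real.log ‖F ((σ : ℂ) + (τ : ℂ) * I)‖) ≤
      ENNReal.ofReal ((1 + C₀) * (4 * r) + 10 ^ 6 * C₀ * r * (A + 1)) +
      ENNReal.ofReal (2 * 10 ^ 6 * r) * ∫⁻ τ : ℝ,
      (ENNReal.ofReal (‖Fs σ ((σ : ℂ) + (τ : ℂ) * I) - F ((σ : ℂ) + (τ : ℂ) * I)‖ - C₀) +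
        ENNReal.ofReal (‖Gs σ ((σ : ℂ) + (τ : ℂ) * I) - G ((σ : ℂ) + (τ : ℂ) * I)‖ - C₀) +
        ‖Fs σ ((σ : ℂ) + (τ : ℂ) * I) * Gs σ ((σ : ℂ) + (τ : ℂ) * I)‖ₑ) *
      ENNReal.ofReal (2 * r / ((2 * r) ^ 2 + (τ - ζ₀.im) ^ 2)) := by
    intro σ hσ
    have hσ₀ : σ₀ ≤ σ := hσ.1.le
    have hFs := hP.Fs_diff σ hσ₀
    have hGs := hP.Gs_diff σ hσ₀
    have hz : Continuous (fun τ : ℝ => (σ : ℂ) + (τ : ℂ) * I) := by fun_prop
    have cF : Continuous (fun τ : ℝ => F ((σ : ℂ) + (τ : ℂ) * I)) := hP.F_diff.continuous.comp hz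
    have cG : Continuous (fun τ : ℝ => G ((σ : ℂ) + (τ : ℂ) * I)) := hP.G_diff.continuous.comp hz
    have cFs : Continuous (fun τ : ℝ => Fs σ ((σ : ℂ) + (τ : ℂ) * I)) := hFs.continuous.comp hz
    have cGs : Continuous (fun τ : ℝ => Gs σ ((σ : ℂ) + (τ : ℂ) * I)) := hGs.continuous.comp hz
    have hne : Gs σ ζ₀ ≠ 0 := by
      intro h0'
      have h3 := hP.Gs_sub σ hσ₀ ζ₀ (by linarith [hσ.2])
      rw [h0', zero_sub, norm_neg] at h3
      have h4 : 1 / (ζ₀.re - σ) ≤ 1 := by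
        rw [div_le_one (by linarith [hσ.2])]
        linarith [hσ.2]
      have h5 : C₀ * (1 + 1 / (ζ₀.re - σ)) ≤ C₀ * 2 :=
        mul_le_mul_of_nonneg_left (by linarith) (by linarith)
      linarith
    have hz0 := zero_null (Gs σ) hGs ζ₀ hne σ
    have hle := line_est G (Gs σ) hP.G_diff.continuous hGs C₀ r A σ hC hr hA (by linarith)
      hσ.2 ζ₀ h0 h1 h2 (fun ζ hζ => hP.Gs_sub σ hσ₀ ζ hζ) hGA
    have mN : Measurable (fun τ : ℝ => ‖Fs σ ((σ : ℂ) + (τ : ℂ) * I) *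
        Gs σ ((σ : ℂ) + (τ : ℂ) * I)‖ₑ) := (cFs.mul cGs).measurable.enorm
    have mDF : Measurable (fun τ : ℝ => ENNReal.ofReal (‖Fs σ ((σ : ℂ) + (τ : ℂ) * I) -
        F ((σ : ℂ) + (τ : ℂ) * I)‖ - C₀)) :=
      (((cFs.sub cF).norm).sub continuous_const).measurable.ennreal_ofReal
    have mDG : Measurable (fun τ : ℝ => ENNReal.ofReal (‖Gs σ ((σ : ℂ) + (τ : ℂ) * I) -
        G ((σ : ℂ) + (τ : ℂ) * I)‖ - C₀)) :=
      (((cGs.sub cG).norm).sub continuous_const).measurable.ennreal_ofReal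
    have mP : Measurable (fun τ : ℝ =>
        ENNReal.ofReal (2 * r / ((2 * r) ^ 2 + (τ - ζ₀.im) ^ 2))) := by
      apply Measurable.ennreal_ofReal
      fun_prop
    have mND : Measurable (fun τ : ℝ => ‖Fs σ ((σ : ℂ) + (τ : ℂ) * I) *
        Gs σ ((σ : ℂ) + (τ : ℂ) * I)‖ₑ +
          ENNReal.ofReal (‖Fs σ ((σ : ℂ) + (τ : ℂ) * I) - F ((σ : ℂ) + (τ : ℂ) * I)‖ - C₀)) :=
      mN.add mDF
    have mND1 : Measurable (fun τ : ℝ => ENNReal.ofReal (1 + C₀) +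
        (‖Fs σ ((σ : ℂ) + (τ : ℂ) * I) * Gs σ ((σ : ℂ) + (τ : ℂ) * I)‖ₑ +
          ENNReal.ofReal (‖Fs σ ((σ : ℂ) + (τ : ℂ) * I) - F ((σ : ℂ) + (τ : ℂ) * I)‖ - C₀))) :=
      measurable_const.add mND
    have mNDP : Measurable (fun τ : ℝ =>
        (‖Fs σ ((σ : ℂ) + (τ : ℂ) * I) * Gs σ ((σ : ℂ) + (τ : ℂ) * I)‖ₑ +
          ENNReal.ofReal (‖Fs σ ((σ : ℂ) + (τ : ℂ) * I) - F ((σ : ℂ) + (τ : ℂ) * I)‖ - C₀)) *
          ENNReal.ofReal (2 * r / ((2 * r) ^ 2 + (τ - ζ₀.im) ^ 2))) := mND.mul mP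
    have step1 : ∫⁻ τ in Ioo (-(2 * r)) (2 * r),
        ENNReal.ofReal (Real.log ‖F ((σ : ℂ) + (τ : ℂ) * I)‖) ≤
        ∫⁻ τ in Ioo (-(2 * r)) (2 * r), (ENNReal.ofReal (1 + C₀) +
          (‖Fs σ ((σ : ℂ) + (τ : ℂ) * I) * Gs σ ((σ : ℂ) + (τ : ℂ) * I)‖ₑ +
          ENNReal.ofReal (‖Fs σ ((σ : ℂ) + (τ : ℂ) * I) - F ((σ : ℂ) + (τ : ℂ) * I)‖ - C₀)) +
          ENNReal.ofReal (-Real.log ‖Gs σ ((σ : ℂ) + (τ : ℂ) * I)‖)) := by
      apply lintegral_mono_ae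
      filter_upwards [ae_restrict_of_ae hz0] with τ hτ
      exact ptwE _ _ _ C₀ hC hτ
    have step2 : ∫⁻ τ in Ioo (-(2 * r)) (2 * r), (ENNReal.ofReal (1 + C₀) +
          (‖Fs σ ((σ : ℂ) + (τ : ℂ) * I) * Gs σ ((σ : ℂ) + (τ : ℂ) * I)‖ₑ +
          ENNReal.ofReal (‖Fs σ ((σ : ℂ) + (τ : ℂ) * I) - F ((σ : ℂ) + (τ : ℂ) * I)‖ - C₀)) +
          ENNReal.ofReal (-Real.log ‖Gs σ ((σ : ℂ) + (τ : ℂ) * I)‖)) =
        ENNReal.ofReal ((1 + C₀) * (4 * r)) +
        (∫⁻ τ in Ioo (-(2 * r)) (2 * r),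
          (‖Fs σ ((σ : ℂ) + (τ : ℂ) * I) * Gs σ ((σ : ℂ) + (τ : ℂ) * I)‖ₑ +
          ENNReal.ofReal (‖Fs σ ((σ : ℂ) + (τ : ℂ) * I) - F ((σ : ℂ) + (τ : ℂ) * I)‖ - C₀))) +
        ∫⁻ τ in Ioo (-(2 * r)) (2 * r),
          ENNReal.ofReal (-Real.log ‖Gs σ ((σ : ℂ) + (τ : ℂ) * I)‖) := by
      rw [lintegral_add_left mND1,
        lintegral_add_left measurable_const, setLIntegral_const, Real.volume_Ioo,
        ← ENNReal.ofReal_mul (by linarith)]
      congr 4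
      ring
    have step3 : ∫⁻ τ in Ioo (-(2 * r)) (2 * r),
          (‖Fs σ ((σ : ℂ) + (τ : ℂ) * I) * Gs σ ((σ : ℂ) + (τ : ℂ) * I)‖ₑ +
          ENNReal.ofReal (‖Fs σ ((σ : ℂ) + (τ : ℂ) * I) - F ((σ : ℂ) + (τ : ℂ) * I)‖ - C₀)) ≤
        ENNReal.ofReal (2 * 10 ^ 6 * r) * ∫⁻ τ : ℝ,
          (‖Fs σ ((σ : ℂ) + (τ : ℂ) * I) * Gs σ ((σ : ℂ) + (τ : ℂ) * I)‖ₑ +
          ENNReal.ofReal (‖Fs σ ((σ : ℂ) + (τ : ℂ) * I) - F ((σ : ℂ) + (τ : ℂ) * I)‖ - C₀)) *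
          ENNReal.ofReal (2 * r / ((2 * r) ^ 2 + (τ - ζ₀.im) ^ 2)) := by
      rw [← lintegral_const_mul' _ _ ENNReal.ofReal_ne_top]
      refine le_trans ?_ (setLIntegral_le_lintegral (Ioo (-(2 * r)) (2 * r)) _)
      apply setLIntegral_mono' measurableSet_Ioo
      intro τ hτ
      have him : |ζ₀.im| ≤ 128 * r := (Complex.abs_im_le_norm ζ₀).trans h0
      have h3 : (τ - ζ₀.im) ^ 2 ≤ (130 * r) ^ 2 := by
        apply sq_le_sq'
        · rw [abs_le] at him; linarith [hτ.1, him.2]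
        · rw [abs_le] at him; linarith [hτ.2, him.1]
      have h4 : 1 ≤ 2 * 10 ^ 6 * r * (2 * r / ((2 * r) ^ 2 + (τ - ζ₀.im) ^ 2)) := by
        rw [← mul_div_assoc, le_div_iff₀ (by positivity)]
        nlinarith
      have h5 : (1 : ENNReal) ≤ ENNReal.ofReal (2 * 10 ^ 6 * r) *
          ENNReal.ofReal (2 * r / ((2 * r) ^ 2 + (τ - ζ₀.im) ^ 2)) := by
        rw [← ENNReal.ofReal_mul (by positivity), ← ENNReal.ofReal_one]
        exact ENNReal.ofReal_le_ofReal h4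
      calc _ = (‖Fs σ ((σ : ℂ) + (τ : ℂ) * I) * Gs σ ((σ : ℂ) + (τ : ℂ) * I)‖ₑ +
          ENNReal.ofReal (‖Fs σ ((σ : ℂ) + (τ : ℂ) * I) - F ((σ : ℂ) + (τ : ℂ) * I)‖ - C₀)) * 1 := by
            rw [mul_one]
        _ ≤ (‖Fs σ ((σ : ℂ) + (τ : ℂ) * I) * Gs σ ((σ : ℂ) + (τ : ℂ) * I)‖ₑ +
          ENNReal.ofReal (‖Fs σ ((σ : ℂ) + (τ : ℂ) * I) - F ((σ : ℂ) + (τ : ℂ) * I)‖ - C₀)) *
          (ENNReal.ofReal (2 * 10 ^ 6 * r) *
          ENNReal.ofReal (2 * r / ((2 * r) ^ 2 + (τ - ζ₀.im) ^ 2))) := by gcongr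
        _ = _ := by ring
    have step4 : ∫⁻ τ : ℝ,
      (ENNReal.ofReal (‖Fs σ ((σ : ℂ) + (τ : ℂ) * I) - F ((σ : ℂ) + (τ : ℂ) * I)‖ - C₀) +
        ENNReal.ofReal (‖Gs σ ((σ : ℂ) + (τ : ℂ) * I) - G ((σ : ℂ) + (τ : ℂ) * I)‖ - C₀) +
        ‖Fs σ ((σ : ℂ) + (τ : ℂ) * I) * Gs σ ((σ : ℂ) + (τ : ℂ) * I)‖ₑ) *
      ENNReal.ofReal (2 * r / ((2 * r) ^ 2 + (τ - ζ₀.im) ^ 2)) =
      (∫⁻ τ : ℝ,
          (‖Fs σ ((σ : ℂ) + (τ : ℂ) * I) * Gs σ ((σ : ℂ) + (τ : ℂ) * I)‖ₑ +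
          ENNReal.ofReal (‖Fs σ ((σ : ℂ) + (τ : ℂ) * I) - F ((σ : ℂ) + (τ : ℂ) * I)‖ - C₀)) *
          ENNReal.ofReal (2 * r / ((2 * r) ^ 2 + (τ - ζ₀.im) ^ 2))) +
      ∫⁻ τ : ℝ, ENNReal.ofReal (‖Gs σ ((σ : ℂ) + (τ : ℂ) * I) - G ((σ : ℂ) + (τ : ℂ) * I)‖ - C₀) *
          ENNReal.ofReal (2 * r / ((2 * r) ^ 2 + (τ - ζ₀.im) ^ 2)) := by
      rw [← lintegral_add_left mNDP]
      apply lintegral_congr
      intro τ
      ring
    rw [step4]
    refine step1.trans (step2.le.trans ?_)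
    refine (add_le_add (add_le_add le_rfl step3) hle).trans (le_of_eq ?_)
    rw [ENNReal.ofReal_add (by positivity) (by positivity),
      mul_add (ENNReal.ofReal (2 * 10 ^ 6 * r)), add_add_add_comm]
  have hkey := hP.key σ₀ (2 * r) (2 * r) ζ₀.im le_rfl hr2 (by linarith)
  have hsq : √((2 * r - σ₀) / (2 * r)) ≤ 1 := by
    apply Real.sqrt_le_one.mpr
    rw [div_le_one (by linarith)]
    linarith
  calc _ ≤ ∫⁻ σ in Ioo σ₀ (2 * r), (ENNReal.ofReal ((1 + C₀) * (4 * r) + 10 ^ 6 * C₀ * r * (A + 1)) +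
      ENNReal.ofReal (2 * 10 ^ 6 * r) * ∫⁻ τ : ℝ,
      (ENNReal.ofReal (‖Fs σ ((σ : ℂ) + (τ : ℂ) * I) - F ((σ : ℂ) + (τ : ℂ) * I)‖ - C₀) +
        ENNReal.ofReal (‖Gs σ ((σ : ℂ) + (τ : ℂ) * I) - G ((σ : ℂ) + (τ : ℂ) * I)‖ - C₀) +
        ‖Fs σ ((σ : ℂ) + (τ : ℂ) * I) * Gs σ ((σ : ℂ) + (τ : ℂ) * I)‖ₑ) *
      ENNReal.ofReal (2 * r / ((2 * r) ^ 2 + (τ - ζ₀.im) ^ 2))) :=
        setLIntegral_mono' measurableSet_Ioo hline
    _ = ENNReal.ofReal ((1 + C₀) * (4 * r) + 10 ^ 6 * C₀ * r * (A + 1)) *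
        ENNReal.ofReal (2 * r - σ₀) +
      ENNReal.ofReal (2 * 10 ^ 6 * r) * ∫⁻ σ in Ioo σ₀ (2 * r), ∫⁻ τ : ℝ,
      (ENNReal.ofReal (‖Fs σ ((σ : ℂ) + (τ : ℂ) * I) - F ((σ : ℂ) + (τ : ℂ) * I)‖ - C₀) +
        ENNReal.ofReal (‖Gs σ ((σ : ℂ) + (τ : ℂ) * I) - G ((σ : ℂ) + (τ : ℂ) * I)‖ - C₀) +
        ‖Fs σ ((σ : ℂ) + (τ : ℂ) * I) * Gs σ ((σ : ℂ) + (τ : ℂ) * I)‖ₑ) *
      ENNReal.ofReal (2 * r / ((2 * r) ^ 2 + (τ - ζ₀.im) ^ 2)) := by
        rw [lintegral_add_left measurable_const, setLIntegral_const, Real.volume_Ioo,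
          lintegral_const_mul' _ _ ENNReal.ofReal_ne_top]
    _ ≤ ENNReal.ofReal ((1 + C₀) * (4 * r) + 10 ^ 6 * C₀ * r * (A + 1)) *
        ENNReal.ofReal (2 * r - σ₀) +
      ENNReal.ofReal (2 * 10 ^ 6 * r) * ENNReal.ofReal (C₀ * √((2 * r - σ₀) / (2 * r))) :=
        add_le_add le_rfl (mul_le_mul_right hkey _)
    _ = ENNReal.ofReal (((1 + C₀) * (4 * r) + 10 ^ 6 * C₀ * r * (A + 1)) * (2 * r - σ₀) +
        (2 * 10 ^ 6 * r) * (C₀ * √((2 * r - σ₀) / (2 * r)))) := by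
        have e0 : 0 ≤ 2 * r - σ₀ := by linarith
        rw [← ENNReal.ofReal_mul (by positivity), ← ENNReal.ofReal_mul (by positivity),
          ← ENNReal.ofReal_add (by positivity) (by positivity)]
    _ ≤ _ := by
        apply ENNReal.ofReal_le_ofReal
        have e1 : ((1 + C₀) * (4 * r) + 10 ^ 6 * C₀ * r * (A + 1)) * (2 * r - σ₀) ≤
            ((1 + C₀) * (4 * r) + 10 ^ 6 * C₀ * r * (A + 1)) * (2 * r) :=
          mul_le_mul_of_nonneg_left (by linarith) (by positivity)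
        have e2 : (2 * 10 ^ 6 * r) * (C₀ * √((2 * r - σ₀) / (2 * r))) ≤
            (2 * 10 ^ 6 * r) * (C₀ * 1) := by gcongr
        have e3 : C₀ * r ≤ C₀ * r ^ 2 := by
          have : r ≤ r ^ 2 := by nlinarith
          exact mul_le_mul_of_nonneg_left this (by linarith)
        have e4 : (0 : ℝ) ≤ C₀ * r ^ 2 * A := by positivity
        have e5 : r ^ 2 ≤ C₀ * r ^ 2 := by nlinarith [sq_nonneg r]
        have e6 : ((1 + C₀) * (4 * r) + 10 ^ 6 * C₀ * r * (A + 1)) * (2 * r) =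
          8 * r ^ 2 + 8 * (C₀ * r ^ 2) + 2 * 10 ^ 6 * (C₀ * r ^ 2 * A) + 2 * 10 ^ 6 * (C₀ * r ^ 2) := by
          ring
        have e7 : 10 ^ 7 * C₀ * r ^ 2 * (A + 1) = 10 ^ 7 * (C₀ * r ^ 2 * A) + 10 ^ 7 * (C₀ * r ^ 2) := by
          ring
        nlinarith

end

end Pool.Agent.Helper311.TI.J6657

namespace Pool.Agent.Helper311.TI

alias match_int := J6657.match_int

end Pool.Agent.Helper311.TI

namespace Pool.Agent.Helper311.TI.J6658

noncomputable section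

lemma match_A {F G : ℂ → ℂ} {Fs Gs : ℝ → ℂ → ℂ} {σ₀ C₀ : ℝ} (hP : Pair F G Fs Gs σ₀ C₀) :
    ∃ K r₀ : ℝ, 0 ≤ K ∧ 1 ≤ r₀ ∧ ∀ r, r₀ ≤ r → ∀ A, 0 ≤ A →
      (∀ ζ : ℂ, ‖ζ‖ ≤ 640 * r → Real.log ‖G ζ‖ ≤ A) →
      ∀ ζ₀ : ℂ, ‖ζ₀‖ ≤ 128 * r → 4 * r ≤ ζ₀.re → 4 * C₀ ≤ ‖G ζ₀‖ →
      ∀ ζ : ℂ, ‖ζ‖ ≤ r → Real.log ‖F ζ‖ ≤ K * (A + 1) := by
  obtain ⟨B₀, hB₀⟩ := hP.F_bd σ₀
  obtain ⟨B, hB⟩ : ∃ B, B = max B₀ 1 := ⟨_, rfl⟩
  have hB1 : 1 ≤ B := by rw [hB]; exact le_max_right _ _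
  have hBF : ∀ ζ : ℂ, ζ.re ≤ σ₀ → ‖F ζ‖ ≤ B := fun ζ hζ => by
    rw [hB]; exact (hB₀ ζ hζ).trans (le_max_left _ _)
  have hlogB : 0 ≤ Real.log B := Real.log_nonneg hB1
  have hlogF : ∀ ζ : ℂ, ζ.re ≤ σ₀ → Real.log ‖F ζ‖ ≤ Real.log B := by
    intro ζ hζ
    rcases (norm_nonneg (F ζ)).eq_or_lt with h | h
    · rw [← h, Real.log_zero]; exact hlogB
    · exact Real.log_le_log h (hBF ζ hζ)
  have hC := hP.hC
  refine ⟨16 * Real.log B + 10 ^ 7 * C₀, σ₀, by positivity, hP.hσ, ?_⟩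
  intro r hr A hA hGA ζ₀ h0 h1 h2 ζ hζ
  have hσ := hP.hσ
  have hr1 : 1 ≤ r := hσ.trans hr
  have hr2 : σ₀ ≤ 2 * r := by linarith
  have hre := Complex.abs_re_le_norm ζ
  have him := Complex.abs_im_le_norm ζ
  obtain ⟨a1, a2⟩ := abs_le.1 (hre.trans hζ)
  obtain ⟨b1, b2⟩ := abs_le.1 (him.trans hζ)
  have hsub := submean F hP.F_diff ζ r (by linarith)
  have hmatch := match_int hP r A hr1 hr2 hA hGA ζ₀ h0 h1 h2
  set H : ℝ → ENNReal := fun s => ∫⁻ t in Ioo (-(2 * r)) (2 * r),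
    ENNReal.ofReal (Real.log ‖F ((s : ℂ) + (t : ℂ) * I)‖) with hH
  have e1 : ∫⁻ s in Ioo (ζ.re - r) (ζ.re + r), ∫⁻ t in Ioo (ζ.im - r) (ζ.im + r),
        ENNReal.ofReal (Real.log ‖F ((s : ℂ) + (t : ℂ) * I)‖) ≤
      ∫⁻ s in Ioc (-(2 * r)) σ₀ ∪ Ioo σ₀ (2 * r), H s := by
    refine (lintegral_mono fun s => ?_).trans (lintegral_mono_set ?_)
    · exact lintegral_mono_set (Ioo_subset_Ioo (by linarith) (by linarith))
    · intro s hs
      rcases le_or_gt s σ₀ with h | h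
      · exact Or.inl ⟨by linarith [hs.1], h⟩
      · exact Or.inr ⟨h, by linarith [hs.2]⟩
  have e2 : ∫⁻ s in Ioc (-(2 * r)) σ₀, H s ≤ ENNReal.ofReal (16 * r ^ 2 * Real.log B) := by
    have h3 : ∀ s ∈ Ioc (-(2 * r)) σ₀, H s ≤ ENNReal.ofReal (Real.log B * (4 * r)) := by
      intro s hs
      calc H s ≤ ∫⁻ _t in Ioo (-(2 * r)) (2 * r), ENNReal.ofReal (Real.log B) := by
            refine lintegral_mono fun t => ENNReal.ofReal_le_ofReal (hlogF _ ?_)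
            simpa using hs.2
        _ = ENNReal.ofReal (Real.log B * (4 * r)) := by
            rw [setLIntegral_const, Real.volume_Ioo, ← ENNReal.ofReal_mul hlogB]
            congr 1; ring
    calc ∫⁻ s in Ioc (-(2 * r)) σ₀, H s
        ≤ ∫⁻ _s in Ioc (-(2 * r)) σ₀, ENNReal.ofReal (Real.log B * (4 * r)) :=
          setLIntegral_mono' measurableSet_Ioc h3
      _ = ENNReal.ofReal (Real.log B * (4 * r) * (σ₀ - -(2 * r))) := by
          rw [setLIntegral_const, Real.volume_Ioc, ← ENNReal.ofReal_mul (by positivity)]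
      _ ≤ ENNReal.ofReal (16 * r ^ 2 * Real.log B) := by
          apply ENNReal.ofReal_le_ofReal
          have h4 : 0 ≤ Real.log B * (4 * r) := by positivity
          have h5 : σ₀ - -(2 * r) ≤ 4 * r := by linarith
          calc Real.log B * (4 * r) * (σ₀ - -(2 * r)) ≤ Real.log B * (4 * r) * (4 * r) :=
                mul_le_mul_of_nonneg_left h5 h4
            _ = 16 * r ^ 2 * Real.log B := by ring
  have e3 : ENNReal.ofReal (Real.log ‖F ζ‖ * (Real.pi * r ^ 2)) ≤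
      ENNReal.ofReal (16 * r ^ 2 * Real.log B + 10 ^ 7 * C₀ * r ^ 2 * (A + 1)) := by
    refine (hsub.trans e1).trans ((lintegral_union_le _ _ _).trans ?_)
    rw [ENNReal.ofReal_add (by positivity) (by positivity)]
    exact add_le_add e2 hmatch
  rw [ENNReal.ofReal_le_ofReal_iff (by positivity)] at e3
  have hr0 : 0 < r ^ 2 := by positivity
  have e4 : Real.log ‖F ζ‖ * Real.pi ≤ 16 * Real.log B + 10 ^ 7 * C₀ * (A + 1) := by
    have e5 : (Real.log ‖F ζ‖ * Real.pi) * r ^ 2 ≤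
        (16 * Real.log B + 10 ^ 7 * C₀ * (A + 1)) * r ^ 2 := by
      refine le_trans (le_of_eq ?_) (e3.trans (le_of_eq ?_)) <;> ring
    exact le_of_mul_le_mul_right e5 hr0
  have e6 : 16 * Real.log B + 10 ^ 7 * C₀ * (A + 1) ≤ (16 * Real.log B + 10 ^ 7 * C₀) * (A + 1) := by
    have : 0 ≤ 16 * Real.log B * A := by positivity
    linarith
  rcases le_or_gt (Real.log ‖F ζ‖) 0 with h | h
  · refine h.trans ?_
    positivity
  · have h6 : Real.log ‖F ζ‖ * 1 ≤ Real.log ‖F ζ‖ * Real.pi :=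
      mul_le_mul_of_nonneg_left (by linarith [Real.pi_gt_three]) h.le
    linarith

end

end Pool.Agent.Helper311.TI.J6658

namespace Pool.Agent.Helper311.TI

alias match_A := J6658.match_A

end Pool.Agent.Helper311.TI
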