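import Mathlib
import Pool.Agent.Helper311.TI.Defs

set_option autoImplicit false

open MeasureTheory Filter Topology Complex Set

namespace Pool.Agent.Helper311.TI.J6648

noncomputable section

lemma ode_grow (A B E : ℝ → ℝ) (K C c x₀ : ℝ) (hK : 0 ≤ K) (hC : 0 ≤ C) (hc : 0 < c)
    (hA : Monotone A) (hA0 : ∀ r, 0 ≤ A r) (hB0 : ∀ r, 0 ≤ B r)
    (hAinf : Tendsto A atTop atTop)
    (hE0 : ∀ x, x₀ ≤ x → 0 ≤ E x)
    (hE : ∀ x y, x₀ ≤ x → x ≤ y → E x ≤ E y ∧ E y ≤ E x + (y - x))
    (h1 : ∀ r, Real.exp x₀ ≤ r →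
      B r ≤ K * (A (640 * r) + 1) ∨ A r ≤ C + A (128 * r) / 10 ^ 10)
    (h2 : ∀ x, x₀ ≤ x → c * Real.exp (8 * x + E x) ≤
      A (Real.exp (x + 1)) ^ 2 * B (Real.exp (x + 1)) ^ 2) :
    ∃ R c' : ℝ, 1 ≤ R ∧ Real.exp (x₀ + 1) ≤ R ∧ 0 < c' ∧ ∀ n : ℕ,
      c' * (2000 ^ n * R) ^ 2 * Real.exp (E (Real.log (2000 ^ n * R)) / 4) ≤
        A (2000 ^ n * R) := by
  obtain ⟨K', hKK, hK1⟩ : ∃ K' : ℝ, K ≤ K' ∧ 1 ≤ K' := ⟨max K 1, le_max_left _ _, le_max_right _ _⟩
  have hK0 : 0 < K' := by linarith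
  obtain ⟨c2, hc2, hc2e⟩ : ∃ c2 : ℝ, 0 < c2 ∧ c2 ^ 4 = c * Real.exp (-9) / K' ^ 2 := by
    have hpos : 0 < c * Real.exp (-9) / K' ^ 2 := by positivity
    refine ⟨(c * Real.exp (-9) / K' ^ 2) ^ ((1:ℝ)/4), Real.rpow_pos_of_pos hpos _, ?_⟩
    rw [← Real.rpow_natCast, ← Real.rpow_mul hpos.le]
    norm_num
  have key1 : ∀ r, Real.exp (x₀ + 1) ≤ r → B r ≤ K * (A (640 * r) + 1) →
      c2 * r ^ 2 * Real.exp (E (Real.log r) / 4) ≤ A (640 * r) + 1 := by
    intro r hr hB
    have hr0 : 0 < r := lt_of_lt_of_le (Real.exp_pos _) hr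
    have hlog : x₀ + 1 ≤ Real.log r := by rwa [Real.le_log_iff_exp_le hr0]
    have hx : x₀ ≤ Real.log r - 1 := by linarith
    have h2' := h2 _ hx
    rw [sub_add_cancel, Real.exp_log hr0] at h2'
    have hE' := (hE _ (Real.log r) hx (by linarith)).2
    have hexp : Real.exp (-9) * r ^ 8 * Real.exp (E (Real.log r)) ≤
        Real.exp (8 * (Real.log r - 1) + E (Real.log r - 1)) := by
      have : r ^ 8 = Real.exp (8 * Real.log r) := by
        rw [show (8:ℝ) * Real.log r = ((8:ℕ):ℝ) * Real.log r by norm_num, Real.exp_nat_mul,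
          Real.exp_log hr0]
      rw [this, ← Real.exp_add, ← Real.exp_add]
      apply Real.exp_le_exp.2
      linarith
    have hA6 := hA0 (640 * r)
    have hAr : A r ≤ A (640 * r) + 1 := (hA (by linarith : r ≤ 640 * r)).trans (by linarith)
    have hB' : B r ≤ K' * (A (640 * r) + 1) :=
      hB.trans (mul_le_mul_of_nonneg_right hKK (by linarith))
    have h4 : (c2 * r ^ 2 * Real.exp (E (Real.log r) / 4)) ^ 4 ≤ (A (640 * r) + 1) ^ 4 := by
      have e1 : (c2 * r ^ 2 * Real.exp (E (Real.log r) / 4)) ^ 4 =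
          c2 ^ 4 * r ^ 8 * Real.exp (E (Real.log r)) := by
        have e0 : Real.exp (E (Real.log r) / 4) ^ 4 = Real.exp (E (Real.log r)) := by
          rw [← Real.exp_nat_mul]
          congr 1
          push_cast
          ring
        rw [mul_pow, mul_pow, e0]
        ring
      rw [e1, hc2e]
      have h5 : A r ^ 2 * B r ^ 2 ≤ (A (640 * r) + 1) ^ 2 * (K' * (A (640 * r) + 1)) ^ 2 := by
        have h51 : A r ^ 2 ≤ (A (640 * r) + 1) ^ 2 := pow_le_pow_left₀ (hA0 r) hAr 2
        have h52 : B r ^ 2 ≤ (K' * (A (640 * r) + 1)) ^ 2 := pow_le_pow_left₀ (hB0 r) hB' 2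
        exact mul_le_mul h51 h52 (by positivity) (by positivity)
      rw [div_mul_eq_mul_div, div_mul_eq_mul_div, div_le_iff₀ (by positivity)]
      calc c * Real.exp (-9) * r ^ 8 * Real.exp (E (Real.log r))
          = c * (Real.exp (-9) * r ^ 8 * Real.exp (E (Real.log r))) := by ring
        _ ≤ c * Real.exp (8 * (Real.log r - 1) + E (Real.log r - 1)) := by gcongr
        _ ≤ A r ^ 2 * B r ^ 2 := h2'
        _ ≤ _ := h5
        _ = (A (640 * r) + 1) ^ 4 * K' ^ 2 := by ring
    exact (pow_le_pow_iff_left₀ (by positivity) (by linarith) (by norm_num)).1 h4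
  -- choose R
  obtain ⟨R, hR1, hRe, hRA, hRc⟩ : ∃ R : ℝ, 1 ≤ R ∧ Real.exp (x₀ + 1) ≤ R ∧ 2 * C + 1 ≤ A R ∧
      2 ≤ c2 * R := by
    have h := ((eventually_ge_atTop (1:ℝ)).and ((eventually_ge_atTop (Real.exp (x₀ + 1))).and
      ((hAinf.eventually_ge_atTop (2 * C + 1)).and (eventually_ge_atTop (2 / c2))))).exists
    obtain ⟨R, h1, h2, h3, h4⟩ := h
    refine ⟨R, h1, h2, h3, ?_⟩
    rw [div_le_iff₀ hc2] at h4
    linarith
  have hRn : ∀ n : ℕ, R ≤ 2000 ^ n * R := by
    intro n
    have : (1:ℝ) ≤ 2000 ^ n := one_le_pow₀ (by norm_num)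
    nlinarith
  have hR0 : 0 < R := by linarith
  have hlogR : ∀ n : ℕ, x₀ ≤ Real.log (2000 ^ n * R) := by
    intro n
    have h := hRn n
    have : x₀ + 1 ≤ Real.log (2000 ^ n * R) := by
      rw [Real.le_log_iff_exp_le (by linarith)]
      linarith
    linarith
  -- growth of G
  have hG : ∀ n : ℕ, (2000 ^ (n + 1) * R) ^ 2 *
      Real.exp (E (Real.log (2000 ^ (n + 1) * R)) / 4) ≤
      28000000 * ((2000 ^ n * R) ^ 2 * Real.exp (E (Real.log (2000 ^ n * R)) / 4)) := by
    intro n
    have hpos : 0 < 2000 ^ n * R := by positivity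
    have e1 : Real.log (2000 ^ (n + 1) * R) = Real.log (2000 ^ n * R) + Real.log 2000 := by
      rw [← Real.log_mul hpos.ne' (by norm_num)]
      congr 1
      ring
    have hl : 0 ≤ Real.log 2000 := Real.log_nonneg (by norm_num)
    have hE2 := (hE _ (Real.log (2000 ^ (n + 1) * R)) (hlogR n) (by rw [e1]; linarith)).2
    have hl2 : Real.exp (Real.log 2000 / 4) ≤ 7 := by
      apply (pow_le_pow_iff_left₀ (Real.exp_pos _).le (by norm_num) (by norm_num : 4 ≠ 0)).1
      rw [← Real.exp_nat_mul]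
      have : ((4:ℕ):ℝ) * (Real.log 2000 / 4) = Real.log 2000 := by push_cast; ring
      rw [this, Real.exp_log (by norm_num)]
      norm_num
    have hE3 : Real.exp (E (Real.log (2000 ^ (n + 1) * R)) / 4) ≤
        7 * Real.exp (E (Real.log (2000 ^ n * R)) / 4) := by
      calc Real.exp (E (Real.log (2000 ^ (n + 1) * R)) / 4)
          ≤ Real.exp (Real.log 2000 / 4 + E (Real.log (2000 ^ n * R)) / 4) := by
            apply Real.exp_le_exp.2
            rw [e1] at hE2 ⊢
            linarith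
        _ = Real.exp (Real.log 2000 / 4) * Real.exp (E (Real.log (2000 ^ n * R)) / 4) := by
            rw [Real.exp_add]
        _ ≤ _ := by gcongr
    calc (2000 ^ (n + 1) * R) ^ 2 * Real.exp (E (Real.log (2000 ^ (n + 1) * R)) / 4)
        ≤ (2000 ^ (n + 1) * R) ^ 2 * (7 * Real.exp (E (Real.log (2000 ^ n * R)) / 4)) := by
          gcongr
      _ = _ := by ring
  have hG1 : ∀ n : ℕ, 2 ≤ c2 * ((2000 ^ n * R) ^ 2 * Real.exp (E (Real.log (2000 ^ n * R)) / 4)) := by
    intro n
    have h1 : 1 ≤ Real.exp (E (Real.log (2000 ^ n * R)) / 4) := by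
      apply Real.one_le_exp
      have := hE0 _ (hlogR n)
      positivity
    have h2 : R ≤ (2000 ^ n * R) ^ 2 := by
      have := hRn n
      nlinarith
    calc (2:ℝ) ≤ c2 * R := hRc
      _ ≤ c2 * ((2000 ^ n * R) ^ 2 * 1) := by rw [mul_one]; gcongr
      _ ≤ _ := by gcongr
  set G0 : ℝ := (2000 ^ 0 * R) ^ 2 * Real.exp (E (Real.log (2000 ^ 0 * R)) / 4) with hG0
  have hG0p : 0 < G0 := by positivity
  have hAR : 0 < A R := by linarith
  refine ⟨R, min (c2 / 56000000) (A R / G0), hR1, hRe, lt_min (by positivity) (by positivity), ?_⟩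
  set c' := min (c2 / 56000000) (A R / G0) with hc'
  have hc'0 : 0 < c' := lt_min (by positivity) (by positivity)
  have hc'1 : c' ≤ c2 / 56000000 := min_le_left _ _
  have hc'2 : c' ≤ A R / G0 := min_le_right _ _
  intro n
  induction n with
  | zero =>
    rw [mul_assoc, ← hG0]
    rw [le_div_iff₀ hG0p] at hc'2
    simpa using hc'2
  | succ n ih =>
    have hg := hG n
    have hg1 := hG1 n
    rw [mul_assoc] at ih ⊢
    set g := (2000 ^ n * R) ^ 2 * Real.exp (E (Real.log (2000 ^ n * R)) / 4) with hgdef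
    have hpos : 0 < 2000 ^ n * R := by positivity
    have hrr := hRn n
    refine (mul_le_mul_of_nonneg_left hg hc'0.le).trans ?_
    have hAR2 : A R ≤ A (2000 ^ n * R) := hA hrr
    have hexpx : Real.exp x₀ ≤ Real.exp (x₀ + 1) := Real.exp_le_exp.2 (by linarith)
    rcases h1 (2000 ^ n * R) (by linarith) with h | h
    · have h3 := key1 (2000 ^ n * R) (by linarith) h
      rw [mul_assoc, ← hgdef] at h3
      have h4 : A (640 * (2000 ^ n * R)) ≤ A (2000 ^ (n + 1) * R) := by
        apply hA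
        rw [pow_succ]
        nlinarith
      have h5 : c' * (28000000 * g) ≤ c2 / 2 * g := by
        have hgp : 0 < g := by positivity
        have : c' * 28000000 ≤ c2 / 2 := by linarith
        calc c' * (28000000 * g) = (c' * 28000000) * g := by ring
          _ ≤ _ := by gcongr
      linarith
    · have h4 : A (128 * (2000 ^ n * R)) ≤ A (2000 ^ (n + 1) * R) := by
        apply hA
        rw [pow_succ]
        nlinarith
      have h5 : A (2000 ^ n * R) * 28000000 ≤ A (128 * (2000 ^ n * R)) := by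
        have := hA0 (2000 ^ n * R)
        linarith
      nlinarith

end

end Pool.Agent.Helper311.TI.J6648

namespace Pool.Agent.Helper311.TI

alias ode_grow := J6648.ode_grow

end Pool.Agent.Helper311.TI

namespace Pool.Agent.Helper311.TI.J6649

noncomputable section

lemma exp_tele (a b : ℝ) : (b - a) * Real.exp (-b/4) ≤ 4 * (Real.exp (-a/4) - Real.exp (-b/4)) := by
  have h1 := Real.add_one_le_exp ((b-a)/4)
  have h2 : Real.exp (-a/4) = Real.exp ((b-a)/4) * Real.exp (-b/4) := by
    rw [← Real.exp_add]; ring_nf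
  have h3 := Real.exp_pos (-b/4)
  rw [h2]
  nlinarith

lemma ode_sum (m : ℝ → ℝ) (hm : MonotoneOn m (Ici 0)) (hm0 : ∀ x, 0 ≤ x → 0 ≤ m x)
    (e : ℕ → ℝ) (R c : ℝ) (hR : 1 ≤ R) (hc : 0 < c) (he0 : ∀ n, 0 ≤ e n)
    (he : ∀ n, e n ≤ e (n + 1) ∧ e (n + 1) ≤ e n + Real.log 2000)
    (h : ∀ n : ℕ, m (c * (2000 ^ n * R) * Real.exp (e n / 4)) ≤
      1 + 2000 ^ (n + 2) * R * (e (n + 2) - e (n + 1)) / Real.log 2000) :
    ∫⁻ x in Ioi (1 : ℝ), ENNReal.ofReal (m x / x ^ 2) < ⊤ := by
  have hL : 0 < Real.log 2000 := Real.log_pos (by norm_num)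
  have hR0 : 0 < R := by linarith
  set L := Real.log 2000 with hLdef
  set y : ℕ → ℝ := fun n => c * (2000 ^ n * R) * Real.exp (e n / 4) with hy
  have hmy : ∀ n, m (y n) ≤ 1 + 2000 ^ (n + 2) * R * (e (n + 2) - e (n + 1)) / L := h
  have hypos : ∀ n, 0 < y n := fun n => by simp only [hy]; positivity
  have hexp1 : ∀ n, 1 ≤ Real.exp (e n / 4) := fun n => Real.one_le_exp (by have := he0 n; linarith)
  have hyge : ∀ n, c * 2000 ^ n ≤ y n := by
    intro n
    have h1 := hexp1 n
    have h2 : (0:ℝ) < c * 2000 ^ n := by positivity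
    calc c * 2000 ^ n = c * (2000 ^ n * 1) * 1 := by ring
      _ ≤ c * (2000 ^ n * R) * Real.exp (e n / 4) := by
          apply mul_le_mul _ h1 (by norm_num) (by positivity)
          apply mul_le_mul_of_nonneg_left _ hc.le
          exact mul_le_mul_of_nonneg_left hR (by positivity)
  have hexpL : Real.exp (L / 4) ≤ 2000 := by
    have : Real.exp (L/4) ≤ Real.exp L := Real.exp_le_exp.mpr (by linarith)
    rwa [hLdef, Real.exp_log (by norm_num)] at this
  have hyup : ∀ n, y (n+1) ≤ 2000^2 * y n := by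
    intro n
    have h1 : Real.exp (e (n+1) / 4) ≤ Real.exp (e n / 4) * 2000 := by
      calc Real.exp (e (n+1) / 4) ≤ Real.exp (e n / 4 + L / 4) :=
            Real.exp_le_exp.mpr (by have := (he n).2; linarith)
        _ = Real.exp (e n / 4) * Real.exp (L/4) := Real.exp_add _ _
        _ ≤ _ := mul_le_mul_of_nonneg_left hexpL (Real.exp_pos _).le
    simp only [hy]
    calc c * (2000 ^ (n+1) * R) * Real.exp (e (n+1) / 4)
        ≤ c * (2000 ^ (n+1) * R) * (Real.exp (e n / 4) * 2000) :=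
          mul_le_mul_of_nonneg_left h1 (by positivity)
      _ = 2000^2 * (c * (2000 ^ n * R) * Real.exp (e n / 4)) := by ring
  -- the bound on each piece
  set u : ℕ → ℝ := fun n => Real.exp (-(e (n+2)) / 4) with hu
  have hue : ∀ n, Real.exp (-(e n) / 4) ≤ 2000 * Real.exp (-(e (n+3)) / 4) := by
    intro n
    have h1 := (he n).2
    have h2 := (he (n+1)).2
    have h3 := (he (n+2)).2
    have h4 : e (n+3) ≤ e n + 3 * L := by
      have e1 : n + 1 + 1 = n + 2 := rfl
      have e2 : n + 2 + 1 = n + 3 := rfl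
      rw [e1] at h2
      rw [e2] at h3
      linarith
    have h5 : (2000:ℝ) = Real.exp L := by rw [hLdef, Real.exp_log (by norm_num)]
    rw [h5, ← Real.exp_add]
    exact Real.exp_le_exp.mpr (by linarith)
  set B : ℕ → ℝ := fun n => 2000^2 * (c⁻¹ * (1/2000)^n + (2000^4 / (c * L)) * (4 * (u n - u (n+1)))) with hB
  have hmono : ∀ n, u (n+1) ≤ u n := by
    intro n
    simp only [hu]
    exact Real.exp_le_exp.mpr (by have := (he (n+2)).1; have e1 : n + 1 + 2 = n + 2 + 1 := rfl; rw [e1]; linarith)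
  have hB0 : ∀ n, 0 ≤ B n := by
    intro n
    have := hmono n
    simp only [hB]
    have h1 : 0 ≤ u n - u (n+1) := by linarith
    positivity
  have hterm : ∀ n, m (y (n+1)) * (2000^2 / y n) ≤ B n := by
    intro n
    have h1 := hmy (n+1)
    have e1 : n + 1 + 2 = n + 3 := rfl
    have e2 : n + 1 + 1 = n + 2 := rfl
    rw [e1, e2] at h1
    have h2 := hypos n
    have h3 : 1 / y n ≤ c⁻¹ * (1/2000)^n := by
      have := one_div_le_one_div_of_le (by positivity : (0:ℝ) < c * 2000 ^ n) (hyge n)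
      calc 1 / y n ≤ 1 / (c * 2000 ^ n) := this
        _ = c⁻¹ * (1 / 2000)^n := by rw [one_div_pow, one_div, mul_inv, one_div]
    have h4 : 2000 ^ (n + 3) * R / y n = 2000^3 / c * Real.exp (-(e n) / 4) := by
      simp only [hy]
      rw [neg_div, Real.exp_neg]
      field_simp
      ring
    have h5 : e (n+2) ≤ e (n+3) := (he (n+2)).1
    have h6 : (e (n+3) - e (n+2)) * Real.exp (-(e n) / 4) ≤ 2000 * (4 * (u n - u (n+1))) := by
      calc (e (n+3) - e (n+2)) * Real.exp (-(e n) / 4)
          ≤ (e (n+3) - e (n+2)) * (2000 * Real.exp (-(e (n+3)) / 4)) :=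
            mul_le_mul_of_nonneg_left (hue n) (by linarith)
        _ = 2000 * ((e (n+3) - e (n+2)) * Real.exp (-(e (n+3)) / 4)) := by ring
        _ ≤ 2000 * (4 * (u n - u (n+1))) := by
            apply mul_le_mul_of_nonneg_left _ (by norm_num)
            exact exp_tele (e (n+2)) (e (n+3))
    calc m (y (n+1)) * (2000^2 / y n)
        ≤ (1 + 2000 ^ (n + 3) * R * (e (n + 3) - e (n + 2)) / L) * (2000^2 / y n) :=
          mul_le_mul_of_nonneg_right h1 (by positivity)
      _ = 2000^2 * (1 / y n + (2000 ^ (n + 3) * R / y n) * (e (n + 3) - e (n + 2)) / L) := by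
          field_simp
      _ = 2000^2 * (1 / y n + (2000^3 / (c * L)) * ((e (n + 3) - e (n + 2)) * Real.exp (-(e n) / 4))) := by
          rw [h4]; field_simp
      _ ≤ 2000^2 * (c⁻¹ * (1/2000)^n + (2000^3 / (c * L)) * (2000 * (4 * (u n - u (n+1))))) := by
          apply mul_le_mul_of_nonneg_left _ (by norm_num)
          exact add_le_add h3 (mul_le_mul_of_nonneg_left h6 (by positivity))
      _ = B n := by simp only [hB]; ring
  have hsum : Summable B := by
    simp only [hB]
    apply Summable.mul_left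
    apply Summable.add
    · exact (summable_geometric_of_lt_one (by norm_num) (by norm_num)).mul_left _
    · apply Summable.mul_left
      apply Summable.mul_left
      apply summable_of_sum_range_le (c := u 0)
      · intro n; have := hmono n; linarith
      · intro n
        rw [Finset.sum_range_sub']
        have : 0 < u n := Real.exp_pos _
        linarith
  have hcover : Ioi (1:ℝ) ⊆ Ioc 1 (max 1 (y 0)) ∪ ⋃ n, Ioc (y n) (y (n+1)) := by
    intro x hx
    by_cases hx0 : x ≤ max 1 (y 0)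
    · exact Or.inl ⟨hx, hx0⟩
    · right
      push Not at hx0
      have hxy : y 0 < x := lt_of_le_of_lt (le_max_right _ _) hx0
      have hex : ∃ n, x ≤ y n := by
        obtain ⟨n, hn⟩ := pow_unbounded_of_one_lt (x / c) (by norm_num : (1:ℝ) < 2000)
        refine ⟨n, ?_⟩
        have h1 : x < c * 2000 ^ n := by
          rw [div_lt_iff₀ hc] at hn
          linarith
        exact h1.le.trans (hyge n)
      classical
      have hN := Nat.find_spec hex
      have hN0 : Nat.find hex ≠ 0 := by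
        intro h0
        rw [h0] at hN
        linarith
      obtain ⟨k, hk⟩ := Nat.exists_eq_succ_of_ne_zero hN0
      have hmin := Nat.find_min hex (m := k) (by omega)
      push Not at hmin
      rw [hk] at hN
      exact mem_iUnion.mpr ⟨k, hmin, hN⟩
  have hpiece : ∀ n, ∫⁻ x in Ioc (y n) (y (n+1)), ENNReal.ofReal (m x / x ^ 2) ≤ ENNReal.ofReal (B n) := by
    intro n
    have hyn := hypos n
    have hmn : 0 ≤ m (y (n+1)) := hm0 _ (hypos _).le
    calc ∫⁻ x in Ioc (y n) (y (n+1)), ENNReal.ofReal (m x / x ^ 2)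
        ≤ ∫⁻ x in Ioc (y n) (y (n+1)), ENNReal.ofReal (m (y (n+1)) / (y n)^2) := by
          apply setLIntegral_mono' measurableSet_Ioc
          intro x hx
          apply ENNReal.ofReal_le_ofReal
          have hx0 : 0 < x := hyn.trans hx.1
          have h1 : m x ≤ m (y (n+1)) := hm hx0.le (hypos _).le hx.2
          have h2 : (y n)^2 ≤ x^2 := pow_le_pow_left₀ hyn.le hx.1.le 2
          exact div_le_div₀ hmn h1 (by positivity) h2
      _ = ENNReal.ofReal (m (y (n+1)) / (y n)^2) * ENNReal.ofReal (y (n+1) - y n) := by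
          rw [setLIntegral_const, Real.volume_Ioc]
      _ = ENNReal.ofReal (m (y (n+1)) / (y n)^2 * (y (n+1) - y n)) := by
          rw [ENNReal.ofReal_mul (by positivity)]
      _ ≤ ENNReal.ofReal (B n) := by
          apply ENNReal.ofReal_le_ofReal
          refine le_trans ?_ (hterm n)
          have h1 := hyup n
          calc m (y (n+1)) / (y n)^2 * (y (n+1) - y n) ≤ m (y (n+1)) / (y n)^2 * (2000^2 * y n) :=
                mul_le_mul_of_nonneg_left (by linarith) (by positivity)
            _ = m (y (n+1)) * (2000^2 / y n) := by field_simp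
  calc ∫⁻ x in Ioi (1 : ℝ), ENNReal.ofReal (m x / x ^ 2)
      ≤ ∫⁻ x in Ioc 1 (max 1 (y 0)) ∪ ⋃ n, Ioc (y n) (y (n+1)), ENNReal.ofReal (m x / x ^ 2) :=
        lintegral_mono_set hcover
    _ ≤ (∫⁻ x in Ioc 1 (max 1 (y 0)), ENNReal.ofReal (m x / x ^ 2))
        + ∫⁻ x in ⋃ n, Ioc (y n) (y (n+1)), ENNReal.ofReal (m x / x ^ 2) := lintegral_union_le _ _ _
    _ < ⊤ := by
        apply ENNReal.add_lt_top.mpr
        constructor
        · calc ∫⁻ x in Ioc 1 (max 1 (y 0)), ENNReal.ofReal (m x / x ^ 2)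
              ≤ ∫⁻ x in Ioc 1 (max 1 (y 0)), ENNReal.ofReal (m (max 1 (y 0))) := by
                apply setLIntegral_mono' measurableSet_Ioc
                intro x hx
                apply ENNReal.ofReal_le_ofReal
                have hx0 : (0:ℝ) ≤ x := by linarith [hx.1]
                have hM0 : (0:ℝ) ≤ max 1 (y 0) := le_max_of_le_left (by norm_num)
                have h1 : m x ≤ m (max 1 (y 0)) := hm hx0 hM0 hx.2
                have h2 : (1:ℝ) ≤ x^2 := one_le_pow₀ hx.1.le
                exact (div_le_self (hm0 x hx0) h2).trans h1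
            _ = ENNReal.ofReal (m (max 1 (y 0))) * volume (Ioc 1 (max 1 (y 0))) := setLIntegral_const _ _
            _ < ⊤ := by
                rw [Real.volume_Ioc]
                exact ENNReal.mul_lt_top ENNReal.ofReal_lt_top ENNReal.ofReal_lt_top
        · calc ∫⁻ x in ⋃ n, Ioc (y n) (y (n+1)), ENNReal.ofReal (m x / x ^ 2)
              ≤ ∑' n, ∫⁻ x in Ioc (y n) (y (n+1)), ENNReal.ofReal (m x / x ^ 2) := lintegral_iUnion_le _ _
            _ ≤ ∑' n, ENNReal.ofReal (B n) := ENNReal.tsum_le_tsum hpiece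
            _ = ENNReal.ofReal (∑' n, B n) := (ENNReal.ofReal_tsum_of_nonneg hB0 hsum).symm
            _ < ⊤ := ENNReal.ofReal_lt_top

end

end Pool.Agent.Helper311.TI.J6649

namespace Pool.Agent.Helper311.TI

alias ode_sum := J6649.ode_sum

end Pool.Agent.Helper311.TI

namespace Pool.Agent.Helper311.TI.J6650

noncomputable section

theorem final_ode (A B S m : ℝ → ℝ) (K C c x₀ : ℝ) (hK : 0 ≤ K) (hC : 0 ≤ C) (hc : 0 < c)
    (hA : Monotone A) (hB : Monotone B) (hA0 : ∀ r, 0 ≤ A r) (hB0 : ∀ r, 0 ≤ B r)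
    (hAinf : Tendsto A atTop atTop)
    (hS : Monotone S) (hSc : Continuous S) (hS0 : ∀ x, 0 ≤ S x)
    (hm : MonotoneOn m (Ici 0)) (hm0 : ∀ x, 0 ≤ x → 0 ≤ m x)
    (h1 : ∀ r, Real.exp x₀ ≤ r →
      B r ≤ K * (A (640 * r) + 1) ∨ A r ≤ C + A (128 * r) / 10 ^ 10)
    (h2 : ∀ x, x₀ ≤ x → c * Real.exp (8 * x + ∫ t in x₀..x, eta m S t) ≤
      A (Real.exp (x + 1)) ^ 2 * B (Real.exp (x + 1)) ^ 2)
    (h3 : ∀ r, Real.exp x₀ ≤ r → A r ≤ C + 5 * S (Real.log (2 * r)))
    (h4 : ∀ s y, 0 ≤ s → 0 ≤ y → s + 1 ≤ m y → A s ≤ C + s * y + Real.log (1 + y)) :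
    ∫⁻ x in Ioi (1 : ℝ), ENNReal.ofReal (m x / x ^ 2) < ⊤ := by
  classical
  have hmon : Monotone (fun x : ℝ => m (max x 0)) := by
    intro x y hxy
    exact hm (mem_Ici.mpr (le_max_right x 0)) (mem_Ici.mpr (le_max_right y 0)) (max_le_max hxy le_rfl)
  have heta_meas : Measurable (eta m S) := by
    have h1' : eta m S = fun t => min 1 (max (m (max (S t * Real.exp (-t) / 20) 0) - 1) 0 *
        Real.exp (-t)) := by
      funext t
      have h0 : 0 ≤ S t * Real.exp (-t) / 20 := by
        have := hS0 t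
        positivity
      simp only [eta, max_eq_left h0]
    rw [h1']
    have hc1 : Continuous (fun t => S t * Real.exp (-t) / 20) := by fun_prop
    have h2' : Measurable (fun t => m (max (S t * Real.exp (-t) / 20) 0)) :=
      hmon.measurable.comp hc1.measurable
    have h3' : Measurable (fun t : ℝ => Real.exp (-t)) := by fun_prop
    exact measurable_const.min (((h2'.sub_const 1).max measurable_const).mul h3')
  have heta0 : ∀ t, 0 ≤ eta m S t := by
    intro t
    unfold eta
    exact le_min zero_le_one (mul_nonneg (le_max_right _ _) (Real.exp_pos _).le)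
  have heta1 : ∀ t, eta m S t ≤ 1 := fun t => min_le_left _ _
  have hint : ∀ a b : ℝ, IntervalIntegrable (eta m S) volume a b := by
    intro a b
    refine (intervalIntegrable_const (c := (1 : ℝ))).mono_fun'
      heta_meas.aestronglyMeasurable (ae_of_all _ ?_)
    intro t
    simp only [Real.norm_eq_abs, abs_of_nonneg (heta0 t)]
    exact heta1 t
  set E : ℝ → ℝ := fun x => ∫ t in x₀..x, eta m S t with hEdef
  have hEsub : ∀ x y, E y - E x = ∫ t in x..y, eta m S t := by
    intro x y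
    simp only [hEdef]
    exact intervalIntegral.integral_interval_sub_left (hint _ _) (hint _ _)
  have hEm : ∀ x y, x ≤ y → E x ≤ E y ∧ E y ≤ E x + (y - x) := by
    intro x y hxy
    have h := hEsub x y
    constructor
    · have : 0 ≤ ∫ t in x..y, eta m S t :=
        intervalIntegral.integral_nonneg hxy (fun t _ => heta0 t)
      linarith
    · have : ∫ t in x..y, eta m S t ≤ ∫ t in x..y, (1 : ℝ) :=
        intervalIntegral.integral_mono_on hxy (hint _ _) intervalIntegrable_const
          (fun t _ => heta1 t)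
      rw [intervalIntegral.integral_const, smul_eq_mul, mul_one] at this
      linarith
  have hE0 : ∀ x, x₀ ≤ x → 0 ≤ E x := by
    intro x hx
    exact intervalIntegral.integral_nonneg hx (fun t _ => heta0 t)
  obtain ⟨R0, c', hR0, hR0', hc', hP0⟩ := ode_grow A B E K C c x₀ hK hC hc hA hA0 hB0 hAinf hE0
    (fun x y _ hxy => hEm x y hxy) h1 h2
  -- enlarge the starting index
  have htend : Tendsto (fun n : ℕ => A ((2000 : ℝ) ^ n * R0)) atTop atTop := by
    refine hAinf.comp ?_
    exact (tendsto_pow_atTop_atTop_of_one_lt (by norm_num)).atTop_mul_const (by linarith)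
  obtain ⟨n0, hn0⟩ := (htend.eventually_ge_atTop (2 * C + 1)).exists
  set R : ℝ := 2000 ^ n0 * R0 with hRdef
  have hp0 : (1 : ℝ) ≤ 2000 ^ n0 := one_le_pow₀ (by norm_num)
  have hRR0 : R0 ≤ R := by
    rw [hRdef]
    nlinarith
  have hR : 1 ≤ R := hR0.trans hRR0
  have hRx : Real.exp (x₀ + 1) ≤ R := hR0'.trans hRR0
  have hP : ∀ n : ℕ, c' * (2000 ^ n * R) ^ 2 * Real.exp (E (Real.log (2000 ^ n * R)) / 4) ≤
      A (2000 ^ n * R) := by
    intro n
    have h := hP0 (n + n0)
    have e1 : (2000 : ℝ) ^ (n + n0) * R0 = 2000 ^ n * R := by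
      rw [hRdef, pow_add]; ring
    rw [e1] at h
    exact h
  have hpn : ∀ n : ℕ, (1 : ℝ) ≤ 2000 ^ n := fun n => one_le_pow₀ (by norm_num)
  have hRn : ∀ n : ℕ, R ≤ 2000 ^ n * R := by
    intro n
    have := hpn n
    nlinarith
  have hRn1 : ∀ n : ℕ, 1 ≤ 2000 ^ n * R := fun n => hR.trans (hRn n)
  have hRnpos : ∀ n : ℕ, 0 < 2000 ^ n * R := fun n => by
    have := hRn1 n
    linarith
  have hAR : ∀ n : ℕ, 2 * C + 1 ≤ A (2000 ^ n * R) := fun n => hn0.trans (hA (hRn n))
  have hexp0 : Real.exp x₀ ≤ R := (Real.exp_le_exp.mpr (by linarith)).trans hRx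
  set e : ℕ → ℝ := fun n => E (Real.log (2000 ^ n * R)) with hedef
  have hlogR : ∀ n : ℕ, Real.log (2000 ^ (n + 1) * R) = Real.log (2000 ^ n * R) + Real.log 2000 := by
    intro n
    rw [pow_succ, show (2000 : ℝ) ^ n * 2000 * R = (2000 ^ n * R) * 2000 by ring,
      Real.log_mul (hRnpos n).ne' (by norm_num)]
  have hlog2000 : 0 < Real.log 2000 := Real.log_pos (by norm_num)
  have hlogx0 : ∀ n : ℕ, x₀ ≤ Real.log (2000 ^ n * R) := by
    intro n
    rw [Real.le_log_iff_exp_le (hRnpos n)]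
    exact hexp0.trans (hRn n)
  have he0 : ∀ n, 0 ≤ e n := fun n => hE0 _ (hlogx0 n)
  have he : ∀ n, e n ≤ e (n + 1) ∧ e (n + 1) ≤ e n + Real.log 2000 := by
    intro n
    have h := hEm (Real.log (2000 ^ n * R)) (Real.log (2000 ^ (n + 1) * R))
      (by rw [hlogR]; linarith)
    refine ⟨h.1, h.2.trans ?_⟩
    rw [hlogR]
    simp only [hedef]
    linarith
  set c8 : ℝ := c' / (200 * 2000 ^ 2) with hc8
  have hc8pos : 0 < c8 := by positivity
  refine ode_sum m hm hm0 e R c8 hR hc8pos he0 he ?_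
  intro n
  set y : ℝ := c8 * (2000 ^ n * R) * Real.exp (e n / 4) with hy
  have hypos : 0 < y := by
    have := hRnpos n
    positivity
  set r2 : ℝ := 2000 ^ (n + 2) * R with hr2
  have hr2' : r2 = 2000 ^ 2 * (2000 ^ n * R) := by
    rw [hr2, pow_add]; ring
  have hr2pos : 0 < r2 := hRnpos (n + 2)
  have hr21 : 1 ≤ r2 := hRn1 (n + 2)
  have hkey : r2 * y = c' / 200 * (2000 ^ n * R) ^ 2 * Real.exp (e n / 4) := by
    rw [hr2', hy, hc8]
    field_simp
  have hPn : c' * (2000 ^ n * R) ^ 2 * Real.exp (e n / 4) ≤ A (2000 ^ n * R) := hP n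
  have hAmono : A (2000 ^ n * R) ≤ A r2 := by
    apply hA
    rw [hr2']
    have := hRnpos n
    nlinarith
  set M : ℝ := max (m y - 1) 0 with hM
  have hM0 : 0 ≤ M := le_max_right _ _
  have hMr2 : M ≤ r2 := by
    by_contra hcon
    push Not at hcon
    have h5 : r2 + 1 ≤ m y := by
      rcases le_total (m y - 1) 0 with h6 | h6
      · rw [hM, max_eq_right h6] at hcon
        linarith
      · rw [hM, max_eq_left h6] at hcon
        linarith
    have h7 := h4 r2 y hr2pos.le hypos.le h5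
    have h8 : Real.log (1 + y) ≤ y := by
      have := Real.log_le_sub_one_of_pos (show (0 : ℝ) < 1 + y by linarith)
      linarith
    have h9 : y ≤ r2 * y := by nlinarith
    have h10 : 2 * C + 1 ≤ A r2 := hAR (n + 2)
    have h11 : r2 * y ≤ A r2 / 200 := by
      rw [hkey]
      have : c' / 200 * (2000 ^ n * R) ^ 2 * Real.exp (e n / 4) =
        (c' * (2000 ^ n * R) ^ 2 * Real.exp (e n / 4)) / 200 := by ring
      rw [this]
      linarith
    have h12 := hA0 r2
    linarith
  -- lower bound for eta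
  have hlow : ∀ t ∈ Icc (Real.log (2000 ^ (n + 1) * R)) (Real.log r2), M / r2 ≤ eta m S t := by
    intro t ht
    have ht1 : Real.log (2 * (2000 ^ n * R)) ≤ t := by
      refine le_trans ?_ ht.1
      apply Real.log_le_log (by have := hRnpos n; positivity)
      rw [pow_succ]
      have := hRnpos n
      nlinarith
    have hexpt : 1 / r2 ≤ Real.exp (-t) := by
      rw [Real.exp_neg, one_div]
      apply inv_anti₀ (Real.exp_pos _)
      have := Real.exp_le_exp.mpr ht.2
      rwa [Real.exp_log hr2pos] at this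
    have hSt : A (2000 ^ n * R) / 10 ≤ S t := by
      have h5 := h3 (2000 ^ n * R) (hexp0.trans (hRn n))
      have h6 := hS ht1
      have h7 := hAR n
      linarith
    have hA0n := hA0 (2000 ^ n * R)
    have hyle : y ≤ S t * Real.exp (-t) / 20 := by
      have h5 : r2 * y ≤ A (2000 ^ n * R) / 200 := by
        rw [hkey]
        have : c' / 200 * (2000 ^ n * R) ^ 2 * Real.exp (e n / 4) =
          (c' * (2000 ^ n * R) ^ 2 * Real.exp (e n / 4)) / 200 := by ring
        rw [this]
        linarith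
      have h6 : y ≤ (A (2000 ^ n * R) / 200) * (1 / r2) := by
        rw [mul_one_div, le_div_iff₀ hr2pos]
        linarith
      have h7 : (A (2000 ^ n * R) / 10) * (1 / r2) ≤ S t * Real.exp (-t) :=
        mul_le_mul hSt hexpt (by positivity) (hS0 t)
      have h8 : (A (2000 ^ n * R) / 200) * (1 / r2) = (A (2000 ^ n * R) / 10) * (1 / r2) / 20 := by
        ring
      rw [h8] at h6
      linarith
    have hmy : m y ≤ m (S t * Real.exp (-t) / 20) :=
      hm (show y ∈ Ici 0 from hypos.le) (show _ ∈ Ici 0 from hypos.le.trans hyle) hyle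
    unfold eta
    refine le_min ?_ ?_
    · rw [div_le_one hr2pos]
      exact hMr2
    · have h5 : M ≤ max (m (S t * Real.exp (-t) / 20) - 1) 0 :=
        max_le_max (by linarith) le_rfl
      calc M / r2 = M * (1 / r2) := by ring
        _ ≤ max (m (S t * Real.exp (-t) / 20) - 1) 0 * Real.exp (-t) :=
          mul_le_mul h5 hexpt (by positivity) (hM0.trans h5)
  have hle12 : Real.log (2000 ^ (n + 1) * R) ≤ Real.log r2 := by
    rw [hr2, show n + 2 = (n + 1) + 1 by ring, hlogR (n + 1)]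
    linarith
  have hdiff : Real.log r2 - Real.log (2000 ^ (n + 1) * R) = Real.log 2000 := by
    rw [hr2, show n + 2 = (n + 1) + 1 by ring, hlogR (n + 1)]
    ring
  have hI : Real.log 2000 * (M / r2) ≤ e (n + 2) - e (n + 1) := by
    have h5 : e (n + 2) - e (n + 1) =
        ∫ t in Real.log (2000 ^ (n + 1) * R)..Real.log r2, eta m S t := by
      simp only [hedef]
      exact hEsub _ _
    rw [h5]
    have h6 : ∫ t in Real.log (2000 ^ (n + 1) * R)..Real.log r2, (M / r2) ≤
        ∫ t in Real.log (2000 ^ (n + 1) * R)..Real.log r2, eta m S t :=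
      intervalIntegral.integral_mono_on hle12 intervalIntegrable_const (hint _ _) hlow
    rw [intervalIntegral.integral_const, smul_eq_mul, hdiff] at h6
    exact h6
  have hmM : m y ≤ 1 + M := by
    have := le_max_left (m y - 1) 0
    rw [← hM] at this
    linarith
  refine hmM.trans ?_
  have h5 : M ≤ r2 * (e (n + 2) - e (n + 1)) / Real.log 2000 := by
    rw [le_div_iff₀ hlog2000]
    have h6 : Real.log 2000 * (M / r2) * r2 ≤ (e (n + 2) - e (n + 1)) * r2 :=
      mul_le_mul_of_nonneg_right hI hr2pos.le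
    have h7 : Real.log 2000 * (M / r2) * r2 = M * Real.log 2000 := by
      field_simp
    rw [h7] at h6
    linarith
  linarith

end

end Pool.Agent.Helper311.TI.J6650

namespace Pool.Agent.Helper311.TI

alias final_ode := J6650.final_ode

end Pool.Agent.Helper311.TI
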