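import Mathlib
import Pool.Agent.Helper311.TI.Defs
import Pool.Agent.Helper311.TI.Ode
import Pool.Agent.Helper311.TI.Wirt
import Pool.Agent.Helper311.TI.Match
import Pool.Agent.Helper311.TI.Growth

set_option autoImplicit false

open MeasureTheory Filter Topology Complex Set

namespace Pool.Agent.Helper311.TI.J6662

noncomputable section

lemma eta_nonneg' (m S : ℝ → ℝ) (t : ℝ) : 0 ≤ eta m S t := by
  unfold eta
  apply le_min zero_le_one
  exact mul_nonneg (le_max_right _ _) (Real.exp_pos _).le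

lemma eta_le_one' (m S : ℝ → ℝ) (t : ℝ) : eta m S t ≤ 1 := min_le_left _ _

lemma eta_meas' (m S : ℝ → ℝ) (hm : MonotoneOn m (Ici 0)) (hSc : Continuous S)
    (hS0 : ∀ x, 0 ≤ S x) : Measurable (eta m S) := by
  have hmono : Monotone (fun x => m (max x 0)) := by
    intro a b hab
    exact hm (mem_Ici.mpr (le_max_right _ _)) (mem_Ici.mpr (le_max_right _ _))
      (max_le_max hab le_rfl)
  have h1 : Measurable (fun x => m (max x 0)) := hmono.measurable
  have h2 : Measurable (fun t => S t * Real.exp (-t) / 20) := by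
    have := hSc.measurable
    fun_prop
  have h3 : Measurable (fun t => m (S t * Real.exp (-t) / 20)) := by
    have h4 := h1.comp h2
    have h5 : ((fun x => m (max x 0)) ∘ fun t => S t * Real.exp (-t) / 20) =
        fun t => m (S t * Real.exp (-t) / 20) := by
      funext t
      have : 0 ≤ S t * Real.exp (-t) / 20 := by
        have := hS0 t
        positivity
      simp only [Function.comp, max_eq_left this]
    rwa [h5] at h4
  unfold eta
  exact measurable_const.min (((h3.sub_const 1).max measurable_const).mul (by fun_prop))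

lemma eta_ii' (m S : ℝ → ℝ) (hm : MonotoneOn m (Ici 0)) (hSc : Continuous S)
    (hS0 : ∀ x, 0 ≤ S x) (a b : ℝ) : IntervalIntegrable (eta m S) volume a b := by
  refine (intervalIntegrable_const (c := (1 : ℝ))).mono_fun
    (eta_meas' m S hm hSc hS0).aestronglyMeasurable ?_
  refine Filter.Eventually.of_forall (fun t => ?_)
  show ‖eta m S t‖ ≤ ‖(1 : ℝ)‖
  rw [Real.norm_of_nonneg (eta_nonneg' m S t), norm_one]
  exact eta_le_one' m S t

theorem theoremY {F G : ℂ → ℂ} {Fs Gs : ℝ → ℂ → ℂ} {σ₀ C₀ : ℝ} (hP : Pair F G Fs Gs σ₀ C₀)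
    (m : ℝ → ℝ) (hm : MonotoneOn m (Ici 0)) (hm0 : ∀ x, 0 ≤ x → 0 ≤ m x)
    (hp5 : ∀ s y : ℝ, 0 ≤ s → 0 ≤ y → s + 1 ≤ m y → ∀ ζ : ℂ, ζ.re ≤ s →
      ‖G ζ‖ ≤ C₀ * (1 + y) * Real.exp (s * y))
    (hF : ¬ ∃ B : ℝ, ∀ ζ : ℂ, ‖F ζ‖ ≤ B) (hG : ¬ ∃ B : ℝ, ∀ ζ : ℂ, ‖G ζ‖ ≤ B) :
    ∫⁻ x in Ioi (1 : ℝ), ENNReal.ofReal (m x / x ^ 2) < ⊤ := by
  obtain ⟨S, c, C1, x0, hSm, hSc, hS0, hc, hC1, h3, h2⟩ := B_main hP m hm hp5 hF hG
  obtain ⟨K, r0, hK, hr0, hmatch⟩ := match_A hP
  obtain ⟨hA, hA0, hAle, hAsup, hAinf⟩ := MM_props G hP.G_diff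
  obtain ⟨hB, hB0, hBle, hBsup, -⟩ := MM_props F hP.F_diff
  have hC0 : 1 ≤ C₀ := hP.hC
  have hL0 : 0 ≤ Real.log C₀ := Real.log_nonneg hC0
  have hL4 : Real.log C₀ ≤ Real.log (4 * C₀) := Real.log_le_log (by linarith) (by linarith)
  set C := max (Real.log (4 * C₀)) C1 with hCdef
  have hCa : Real.log (4 * C₀) ≤ C := le_max_left _ _
  have hCb : C1 ≤ C := le_max_right _ _
  have hCn : 0 ≤ C := le_trans hC1 hCb
  set x1 := max x0 (Real.log r0) with hx1
  have hx01 : x0 ≤ x1 := le_max_left _ _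
  have hx1r : r0 ≤ Real.exp x1 := by
    calc r0 = Real.exp (Real.log r0) := (Real.exp_log (by linarith)).symm
      _ ≤ Real.exp x1 := Real.exp_le_exp.mpr (le_max_right _ _)
  refine final_ode (MM G) (MM F) S m K C c x1 hK hCn hc hA hB hA0 hB0 (hAinf hG) hSm hSc hS0
    hm hm0 ?_ ?_ ?_ ?_
  · intro r hr
    have hr0' : r0 ≤ r := hx1r.trans hr
    have hrp : 0 < r := by linarith
    by_cases hex : ∃ ζ₀ : ℂ, ‖ζ₀‖ ≤ 128 * r ∧ 4 * r ≤ ζ₀.re ∧ 4 * C₀ ≤ ‖G ζ₀‖
    · left
      obtain ⟨ζ₀, ha, hb, hcc⟩ := hex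
      apply hBsup
      · exact mul_nonneg hK (by linarith [hA0 (640 * r)])
      · exact hmatch r hr0' (MM G (640 * r)) (hA0 _) (fun ζ hζ => hAle _ ζ hζ) ζ₀ ha hb hcc
    · right
      have hex' : ∀ ζ : ℂ, ‖ζ‖ ≤ 128 * r → 4 * r ≤ ζ.re → ‖G ζ‖ ≤ 4 * C₀ := by
        intro ζ h1 h2
        by_contra h4
        exact hex ⟨ζ, h1, h2, (not_le.mp h4).le⟩
      have h5 := rect_G G hP.G_diff C₀ r (MM G (128 * r)) hC0 hrp (hA0 _) hP.G_le hex'
        (fun ζ hζ => hAle _ ζ hζ)
      have h6 := hAsup r (Real.log (4 * C₀) + MM G (128 * r) / 10 ^ 10)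
        (add_nonneg (hL0.trans hL4) (div_nonneg (hA0 _) (by positivity))) h5
      linarith
  · intro x hx
    refine le_trans ?_ (h2 x (hx01.trans hx))
    apply mul_le_mul_of_nonneg_left _ hc.le
    apply Real.exp_le_exp.mpr
    have := intervalIntegral.integral_mono_interval (μ := volume) (f := eta m S) hx01 hx le_rfl
      (Filter.Eventually.of_forall (fun t => eta_nonneg' m S t)) (eta_ii' m S hm hSc hS0 x0 x)
    linarith
  · intro r hr
    have hrp : 0 < r := lt_of_lt_of_le (Real.exp_pos _) hr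
    have := hAsup r (C1 + 5 * S (Real.log (2 * r)))
      (by have := hS0 (Real.log (2 * r)); positivity) (h3 r hrp)
    linarith
  · intro s y hs hy hsy
    apply hAsup
    · have : 0 ≤ Real.log (1 + y) := Real.log_nonneg (by linarith)
      positivity
    · intro ζ hζ
      have h5 : ‖G ζ‖ ≤ C₀ * (1 + y) * Real.exp (s * y) :=
        hp5 s y hs hy hsy ζ ((Complex.re_le_norm ζ).trans hζ)
      have hlog : 0 ≤ Real.log (1 + y) := Real.log_nonneg (by linarith)
      by_cases hz : ‖G ζ‖ = 0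
      · rw [hz, Real.log_zero]
        positivity
      · have h6 : 0 < ‖G ζ‖ := lt_of_le_of_ne (norm_nonneg _) (Ne.symm hz)
        have h7 := Real.log_le_log h6 h5
        rw [Real.log_mul (by positivity) (Real.exp_pos _).ne', Real.log_exp,
          Real.log_mul (by positivity) (by positivity)] at h7
        linarith

end

end Pool.Agent.Helper311.TI.J6662

namespace Pool.Agent.Helper311.TI

alias theoremY := J6662.theoremY

end Pool.Agent.Helper311.TI
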