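import Mathlib
import Pool.Agent.Helper311.TI.Defs

set_option autoImplicit false

open MeasureTheory Filter Topology Complex Set

namespace Pool.Agent.Helper311.TI.J6774

noncomputable section

lemma wm_props {m : ℝ → ℝ} (hm : NW m) :
    (∀ x, 0 ≤ m x) ∧ (∀ a b : ℝ, IntervalIntegrable m volume a b) ∧ Continuous (wm m) ∧
    Antitone (wm m) ∧ wm m 0 = 1 ∧ (∀ x, 0 < wm m x) ∧
    (∀ x y : ℝ, wm m y = wm m x * Real.exp (-∫ t in x..y, m t)) ∧
    (∀ σ : ℝ, ∃ X : ℝ, 0 < X ∧ {x : ℝ | m x ≤ σ} ⊆ Icc (-X) X) ∧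
    (∀ x y z : ℝ, x ≤ y → y ≤ z → m y ≤ max (m x) (m z)) := by
  have h0 : ∀ x, 0 ≤ m x := by
    intro x
    rcases le_total 0 x with h | h
    · exact hm.zero.trans (hm.mono (mem_Ici.2 le_rfl) (mem_Ici.2 h) h)
    · exact hm.zero.trans (hm.anti (mem_Iic.2 h) (mem_Iic.2 le_rfl) h)
  have hi0 : ∀ b : ℝ, IntervalIntegrable m volume 0 b := by
    intro b
    rcases le_total 0 b with h | h
    · apply MonotoneOn.intervalIntegrable
      rw [uIcc_of_le h]
      exact hm.mono.mono fun x hx => hx.1
    · apply AntitoneOn.intervalIntegrable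
      rw [uIcc_of_ge h]
      exact hm.anti.mono fun x hx => hx.2
  have hi : ∀ a b : ℝ, IntervalIntegrable m volume a b := fun a b => (hi0 a).symm.trans (hi0 b)
  have hadd : ∀ x y : ℝ, wm m y = wm m x * Real.exp (-∫ t in x..y, m t) := by
    intro x y
    unfold wm
    rw [← Real.exp_add, ← intervalIntegral.integral_add_adjacent_intervals (hi0 x) (hi x y)]
    congr 1
    ring
  refine ⟨h0, hi, ?_, ?_, ?_, fun x => Real.exp_pos _, hadd, ?_, ?_⟩
  · unfold wm
    exact Real.continuous_exp.comp (intervalIntegral.continuous_primitive hi 0).neg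
  · intro x y hxy
    rw [hadd x y]
    have h1 : 0 ≤ ∫ t in x..y, m t := intervalIntegral.integral_nonneg hxy fun t _ => h0 t
    have h2 : Real.exp (-∫ t in x..y, m t) ≤ 1 := Real.exp_le_one_iff.2 (by linarith)
    exact mul_le_of_le_one_right (Real.exp_pos _).le h2
  · unfold wm
    rw [intervalIntegral.integral_same, neg_zero, Real.exp_zero]
  · intro σ
    obtain ⟨X1, hX1⟩ := eventually_atTop.1 (hm.top.eventually_gt_atTop σ)
    obtain ⟨X2, hX2⟩ := eventually_atBot.1 (hm.bot.eventually_gt_atTop σ)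
    refine ⟨max |X1| |X2| + 1, by positivity, ?_⟩
    intro x hx
    have hx' : m x ≤ σ := hx
    constructor
    · by_contra hcon
      push Not at hcon
      have : x ≤ X2 := by
        have h1 := neg_abs_le X2
        have h2 := le_max_right |X1| |X2|
        linarith
      linarith [hX2 x this]
    · by_contra hcon
      push Not at hcon
      have : X1 ≤ x := by
        have h1 := le_abs_self X1
        have h2 := le_max_left |X1| |X2|
        linarith
      linarith [hX1 x this]
  · intro x y z hxy hyz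
    rcases le_total 0 y with h | h
    · exact (hm.mono (mem_Ici.2 h) (mem_Ici.2 (h.trans hyz)) hyz).trans (le_max_right _ _)
    · exact (hm.anti (mem_Iic.2 (hxy.trans h)) (mem_Iic.2 h) hxy).trans (le_max_left _ _)

end

end Pool.Agent.Helper311.TI.J6774

namespace Pool.Agent.Helper311.TI

alias wm_props := J6774.wm_props

end Pool.Agent.Helper311.TI

namespace Pool.Agent.Helper311.TI.J6775

noncomputable section

lemma wm_decay {m : ℝ → ℝ} (hm : NW m) (σ : ℝ) :
    ∃ C : ℝ, 0 < C ∧ ∀ x s : ℝ, 0 ≤ s → wm m (x + s) ≤ C * Real.exp (-(σ * s)) * wm m x := by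
  obtain ⟨hnn, hint, -, -, -, hpos, hshift, hsub, -⟩ := wm_props hm
  set σ' : ℝ := max σ 0 with hσ'
  have hσ'0 : 0 ≤ σ' := le_max_right _ _
  have hσσ' : σ ≤ σ' := le_max_left _ _
  obtain ⟨X, hX, hXs⟩ := hsub σ'
  refine ⟨Real.exp (2 * X * σ'), Real.exp_pos _, ?_⟩
  intro x s hs
  rw [hshift x (x + s)]
  set f : ℝ → ℝ := (Icc (-X) X).indicator (fun _ => σ') with hf
  have hfint : Integrable f volume := by
    rw [hf]
    refine (integrable_indicator_iff measurableSet_Icc).2 ?_
    exact integrableOn_const (by simp)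
  have hf0 : ∀ t, 0 ≤ f t := fun t => Set.indicator_nonneg (fun _ _ => hσ'0) t
  have hfI : ∫ t, f t = 2 * X * σ' := by
    rw [hf, integral_indicator measurableSet_Icc, setIntegral_const]
    have : volume.real (Icc (-X) X) = 2 * X := by
      rw [Measure.real, Real.volume_Icc, ENNReal.toReal_ofReal (by linarith)]
      ring
    rw [this, smul_eq_mul]
  have h1 : ∫ t in x..(x + s), (σ' - m t) ≤ ∫ t in x..(x + s), f t := by
    refine intervalIntegral.integral_mono_on (by linarith)
      ((intervalIntegrable_const).sub (hint _ _)) (hfint.intervalIntegrable) ?_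
    intro t _
    by_cases ht : t ∈ Icc (-X) X
    · rw [hf, Set.indicator_of_mem ht]
      linarith [hnn t]
    · rw [hf, Set.indicator_of_notMem ht]
      have : ¬ m t ≤ σ' := fun h => ht (hXs h)
      linarith
  have h2 : ∫ t in x..(x + s), f t ≤ 2 * X * σ' := by
    rw [intervalIntegral.integral_of_le (by linarith), ← hfI]
    exact setIntegral_le_integral hfint (Filter.Eventually.of_forall hf0)
  have h3 : ∫ t in x..(x + s), (σ' - m t) = σ' * s - ∫ t in x..(x + s), m t := by
    rw [intervalIntegral.integral_sub intervalIntegrable_const (hint _ _),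
      intervalIntegral.integral_const, smul_eq_mul]
    ring
  have h4 : -∫ t in x..(x + s), m t ≤ 2 * X * σ' + -(σ * s) := by
    have : σ * s ≤ σ' * s := mul_le_mul_of_nonneg_right hσσ' hs
    linarith
  rw [mul_comm (wm m x)]
  refine mul_le_mul_of_nonneg_right ?_ (hpos x).le
  rw [← Real.exp_add]
  exact Real.exp_le_exp.2 h4

end

end Pool.Agent.Helper311.TI.J6775

namespace Pool.Agent.Helper311.TI

alias wm_decay := J6775.wm_decay

end Pool.Agent.Helper311.TI

namespace Pool.Agent.Helper311.TI.J6776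

noncomputable section

lemma wm_moment {m : ℝ → ℝ} (hm : NW m) (r : ℝ) :
    IntegrableOn (fun t => wm m t * Real.exp (r * t)) (Ioi 0) ∧
    ∃ C : ℝ, 0 < C ∧ ∀ x : ℝ, x ≤ 0 → Real.exp (-(r * x)) ≤ C * wm m x := by
  obtain ⟨-, -, hc, -, h0, hpos, -⟩ := wm_props hm
  constructor
  · obtain ⟨C, hC, hD⟩ := wm_decay hm (r + 1)
    have hint : IntegrableOn (fun t : ℝ => C * Real.exp (-1 * t)) (Ioi 0) :=
      (integrableOn_exp_mul_Ioi (by norm_num : (-1 : ℝ) < 0) 0).const_mul C
    refine hint.mono' ?_ ?_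
    · exact (hc.mul (Real.continuous_exp.comp (continuous_const.mul continuous_id))).aestronglyMeasurable
    · refine (ae_restrict_iff' measurableSet_Ioi).mpr (Eventually.of_forall ?_)
      intro t ht
      have ht0 : 0 ≤ t := le_of_lt ht
      have h1 := hD 0 t ht0
      rw [zero_add, h0, mul_one] at h1
      rw [Real.norm_eq_abs, abs_of_pos (mul_pos (hpos t) (Real.exp_pos _))]
      have h2 := mul_le_mul_of_nonneg_right h1 (Real.exp_pos (r * t)).le
      refine h2.trans (le_of_eq ?_)
      rw [mul_assoc, ← Real.exp_add]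
      congr 2
      ring
  · obtain ⟨C, hC, hD⟩ := wm_decay hm r
    refine ⟨C, hC, ?_⟩
    intro x hx
    have h1 := hD x (-x) (by linarith)
    rw [add_neg_cancel, h0] at h1
    have h2 := mul_le_mul_of_nonneg_left h1 (Real.exp_pos (-(r * x))).le
    rw [mul_one] at h2
    refine h2.trans (le_of_eq ?_)
    have h3 : Real.exp (-(r * x)) * Real.exp (-(r * -x)) = 1 := by
      rw [← Real.exp_add]; simp
    calc Real.exp (-(r * x)) * (C * Real.exp (-(r * -x)) * wm m x)
        = (Real.exp (-(r * x)) * Real.exp (-(r * -x))) * (C * wm m x) := by ring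
      _ = C * wm m x := by rw [h3, one_mul]

end

end Pool.Agent.Helper311.TI.J6776

namespace Pool.Agent.Helper311.TI

alias wm_moment := J6776.wm_moment

end Pool.Agent.Helper311.TI

namespace Pool.Agent.Helper311.TI.J6777

noncomputable section

lemma RR_weight {m : ℝ → ℝ} (hm : NW m) (σ x t : ℝ) (ht : t ∈ RR m σ x) :
    wm m t * Real.exp (σ * (t - x)) =
      wm m x * Real.exp (-|∫ s in x..t, (m s - σ)|) := by
  obtain ⟨-, hint, -, -, -, -, hw, -, hq⟩ := wm_props hm
  have hI : ∫ s in x..t, (m s - σ) = (∫ s in x..t, m s) - σ * (t - x) := by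
    rw [intervalIntegral.integral_sub (hint x t) intervalIntegrable_const,
      intervalIntegral.integral_const, smul_eq_mul]
    ring
  have hnn : 0 ≤ ∫ s in x..t, (m s - σ) := by
    rcases ht with ⟨h1, h2, h3⟩ | ⟨h1, h2, h3⟩ | ⟨h1, h2, h3, h4, h5⟩
    · rw [intervalIntegral.integral_symm, ← intervalIntegral.integral_neg]
      refine intervalIntegral.integral_nonneg h2.le fun s hs => ?_
      have h4 := hq t s x hs.1 hs.2
      have h5 : max (m t) (m x) ≤ σ := max_le h3 h1
      linarith
    · refine intervalIntegral.integral_nonneg h3.le fun s hs => ?_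
      have h4 := hm.mono (show x ∈ Ici (0 : ℝ) from h2.le)
        (show s ∈ Ici (0 : ℝ) from h2.le.trans hs.1) hs.1
      linarith
    · refine intervalIntegral.integral_nonneg h3.le fun s hs => ?_
      have h6 := hm.anti (show s ∈ Iic (0 : ℝ) from hs.2.trans h4.le)
        (show t ∈ Iic (0 : ℝ) from h4.le) hs.2
      linarith
  rw [abs_of_nonneg hnn, hI, hw x t, mul_assoc, ← Real.exp_add]
  congr 2
  ring

end

end Pool.Agent.Helper311.TI.J6777

namespace Pool.Agent.Helper311.TI

alias RR_weight := J6777.RR_weight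

end Pool.Agent.Helper311.TI

namespace Pool.Agent.Helper311.TI.J6778

noncomputable section

lemma sqrt_int {y : ℝ} (hy : 0 < y) :
    ENNReal.ofReal (√y) ≤ ∫⁻ s in Ioo 0 y, ENNReal.ofReal (1 / (2 * √s)) := by
  have h1 : ∫ s in (0 : ℝ)..y, s ^ (-(1 / 2) : ℝ) = 2 * √y := by
    rw [integral_rpow (Or.inl (by norm_num))]
    rw [show (-(1 / 2) + 1 : ℝ) = 1 / 2 by norm_num, Real.zero_rpow (by norm_num), sub_zero,
      ← Real.sqrt_eq_rpow]
    ring
  have hint : IntervalIntegrable (fun s : ℝ => s ^ (-(1 / 2) : ℝ)) volume 0 y :=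
    intervalIntegral.intervalIntegrable_rpow' (by norm_num)
  have h2 : ∫ s in (0 : ℝ)..y, 1 / 2 * s ^ (-(1 / 2) : ℝ) = √y := by
    rw [intervalIntegral.integral_const_mul, h1]; ring
  have hint2 : IntegrableOn (fun s : ℝ => 1 / 2 * s ^ (-(1 / 2) : ℝ)) (Ioc 0 y) := by
    have := (hint.const_mul (1 / 2)).1
    exact this
  rw [intervalIntegral.integral_of_le hy.le] at h2
  have h3 : ENNReal.ofReal (√y) = ∫⁻ s in Ioc 0 y, ENNReal.ofReal (1 / 2 * s ^ (-(1 / 2) : ℝ)) := by
    rw [← h2]
    apply ofReal_integral_eq_lintegral_ofReal hint2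
    rw [EventuallyLE, ae_restrict_iff' measurableSet_Ioc]
    refine ae_of_all _ fun s hs => ?_
    have := Real.rpow_nonneg hs.1.le (-(1 / 2) : ℝ)
    show (0 : ℝ) ≤ _
    positivity
  rw [h3, ← restrict_Ioo_eq_restrict_Ioc]
  apply setLIntegral_mono' measurableSet_Ioo
  intro s hs
  apply ENNReal.ofReal_le_ofReal
  rw [Real.rpow_neg hs.1.le, ← Real.sqrt_eq_rpow]
  apply le_of_eq
  have : √s ≠ 0 := (Real.sqrt_pos.2 hs.1).ne'
  field_simp

lemma sqrt_decr (g : ℝ → ℝ) (hg : AntitoneOn g (Ioi 0)) (hg0 : ∀ y, 0 < y → 0 ≤ g y) :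
    (∫⁻ y in Ioi (0 : ℝ), ENNReal.ofReal (g y ^ 2)) ^ (1 / 2 : ℝ) ≤
      ∫⁻ y in Ioi (0 : ℝ), ENNReal.ofReal (g y / (2 * √y)) := by
  classical
  set μ : Measure ℝ := volume.restrict (Ioi 0) with hμ
  set h : ℝ → ENNReal := fun y => if 0 < y then ENNReal.ofReal (g y) else ⊤ with hh
  have hanti : Antitone h := by
    intro x y hxy
    simp only [hh]
    split_ifs with h1 h2
    · exact ENNReal.ofReal_le_ofReal (hg h2 h1 hxy)
    · exact le_top
    · exact absurd (lt_of_lt_of_le (by assumption) hxy) h1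
    · exact le_rfl
  have hmeas : Measurable h := hanti.measurable
  set c : ℝ → ENNReal := fun y => h y * ENNReal.ofReal (1 / (2 * √y)) with hc
  have hcm : Measurable c := by
    apply hmeas.mul
    fun_prop
  have hR : ∫⁻ y in Ioi (0 : ℝ), ENNReal.ofReal (g y / (2 * √y)) = ∫⁻ y, c y ∂μ := by
    apply setLIntegral_congr_fun measurableSet_Ioi
    intro y hy
    have hy' : 0 < y := hy
    simp only [hc, hh, if_pos hy']
    rw [← ENNReal.ofReal_mul (hg0 y hy'), mul_one_div]
  have hL : ∫⁻ y in Ioi (0 : ℝ), ENNReal.ofReal (g y ^ 2) = ∫⁻ y, h y ^ 2 ∂μ := by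
    apply setLIntegral_congr_fun measurableSet_Ioi
    intro y hy
    have hy' : 0 < y := hy
    simp only [hh, if_pos hy']
    rw [ENNReal.ofReal_pow (hg0 y hy')]
  -- the pointwise bound
  have hpt : ∀ y, 0 < y → h y ^ 2 ≤ 2 * ∫⁻ s, (if s < y then c s * c y else 0) ∂μ := by
    intro y hy
    have h1 : ∫⁻ s, (if s < y then c s * c y else 0) ∂μ = (∫⁻ s in Ioo 0 y, c s) * c y := by
      rw [← lintegral_mul_const _ hcm]
      have e : (fun s => if s < y then c s * c y else 0) =
          (Iio y).indicator (fun s => c s * c y) := by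
        ext s
        by_cases hs : s < y
        · rw [if_pos hs, indicator_of_mem (by exact hs)]
        · rw [if_neg hs, indicator_of_notMem (by exact hs)]
      rw [e, lintegral_indicator measurableSet_Iio, hμ, Measure.restrict_restrict measurableSet_Iio,
        inter_comm, Ioi_inter_Iio]
    have h2 : h y * ENNReal.ofReal (√y) ≤ ∫⁻ s in Ioo 0 y, c s := by
      calc h y * ENNReal.ofReal (√y) ≤ h y * ∫⁻ s in Ioo 0 y, ENNReal.ofReal (1 / (2 * √s)) :=
            mul_le_mul_right (sqrt_int hy) _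
        _ = ∫⁻ s in Ioo 0 y, h y * ENNReal.ofReal (1 / (2 * √s)) := by
            rw [lintegral_const_mul]
            fun_prop
        _ ≤ ∫⁻ s in Ioo 0 y, c s := by
            apply setLIntegral_mono' measurableSet_Ioo
            intro s hs
            exact mul_le_mul_left (hanti hs.2.le) _
    rw [h1]
    have hsy : 0 < √y := Real.sqrt_pos.2 hy
    have h3 : (2 : ENNReal) * (ENNReal.ofReal (√y) * ENNReal.ofReal (1 / (2 * √y))) = 1 := by
      rw [← ENNReal.ofReal_mul hsy.le, show (2 : ENNReal) = ENNReal.ofReal 2 by simp,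
        ← ENNReal.ofReal_mul (by norm_num)]
      have : 2 * (√y * (1 / (2 * √y))) = 1 := by field_simp
      rw [this, ENNReal.ofReal_one]
    calc h y ^ 2 = h y ^ 2 * (2 * (ENNReal.ofReal (√y) * ENNReal.ofReal (1 / (2 * √y)))) := by
          rw [h3, mul_one]
      _ = 2 * ((h y * ENNReal.ofReal (√y)) * c y) := by
          simp only [hc]; ring
      _ ≤ 2 * ((∫⁻ s in Ioo 0 y, c s) * c y) := by gcongr
  set A : ENNReal := ∫⁻ y, ∫⁻ s, (if s < y then c s * c y else 0) ∂μ ∂μ with hA
  have hint : ∫⁻ y, h y ^ 2 ∂μ ≤ 2 * A := by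
    rw [hA, ← lintegral_const_mul']
    · apply setLIntegral_mono' measurableSet_Ioi
      intro y hy
      exact hpt y hy
    · norm_num
  have hsw : A = ∫⁻ y, ∫⁻ s, (if y < s then c s * c y else 0) ∂μ ∂μ := by
    rw [hA, lintegral_lintegral_swap]
    · apply lintegral_congr
      intro y
      apply lintegral_congr
      intro s
      by_cases hs : y < s
      · rw [if_pos hs, if_pos hs, mul_comm]
      · rw [if_neg hs, if_neg hs]
    · apply Measurable.aemeasurable
      exact Measurable.ite (measurableSet_lt measurable_snd measurable_fst)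
        ((hcm.comp measurable_snd).mul (hcm.comp measurable_fst)) measurable_const
  have hAA : 2 * A ≤ (∫⁻ y, c y ∂μ) ^ 2 := by
    have hm1 : ∀ y, Measurable fun s => (if s < y then c s * c y else 0) := fun y =>
      Measurable.ite measurableSet_Iio (hcm.mul_const _) measurable_const
    have hm2 : Measurable fun y => ∫⁻ s, (if s < y then c s * c y else 0) ∂μ := by
      apply Measurable.lintegral_prod_right
      exact Measurable.ite (measurableSet_lt measurable_snd measurable_fst)
        ((hcm.comp measurable_snd).mul (hcm.comp measurable_fst)) measurable_const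
    calc 2 * A = A + A := two_mul A
      _ = ∫⁻ y, ∫⁻ s, (if s < y then c s * c y else 0) ∂μ ∂μ +
          ∫⁻ y, ∫⁻ s, (if y < s then c s * c y else 0) ∂μ ∂μ := by
          rw [← hsw, ← hA]
      _ = ∫⁻ y, ∫⁻ s, ((if s < y then c s * c y else 0) + (if y < s then c s * c y else 0))
            ∂μ ∂μ := by
          rw [← lintegral_add_left hm2]
          apply lintegral_congr
          intro y
          rw [← lintegral_add_left (hm1 y)]
      _ ≤ ∫⁻ y, ∫⁻ s, c s * c y ∂μ ∂μ := by
          apply lintegral_mono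
          intro y
          apply lintegral_mono
          intro s
          show (if s < y then c s * c y else 0) + (if y < s then c s * c y else 0) ≤ c s * c y
          rcases lt_trichotomy s y with h1 | h1 | h1
          · rw [if_pos h1, if_neg (not_lt.2 h1.le), add_zero]
          · rw [if_neg (by rw [h1]; exact lt_irrefl _), if_neg (by rw [h1]; exact lt_irrefl _),
              add_zero]
            exact zero_le
          · rw [if_pos h1, if_neg (not_lt.2 h1.le), zero_add]
      _ = (∫⁻ y, c y ∂μ) ^ 2 := by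
          rw [sq, ← lintegral_const_mul _ hcm]
          apply lintegral_congr
          intro y
          rw [lintegral_mul_const _ hcm]
  rw [hL, hR]
  calc (∫⁻ y, h y ^ 2 ∂μ) ^ (1 / 2 : ℝ) ≤ ((∫⁻ y, c y ∂μ) ^ 2) ^ (1 / 2 : ℝ) :=
        ENNReal.rpow_le_rpow (hint.trans hAA) (by norm_num)
    _ = ∫⁻ y, c y ∂μ := by
        rw [← ENNReal.rpow_natCast, ← ENNReal.rpow_mul]
        norm_num

end

end Pool.Agent.Helper311.TI.J6778

namespace Pool.Agent.Helper311.TI

alias sqrt_decr := J6778.sqrt_decr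

end Pool.Agent.Helper311.TI

namespace Pool.Agent.Helper311.TI.J6779

noncomputable section

lemma absint_mono {f : ℝ → ℝ} (hf : ∀ a b : ℝ, IntervalIntegrable f volume a b) {x a b : ℝ}
    (ha : a ∈ uIcc x b) (hs : (∀ s ∈ uIcc x b, 0 ≤ f s) ∨ (∀ s ∈ uIcc x b, f s ≤ 0)) :
    |∫ s in x..a, f s| ≤ |∫ s in x..b, f s| := by
  have key : ∀ f : ℝ → ℝ, (∀ a b : ℝ, IntervalIntegrable f volume a b) →
      (∀ s ∈ uIcc x b, 0 ≤ f s) → |∫ s in x..a, f s| ≤ |∫ s in x..b, f s| := by
    intro f hf hs
    rcases le_total x b with hxb | hxb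
    · rw [uIcc_of_le hxb] at ha hs
      have h1 : 0 ≤ ∫ s in x..a, f s :=
        intervalIntegral.integral_nonneg ha.1 (fun s h => hs s ⟨h.1, h.2.trans ha.2⟩)
      have h2 : 0 ≤ ∫ s in a..b, f s :=
        intervalIntegral.integral_nonneg ha.2 (fun s h => hs s ⟨ha.1.trans h.1, h.2⟩)
      have h3 := intervalIntegral.integral_add_adjacent_intervals (hf x a) (hf a b)
      rw [abs_of_nonneg h1, abs_of_nonneg (by linarith)]
      linarith
    · rw [uIcc_of_ge hxb] at ha hs
      have h1 : 0 ≤ ∫ s in a..x, f s :=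
        intervalIntegral.integral_nonneg ha.2 (fun s h => hs s ⟨ha.1.trans h.1, h.2⟩)
      have h2 : 0 ≤ ∫ s in b..a, f s :=
        intervalIntegral.integral_nonneg ha.1 (fun s h => hs s ⟨h.1, h.2.trans ha.2⟩)
      have h3 := intervalIntegral.integral_add_adjacent_intervals (hf b a) (hf a x)
      rw [intervalIntegral.integral_symm a x, intervalIntegral.integral_symm b x, abs_neg, abs_neg,
        abs_of_nonneg h1, abs_of_nonneg (by linarith)]
      linarith
  rcases hs with hs | hs
  · exact key f hf hs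
  · have := key (fun s => -f s) (fun a b => (hf a b).neg) (fun s h => by have := hs s h; linarith)
    simpa [intervalIntegral.integral_neg] using this

lemma NN_aux {m : ℝ → ℝ} (hm : NW m) (σ x ε : ℝ) (hε : ε = 1 ∨ ε = -1) (S : Set ℝ)
    (hS : MeasurableSet S) (h1 : ∀ y, y ≤ 0 → x + ε * y ∉ S)
    (h2 : ∀ y y', 0 < y → y ≤ y' → x + ε * y' ∈ S → x + ε * y ∈ S)
    (h3 : ∀ t ∈ S, (∀ s ∈ uIcc x t, 0 ≤ m s - σ) ∨ (∀ s ∈ uIcc x t, m s - σ ≤ 0)) :
    (∫⁻ t in S, ENNReal.ofReal (Real.exp (-(2 * |∫ s in x..t, (m s - σ)|)))) ^ (1 / 2 : ℝ) ≤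
      ∫⁻ y in Ioi (0 : ℝ), ENNReal.ofReal (1 / (2 * √y)) *
        S.indicator (fun t => ENNReal.ofReal (Real.exp (-|∫ s in x..t, (m s - σ)|))) (x + ε * y) := by
  have hint : ∀ a b : ℝ, IntervalIntegrable (fun s => m s - σ) volume a b := fun a b =>
    ((wm_props hm).2.1 a b).sub intervalIntegrable_const
  set φ : ℝ → ℝ := fun t => Real.exp (-|∫ s in x..t, (m s - σ)|) with hφ
  set g : ℝ → ℝ := fun y => S.indicator φ (x + ε * y) with hg
  have hg0 : ∀ y, 0 ≤ g y := by
    intro y
    exact indicator_nonneg (fun t _ => (Real.exp_pos _).le) _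
  have hanti : AntitoneOn g (Ioi 0) := by
    intro y hy y' hy' hyy
    show S.indicator φ (x + ε * y') ≤ S.indicator φ (x + ε * y)
    by_cases hmem : x + ε * y' ∈ S
    · have hmem' := h2 y y' hy hyy hmem
      rw [indicator_of_mem hmem, indicator_of_mem hmem']
      refine Real.exp_le_exp.2 (neg_le_neg (absint_mono hint ?_ (h3 _ hmem)))
      have hy0 : (0 : ℝ) < y := hy
      rcases hε with rfl | rfl
      · rw [uIcc_of_le (by linarith)]
        exact ⟨by linarith, by linarith⟩
      · rw [uIcc_of_ge (by linarith)]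
        exact ⟨by linarith, by linarith⟩
    · rw [indicator_of_notMem hmem]
      exact hg0 y
  have hNN : ∫⁻ t in S, ENNReal.ofReal (Real.exp (-(2 * |∫ s in x..t, (m s - σ)|))) =
      ∫⁻ y in Ioi (0 : ℝ), ENNReal.ofReal (g y ^ 2) := by
    rw [← lintegral_indicator hS, ← lintegral_indicator measurableSet_Ioi]
    have hsub : ∀ F : ℝ → ENNReal, ∫⁻ t, F t = ∫⁻ y, F (x + ε * y) := by
      intro F
      rcases hε with rfl | rfl
      · have := lintegral_add_left_eq_self (μ := volume) F x
        rw [← this]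
        simp
      · have := lintegral_sub_left_eq_self (μ := volume) F x
        rw [← this]
        refine lintegral_congr fun y => ?_
        congr 1
        ring
    rw [hsub]
    refine lintegral_congr fun y => ?_
    by_cases hy : 0 < y
    · rw [indicator_of_mem (show y ∈ Ioi (0 : ℝ) from hy)]
      show _ = ENNReal.ofReal ((S.indicator φ (x + ε * y)) ^ 2)
      by_cases hmem : x + ε * y ∈ S
      · rw [indicator_of_mem hmem, indicator_of_mem hmem]
        congr 1
        rw [hφ]
        show _ = (Real.exp _) ^ 2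
        rw [← Real.exp_nat_mul]
        congr 1
        push_cast
        ring
      · rw [indicator_of_notMem hmem, indicator_of_notMem hmem]
        simp
    · rw [indicator_of_notMem (show y ∉ Ioi (0 : ℝ) from hy),
        indicator_of_notMem (h1 y (not_lt.1 hy))]
  rw [hNN]
  refine (sqrt_decr g hanti (fun y _ => hg0 y)).trans (le_of_eq ?_)
  refine lintegral_congr fun y => ?_
  have e1 : g y / (2 * √y) = 1 / (2 * √y) * g y := by ring
  rw [e1, ENNReal.ofReal_mul (by positivity)]
  congr 1
  show ENNReal.ofReal (S.indicator φ (x + ε * y)) = _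
  by_cases hmem : x + ε * y ∈ S
  · rw [indicator_of_mem hmem, indicator_of_mem hmem]
  · rw [indicator_of_notMem hmem, indicator_of_notMem hmem]
    simp

lemma NN_le {m : ℝ → ℝ} (hm : NW m) (σ x : ℝ) :
    NN m σ x ^ (1 / 2 : ℝ) ≤
      ∫⁻ y in Ioi (0 : ℝ), ENNReal.ofReal (1 / (2 * √y)) *
        ((RR m σ x).indicator
          (fun t => ENNReal.ofReal (Real.exp (-|∫ s in x..t, (m s - σ)|))) (x - y) +
        (RR m σ x).indicator
          (fun t => ENNReal.ofReal (Real.exp (-|∫ s in x..t, (m s - σ)|))) (x + y)) := by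
  have hqc := (wm_props hm).2.2.2.2.2.2.2.2
  have hmσ : MeasurableSet {t | m t ≤ σ} := hm.meas measurableSet_Iic
  have hmσ' : MeasurableSet {t | σ < m t} := hm.meas measurableSet_Ioi
  unfold NN
  rcases le_or_gt (m x) σ with hx | hx
  · have hRR : RR m σ x = Iio x ∩ {t | m t ≤ σ} := by
      ext t
      simp only [RR, mem_setOf_eq, mem_inter_iff, mem_Iio]
      constructor
      · rintro (⟨_, h1, h2⟩ | ⟨h, _⟩ | ⟨h, _⟩)
        · exact ⟨h1, h2⟩
        · exact absurd hx (not_le.2 h)
        · exact absurd hx (not_le.2 h)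
      · rintro ⟨h1, h2⟩
        exact Or.inl ⟨hx, h1, h2⟩
    have hS : MeasurableSet (RR m σ x) := by
      rw [hRR]
      exact measurableSet_Iio.inter hmσ
    have hmem : ∀ t, t ∈ RR m σ x ↔ t < x ∧ m t ≤ σ := fun t => by rw [hRR]; rfl
    refine (NN_aux hm σ x (-1) (Or.inr rfl) _ hS ?_ ?_ ?_).trans ?_
    · intro y hy h
      have := ((hmem _).1 h).1
      linarith
    · intro y y' hy hyy h
      obtain ⟨h1, h2⟩ := (hmem _).1 h
      refine (hmem _).2 ⟨by linarith, ?_⟩
      have h3 := hqc (x + -1 * y') (x + -1 * y) x (by linarith) (by linarith)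
      exact h3.trans (max_le h2 hx)
    · intro t ht
      right
      intro s hs
      obtain ⟨h1, h2⟩ := (hmem _).1 ht
      rw [uIcc_of_ge h1.le] at hs
      have h3 := hqc t s x hs.1 hs.2
      have := h3.trans (max_le h2 hx)
      linarith
    · refine lintegral_mono fun y => ?_
      rw [show x + -1 * y = x - y by ring]
      gcongr
      exact le_self_add
  · rcases lt_or_ge 0 x with hx0 | hx0
    · have hRR : RR m σ x = Ioi x := by
        ext t
        simp only [RR, mem_setOf_eq, mem_Ioi]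
        constructor
        · rintro (⟨h, _⟩ | ⟨_, _, h2⟩ | ⟨_, h, _⟩)
          · exact absurd h (not_le.2 hx)
          · exact h2
          · exact absurd h (not_le.2 hx0)
        · intro h
          exact Or.inr (Or.inl ⟨hx, hx0, h⟩)
      have hS : MeasurableSet (RR m σ x) := by
        rw [hRR]
        exact measurableSet_Ioi
      have hmem : ∀ t, t ∈ RR m σ x ↔ x < t := fun t => by rw [hRR]; rfl
      refine (NN_aux hm σ x 1 (Or.inl rfl) _ hS ?_ ?_ ?_).trans ?_
      · intro y hy h
        have := (hmem _).1 h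
        linarith
      · intro y y' hy hyy h
        refine (hmem _).2 (by linarith)
      · intro t ht
        left
        intro s hs
        have h1 := (hmem _).1 ht
        rw [uIcc_of_le h1.le] at hs
        have h3 := hm.mono (mem_Ici.2 hx0.le) (mem_Ici.2 (hx0.le.trans hs.1)) hs.1
        linarith
      · refine lintegral_mono fun y => ?_
        rw [show x + 1 * y = x + y by ring]
        gcongr
        exact le_add_self
    · have hRR : RR m σ x = Ioi x ∩ (Iio 0 ∩ {t | σ < m t}) := by
        ext t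
        simp only [RR, mem_setOf_eq, mem_inter_iff, mem_Iio, mem_Ioi]
        constructor
        · rintro (⟨h, _⟩ | ⟨_, h, _⟩ | ⟨_, _, h1, h2, h3⟩)
          · exact absurd h (not_le.2 hx)
          · exact absurd h (not_lt.2 hx0)
          · exact ⟨h1, h2, h3⟩
        · rintro ⟨h1, h2, h3⟩
          exact Or.inr (Or.inr ⟨hx, hx0, h1, h2, h3⟩)
      have hS : MeasurableSet (RR m σ x) := by
        rw [hRR]
        exact measurableSet_Ioi.inter (measurableSet_Iio.inter hmσ')
      have hmem : ∀ t, t ∈ RR m σ x ↔ x < t ∧ t < 0 ∧ σ < m t := fun t => by rw [hRR]; rfl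
      refine (NN_aux hm σ x 1 (Or.inl rfl) _ hS ?_ ?_ ?_).trans ?_
      · intro y hy h
        have := ((hmem _).1 h).1
        linarith
      · intro y y' hy hyy h
        obtain ⟨h1, h2, h3⟩ := (hmem _).1 h
        refine (hmem _).2 ⟨by linarith, by linarith, ?_⟩
        have h4 := hm.anti (mem_Iic.2 (show x + 1 * y ≤ 0 by linarith)) (mem_Iic.2 h2.le)
          (show x + 1 * y ≤ x + 1 * y' by linarith)
        linarith
      · intro t ht
        left
        intro s hs
        obtain ⟨h1, h2, h3⟩ := (hmem _).1 ht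
        rw [uIcc_of_le h1.le] at hs
        have h4 := hm.anti (mem_Iic.2 (hs.2.trans h2.le)) (mem_Iic.2 h2.le) hs.2
        linarith
      · refine lintegral_mono fun y => ?_
        rw [show x + 1 * y = x + y by ring]
        gcongr
        exact le_add_self

end

end Pool.Agent.Helper311.TI.J6779

namespace Pool.Agent.Helper311.TI

alias NN_le := J6779.NN_le

end Pool.Agent.Helper311.TI

namespace Pool.Agent.Helper311.TI.J6780

noncomputable section

lemma ns_left (a y σ₁ σ₂ : ℝ) (hy : 0 < y) (h12 : σ₁ ≤ σ₂) :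
    ∫⁻ σ in Ioo σ₁ σ₂, (Ici a).indicator (fun σ => ENNReal.ofReal (Real.exp (-(y * (σ - a))))) σ ≤
      ENNReal.ofReal (min (σ₂ - σ₁) (1 / y)) := by
  rw [ENNReal.ofReal_min]
  refine le_min ?_ ?_
  · calc ∫⁻ σ in Ioo σ₁ σ₂, (Ici a).indicator
          (fun σ => ENNReal.ofReal (Real.exp (-(y * (σ - a))))) σ
        ≤ ∫⁻ σ in Ioo σ₁ σ₂, (1 : ENNReal) := by
          refine lintegral_mono fun σ => ?_
          by_cases h : σ ∈ Ici a
          · rw [indicator_of_mem h, ENNReal.ofReal_le_one]
            apply Real.exp_le_one_iff.2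
            have : 0 ≤ σ - a := by have := mem_Ici.1 h; linarith
            have := mul_nonneg hy.le this
            linarith
          · rw [indicator_of_notMem h]; exact zero_le_one
      _ = _ := by rw [setLIntegral_one, Real.volume_Ioo]
  · calc ∫⁻ σ in Ioo σ₁ σ₂, (Ici a).indicator
          (fun σ => ENNReal.ofReal (Real.exp (-(y * (σ - a))))) σ
        ≤ ∫⁻ σ, (Ici a).indicator (fun σ => ENNReal.ofReal (Real.exp (-(y * (σ - a))))) σ :=
          setLIntegral_le_lintegral _ _
      _ = ∫⁻ σ in Ici a, ENNReal.ofReal (Real.exp (-(y * (σ - a)))) := by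
          rw [lintegral_indicator measurableSet_Ici]
      _ = ∫⁻ σ in Ioi a, ENNReal.ofReal (Real.exp (-(y * (σ - a)))) := by
          rw [restrict_Ioi_eq_restrict_Ici]
      _ = ENNReal.ofReal (∫ σ in Ioi a, Real.exp (-(y * (σ - a)))) := by
          rw [ofReal_integral_eq_lintegral_ofReal]
          · have h1 := (integrableOn_exp_mul_Ioi (a := -y) (by linarith) a).const_mul (Real.exp (y * a))
            refine h1.congr (Filter.Eventually.of_forall fun σ => ?_)
            simp only
            rw [← Real.exp_add]; congr 1; ring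
          · exact Filter.Eventually.of_forall fun σ => (Real.exp_pos _).le
      _ = ENNReal.ofReal (1 / y) := by
          congr 1
          have h1 : ∀ σ : ℝ, Real.exp (-(y * (σ - a))) = Real.exp (y * a) * Real.exp (-y * σ) := by
            intro σ; rw [← Real.exp_add]; congr 1; ring
          simp only [h1]
          rw [integral_const_mul, integral_exp_mul_Ioi (by linarith)]
          rw [neg_div_neg_eq, mul_div_assoc', ← Real.exp_add]
          congr 1
          rw [show y * a + -y * a = 0 by ring, Real.exp_zero]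
      _ ≤ _ := le_rfl

lemma ns_right (b y σ₁ σ₂ : ℝ) (hy : 0 < y) (h12 : σ₁ ≤ σ₂) :
    ∫⁻ σ in Ioo σ₁ σ₂, (Iio b).indicator (fun σ => ENNReal.ofReal (Real.exp (-(y * (b - σ))))) σ ≤
      ENNReal.ofReal (min (σ₂ - σ₁) (1 / y)) := by
  rw [ENNReal.ofReal_min]
  refine le_min ?_ ?_
  · calc ∫⁻ σ in Ioo σ₁ σ₂, (Iio b).indicator
          (fun σ => ENNReal.ofReal (Real.exp (-(y * (b - σ))))) σ
        ≤ ∫⁻ σ in Ioo σ₁ σ₂, (1 : ENNReal) := by
          refine lintegral_mono fun σ => ?_
          by_cases h : σ ∈ Iio b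
          · rw [indicator_of_mem h, ENNReal.ofReal_le_one]
            apply Real.exp_le_one_iff.2
            have : 0 ≤ b - σ := by have := mem_Iio.1 h; linarith
            have := mul_nonneg hy.le this
            linarith
          · rw [indicator_of_notMem h]; exact zero_le_one
      _ = _ := by rw [setLIntegral_one, Real.volume_Ioo]
  · calc ∫⁻ σ in Ioo σ₁ σ₂, (Iio b).indicator
          (fun σ => ENNReal.ofReal (Real.exp (-(y * (b - σ))))) σ
        ≤ ∫⁻ σ, (Iio b).indicator (fun σ => ENNReal.ofReal (Real.exp (-(y * (b - σ))))) σ :=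
          setLIntegral_le_lintegral _ _
      _ = ∫⁻ σ in Iio b, ENNReal.ofReal (Real.exp (-(y * (b - σ)))) := by
          rw [lintegral_indicator measurableSet_Iio]
      _ = ∫⁻ σ in Iic b, ENNReal.ofReal (Real.exp (-(y * (b - σ)))) := by
          rw [restrict_Iio_eq_restrict_Iic]
      _ = ENNReal.ofReal (∫ σ in Iic b, Real.exp (-(y * (b - σ)))) := by
          rw [ofReal_integral_eq_lintegral_ofReal]
          · have h1 := (integrableOn_exp_mul_Iic hy b).const_mul (Real.exp (-(y * b)))
            refine h1.congr (Filter.Eventually.of_forall fun σ => ?_)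
            simp only
            rw [← Real.exp_add]; congr 1; ring
          · exact Filter.Eventually.of_forall fun σ => (Real.exp_pos _).le
      _ = ENNReal.ofReal (1 / y) := by
          congr 1
          have h1 : ∀ σ : ℝ, Real.exp (-(y * (b - σ))) = Real.exp (-(y * b)) * Real.exp (y * σ) := by
            intro σ; rw [← Real.exp_add]; congr 1; ring
          simp only [h1]
          rw [integral_const_mul, integral_exp_mul_Iic hy]
          rw [mul_div_assoc', ← Real.exp_add]
          congr 1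
          rw [show -(y * b) + y * b = 0 by ring, Real.exp_zero]
      _ ≤ _ := le_rfl

lemma NN_sigma {m : ℝ → ℝ} (hm : NW m) (x y σ₁ σ₂ : ℝ) (hy : 0 < y) (h12 : σ₁ ≤ σ₂) :
    ∫⁻ σ in Ioo σ₁ σ₂, ((RR m σ x).indicator
          (fun t => ENNReal.ofReal (Real.exp (-|∫ s in x..t, (m s - σ)|))) (x - y) +
        (RR m σ x).indicator
          (fun t => ENNReal.ofReal (Real.exp (-|∫ s in x..t, (m s - σ)|))) (x + y)) ≤
      ENNReal.ofReal (2 * min (σ₂ - σ₁) (1 / y)) := by
  obtain ⟨hnn, hint, -, -, -, -, -, -, hqc⟩ := wm_props hm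
  have hintσ : ∀ σ p q : ℝ, IntervalIntegrable (fun s => m s - σ) volume p q := fun σ p q =>
    (hint p q).sub intervalIntegrable_const
  obtain ⟨a, ha⟩ : ∃ a : ℝ, a = max (m x) (m (x - y)) := ⟨_, rfl⟩
  -- left
  have hL : ∀ σ : ℝ, (RR m σ x).indicator
      (fun t => ENNReal.ofReal (Real.exp (-|∫ s in x..t, (m s - σ)|))) (x - y) ≤
      (Ici a).indicator (fun σ => ENNReal.ofReal (Real.exp (-(y * (σ - a))))) σ := by
    intro σ
    by_cases h : x - y ∈ RR m σ x
    · rw [indicator_of_mem h]
      have h1 : a ≤ σ := by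
        rw [ha]
        rcases h with ⟨h1, h2, h3⟩ | ⟨h1, h2, h3⟩ | ⟨h1, h2, h3, h4⟩
        · exact max_le h1 h3
        · linarith
        · linarith
      rw [indicator_of_mem (mem_Ici.2 h1)]
      apply ENNReal.ofReal_le_ofReal
      apply Real.exp_le_exp.2
      apply neg_le_neg
      have h2 : y * (σ - a) ≤ ∫ s in (x - y)..x, (σ - m s) := by
        have h3 : ∫ s in (x - y)..x, (σ - a) = y * (σ - a) := by
          rw [intervalIntegral.integral_const, smul_eq_mul]; ring
        rw [← h3]
        apply intervalIntegral.integral_mono_on (by linarith) intervalIntegrable_const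
          (intervalIntegrable_const.sub (hint _ _))
        intro s hs
        have h4 := hqc (x - y) s x hs.1 hs.2
        rw [max_comm, ← ha] at h4
        linarith
      have h5 : ∫ s in x..(x - y), (m s - σ) = ∫ s in (x - y)..x, (σ - m s) := by
        rw [intervalIntegral.integral_symm, ← intervalIntegral.integral_neg]
        congr 1
        funext s; ring
      rw [h5]
      exact le_trans h2 (le_abs_self _)
    · rw [indicator_of_notMem h]; exact zero_le
  -- right
  have hR : ∃ b : ℝ, ∀ σ : ℝ, (RR m σ x).indicator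
      (fun t => ENNReal.ofReal (Real.exp (-|∫ s in x..t, (m s - σ)|))) (x + y) ≤
      (Iio b).indicator (fun σ => ENNReal.ofReal (Real.exp (-(y * (b - σ))))) σ := by
    have key : ∀ b σ : ℝ, (∀ s ∈ Icc x (x + y), b ≤ m s) → σ < b →
        ENNReal.ofReal (Real.exp (-|∫ s in x..(x + y), (m s - σ)|)) ≤
        (Iio b).indicator (fun σ => ENNReal.ofReal (Real.exp (-(y * (b - σ))))) σ := by
      intro b σ hb hσ
      rw [indicator_of_mem (mem_Iio.2 hσ)]
      apply ENNReal.ofReal_le_ofReal
      apply Real.exp_le_exp.2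
      apply neg_le_neg
      have h2 : y * (b - σ) ≤ ∫ s in x..(x + y), (m s - σ) := by
        have h3 : ∫ s in x..(x + y), (b - σ) = y * (b - σ) := by
          rw [intervalIntegral.integral_const, smul_eq_mul]; ring
        rw [← h3]
        apply intervalIntegral.integral_mono_on (by linarith) intervalIntegrable_const
          (hintσ _ _ _)
        intro s hs
        have h4 := hb s hs
        linarith
      exact le_trans h2 (le_abs_self _)
    rcases lt_or_ge 0 x with hx | hx
    · refine ⟨m x, fun σ => ?_⟩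
      by_cases h : x + y ∈ RR m σ x
      · rw [indicator_of_mem h]
        have h1 : σ < m x := by
          rcases h with ⟨h1, h2, h3⟩ | ⟨h1, h2, h3⟩ | ⟨h1, h2, h3, h4⟩
          · linarith
          · exact h1
          · exact h1
        apply key _ _ _ h1
        intro s hs
        exact hm.mono (mem_Ici.2 hx.le) (mem_Ici.2 (le_trans hx.le hs.1)) hs.1
      · rw [indicator_of_notMem h]; exact zero_le
    · refine ⟨m (x + y), fun σ => ?_⟩
      by_cases h : x + y ∈ RR m σ x
      · rw [indicator_of_mem h]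
        rcases h with ⟨h1, h2, h3⟩ | ⟨h1, h2, h3⟩ | ⟨h1, h2, h3, h4, h5⟩
        · linarith
        · linarith
        · apply key _ _ _ h5
          intro s hs
          exact hm.anti (mem_Iic.2 (le_trans hs.2 h4.le)) (mem_Iic.2 h4.le) hs.2
      · rw [indicator_of_notMem h]; exact zero_le
  obtain ⟨b, hR⟩ := hR
  have hmeas : Measurable fun σ => (Ici a).indicator
      (fun σ => ENNReal.ofReal (Real.exp (-(y * (σ - a))))) σ := by
    apply Measurable.indicator _ measurableSet_Ici
    fun_prop
  calc _ ≤ ∫⁻ σ in Ioo σ₁ σ₂, ((Ici a).indicator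
          (fun σ => ENNReal.ofReal (Real.exp (-(y * (σ - a))))) σ +
        (Iio b).indicator (fun σ => ENNReal.ofReal (Real.exp (-(y * (b - σ))))) σ) :=
        lintegral_mono fun σ => add_le_add (hL σ) (hR σ)
    _ = (∫⁻ σ in Ioo σ₁ σ₂, (Ici a).indicator
          (fun σ => ENNReal.ofReal (Real.exp (-(y * (σ - a))))) σ) +
        ∫⁻ σ in Ioo σ₁ σ₂, (Iio b).indicator
          (fun σ => ENNReal.ofReal (Real.exp (-(y * (b - σ))))) σ := lintegral_add_left hmeas _
    _ ≤ ENNReal.ofReal (min (σ₂ - σ₁) (1 / y)) + ENNReal.ofReal (min (σ₂ - σ₁) (1 / y)) :=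
        add_le_add (ns_left a y σ₁ σ₂ hy h12) (ns_right b y σ₁ σ₂ hy h12)
    _ = ENNReal.ofReal (2 * min (σ₂ - σ₁) (1 / y)) := by
        have h0 : 0 ≤ min (σ₂ - σ₁) (1 / y) := le_min (by linarith) (by positivity)
        rw [← ENNReal.ofReal_add h0 h0]; congr 1; ring

end

end Pool.Agent.Helper311.TI.J6780

namespace Pool.Agent.Helper311.TI

alias NN_sigma := J6780.NN_sigma

end Pool.Agent.Helper311.TI

namespace Pool.Agent.Helper311.TI.J6781

noncomputable section

lemma NN_aux_meas {m : ℝ → ℝ} (hm : NW m) (x : ℝ) :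
    Measurable (fun p : ℝ × ℝ => (RR m p.1 x).indicator
          (fun t => ENNReal.ofReal (Real.exp (-|∫ s in x..t, (m s - p.1)|))) p.2) := by
  have hint := (wm_props hm).2.1
  have hcont : Continuous (fun t => ∫ s in x..t, m s) :=
    intervalIntegral.continuous_primitive hint x
  have heq : ∀ σ t : ℝ, (∫ s in x..t, (m s - σ)) = (∫ s in x..t, m s) - σ * (t - x) := by
    intro σ t
    rw [intervalIntegral.integral_sub (hint x t) intervalIntegrable_const,
      intervalIntegral.integral_const, smul_eq_mul]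
    ring
  have hS : MeasurableSet {p : ℝ × ℝ | p.2 ∈ RR m p.1 x} := by
    have hm2 : Measurable (fun p : ℝ × ℝ => m p.2) := hm.meas.comp measurable_snd
    have hA : {p : ℝ × ℝ | p.2 ∈ RR m p.1 x} =
        ({p : ℝ × ℝ | m x ≤ p.1} ∩ ({p : ℝ × ℝ | p.2 < x} ∩ {p : ℝ × ℝ | m p.2 ≤ p.1})) ∪
        (({p : ℝ × ℝ | p.1 < m x} ∩ ({p : ℝ × ℝ | 0 < x} ∩ {p : ℝ × ℝ | x < p.2})) ∪
        ({p : ℝ × ℝ | p.1 < m x} ∩ ({p : ℝ × ℝ | x ≤ 0} ∩ ({p : ℝ × ℝ | x < p.2} ∩
          ({p : ℝ × ℝ | p.2 < 0} ∩ {p : ℝ × ℝ | p.1 < m p.2}))))) := by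
      ext p
      rfl
    rw [hA]
    refine MeasurableSet.union ?_ (MeasurableSet.union ?_ ?_)
    · exact (measurableSet_le measurable_const measurable_fst).inter
        ((measurableSet_lt measurable_snd measurable_const).inter
        (measurableSet_le hm2 measurable_fst))
    · exact (measurableSet_lt measurable_fst measurable_const).inter
        ((MeasurableSet.const _).inter (measurableSet_lt measurable_const measurable_snd))
    · exact (measurableSet_lt measurable_fst measurable_const).inter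
        ((MeasurableSet.const _).inter ((measurableSet_lt measurable_const measurable_snd).inter
        ((measurableSet_lt measurable_snd measurable_const).inter
        (measurableSet_lt measurable_fst hm2))))
  have hF : Measurable (fun p : ℝ × ℝ => ENNReal.ofReal (Real.exp (-|(∫ s in x..p.2, m s) -
      p.1 * (p.2 - x)|))) := by
    apply Measurable.ennreal_ofReal
    apply Continuous.measurable
    have h1 : Continuous (fun p : ℝ × ℝ => ∫ s in x..p.2, m s) := hcont.comp continuous_snd
    fun_prop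
  have hfin : (fun p : ℝ × ℝ => (RR m p.1 x).indicator
          (fun t => ENNReal.ofReal (Real.exp (-|∫ s in x..t, (m s - p.1)|))) p.2) =
      {p : ℝ × ℝ | p.2 ∈ RR m p.1 x}.indicator (fun p : ℝ × ℝ =>
        ENNReal.ofReal (Real.exp (-|(∫ s in x..p.2, m s) - p.1 * (p.2 - x)|))) := by
    funext p
    by_cases hp : p.2 ∈ RR m p.1 x
    · have hp' : p ∈ {p : ℝ × ℝ | p.2 ∈ RR m p.1 x} := hp
      rw [Set.indicator_of_mem hp, Set.indicator_of_mem hp', heq]
    · have hp' : p ∉ {p : ℝ × ℝ | p.2 ∈ RR m p.1 x} := hp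
      rw [Set.indicator_of_notMem hp, Set.indicator_of_notMem hp']
  rw [hfin]
  exact hF.indicator hS

lemma NN_aux_int (H : ℝ) (hH : 0 < H) :
    ∫⁻ y in Ioi (0 : ℝ), ENNReal.ofReal (1 / (2 * √y)) * ENNReal.ofReal (2 * min H (1 / y)) ≤
      ENNReal.ofReal (4 * √H) := by
  set c : ℝ := H⁻¹ with hc
  have hcpos : 0 < c := inv_pos.mpr hH
  have hunion : Ioi (0 : ℝ) = Ioc 0 c ∪ Ioi c := by
    rw [Ioc_union_Ioi_eq_Ioi hcpos.le]
  rw [hunion]
  refine (lintegral_union_le _ _ _).trans ?_
  have hsq : c ^ (1 / 2 : ℝ) = (√H)⁻¹ := by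
    rw [← Real.sqrt_eq_rpow, hc, Real.sqrt_inv]
  have hsH : 0 < √H := Real.sqrt_pos.mpr hH
  have hHs : √H * √H = H := Real.mul_self_sqrt hH.le
  have h1 : ∫⁻ y in Ioc (0 : ℝ) c, ENNReal.ofReal (1 / (2 * √y)) *
      ENNReal.ofReal (2 * min H (1 / y)) ≤ ENNReal.ofReal (2 * √H) := by
    have hle : ∫⁻ y in Ioc (0 : ℝ) c, ENNReal.ofReal (1 / (2 * √y)) *
        ENNReal.ofReal (2 * min H (1 / y)) ≤
        ∫⁻ y in Ioc (0 : ℝ) c, ENNReal.ofReal (H * y ^ (-(1 / 2) : ℝ)) := by
      apply setLIntegral_mono' measurableSet_Ioc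
      intro y hy
      rw [← ENNReal.ofReal_mul (by positivity)]
      apply ENNReal.ofReal_le_ofReal
      rw [Real.rpow_neg hy.1.le, ← Real.sqrt_eq_rpow]
      have hsy : 0 < √y := Real.sqrt_pos.mpr hy.1
      have hmin : min H (1 / y) ≤ H := min_le_left _ _
      calc 1 / (2 * √y) * (2 * min H (1 / y)) ≤ 1 / (2 * √y) * (2 * H) := by
            apply mul_le_mul_of_nonneg_left _ (by positivity)
            linarith
        _ = H * (√y)⁻¹ := by field_simp
    refine hle.trans ?_
    have hii : IntervalIntegrable (fun y : ℝ => H * y ^ (-(1 / 2) : ℝ)) volume 0 c :=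
      (intervalIntegral.intervalIntegrable_rpow' (by norm_num)).const_mul H
    have hio : IntegrableOn (fun y : ℝ => H * y ^ (-(1 / 2) : ℝ)) (Ioc 0 c) volume :=
      (intervalIntegrable_iff_integrableOn_Ioc_of_le hcpos.le).mp hii
    rw [← ofReal_integral_eq_lintegral_ofReal hio (by
      rw [EventuallyLE, ae_restrict_iff' measurableSet_Ioc]
      filter_upwards with y hy
      exact mul_nonneg hH.le (Real.rpow_nonneg hy.1.le _))]
    apply ENNReal.ofReal_le_ofReal
    rw [← intervalIntegral.integral_of_le hcpos.le, intervalIntegral.integral_const_mul,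
      integral_rpow (Or.inl (by norm_num))]
    have e1 : (-(1 / 2) + 1 : ℝ) = 1 / 2 := by norm_num
    rw [e1, hsq, Real.zero_rpow (by norm_num)]
    apply le_of_eq
    rw [sub_zero]
    field_simp
    nlinarith
  have h2 : ∫⁻ y in Ioi c, ENNReal.ofReal (1 / (2 * √y)) *
      ENNReal.ofReal (2 * min H (1 / y)) ≤ ENNReal.ofReal (2 * √H) := by
    have hle : ∫⁻ y in Ioi c, ENNReal.ofReal (1 / (2 * √y)) *
        ENNReal.ofReal (2 * min H (1 / y)) ≤
        ∫⁻ y in Ioi c, ENNReal.ofReal (y ^ (-(3 / 2) : ℝ)) := by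
      apply setLIntegral_mono' measurableSet_Ioi
      intro y hy
      have hy0 : 0 < y := lt_trans hcpos hy
      rw [← ENNReal.ofReal_mul (by positivity)]
      apply ENNReal.ofReal_le_ofReal
      have e2 : (-(3 / 2) : ℝ) = -1 + -(1 / 2) := by norm_num
      rw [e2, Real.rpow_add hy0, Real.rpow_neg_one, Real.rpow_neg hy0.le, ← Real.sqrt_eq_rpow]
      have hsy : 0 < √y := Real.sqrt_pos.mpr hy0
      have hmin : min H (1 / y) ≤ 1 / y := min_le_right _ _
      calc 1 / (2 * √y) * (2 * min H (1 / y)) ≤ 1 / (2 * √y) * (2 * (1 / y)) := by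
            apply mul_le_mul_of_nonneg_left _ (by positivity)
            linarith
        _ = y⁻¹ * (√y)⁻¹ := by field_simp
    refine hle.trans ?_
    have hio : IntegrableOn (fun y : ℝ => y ^ (-(3 / 2) : ℝ)) (Ioi c) volume :=
      integrableOn_Ioi_rpow_of_lt (by norm_num) hcpos
    rw [← ofReal_integral_eq_lintegral_ofReal hio (by
      rw [EventuallyLE, ae_restrict_iff' measurableSet_Ioi]
      filter_upwards with y hy
      exact Real.rpow_nonneg (hcpos.trans hy).le _)]
    apply ENNReal.ofReal_le_ofReal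
    rw [integral_Ioi_rpow_of_lt (by norm_num) hcpos]
    have e1 : (-(3 / 2) + 1 : ℝ) = -(1 / 2) := by norm_num
    rw [e1, Real.rpow_neg hcpos.le, hsq, inv_inv]
    apply le_of_eq
    ring
  refine (add_le_add h1 h2).trans ?_
  rw [← ENNReal.ofReal_add (by positivity) (by positivity)]
  apply ENNReal.ofReal_le_ofReal
  linarith

lemma NN_int {m : ℝ → ℝ} (hm : NW m) (x σ₁ σ₂ : ℝ) (h12 : σ₁ ≤ σ₂) :
    ∫⁻ σ in Ioo σ₁ σ₂, NN m σ x ^ (1 / 2 : ℝ) ≤ ENNReal.ofReal (4 * √(σ₂ - σ₁)) := by
  rcases h12.eq_or_lt with heq | hlt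
  · subst heq
    simp
  have hmeas := NN_aux_meas hm x
  have hm1 : Measurable (fun p : ℝ × ℝ => (RR m p.1 x).indicator
          (fun t => ENNReal.ofReal (Real.exp (-|∫ s in x..t, (m s - p.1)|))) (x - p.2)) :=
    hmeas.comp (measurable_fst.prodMk (measurable_const.sub measurable_snd))
  have hm2 : Measurable (fun p : ℝ × ℝ => (RR m p.1 x).indicator
          (fun t => ENNReal.ofReal (Real.exp (-|∫ s in x..t, (m s - p.1)|))) (x + p.2)) :=
    hmeas.comp (measurable_fst.prodMk (measurable_const.add measurable_snd))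
  have ha : Measurable (fun p : ℝ × ℝ => ENNReal.ofReal (1 / (2 * √p.2))) := by
    apply Measurable.ennreal_ofReal
    fun_prop
  have hall := ha.mul (hm1.add hm2)
  calc ∫⁻ σ in Ioo σ₁ σ₂, NN m σ x ^ (1 / 2 : ℝ)
      ≤ ∫⁻ σ in Ioo σ₁ σ₂, ∫⁻ y in Ioi (0 : ℝ), ENNReal.ofReal (1 / (2 * √y)) *
        ((RR m σ x).indicator
          (fun t => ENNReal.ofReal (Real.exp (-|∫ s in x..t, (m s - σ)|))) (x - y) +
        (RR m σ x).indicator
          (fun t => ENNReal.ofReal (Real.exp (-|∫ s in x..t, (m s - σ)|))) (x + y)) :=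
        lintegral_mono (fun σ => NN_le hm σ x)
    _ = ∫⁻ y in Ioi (0 : ℝ), ∫⁻ σ in Ioo σ₁ σ₂, ENNReal.ofReal (1 / (2 * √y)) *
        ((RR m σ x).indicator
          (fun t => ENNReal.ofReal (Real.exp (-|∫ s in x..t, (m s - σ)|))) (x - y) +
        (RR m σ x).indicator
          (fun t => ENNReal.ofReal (Real.exp (-|∫ s in x..t, (m s - σ)|))) (x + y)) := by
        apply lintegral_lintegral_swap
        exact hall.aemeasurable
    _ ≤ ∫⁻ y in Ioi (0 : ℝ), ENNReal.ofReal (1 / (2 * √y)) *
        ENNReal.ofReal (2 * min (σ₂ - σ₁) (1 / y)) := by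
        apply setLIntegral_mono' measurableSet_Ioi
        intro y hy
        rw [lintegral_const_mul' _ _ ENNReal.ofReal_ne_top]
        gcongr
        exact NN_sigma hm x y σ₁ σ₂ hy hlt.le
    _ ≤ ENNReal.ofReal (4 * √(σ₂ - σ₁)) := NN_aux_int _ (sub_pos.mpr hlt)

end

end Pool.Agent.Helper311.TI.J6781

namespace Pool.Agent.Helper311.TI

alias NN_int := J6781.NN_int

end Pool.Agent.Helper311.TI
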