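import Mathlib
import Pool.Agent.Helper311.TI.Defs
import Pool.Agent.Helper311.TI.Weight

set_option autoImplicit false

open MeasureTheory Filter Topology Complex Set

namespace Pool.Agent.Helper311.TI.J6782

noncomputable section

open FourierTransform SchwartzMap ContDiff in
lemma planch_aux1 (h : ℝ → ℂ) (h1 : Integrable h) (h2 : MemLp h 2) :
    (𝓕 (h2.toLp h : Lp (α := ℝ) ℂ 2) : Lp (α := ℝ) ℂ 2) =ᵐ[volume] 𝓕 h := by
  apply ae_eq_of_integral_contDiff_smul_eq
  · exact (Lp.memLp _).locallyIntegrable (by norm_num)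
  · apply Continuous.locallyIntegrable
    exact VectorFourier.fourierIntegral_continuous Real.continuous_fourierChar
      (innerSL ℝ).continuous₂ h1
  · intro g g_smooth g_cpt
    have hg₁ : HasCompactSupport (Complex.ofRealCLM ∘ g) := g_cpt.comp_left rfl
    have hg₂ : ContDiff ℝ ∞ (Complex.ofRealCLM ∘ g) := by fun_prop
    set G : 𝓢(ℝ, ℂ) := hg₁.toSchwartzMap hg₂ with hG
    have e1 : ∫ x, g x • (𝓕 (h2.toLp h : Lp (α := ℝ) ℂ 2) : Lp (α := ℝ) ℂ 2) x
        = (Lp.toTemperedDistribution (𝓕 (h2.toLp h : Lp (α := ℝ) ℂ 2) : Lp (α := ℝ) ℂ 2)) G := by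
      rw [Lp.toTemperedDistribution_apply]
      simp [hG]
    rw [e1, ← Lp.fourier_toTemperedDistribution_eq, TemperedDistribution.fourier_apply,
      Lp.toTemperedDistribution_apply]
    have e2 : ∫ x, (𝓕 G) x • (h2.toLp h : Lp (α := ℝ) ℂ 2) x = ∫ x, (𝓕 (G : ℝ → ℂ)) x • h x := by
      apply integral_congr_ae
      filter_upwards [h2.coeFn_toLp] with x hx
      rw [hx]
      rfl
    rw [e2]
    have e3 : ∫ x, (𝓕 (G : ℝ → ℂ)) x • h x = ∫ x, (G x) • (𝓕 h) x := by
      simpa using! (VectorFourier.integral_fourierIntegral_smul_eq_flip (L := innerₗ ℝ)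
        Real.continuous_fourierChar continuous_inner G.integrable h1)
    rw [e3]
    apply integral_congr_ae
    filter_upwards with x
    simp [hG]

open FourierTransform in
lemma planch_aux2 (h : ℝ → ℂ) (h1 : Integrable h) (h2 : MemLp h 2) :
    ∫⁻ ξ, ‖𝓕 h ξ‖ₑ ^ 2 = ∫⁻ t, ‖h t‖ₑ ^ 2 := by
  have e1 : ‖(𝓕 (h2.toLp h : Lp (α := ℝ) ℂ 2) : Lp (α := ℝ) ℂ 2)‖ₑ =
      ‖(h2.toLp h : Lp (α := ℝ) ℂ 2)‖ₑ := by
    rw [← ofReal_norm, ← ofReal_norm, Lp.norm_fourier_eq]
  rw [Lp.enorm_def, Lp.enorm_def, eLpNorm_congr_ae (planch_aux1 h h1 h2),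
    eLpNorm_congr_ae h2.coeFn_toLp] at e1
  have e2 : ∀ f : ℝ → ℂ, eLpNorm f 2 volume = (∫⁻ x, ‖f x‖ₑ ^ 2) ^ (1 / 2 : ℝ) := by
    intro f
    rw [eLpNorm_eq_lintegral_rpow_enorm_toReal (by norm_num) (by norm_num)]
    simp
  rw [e2, e2] at e1
  exact ENNReal.rpow_left_injective (by norm_num) e1

/-- the integral of the Poisson kernel -/
lemma planch_poisson (ρ τ₀ : ℝ) (hρ : 0 < ρ) :
    ∫⁻ τ : ℝ, ENNReal.ofReal (ρ / (ρ ^ 2 + (τ - τ₀) ^ 2)) = ENNReal.ofReal Real.pi := by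
  have e0 : ∀ τ : ℝ, ρ / (ρ ^ 2 + (τ - τ₀) ^ 2) = ρ⁻¹ * (1 + ((τ - τ₀) / ρ) ^ 2)⁻¹ := by
    intro τ
    have : 0 < ρ ^ 2 + (τ - τ₀) ^ 2 := by positivity
    field_simp
  have e1 : Integrable (fun τ : ℝ => ρ / (ρ ^ 2 + (τ - τ₀) ^ 2)) := by
    simp_rw [e0]
    apply Integrable.const_mul
    have h1 : Integrable (fun x : ℝ => (1 + (x / ρ) ^ 2)⁻¹) :=
      integrable_inv_one_add_sq.comp_div hρ.ne'
    exact h1.comp_sub_right τ₀
  rw [← ofReal_integral_eq_lintegral_ofReal e1 (Filter.Eventually.of_forall (fun τ => by positivity))]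
  congr 1
  simp_rw [e0]
  rw [integral_const_mul, integral_sub_right_eq_self (fun x : ℝ => (1 + (x / ρ) ^ 2)⁻¹) τ₀,
    Measure.integral_comp_div (fun x : ℝ => (1 + x ^ 2)⁻¹) ρ, integral_univ_inv_one_add_sq,
    abs_of_pos hρ, smul_eq_mul]
  field_simp


lemma planch (h : ℝ → ℂ) (h1 : Integrable h) (A : ENNReal)
    (h2 : ∫⁻ s, ‖h s‖ₑ ^ 2 ≤ A) (ρ τ₀ : ℝ) (hρ : 0 < ρ) :
    ∫⁻ τ : ℝ, ‖∫ s : ℝ, h s * cexp ((τ : ℂ) * (s : ℂ) * I)‖ₑ *
        ENNReal.ofReal (ρ / (ρ ^ 2 + (τ - τ₀) ^ 2)) ≤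
      ENNReal.ofReal (2 * Real.pi / √ρ) * A ^ (1 / 2 : ℝ) := by
  have hpi := Real.pi_pos
  rcases eq_or_ne A ⊤ with hA | hA
  · rw [hA, ENNReal.top_rpow_of_pos (by norm_num), ENNReal.mul_top]
    · exact le_top
    · rw [Ne, ENNReal.ofReal_eq_zero, not_le]
      positivity
  have hmem : MemLp h 2 := by
    refine ⟨h1.1, ?_⟩
    rw [eLpNorm_eq_lintegral_rpow_enorm_toReal (by norm_num) (by norm_num)]
    apply ENNReal.rpow_lt_top_of_nonneg (by positivity)
    have : ∫⁻ s, ‖h s‖ₑ ^ (2 : ENNReal).toReal = ∫⁻ s, ‖h s‖ₑ ^ 2 := by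
      simp
    rw [this]
    exact ne_top_of_le_ne_top hA h2
  have e1 := planch_aux2 h h1 hmem
  -- rescaling
  have hH : ∀ τ : ℝ, ∫ s : ℝ, h s * cexp ((τ : ℂ) * (s : ℂ) * I) =
      FourierTransform.fourier h (-(2 * Real.pi)⁻¹ * τ) := by
    intro τ
    rw [Real.fourier_eq']
    congr 1
    funext s
    rw [smul_eq_mul, mul_comm]
    congr 2
    have h3 : -2 * Real.pi * (inner ℝ s (-(2 * Real.pi)⁻¹ * τ)) = τ * s := by
      simp only [RCLike.inner_apply, conj_trivial]
      field_simp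
    rw [h3]
    push_cast
    ring
  have hcont : Continuous (FourierTransform.fourier h : ℝ → ℂ) :=
    VectorFourier.fourierIntegral_continuous Real.continuous_fourierChar
      (innerSL ℝ).continuous₂ h1
  have e2 : ∫⁻ τ : ℝ, ‖∫ s : ℝ, h s * cexp ((τ : ℂ) * (s : ℂ) * I)‖ₑ ^ 2 ≤
      ENNReal.ofReal (2 * Real.pi) * A := by
    simp_rw [hH]
    have h3 : ∫⁻ τ : ℝ, ‖(FourierTransform.fourier h : ℝ → ℂ) (-(2 * Real.pi)⁻¹ * τ)‖ₑ ^ 2 =
        ∫⁻ x : ℝ, ‖(FourierTransform.fourier h : ℝ → ℂ) x‖ₑ ^ 2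
          ∂(Measure.map (fun τ : ℝ => -(2 * Real.pi)⁻¹ * τ) volume) := by
      rw [lintegral_map]
      · exact hcont.enorm.measurable.pow_const 2
      · exact measurable_const_mul _
    rw [h3, Real.map_volume_mul_left (by
      have : (0 : ℝ) < (2 * Real.pi)⁻¹ := by positivity
      linarith), lintegral_smul_measure, e1, smul_eq_mul]
    have h4 : |(-(2 * Real.pi)⁻¹)⁻¹| = 2 * Real.pi := by
      rw [inv_neg, inv_inv, abs_neg, abs_of_pos (by positivity)]
    rw [h4]
    exact mul_le_mul_right h2 _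
  have e3 : ∫⁻ τ : ℝ, ENNReal.ofReal (ρ / (ρ ^ 2 + (τ - τ₀) ^ 2)) ^ 2 ≤
      ENNReal.ofReal (Real.pi / ρ) := by
    calc ∫⁻ τ : ℝ, ENNReal.ofReal (ρ / (ρ ^ 2 + (τ - τ₀) ^ 2)) ^ 2
        ≤ ∫⁻ τ : ℝ, ENNReal.ofReal (1 / ρ) * ENNReal.ofReal (ρ / (ρ ^ 2 + (τ - τ₀) ^ 2)) := by
          apply lintegral_mono
          intro τ
          simp only []
          rw [sq (ENNReal.ofReal _)]
          refine mul_le_mul_left ?_ _
          apply ENNReal.ofReal_le_ofReal
          rw [div_le_div_iff₀ (by positivity) hρ]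
          nlinarith [sq_nonneg (τ - τ₀)]
      _ = ENNReal.ofReal (1 / ρ) * ENNReal.ofReal Real.pi := by
          rw [lintegral_const_mul', planch_poisson ρ τ₀ hρ]
          exact ENNReal.ofReal_ne_top
      _ = ENNReal.ofReal (Real.pi / ρ) := by
          rw [← ENNReal.ofReal_mul (by positivity)]
          congr 1
          field_simp
  have hcs := ENNReal.lintegral_mul_le_Lp_mul_Lq (volume : Measure ℝ) Real.HolderConjugate.two_two
    (f := fun τ : ℝ => ‖∫ s : ℝ, h s * cexp ((τ : ℂ) * (s : ℂ) * I)‖ₑ)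
    (g := fun τ : ℝ => ENNReal.ofReal (ρ / (ρ ^ 2 + (τ - τ₀) ^ 2)))
    (by
      simp_rw [hH]
      exact ((hcont.comp (continuous_const.mul continuous_id)).enorm).measurable.aemeasurable)
    (by
      apply Measurable.aemeasurable
      apply ENNReal.measurable_ofReal.comp
      fun_prop)
  simp only [Pi.mul_apply, ENNReal.rpow_two] at hcs
  refine hcs.trans ?_
  calc _ ≤ (ENNReal.ofReal (2 * Real.pi) * A) ^ (1 / 2 : ℝ) *
        (ENNReal.ofReal (Real.pi / ρ)) ^ (1 / 2 : ℝ) :=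
        mul_le_mul' (ENNReal.rpow_le_rpow e2 (by norm_num)) (ENNReal.rpow_le_rpow e3 (by norm_num))
    _ = (ENNReal.ofReal (2 * Real.pi) * ENNReal.ofReal (Real.pi / ρ)) ^ (1 / 2 : ℝ) *
        A ^ (1 / 2 : ℝ) := by
        rw [← ENNReal.mul_rpow_of_nonneg _ _ (by norm_num),
          ← ENNReal.mul_rpow_of_nonneg _ _ (by norm_num)]
        congr 1
        ring
    _ ≤ _ := by
        refine mul_le_mul_left ?_ _
        rw [← ENNReal.ofReal_mul (by positivity), ENNReal.ofReal_rpow_of_nonneg (by positivity)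
          (by norm_num)]
        apply ENNReal.ofReal_le_ofReal
        rw [← Real.sqrt_eq_rpow]
        apply Real.sqrt_le_iff.2
        refine ⟨by positivity, ?_⟩
        rw [div_pow, Real.sq_sqrt hρ.le]
        have : 2 * Real.pi * (Real.pi / ρ) = 2 * Real.pi ^ 2 / ρ := by ring
        rw [this]
        gcongr
        nlinarith [sq_nonneg Real.pi]

end

end Pool.Agent.Helper311.TI.J6782

namespace Pool.Agent.Helper311.TI

alias planch := J6782.planch

end Pool.Agent.Helper311.TI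

namespace Pool.Agent.Helper311.TI.J6783

noncomputable section

lemma RR_meas {m : ℝ → ℝ} (hm : NW m) (σ x : ℝ) : MeasurableSet (RR m σ x) := by
  have h1 : MeasurableSet {t : ℝ | m t ≤ σ} := measurableSet_le hm.meas measurable_const
  have h2 : MeasurableSet {t : ℝ | σ < m t} := measurableSet_lt measurable_const hm.meas
  have h3 : RR m σ x = ({t : ℝ | m x ≤ σ} ∩ (Iio x ∩ {t : ℝ | m t ≤ σ})) ∪
      (({t : ℝ | σ < m x} ∩ ({t : ℝ | 0 < x} ∩ Ioi x)) ∪
        ({t : ℝ | σ < m x} ∩ ({t : ℝ | x ≤ 0} ∩ (Ioi x ∩ (Iio 0 ∩ {t : ℝ | σ < m t}))))) := rfl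
  rw [h3]
  exact ((MeasurableSet.const _).inter (measurableSet_Iio.inter h1)).union
    (((MeasurableSet.const _).inter ((MeasurableSet.const _).inter measurableSet_Ioi)).union
      ((MeasurableSet.const _).inter ((MeasurableSet.const _).inter
        (measurableSet_Ioi.inter (measurableSet_Iio.inter h2)))))

lemma KR_line {m : ℝ → ℝ} {k : ℝ → ℂ} {M : ℝ} (hm : NW m) (hk : Measurable k) (hM : 0 ≤ M)
    (hkb : ∀ x, ‖k x‖ ≤ M * wm m x) (σ x ρ τ₀ : ℝ) (hρ : 0 < ρ) :
    ∫⁻ τ : ℝ, ‖KR m k σ x ((σ : ℂ) + (τ : ℂ) * I)‖ₑ *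
        ENNReal.ofReal (ρ / (ρ ^ 2 + (τ - τ₀) ^ 2)) ≤
      ENNReal.ofReal (2 * Real.pi / √ρ * (M * wm m x)) * NN m σ x ^ (1 / 2 : ℝ) := by
  have hE := RR_meas hm σ x
  set E := RR m σ x with hEdef
  have hw : ∀ t, 0 < wm m t := (wm_props hm).2.2.2.2.2.1
  let f : ℝ → ℂ := fun t => k t * cexp ((σ : ℂ) * ((t : ℂ) - (x : ℂ)))
  let F : ℝ → ℂ := E.indicator f
  let h : ℝ → ℂ := fun s => F (x + s)
  have hfm : Measurable f := by
    refine hk.mul ?_
    have : Continuous fun t : ℝ => cexp ((σ : ℂ) * ((t : ℂ) - (x : ℂ))) := by fun_prop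
    exact this.measurable
  have hFm : Measurable F := hfm.indicator hE
  have hhm : Measurable h := hFm.comp (measurable_const_add x)
  have hKR : ∀ τ : ℝ, KR m k σ x ((σ : ℂ) + (τ : ℂ) * I) =
      ∫ s : ℝ, h s * cexp ((τ : ℂ) * (s : ℂ) * I) := by
    intro τ
    have h1 : (∫ s : ℝ, h s * cexp ((τ : ℂ) * (s : ℂ) * I)) =
        ∫ t : ℝ, F t * cexp ((τ : ℂ) * ((t : ℂ) - (x : ℂ)) * I) := by
      rw [← integral_add_left_eq_self (μ := volume)
        (fun t : ℝ => F t * cexp ((τ : ℂ) * ((t : ℂ) - (x : ℂ)) * I)) x]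
      congr 1
      funext s
      simp only [h]
      congr 3
      push_cast
      ring
    rw [h1]
    unfold KR
    rw [← hEdef, ← integral_indicator hE]
    congr 1
    funext t
    by_cases ht : t ∈ E
    · simp only [F, indicator_of_mem ht, f]
      rw [mul_assoc, ← Complex.exp_add]
      congr 2
      ring
    · simp only [F, indicator_of_notMem ht, zero_mul]
  have hnorm : ∀ t ∈ E, ‖f t‖ ≤ M * wm m x * Real.exp (-|∫ s in x..t, (m s - σ)|) := by
    intro t ht
    have h1 := RR_weight hm σ x t ht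
    have h2 : ‖cexp ((σ : ℂ) * ((t : ℂ) - (x : ℂ)))‖ = Real.exp (σ * (t - x)) := by
      rw [Complex.norm_exp]
      congr 1
      rw [← Complex.ofReal_sub, ← Complex.ofReal_mul, Complex.ofReal_re]
    calc ‖f t‖ = ‖k t‖ * Real.exp (σ * (t - x)) := by simp only [f]; rw [norm_mul, h2]
      _ ≤ (M * wm m t) * Real.exp (σ * (t - x)) :=
          mul_le_mul_of_nonneg_right (hkb t) (Real.exp_pos _).le
      _ = M * (wm m t * Real.exp (σ * (t - x))) := by ring
      _ = M * wm m x * Real.exp (-|∫ s in x..t, (m s - σ)|) := by rw [h1]; ring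
  have hC : 0 ≤ M * wm m x := mul_nonneg hM (hw x).le
  set A : ENNReal := ENNReal.ofReal ((M * wm m x) ^ 2) * NN m σ x with hA
  have hint : ∫⁻ s, ‖h s‖ₑ ^ 2 ≤ A := by
    have h1 : ∫⁻ s, ‖h s‖ₑ ^ 2 = ∫⁻ t, ‖F t‖ₑ ^ 2 :=
      lintegral_add_left_eq_self (μ := volume) (fun t => ‖F t‖ₑ ^ 2) x
    have h2 : ∫⁻ t, ‖F t‖ₑ ^ 2 = ∫⁻ t in E, ‖f t‖ₑ ^ 2 := by
      rw [← lintegral_indicator hE]
      congr 1
      funext t
      by_cases ht : t ∈ E
      · simp only [F, indicator_of_mem ht]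
      · simp only [F, indicator_of_notMem ht]
        simp
    rw [h1, h2, hA]
    unfold NN
    rw [← lintegral_const_mul' _ _ ENNReal.ofReal_ne_top]
    refine setLIntegral_mono' hE fun t ht => ?_
    have h3 := hnorm t ht
    have h4 : ‖f t‖ₑ ≤ ENNReal.ofReal (M * wm m x * Real.exp (-|∫ s in x..t, (m s - σ)|)) := by
      rw [← ofReal_norm_eq_enorm]
      exact ENNReal.ofReal_le_ofReal h3
    calc ‖f t‖ₑ ^ 2 ≤
        ENNReal.ofReal (M * wm m x * Real.exp (-|∫ s in x..t, (m s - σ)|)) ^ 2 :=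
          pow_le_pow_left' h4 2
      _ = ENNReal.ofReal ((M * wm m x) ^ 2) *
          ENNReal.ofReal (Real.exp (-(2 * |∫ s in x..t, (m s - σ)|))) := by
          rw [← ENNReal.ofReal_pow (by positivity), ← ENNReal.ofReal_mul (by positivity)]
          congr 1
          rw [mul_pow, ← Real.exp_nat_mul]
          congr 2
          push_cast
          ring
  have hfin : ENNReal.ofReal (2 * Real.pi / √ρ) * A ^ (1 / 2 : ℝ) =
      ENNReal.ofReal (2 * Real.pi / √ρ * (M * wm m x)) * NN m σ x ^ (1 / 2 : ℝ) := by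
    have hsp : ENNReal.ofReal (2 * Real.pi / √ρ * (M * wm m x)) =
        ENNReal.ofReal (2 * Real.pi / √ρ) * ENNReal.ofReal (M * wm m x) :=
      ENNReal.ofReal_mul (by positivity)
    rw [hsp, hA, ENNReal.mul_rpow_of_nonneg _ _ (by norm_num : (0 : ℝ) ≤ 1 / 2),
      ENNReal.ofReal_rpow_of_nonneg (by positivity) (by norm_num), ← Real.sqrt_eq_rpow,
      Real.sqrt_sq hC, mul_assoc]
  by_cases hi : Integrable h
  · have h1 := planch h hi A hint ρ τ₀ hρ
    rw [hfin] at h1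
    simp only [hKR]
    exact h1
  · have h1 : ∀ τ : ℝ, KR m k σ x ((σ : ℂ) + (τ : ℂ) * I) = 0 := by
      intro τ
      rw [hKR τ]
      refine integral_undef fun hcon => hi ?_
      refine hcon.mono hhm.aestronglyMeasurable (Eventually.of_forall fun s => ?_)
      rw [norm_mul, Complex.norm_exp]
      have : ((τ : ℂ) * (s : ℂ) * I).re = 0 := by
        rw [← Complex.ofReal_mul]
        simp
      rw [this, Real.exp_zero, mul_one]
    simp only [h1]
    simp

end

end Pool.Agent.Helper311.TI.J6783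

namespace Pool.Agent.Helper311.TI

alias KR_line := J6783.KR_line

end Pool.Agent.Helper311.TI

namespace Pool.Agent.Helper311.TI.J6784

noncomputable section

lemma KR_meas {m : ℝ → ℝ} {k : ℝ → ℂ} (hm : Measurable m) (hk : Measurable k) :
    Measurable (fun q : ℝ × ℝ × ℝ => KR m k q.1 q.2.1 ((q.1 : ℂ) + (q.2.2 : ℂ) * I)) := by
  obtain ⟨W, hW⟩ : ∃ W : Set ((ℝ × ℝ × ℝ) × ℝ), W = {p | p.2 ∈ RR m p.1.1 p.1.2.1} := ⟨_, rfl⟩
  have hWm : MeasurableSet W := by
    rw [hW]
    have hs : Measurable (fun p : (ℝ × ℝ × ℝ) × ℝ => p.1.1) := by fun_prop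
    have hx : Measurable (fun p : (ℝ × ℝ × ℝ) × ℝ => p.1.2.1) := by fun_prop
    have ht : Measurable (fun p : (ℝ × ℝ × ℝ) × ℝ => p.2) := by fun_prop
    have hmx : Measurable (fun p : (ℝ × ℝ × ℝ) × ℝ => m p.1.2.1) := hm.comp hx
    have hmt : Measurable (fun p : (ℝ × ℝ × ℝ) × ℝ => m p.2) := hm.comp ht
    have h0 : Measurable (fun _ : (ℝ × ℝ × ℝ) × ℝ => (0 : ℝ)) := measurable_const
    unfold RR
    simp only [mem_setOf_eq]
    refine MeasurableSet.union (α := (ℝ × ℝ × ℝ) × ℝ) ?_ (MeasurableSet.union ?_ ?_)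
    · exact (measurableSet_le hmx hs).inter ((measurableSet_lt ht hx).inter (measurableSet_le hmt hs))
    · exact (measurableSet_lt hs hmx).inter ((measurableSet_lt h0 hx).inter (measurableSet_lt hx ht))
    · exact (measurableSet_lt hs hmx).inter ((measurableSet_le hx h0).inter
        ((measurableSet_lt hx ht).inter ((measurableSet_lt ht h0).inter (measurableSet_lt hs hmt))))
  obtain ⟨F, hF⟩ : ∃ F : (ℝ × ℝ × ℝ) → ℝ → ℂ, F = fun q t => W.indicator
      (fun p : (ℝ × ℝ × ℝ) × ℝ => k p.2 * cexp (((p.1.1 : ℂ) + (p.1.2.2 : ℂ) * I) *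
        ((p.2 : ℂ) - (p.1.2.1 : ℂ)))) (q, t) := ⟨_, rfl⟩
  have hFm : StronglyMeasurable (Function.uncurry F) := by
    apply Measurable.stronglyMeasurable
    rw [hF]
    have h1 : Measurable (fun p : (ℝ × ℝ × ℝ) × ℝ => k p.2 * cexp (((p.1.1 : ℂ) + (p.1.2.2 : ℂ) * I) *
        ((p.2 : ℂ) - (p.1.2.1 : ℂ)))) := by
      apply (hk.comp measurable_snd).mul
      apply Measurable.cexp
      fun_prop
    exact h1.indicator hWm
  have h2 := (hFm.integral_prod_right (ν := (volume : Measure ℝ))).measurable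
  have h3 : (fun q : ℝ × ℝ × ℝ => KR m k q.1 q.2.1 ((q.1 : ℂ) + (q.2.2 : ℂ) * I)) =
      fun q => ∫ t, F q t := by
    funext q
    have hRm : MeasurableSet (RR m q.1 q.2.1) := by
      have h4 : RR m q.1 q.2.1 = (fun t : ℝ => (q, t)) ⁻¹' W := by
        rw [hW]
        rfl
      rw [h4]
      exact measurable_prodMk_left hWm
    unfold KR
    rw [← integral_indicator hRm, hF]
    congr 1
    funext t
    simp only []
    by_cases h5 : t ∈ RR m q.1 q.2.1
    · rw [indicator_of_mem h5, indicator_of_mem (by rw [hW]; exact h5)]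
    · rw [indicator_of_notMem h5, indicator_of_notMem (by rw [hW]; exact h5)]
  rw [h3]
  exact h2

end

end Pool.Agent.Helper311.TI.J6784

namespace Pool.Agent.Helper311.TI

alias KR_meas := J6784.KR_meas

end Pool.Agent.Helper311.TI

namespace Pool.Agent.Helper311.TI.J6785

noncomputable section

lemma h441_gen (A : Set (ℝ × ℝ)) (hA : MeasurableSet A) (g : ℝ → ℂ) (hg : Measurable g)
    (E : ℂ → ℝ → ℂ) (hE : Measurable (fun p : (ℝ × ℝ) × ℝ => E ((p.1.1 : ℂ) + (p.1.2 : ℂ) * I) p.2)) :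
    Measurable (fun q : ℝ × ℝ => ∫ x in {x : ℝ | (q.1, x) ∈ A}, g x * E ((q.1 : ℂ) + (q.2 : ℂ) * I) x) := by
  have hset : ∀ q : ℝ × ℝ, MeasurableSet {x : ℝ | (q.1, x) ∈ A} := fun q =>
    (measurable_const.prodMk measurable_id) hA
  have h1 : (fun q : ℝ × ℝ => ∫ x in {x : ℝ | (q.1, x) ∈ A}, g x * E ((q.1 : ℂ) + (q.2 : ℂ) * I) x) =
      fun q : ℝ × ℝ => ∫ x, ({p : (ℝ × ℝ) × ℝ | (p.1.1, p.2) ∈ A}).indicator
        (fun p => g p.2 * E ((p.1.1 : ℂ) + (p.1.2 : ℂ) * I) p.2) (q, x) := by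
    funext q
    rw [← integral_indicator (hset q)]
    apply integral_congr_ae
    apply Eventually.of_forall
    intro x
    by_cases h : (q.1, x) ∈ A
    · simp only [Set.indicator, Set.mem_ofPred_eq, h, if_true]
    · simp only [Set.indicator, Set.mem_ofPred_eq, h, if_false]
  rw [h1]
  have hmeas : Measurable (({p : (ℝ × ℝ) × ℝ | (p.1.1, p.2) ∈ A}).indicator
        (fun p : (ℝ × ℝ) × ℝ => g p.2 * E ((p.1.1 : ℂ) + (p.1.2 : ℂ) * I) p.2)) := by
    apply Measurable.indicator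
    · exact (hg.comp measurable_snd).mul hE
    · exact (((measurable_fst.comp measurable_fst).prodMk measurable_snd)) hA
  exact (StronglyMeasurable.integral_prod_right' (ν := volume)
    (f := ({p : (ℝ × ℝ) × ℝ | (p.1.1, p.2) ∈ A}).indicator
        (fun p : (ℝ × ℝ) × ℝ => g p.2 * E ((p.1.1 : ℂ) + (p.1.2 : ℂ) * I) p.2))
    hmeas.stronglyMeasurable).measurable


lemma FS_meas {m : ℝ → ℝ} {f : ℝ → ℂ} (hm : Measurable m) (hf : Measurable f) :
    Measurable (fun q : ℝ × ℝ => FS m f q.1 ((q.1 : ℂ) + (q.2 : ℂ) * I)) ∧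
    Measurable (fun q : ℝ × ℝ => GS m f q.1 ((q.1 : ℂ) + (q.2 : ℂ) * I)) := by
  constructor
  · have hA : MeasurableSet {p : ℝ × ℝ | p.2 < 0 ∨ m p.2 ≤ p.1} := by
      apply MeasurableSet.union
      · exact measurableSet_lt measurable_snd measurable_const
      · exact measurableSet_le (hm.comp measurable_snd) measurable_fst
    exact h441_gen {p : ℝ × ℝ | p.2 < 0 ∨ m p.2 ≤ p.1} hA f hf (fun ζ x => cexp (-ζ * (x : ℂ)))
      (by fun_prop)
  · have hA : MeasurableSet {p : ℝ × ℝ | 0 < p.2 ∨ m p.2 ≤ p.1} := by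
      apply MeasurableSet.union
      · exact measurableSet_lt measurable_const measurable_snd
      · exact measurableSet_le (hm.comp measurable_snd) measurable_fst
    exact h441_gen {p : ℝ × ℝ | 0 < p.2 ∨ m p.2 ≤ p.1} hA f hf (fun ζ x => cexp (ζ * (x : ℂ)))
      (by fun_prop)

end

end Pool.Agent.Helper311.TI.J6785

namespace Pool.Agent.Helper311.TI

alias FS_meas := J6785.FS_meas

end Pool.Agent.Helper311.TI

namespace Pool.Agent.Helper311.TI.J6786

noncomputable section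

lemma KP_ann {m : ℝ → ℝ} {f k : ℝ → ℂ} {M : ℝ} (h : Dat m f k M) (ζ : ℂ) :
    (∀ x : ℝ, IntegrableOn (fun t : ℝ => k t * cexp (ζ * ((t : ℂ) - (x : ℂ)))) (Ioi x)) ∧
    Integrable (fun x : ℝ => f x * KP k x ζ) ∧ ∫ x : ℝ, f x * KP k x ζ = 0 := by
  obtain ⟨hm0, hmi, hwc, hwa, hw0, hwp, -, -, -⟩ := wm_props h.nw
  obtain ⟨C, hC, hdec⟩ := wm_decay h.nw (ζ.re + 1)
  have hM0 := h.M0
  have hb : ∀ x s : ℝ, 0 ≤ s →
      ‖k (x + s) * cexp (ζ * (s : ℂ))‖ ≤ wm m x * (M * C * Real.exp (-s)) := by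
    intro x s hs
    have hre : (ζ * (s : ℂ)).re = ζ.re * s := by simp
    rw [norm_mul, Complex.norm_exp, hre]
    have h1 : ‖k (x + s)‖ ≤ M * (C * Real.exp (-((ζ.re + 1) * s)) * wm m x) :=
      (h.kb (x + s)).trans (mul_le_mul_of_nonneg_left (hdec x s hs) hM0)
    have h2 : Real.exp (-((ζ.re + 1) * s)) * Real.exp (ζ.re * s) = Real.exp (-s) := by
      rw [← Real.exp_add]; congr 1; ring
    calc ‖k (x + s)‖ * Real.exp (ζ.re * s)
        ≤ (M * (C * Real.exp (-((ζ.re + 1) * s)) * wm m x)) * Real.exp (ζ.re * s) :=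
          mul_le_mul_of_nonneg_right h1 (Real.exp_pos _).le
      _ = wm m x * (M * C * (Real.exp (-((ζ.re + 1) * s)) * Real.exp (ζ.re * s))) := by ring
      _ = wm m x * (M * C * Real.exp (-s)) := by rw [h2]
  have hexpi : Integrable (fun s : ℝ => Real.exp (-s)) (volume.restrict (Ioi 0)) := by
    have := integrableOn_exp_neg_Ioi 0
    exact this
  have hexpi2 : Integrable (fun s : ℝ => M * C * Real.exp (-s)) (volume.restrict (Ioi 0)) :=
    hexpi.const_mul _
  -- change of variables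
  have hpre : ∀ x : ℝ, (fun s : ℝ => x + s) ⁻¹' (Ioi x) = Ioi 0 := by
    intro x; ext s; simp
  have hGx : ∀ x s : ℝ, k (x + s) * cexp (ζ * (((x + s : ℝ) : ℂ) - (x : ℂ)))
      = k (x + s) * cexp (ζ * (s : ℂ)) := by
    intro x s
    congr 3
    push_cast; ring
  have hcmeas : ∀ x : ℝ, Measurable (fun s : ℝ => k (x + s) * cexp (ζ * (s : ℂ))) := by
    intro x
    refine (h.km.comp (measurable_const.add measurable_id)).mul ?_
    exact (Complex.continuous_exp.comp (continuous_const.mul Complex.continuous_ofReal)).measurable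
  have hint0 : ∀ x : ℝ, Integrable (fun s : ℝ => k (x + s) * cexp (ζ * (s : ℂ)))
      (volume.restrict (Ioi 0)) := by
    intro x
    refine Integrable.mono' (hexpi2.const_mul (wm m x)) (hcmeas x).aestronglyMeasurable ?_
    filter_upwards [ae_restrict_mem measurableSet_Ioi] with s hs
    exact hb x s (le_of_lt hs)
  have hKP : ∀ x : ℝ, KP k x ζ = ∫ s in Ioi (0 : ℝ), k (x + s) * cexp (ζ * (s : ℂ)) := by
    intro x
    unfold KP
    have h1 := (measurePreserving_add_left (volume : Measure ℝ) x).setIntegral_preimage_emb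
      (measurableEmbedding_addLeft x)
      (fun t : ℝ => k t * cexp (ζ * ((t : ℂ) - (x : ℂ)))) (Ioi x)
    rw [← h1, hpre x]
    refine setIntegral_congr_fun measurableSet_Ioi (fun s _ => ?_)
    exact hGx x s
  refine ⟨?_, ?_⟩
  · intro x
    have h1 := (measurePreserving_add_left (volume : Measure ℝ) x).integrableOn_comp_preimage
      (measurableEmbedding_addLeft x)
      (f := fun t : ℝ => k t * cexp (ζ * ((t : ℂ) - (x : ℂ)))) (s := Ioi x)
    rw [← h1, hpre x]
    have h2 : ((fun t : ℝ => k t * cexp (ζ * ((t : ℂ) - (x : ℂ)))) ∘ (fun s : ℝ => x + s))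
        = fun s : ℝ => k (x + s) * cexp (ζ * (s : ℂ)) := by
      funext s
      exact hGx x s
    rw [h2]
    exact hint0 x
  · have hFm : Measurable (fun p : ℝ × ℝ => f p.1 * (k (p.1 + p.2) * cexp (ζ * (p.2 : ℂ)))) := by
      refine (h.fm.comp measurable_fst).mul ((h.km.comp (measurable_fst.add measurable_snd)).mul ?_)
      exact (Complex.continuous_exp.comp (continuous_const.mul
        (Complex.continuous_ofReal.comp continuous_snd))).measurable
    have hFi : Integrable (fun p : ℝ × ℝ => f p.1 * (k (p.1 + p.2) * cexp (ζ * (p.2 : ℂ))))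
        (volume.prod (volume.restrict (Ioi (0 : ℝ)))) := by
      refine Integrable.mono' (h.fi.mul_prod hexpi2) hFm.aestronglyMeasurable ?_
      have hae : ∀ᵐ s ∂(volume.restrict (Ioi (0 : ℝ))), s ∈ Ioi (0 : ℝ) :=
        ae_restrict_mem measurableSet_Ioi
      have hae2 : ∀ᵐ p ∂((volume : Measure ℝ).prod (volume.restrict (Ioi (0 : ℝ)))),
          p.2 ∈ Ioi (0 : ℝ) := Measure.quasiMeasurePreserving_snd.ae hae
      filter_upwards [hae2] with p hp
      rw [norm_mul]
      calc ‖f p.1‖ * ‖k (p.1 + p.2) * cexp (ζ * (p.2 : ℂ))‖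
          ≤ ‖f p.1‖ * (wm m p.1 * (M * C * Real.exp (-p.2))) :=
            mul_le_mul_of_nonneg_left (hb p.1 p.2 (le_of_lt hp)) (norm_nonneg _)
        _ = ‖f p.1‖ * wm m p.1 * (M * C * Real.exp (-p.2)) := by ring
    have hfk : ∀ x : ℝ, f x * KP k x ζ
        = ∫ s in Ioi (0 : ℝ), f x * (k (x + s) * cexp (ζ * (s : ℂ))) := by
      intro x
      rw [hKP x, integral_const_mul]
    have hfk' : (fun x : ℝ => f x * KP k x ζ)
        = fun x : ℝ => ∫ s in Ioi (0 : ℝ), f x * (k (x + s) * cexp (ζ * (s : ℂ))) :=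
      funext hfk
    refine ⟨?_, ?_⟩
    · rw [hfk']
      exact hFi.integral_prod_left
    · rw [hfk']
      have hsw := integral_integral_swap
        (f := fun (x s : ℝ) => f x * (k (x + s) * cexp (ζ * (s : ℂ))))
        (μ := volume) (ν := volume.restrict (Ioi (0 : ℝ))) hFi
      rw [hsw]
      have hz : ∀ᵐ s ∂(volume.restrict (Ioi (0 : ℝ))),
          (∫ x, f x * (k (x + s) * cexp (ζ * (s : ℂ)))) = 0 := by
        filter_upwards [h.ann] with s hs
        have h3 : (fun x : ℝ => f x * (k (x + s) * cexp (ζ * (s : ℂ))))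
            = fun x : ℝ => (f x * k (x + s)) * cexp (ζ * (s : ℂ)) := by
          funext x; ring
        rw [h3, integral_mul_const, hs, zero_mul]
      rw [integral_congr_ae hz]
      simp

end

end Pool.Agent.Helper311.TI.J6786

namespace Pool.Agent.Helper311.TI

alias KP_ann := J6786.KP_ann

end Pool.Agent.Helper311.TI

namespace Pool.Agent.Helper311.TI.J6787

noncomputable section

theorem ti43_int {ν : Measure ℝ} {u : ℝ → ℂ} (hu : AEStronglyMeasurable u ν)
    (h : ∀ c : ℝ, Integrable (fun x => ‖u x‖ * Real.exp (c * |x|)) ν) (s0 : ℂ) :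
    Integrable (fun x => u x * Complex.exp (s0 * (x:ℂ))) ν := by
  refine (h ‖s0‖).mono' (hu.mul (Continuous.aestronglyMeasurable (by fun_prop))) ?_
  refine Filter.Eventually.of_forall fun x => ?_
  rw [norm_mul, Complex.norm_exp]
  gcongr
  calc (s0 * (x:ℂ)).re ≤ ‖s0 * (x:ℂ)‖ := Complex.re_le_norm _
    _ = ‖s0‖ * |x| := by rw [norm_mul, Complex.norm_real, Real.norm_eq_abs]

theorem ti43_diff {ν : Measure ℝ} {u : ℝ → ℂ} (hu : AEStronglyMeasurable u ν)
    (h : ∀ c : ℝ, Integrable (fun x => ‖u x‖ * Real.exp (c * |x|)) ν) :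
    Differentiable ℂ (fun s : ℂ => ∫ x, u x * Complex.exp (s * (x:ℂ)) ∂ν) := by
  intro s0
  have key := hasDerivAt_integral_of_dominated_loc_of_deriv_le (μ := ν)
    (F := fun (s : ℂ) (x : ℝ) => u x * Complex.exp (s * (x:ℂ)))
    (F' := fun (s : ℂ) (x : ℝ) => u x * ((x:ℂ) * Complex.exp (s * (x:ℂ))))
    (x₀ := s0) (s := Metric.ball s0 1)
    (bound := fun x : ℝ => ‖u x‖ * Real.exp ((‖s0‖ + 2) * |x|))
    (Metric.ball_mem_nhds s0 one_pos) ?_ ?_ ?_ ?_ ?_ ?_
  · exact key.2.differentiableAt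
  · refine Filter.Eventually.of_forall fun s => ?_
    exact hu.mul (Continuous.aestronglyMeasurable (by fun_prop))
  · exact ti43_int hu h s0
  · exact hu.mul (Continuous.aestronglyMeasurable (by fun_prop))
  · refine Filter.Eventually.of_forall fun x s hs => ?_
    have hs' : ‖s‖ ≤ ‖s0‖ + 1 := by
      have h1 : ‖s - s0‖ < 1 := by simpa [dist_eq_norm] using hs
      calc ‖s‖ = ‖s0 + (s - s0)‖ := by congr 1; ring
        _ ≤ ‖s0‖ + ‖s - s0‖ := norm_add_le _ _
        _ ≤ ‖s0‖ + 1 := by linarith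
    rw [norm_mul, norm_mul, Complex.norm_exp, Complex.norm_real, Real.norm_eq_abs]
    gcongr
    have h2 : |x| ≤ Real.exp |x| := by
      have := Real.add_one_le_exp |x|
      linarith
    have h3 : (s * (x:ℂ)).re ≤ (‖s0‖ + 1) * |x| := by
      calc (s * (x:ℂ)).re ≤ ‖s * (x:ℂ)‖ := Complex.re_le_norm _
        _ = ‖s‖ * |x| := by rw [norm_mul, Complex.norm_real, Real.norm_eq_abs]
        _ ≤ (‖s0‖ + 1) * |x| := by gcongr
    calc |x| * Real.exp (s * (x:ℂ)).re ≤ Real.exp |x| * Real.exp ((‖s0‖ + 1) * |x|) := by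
          gcongr
      _ = Real.exp ((‖s0‖ + 2) * |x|) := by rw [← Real.exp_add]; congr 1; ring
  · exact h (‖s0‖ + 2)
  · refine Filter.Eventually.of_forall fun x s hs => ?_
    have h1 : HasDerivAt (fun s : ℂ => s * (x : ℂ)) (x : ℂ) s := by
      simpa using (hasDerivAt_id s).mul_const (x : ℂ)
    have h2 := (h1.cexp).const_mul (u x)
    have e : u x * ((x:ℂ) * Complex.exp (s * (x:ℂ))) = u x * (Complex.exp (s * (x:ℂ)) * (x:ℂ)) := by
      ring
    rw [e]
    exact h2

theorem ti43_f {m : ℝ → ℝ} {f k : ℝ → ℂ} {M : ℝ} (h : Dat m f k M) (X : ℝ) (hX : 0 < X) (c : ℝ) :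
    IntegrableOn (fun x => ‖f x‖ * Real.exp (c * |x|)) (Iio 0 ∪ Icc 0 X) := by
  obtain ⟨_, C, hC, hCb⟩ := wm_moment h.nw c
  obtain ⟨_, _, _, hanti, _, hpos, _⟩ := wm_props h.nw
  have hmeas : Measurable (fun x => ‖f x‖ * Real.exp (c * |x|)) :=
    h.fm.norm.mul (by fun_prop)
  apply IntegrableOn.union
  · refine Integrable.mono' ((h.fi.const_mul C).integrableOn) hmeas.aestronglyMeasurable ?_
    refine (ae_restrict_iff' measurableSet_Iio).2 (Filter.Eventually.of_forall fun x hx => ?_)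
    have hx0 : x < 0 := hx
    rw [Real.norm_of_nonneg (by positivity), abs_of_neg hx0]
    have h1 := hCb x hx0.le
    have e : c * -x = -(c * x) := by ring
    rw [e]
    calc ‖f x‖ * Real.exp (-(c * x)) ≤ ‖f x‖ * (C * wm m x) := by gcongr
      _ = C * (‖f x‖ * wm m x) := by ring
  · refine Integrable.mono' ((h.fi.const_mul (Real.exp (|c| * X) / wm m X)).integrableOn)
      hmeas.aestronglyMeasurable ?_
    refine (ae_restrict_iff' measurableSet_Icc).2 (Filter.Eventually.of_forall fun x hx => ?_)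
    rw [Real.norm_of_nonneg (by positivity), abs_of_nonneg hx.1]
    have h1 : wm m X ≤ wm m x := hanti hx.2
    have h2 : Real.exp (c * x) ≤ Real.exp (|c| * X) := by
      apply Real.exp_le_exp.2
      calc c * x ≤ |c| * x := mul_le_mul_of_nonneg_right (le_abs_self c) hx.1
        _ ≤ |c| * X := mul_le_mul_of_nonneg_left hx.2 (abs_nonneg c)
    have h3 : Real.exp (|c| * X) ≤ Real.exp (|c| * X) / wm m X * wm m x := by
      rw [div_mul_eq_mul_div, le_div_iff₀ (hpos X)]
      exact mul_le_mul_of_nonneg_left h1 (Real.exp_pos _).le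
    calc ‖f x‖ * Real.exp (c * x) ≤ ‖f x‖ * (Real.exp (|c| * X) / wm m X * wm m x) := by
          gcongr
          exact h2.trans h3
      _ = Real.exp (|c| * X) / wm m X * (‖f x‖ * wm m x) := by ring

theorem ti43_k {m : ℝ → ℝ} {f k : ℝ → ℂ} {M : ℝ} (h : Dat m f k M) (X : ℝ) (hX : 0 < X) (c : ℝ) :
    IntegrableOn (fun x => ‖k x‖ * Real.exp (c * |x|)) (Ioi 0 ∪ Icc (-X) 0) := by
  obtain ⟨hint, _⟩ := wm_moment h.nw c
  obtain ⟨_, _, _, hanti, _, hpos, _⟩ := wm_props h.nw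
  have hmeas : Measurable (fun x => ‖k x‖ * Real.exp (c * |x|)) :=
    h.km.norm.mul (by fun_prop)
  apply IntegrableOn.union
  · refine Integrable.mono' (hint.const_mul M) hmeas.aestronglyMeasurable ?_
    refine (ae_restrict_iff' measurableSet_Ioi).2 (Filter.Eventually.of_forall fun x hx => ?_)
    have hx0 : 0 < x := hx
    rw [Real.norm_of_nonneg (by positivity), abs_of_pos hx0]
    calc ‖k x‖ * Real.exp (c * x) ≤ (M * wm m x) * Real.exp (c * x) := by
          gcongr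
          exact h.kb x
      _ = M * (wm m x * Real.exp (c * x)) := by ring
  · have hM := h.M0
    apply Measure.integrableOn_of_bounded (M := (M * wm m (-X)) * Real.exp (|c| * X))
    · simp
    · exact hmeas.aestronglyMeasurable
    · refine (ae_restrict_iff' measurableSet_Icc).2 (Filter.Eventually.of_forall fun x hx => ?_)
      rw [Real.norm_of_nonneg (by positivity)]
      have h1 : wm m x ≤ wm m (-X) := hanti hx.1
      have h2 : Real.exp (c * |x|) ≤ Real.exp (|c| * X) := by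
        apply Real.exp_le_exp.2
        have h3 : |x| ≤ X := abs_le.2 ⟨hx.1, by linarith [hx.2]⟩
        calc c * |x| ≤ |c| * |x| := mul_le_mul_of_nonneg_right (le_abs_self c) (abs_nonneg x)
          _ ≤ |c| * X := mul_le_mul_of_nonneg_left h3 (abs_nonneg c)
      have h4 : ‖k x‖ ≤ M * wm m (-X) := (h.kb x).trans (mul_le_mul_of_nonneg_left h1 hM)
      exact mul_le_mul h4 h2 (Real.exp_pos _).le (mul_nonneg hM (hpos _).le)

lemma laplace_entire {m : ℝ → ℝ} {f k : ℝ → ℂ} {M : ℝ} (h : Dat m f k M) :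
    (∀ ζ : ℂ, IntegrableOn (fun x : ℝ => f x * cexp (-ζ * (x : ℂ))) (Iio 0)) ∧
    (∀ ζ : ℂ, IntegrableOn (fun t : ℝ => k t * cexp (ζ * (t : ℂ))) (Ioi 0)) ∧
    (∀ (σ : ℝ) (ζ : ℂ), IntegrableOn (fun x : ℝ => f x * cexp (-ζ * (x : ℂ)))
      {x : ℝ | x < 0 ∨ m x ≤ σ}) ∧
    (∀ (σ : ℝ) (ζ : ℂ), IntegrableOn (fun t : ℝ => k t * cexp (ζ * (t : ℂ)))
      {t : ℝ | 0 < t ∨ m t ≤ σ}) ∧
    Differentiable ℂ (FLap f) ∧ Differentiable ℂ (GLap k) ∧
    (∀ σ : ℝ, Differentiable ℂ (FS m f σ)) ∧ (∀ σ : ℝ, Differentiable ℂ (GS m k σ)) := by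
  obtain ⟨_, _, _, _, _, _, _, hlev, _⟩ := wm_props h.nw
  have hf1 : ∀ c : ℝ, IntegrableOn (fun x => ‖f x‖ * Real.exp (c * |x|)) (Iio 0) := fun c =>
    (ti43_f h 1 one_pos c).mono_set subset_union_left
  have hk1 : ∀ c : ℝ, IntegrableOn (fun x => ‖k x‖ * Real.exp (c * |x|)) (Ioi 0) := fun c =>
    (ti43_k h 1 one_pos c).mono_set subset_union_left
  have hf2 : ∀ (σ c : ℝ), IntegrableOn (fun x => ‖f x‖ * Real.exp (c * |x|)) {x : ℝ | x < 0 ∨ m x ≤ σ} := by
    intro σ c
    obtain ⟨X, hX, hsub⟩ := hlev σ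
    refine (ti43_f h X hX c).mono_set ?_
    intro x hx
    by_cases hx0 : x < 0
    · exact Or.inl hx0
    · right
      rcases hx with h1 | h1
      · exact absurd h1 hx0
      · exact ⟨not_lt.1 hx0, (hsub h1).2⟩
  have hk2 : ∀ (σ c : ℝ), IntegrableOn (fun x => ‖k x‖ * Real.exp (c * |x|)) {t : ℝ | 0 < t ∨ m t ≤ σ} := by
    intro σ c
    obtain ⟨X, hX, hsub⟩ := hlev σ
    refine (ti43_k h X hX c).mono_set ?_
    intro x hx
    by_cases hx0 : 0 < x
    · exact Or.inl hx0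
    · right
      rcases hx with h1 | h1
      · exact absurd h1 hx0
      · exact ⟨(hsub h1).1, not_lt.1 hx0⟩
  have hfm : ∀ S : Set ℝ, AEStronglyMeasurable f (volume.restrict S) := fun S => h.fm.aestronglyMeasurable
  have hkm : ∀ S : Set ℝ, AEStronglyMeasurable k (volume.restrict S) := fun S => h.km.aestronglyMeasurable
  refine ⟨fun ζ => ti43_int (hfm _) hf1 (-ζ), fun ζ => ti43_int (hkm _) hk1 ζ,
    fun σ ζ => ti43_int (hfm _) (hf2 σ) (-ζ), fun σ ζ => ti43_int (hkm _) (hk2 σ) ζ, ?_, ?_, ?_, ?_⟩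
  · exact (ti43_diff (hfm _) hf1).comp differentiable_neg
  · exact ti43_diff (hkm _) hk1
  · intro σ
    exact (ti43_diff (hfm _) (hf2 σ)).comp differentiable_neg
  · intro σ
    exact ti43_diff (hkm _) (hk2 σ)

end

end Pool.Agent.Helper311.TI.J6787

namespace Pool.Agent.Helper311.TI

alias laplace_entire := J6787.laplace_entire

end Pool.Agent.Helper311.TI

namespace Pool.Agent.Helper311.TI.J6788

noncomputable section

lemma prod_formula {m : ℝ → ℝ} {f k : ℝ → ℂ} {M : ℝ} (h : Dat m f k M) (σ : ℝ) (ζ : ℂ) :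
    ‖FS m f σ ζ * GS m k σ ζ‖ₑ ≤ ∫⁻ x, ‖f x‖ₑ * ‖KR m k σ x ζ‖ₑ := by
  obtain ⟨-, -, hFi, hGi, -, -, -, -⟩ := laplace_entire h
  obtain ⟨hPi, hfP, hfP0⟩ := KP_ann h ζ
  have hm := h.nw.meas
  have hmono := h.nw.mono
  have hanti := h.nw.anti
  set A : Set ℝ := {x : ℝ | x < 0 ∨ m x ≤ σ} with hA
  set B : Set ℝ := {t : ℝ | 0 < t ∨ m t ≤ σ} with hB
  have hmle : MeasurableSet {t : ℝ | m t ≤ σ} := measurableSet_le hm measurable_const
  have hmlt : MeasurableSet {t : ℝ | σ < m t} := measurableSet_lt measurable_const hm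
  have hAm : MeasurableSet A := measurableSet_Iio.union hmle
  have hBm : MeasurableSet B := measurableSet_Ioi.union hmle
  -- the function with shifted exponent
  have hφ : ∀ x t : ℝ, k t * cexp (ζ * ((t : ℂ) - (x : ℂ))) =
      (k t * cexp (ζ * (t : ℂ))) * cexp (-ζ * (x : ℂ)) := by
    intro x t
    rw [mul_assoc, ← Complex.exp_add]
    congr 2
    ring
  have hBi : ∀ x : ℝ, IntegrableOn (fun t : ℝ => k t * cexp (ζ * ((t : ℂ) - (x : ℂ)))) B := by
    intro x
    simp only [hφ]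
    exact (hGi σ ζ).mul_const _
  have hGS : ∀ x : ℝ, cexp (-ζ * (x : ℂ)) * GS m k σ ζ =
      ∫ t in B, k t * cexp (ζ * ((t : ℂ) - (x : ℂ))) := by
    intro x
    simp only [hφ]
    rw [integral_mul_const, mul_comm]
    rfl
  -- the three cases
  have case1 : ∀ x : ℝ, m x ≤ σ → cexp (-ζ * (x : ℂ)) * GS m k σ ζ = KP k x ζ + KR m k σ x ζ := by
    intro x hx
    rw [hGS]
    have hRR : RR m σ x = {t : ℝ | t < x ∧ m t ≤ σ} := by
      ext t
      simp only [RR, Set.mem_ofPred_eq]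
      constructor
      · rintro (h1 | h1 | h1)
        · exact h1.2
        · exact absurd h1.1 (not_lt.2 hx)
        · exact absurd h1.1 (not_lt.2 hx)
      · intro h1
        exact Or.inl ⟨hx, h1⟩
    have hSm : MeasurableSet {t : ℝ | t < x ∧ m t ≤ σ} := measurableSet_Iio.inter hmle
    have hset : B =ᵐ[volume] (Ioi x ∪ {t : ℝ | t < x ∧ m t ≤ σ} : Set ℝ) := by
      rw [Filter.eventuallyEq_set]
      have hne : ∀ᵐ t : ℝ, t ≠ x := by
        rw [ae_iff]; simp
      filter_upwards [hne] with t ht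
      constructor
      · intro htB
        rcases lt_or_gt_of_ne ht with h1 | h1
        · right
          refine ⟨h1, ?_⟩
          rcases htB with h2 | h2
          · exact (hmono (mem_Ici.2 h2.le) (mem_Ici.2 (h2.trans h1).le) h1.le).trans hx
          · exact h2
        · left; exact h1
      · rintro (h1 | ⟨h1, h2⟩)
        · have h1' : x < t := h1
          rcases lt_or_ge 0 t with h2 | h2
          · exact Or.inl h2
          · exact Or.inr ((hanti (mem_Iic.2 (h1'.le.trans h2)) (mem_Iic.2 h2) h1'.le).trans hx)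
        · exact Or.inr h2
    rw [setIntegral_congr_set hset, setIntegral_union]
    · unfold KP KR
      rw [hRR]
    · rw [Set.disjoint_left]
      intro t h1 h2
      exact absurd (mem_Ioi.1 h1) (not_lt.2 h2.1.le)
    · exact hSm
    · exact hPi x
    · exact (hBi x).mono_set (fun t ht => Or.inr ht.2)
  have case2 : ∀ x : ℝ, x < 0 → σ < m x →
      cexp (-ζ * (x : ℂ)) * GS m k σ ζ = KP k x ζ - KR m k σ x ζ := by
    intro x hx0 hx
    rw [hGS, eq_sub_iff_add_eq]
    have hRR : RR m σ x = {t : ℝ | x < t ∧ t < 0 ∧ σ < m t} := by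
      ext t
      simp only [RR, Set.mem_ofPred_eq]
      constructor
      · rintro (h1 | h1 | h1)
        · exact absurd h1.1 (not_le.2 hx)
        · exact absurd h1.2.1 (not_lt.2 hx0.le)
        · exact h1.2.2
      · intro h1
        exact Or.inr (Or.inr ⟨hx, hx0.le, h1⟩)
    have hSm : MeasurableSet {t : ℝ | x < t ∧ t < 0 ∧ σ < m t} :=
      measurableSet_Ioi.inter (measurableSet_Iio.inter hmlt)
    have hset : (Ioi x : Set ℝ) =ᵐ[volume] (B ∪ {t : ℝ | x < t ∧ t < 0 ∧ σ < m t} : Set ℝ) := by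
      rw [Filter.eventuallyEq_set]
      have hne : ∀ᵐ t : ℝ, t ≠ 0 := by
        rw [ae_iff]; simp
      filter_upwards [hne] with t ht
      constructor
      · intro h1
        have h1' : x < t := h1
        rcases lt_or_gt_of_ne ht with h2 | h2
        · rcases le_or_gt (m t) σ with h3 | h3
          · exact Or.inl (Or.inr h3)
          · exact Or.inr ⟨h1', h2, h3⟩
        · exact Or.inl (Or.inl h2)
      · rintro (h1 | h1)
        · by_contra h2
          have h2' : t ≤ x := not_lt.1 h2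
          rcases h1 with h1 | h1
          · linarith
          · have h3 := hanti (mem_Iic.2 (h2'.trans hx0.le)) (mem_Iic.2 hx0.le) h2'
            linarith
        · exact h1.1
    unfold KP KR
    rw [hRR, setIntegral_congr_set hset, setIntegral_union]
    · rw [Set.disjoint_left]
      rintro t (h1 | h1) h2
      · exact absurd h1 (not_lt.2 h2.2.1.le)
      · exact absurd h1 (not_le.2 h2.2.2)
    · exact hSm
    · exact hBi x
    · exact (hPi x).mono_set (fun t ht => ht.1)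
  have case3 : ∀ x : ℝ, 0 < x → σ < m x → KR m k σ x ζ = KP k x ζ := by
    intro x hx0 hx
    have hRR : RR m σ x = Ioi x := by
      ext t
      simp only [RR, Set.mem_ofPred_eq, mem_Ioi]
      constructor
      · rintro (h1 | h1 | h1)
        · exact absurd h1.1 (not_le.2 hx)
        · exact h1.2.2
        · exact h1.2.2.1
      · intro h1
        exact Or.inr (Or.inl ⟨hx, hx0, h1⟩)
    unfold KP KR
    rw [hRR]
  -- the product as an integral
  have hint1 : IntegrableOn (fun x : ℝ => f x * (cexp (-ζ * (x : ℂ)) * GS m k σ ζ)) A := by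
    have := (hFi σ ζ).mul_const (GS m k σ ζ)
    refine this.congr (Eventually.of_forall fun x => ?_)
    simp only []
    ring
  have hint2 : Integrable (A.indicator (fun x : ℝ => f x * (cexp (-ζ * (x : ℂ)) * GS m k σ ζ))) :=
    (integrable_indicator_iff hAm).2 hint1
  have hprod : FS m f σ ζ * GS m k σ ζ =
      ∫ x, (A.indicator (fun x : ℝ => f x * (cexp (-ζ * (x : ℂ)) * GS m k σ ζ)) x -
        f x * KP k x ζ) := by
    rw [integral_sub hint2 hfP, hfP0, sub_zero, integral_indicator hAm]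
    unfold FS
    rw [← integral_mul_const]
    congr 1
    funext x
    ring
  rw [hprod]
  refine (enorm_integral_le_lintegral_enorm _).trans (le_of_eq ?_)
  refine lintegral_congr_ae ?_
  have hne : ∀ᵐ t : ℝ, t ≠ 0 := by
    rw [ae_iff]; simp
  filter_upwards [hne] with x hx
  rw [← enorm_mul]
  rcases le_or_gt (m x) σ with h1 | h1
  · have hxA : x ∈ A := Or.inr h1
    rw [Set.indicator_of_mem hxA, case1 x h1]
    congr 1
    ring
  · rcases lt_or_gt_of_ne hx with h2 | h2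
    · have hxA : x ∈ A := Or.inl h2
      rw [Set.indicator_of_mem hxA, case2 x h2 h1, ← enorm_neg]
      congr 1
      ring
    · have hxA : x ∉ A := by
        rintro (h3 | h3)
        · linarith
        · linarith
      rw [Set.indicator_of_notMem hxA, case3 x h2 h1, zero_sub, enorm_neg]

end

end Pool.Agent.Helper311.TI.J6788

namespace Pool.Agent.Helper311.TI

alias prod_formula := J6788.prod_formula

end Pool.Agent.Helper311.TI

namespace Pool.Agent.Helper311.TI.J6789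

noncomputable section

lemma nrm_exp_neg (ζ : ℂ) (x : ℝ) : ‖cexp (-ζ * (x : ℂ))‖ = Real.exp (-ζ.re * x) := by
  rw [Complex.norm_exp]
  congr 1
  simp

lemma nrm_exp_pos (ζ : ℂ) (x : ℝ) : ‖cexp (ζ * (x : ℂ))‖ = Real.exp (ζ.re * x) := by
  rw [Complex.norm_exp]
  congr 1
  simp

lemma f_bd {m : ℝ → ℝ} {f k : ℝ → ℂ} {M : ℝ} (h : Dat m f k M) {S : Set ℝ}
    (hS : MeasurableSet S) (ζ : ℂ) {C : ℝ} (hC : 0 ≤ C)
    (hb : ∀ x ∈ S, Real.exp (-ζ.re * x) ≤ C * wm m x) :
    ‖∫ x in S, f x * cexp (-ζ * (x : ℂ))‖ ≤ C * ∫ x, ‖f x‖ * wm m x := by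
  obtain ⟨m0, mI, wc, wa, w0, wp, wf, wX, wq⟩ := wm_props h.nw
  have h1 : Integrable (fun x => C * (‖f x‖ * wm m x)) (volume.restrict S) :=
    (h.fi.const_mul C).integrableOn
  have h2 : ‖∫ x in S, f x * cexp (-ζ * (x : ℂ))‖ ≤ ∫ x in S, C * (‖f x‖ * wm m x) := by
    refine norm_integral_le_of_norm_le h1 ?_
    refine (ae_restrict_iff' hS).2 (Eventually.of_forall fun x hx => ?_)
    rw [norm_mul, nrm_exp_neg]
    calc ‖f x‖ * Real.exp (-ζ.re * x) ≤ ‖f x‖ * (C * wm m x) :=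
          mul_le_mul_of_nonneg_left (hb x hx) (norm_nonneg _)
      _ = C * (‖f x‖ * wm m x) := by ring
  refine h2.trans ?_
  rw [← integral_const_mul]
  exact setIntegral_le_integral (h.fi.const_mul C) (Eventually.of_forall fun x =>
    mul_nonneg hC (mul_nonneg (norm_nonneg _) (wp x).le))

lemma g_bd {m : ℝ → ℝ} {f k : ℝ → ℂ} {M : ℝ} (h : Dat m f k M) {S : Set ℝ}
    (hS : MeasurableSet S) (ζ : ℂ) {g : ℝ → ℝ} (hg : IntegrableOn g S)
    (hb : ∀ x ∈ S, wm m x * Real.exp (ζ.re * x) ≤ g x) :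
    ‖∫ t in S, k t * cexp (ζ * (t : ℂ))‖ ≤ M * ∫ t in S, g t := by
  obtain ⟨m0, mI, wc, wa, w0, wp, wf, wX, wq⟩ := wm_props h.nw
  rw [← integral_const_mul]
  have h1 : Integrable (fun x => M * g x) (volume.restrict S) := hg.const_mul M
  refine norm_integral_le_of_norm_le h1 ?_
  refine (ae_restrict_iff' hS).2 (Eventually.of_forall fun x hx => ?_)
  rw [norm_mul, nrm_exp_pos]
  calc ‖k x‖ * Real.exp (ζ.re * x) ≤ (M * wm m x) * Real.exp (ζ.re * x) :=
        mul_le_mul_of_nonneg_right (h.kb x) (Real.exp_pos _).le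
    _ = M * (wm m x * Real.exp (ζ.re * x)) := by ring
    _ ≤ M * g x := mul_le_mul_of_nonneg_left (hb x hx) h.M0

lemma wm_ge {m : ℝ → ℝ} (hm : NW m) {σ x : ℝ} (hx : 0 ≤ x) (hmx : m x ≤ σ) :
    Real.exp (-(σ * x)) ≤ wm m x := by
  obtain ⟨m0, mI, wc, wa, w0, wp, wf, wX, wq⟩ := wm_props hm
  unfold wm
  refine Real.exp_le_exp.2 (neg_le_neg ?_)
  have h1 : ∫ t in (0 : ℝ)..x, m t ≤ ∫ t in (0 : ℝ)..x, σ := by
    refine intervalIntegral.integral_mono_on hx (mI 0 x) (by simp) ?_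
    intro t ht
    exact (hm.mono ht.1 (mem_Ici.2 hx) ht.2).trans hmx
  refine h1.trans ?_
  rw [intervalIntegral.integral_const]
  simp [mul_comm]

lemma wm_le {m : ℝ → ℝ} (hm : NW m) {σ x : ℝ} (hx : x ≤ 0) (hmx : m x ≤ σ) :
    wm m x ≤ Real.exp (-(σ * x)) := by
  obtain ⟨m0, mI, wc, wa, w0, wp, wf, wX, wq⟩ := wm_props hm
  unfold wm
  refine Real.exp_le_exp.2 ?_
  rw [← intervalIntegral.integral_symm]
  have h1 : ∫ t in x..0, m t ≤ ∫ t in x..0, σ := by
    refine intervalIntegral.integral_mono_on hx (mI x 0) (by simp) ?_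
    intro t ht
    exact (hm.anti (mem_Iic.2 hx) (mem_Iic.2 ht.2) ht.1).trans hmx
  refine h1.trans ?_
  rw [intervalIntegral.integral_const]
  simp [mul_comm]

lemma FG_bounds {m : ℝ → ℝ} {f k : ℝ → ℂ} {M : ℝ} (h : Dat m f k M) :
    (∀ ζ : ℂ, ζ.re ≤ 0 → ‖FLap f ζ‖ ≤ ∫ x, ‖f x‖ * wm m x) ∧
    (∀ ζ : ℂ, ζ.re ≤ 0 → ‖GLap k ζ‖ ≤ M * ∫ t in Ioi (0 : ℝ), wm m t) ∧
    (∀ σ : ℝ, ∃ B : ℝ, ∀ ζ : ℂ, ζ.re ≤ σ → ‖FLap f ζ‖ ≤ B) ∧
    (∀ σ : ℝ, ∃ B : ℝ, ∀ ζ : ℂ, ζ.re ≤ σ → ‖GLap k ζ‖ ≤ B) ∧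
    (∀ (σ : ℝ) (ζ : ℂ), σ ≤ ζ.re → ‖FS m f σ ζ - FLap f ζ‖ ≤ ∫ x, ‖f x‖ * wm m x) ∧
    (∀ (σ : ℝ) (ζ : ℂ), m 0 ≤ σ → GS m k σ ζ - GLap k ζ = KR m k σ 0 ζ) ∧
    (∀ (σ : ℝ) (ζ : ℂ), m 0 ≤ σ → σ < ζ.re → ‖GS m k σ ζ - GLap k ζ‖ ≤ M * (1 / (ζ.re - σ))) := by
  obtain ⟨m0, mI, wc, wa, w0, wp, wf, wX, wq⟩ := wm_props h.nw
  obtain ⟨fi1, gi1, fi2, gi2, dF, dG, dFS, dGS⟩ := laplace_entire h
  have wint : IntegrableOn (wm m) (Ioi 0) := by
    have := (wm_moment h.nw 0).1
    simpa using this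
  have mS1 : ∀ σ : ℝ, MeasurableSet {x : ℝ | x < 0 ∨ m x ≤ σ} := fun σ =>
    (measurableSet_lt measurable_id measurable_const).union
      (measurableSet_le h.nw.meas measurable_const)
  have mS2 : ∀ σ : ℝ, MeasurableSet {t : ℝ | 0 < t ∨ m t ≤ σ} := fun σ =>
    (measurableSet_lt measurable_const measurable_id).union
      (measurableSet_le h.nw.meas measurable_const)
  have key : ∀ (σ : ℝ) (ζ : ℂ), GS m k σ ζ - GLap k ζ =
      ∫ t in {t : ℝ | t ≤ 0 ∧ m t ≤ σ}, k t * cexp (ζ * (t : ℂ)) := by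
    intro σ ζ
    unfold GS GLap
    have hsub : Ioi (0 : ℝ) ⊆ {t : ℝ | 0 < t ∨ m t ≤ σ} := fun t ht => Or.inl ht
    have e := MeasureTheory.setIntegral_sdiff measurableSet_Ioi (gi2 σ ζ) hsub
    rw [← e]
    congr 2
    ext t
    constructor
    · rintro ⟨h1, h2⟩
      have h3 : t ≤ 0 := not_lt.1 h2
      rcases h1 with h1 | h1
      · exact absurd h1 h2
      · exact ⟨h3, h1⟩
    · rintro ⟨h1, h2⟩
      exact ⟨Or.inr h2, not_lt.2 h1⟩
  refine ⟨?_, ?_, ?_, ?_, ?_, ?_, ?_⟩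
  · intro ζ hζ
    have := f_bd h (S := Iio 0) measurableSet_Iio ζ (C := 1) zero_le_one (by
      intro x hx
      have hx' : x < 0 := hx
      have h1 : Real.exp (-ζ.re * x) ≤ 1 := Real.exp_le_one_iff.2 (by nlinarith)
      have h2 : wm m 0 ≤ wm m x := wa hx'.le
      linarith)
    rw [one_mul] at this
    exact this
  · intro ζ hζ
    refine g_bd h measurableSet_Ioi ζ wint ?_
    intro x hx
    have hx' : 0 < x := hx
    have h1 : Real.exp (ζ.re * x) ≤ 1 := Real.exp_le_one_iff.2 (by nlinarith)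
    exact mul_le_of_le_one_right (wp x).le h1
  · intro σ
    obtain ⟨-, C, hC, hCb⟩ := wm_moment h.nw σ
    refine ⟨C * ∫ x, ‖f x‖ * wm m x, fun ζ hζ => ?_⟩
    refine f_bd h (S := Iio 0) measurableSet_Iio ζ hC.le ?_
    intro x hx
    have hx' : x < 0 := hx
    refine le_trans (Real.exp_le_exp.2 ?_) (hCb x hx'.le)
    nlinarith
  · intro σ
    obtain ⟨hI, -⟩ := wm_moment h.nw σ
    refine ⟨M * ∫ t in Ioi (0 : ℝ), wm m t * Real.exp (σ * t), fun ζ hζ => ?_⟩
    refine g_bd h measurableSet_Ioi ζ hI ?_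
    intro x hx
    have hx' : 0 < x := hx
    refine mul_le_mul_of_nonneg_left (Real.exp_le_exp.2 ?_) (wp x).le
    exact mul_le_mul_of_nonneg_right hζ hx'.le
  · intro σ ζ hσ
    have h1 : FS m f σ ζ - FLap f ζ =
        ∫ x in {x : ℝ | x < 0 ∨ m x ≤ σ} \ Iio 0, f x * cexp (-ζ * (x : ℂ)) := by
      unfold FS FLap
      have hsub : Iio (0 : ℝ) ⊆ {x : ℝ | x < 0 ∨ m x ≤ σ} := fun t ht => Or.inl ht
      exact (MeasureTheory.setIntegral_sdiff measurableSet_Iio (fi2 σ ζ) hsub).symm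
    rw [h1]
    have := f_bd h (S := {x : ℝ | x < 0 ∨ m x ≤ σ} \ Iio 0) ((mS1 σ).diff measurableSet_Iio) ζ
      (C := 1) zero_le_one (by
        rintro x ⟨hx1, hx2⟩
        have hx3 : 0 ≤ x := not_lt.1 hx2
        have hx4 : m x ≤ σ := by
          rcases hx1 with hx1 | hx1
          · exact absurd hx1 (not_lt.2 hx3)
          · exact hx1
        rw [one_mul]
        refine le_trans (Real.exp_le_exp.2 ?_) (wm_ge h.nw hx3 hx4)
        nlinarith)
    rw [one_mul] at this
    exact this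
  · intro σ ζ hσ
    rw [key]
    unfold KR
    have hset : (RR m σ 0 : Set ℝ) =ᵐ[volume] {t : ℝ | t ≤ 0 ∧ m t ≤ σ} := by
      have : RR m σ 0 = {t : ℝ | t ≤ 0 ∧ m t ≤ σ} \ {0} := by
        ext t
        unfold RR
        constructor
        · rintro (⟨h1, h2, h3⟩ | ⟨h1, h2, h3⟩ | ⟨h1, h2, h3, h4, h5⟩)
          · exact ⟨⟨h2.le, h3⟩, fun e => absurd h2 (by rw [mem_singleton_iff.1 e]; simp)⟩
          · exact absurd h2 (lt_irrefl _)
          · exact absurd h1 (not_lt.2 hσ)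
        · rintro ⟨⟨h1, h2⟩, h3⟩
          exact Or.inl ⟨hσ, lt_of_le_of_ne h1 h3, h2⟩
      rw [this]
      exact sdiff_null_ae_eq_self (by simp)
    rw [setIntegral_congr_set hset]
    simp
  · intro σ ζ hσ hζ
    rw [key]
    have hpos : 0 < ζ.re - σ := sub_pos.2 hζ
    have hI : IntegrableOn (fun t : ℝ => Real.exp ((ζ.re - σ) * t)) (Iic 0) :=
      integrableOn_exp_mul_Iic hpos 0
    have hsub : {t : ℝ | t ≤ 0 ∧ m t ≤ σ} ⊆ Iic 0 := fun t ht => ht.1
    have hmeas : MeasurableSet {t : ℝ | t ≤ 0 ∧ m t ≤ σ} :=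
      (measurableSet_le measurable_id measurable_const).inter
        (measurableSet_le h.nw.meas measurable_const)
    refine (g_bd h hmeas ζ (hI.mono_set hsub) ?_).trans ?_
    · rintro x ⟨hx1, hx2⟩
      calc wm m x * Real.exp (ζ.re * x) ≤ Real.exp (-(σ * x)) * Real.exp (ζ.re * x) :=
            mul_le_mul_of_nonneg_right (wm_le h.nw hx1 hx2) (Real.exp_pos _).le
        _ = Real.exp ((ζ.re - σ) * x) := by
            rw [← Real.exp_add]; congr 1; ring
    · refine mul_le_mul_of_nonneg_left ?_ h.M0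
      calc ∫ t in {t : ℝ | t ≤ 0 ∧ m t ≤ σ}, Real.exp ((ζ.re - σ) * t)
          ≤ ∫ t in Iic 0, Real.exp ((ζ.re - σ) * t) :=
            setIntegral_mono_set hI (Eventually.of_forall fun t => (Real.exp_pos _).le)
              hsub.eventuallyLE
        _ = 1 / (ζ.re - σ) := by
            rw [integral_exp_mul_Iic hpos 0]; simp

end

end Pool.Agent.Helper311.TI.J6789

namespace Pool.Agent.Helper311.TI

alias FG_bounds := J6789.FG_bounds

end Pool.Agent.Helper311.TI

namespace Pool.Agent.Helper311.TI.J6791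

noncomputable section

lemma p5_right {m : ℝ → ℝ} (hm : NW m) {s y t : ℝ} (hy : 0 ≤ y) (hsy : s + 1 ≤ m y)
    (ht : y ≤ t) : wm m t * Real.exp (s * t) ≤ Real.exp (s * y) * Real.exp (-(t - y)) := by
  obtain ⟨_, hint, _, hanti, h0, hpos, hmul, _, _⟩ := wm_props hm
  have h1 := hmul y t
  have h2 : (s + 1) * (t - y) ≤ ∫ u in y..t, m u := by
    have h3 : ∫ u in y..t, (s + 1) = (s + 1) * (t - y) := by
      rw [intervalIntegral.integral_const, smul_eq_mul, mul_comm]
    rw [← h3]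
    apply intervalIntegral.integral_mono_on ht (by simp) (hint y t)
    intro u hu
    exact hsy.trans (hm.mono hy (hy.trans hu.1) hu.1)
  have h4 : wm m y ≤ 1 := by
    rw [← h0]
    exact hanti hy
  have h5 : Real.exp (-∫ u in y..t, m u) ≤ Real.exp (-((s + 1) * (t - y))) :=
    Real.exp_le_exp.mpr (by linarith)
  rw [h1]
  calc wm m y * Real.exp (-∫ u in y..t, m u) * Real.exp (s * t)
      ≤ 1 * Real.exp (-((s + 1) * (t - y))) * Real.exp (s * t) := by
        apply mul_le_mul_of_nonneg_right _ (Real.exp_pos _).le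
        exact mul_le_mul h4 h5 (Real.exp_pos _).le zero_le_one
    _ = Real.exp (s * y) * Real.exp (-(t - y)) := by
        rw [one_mul, ← Real.exp_add, ← Real.exp_add]
        congr 1
        ring

lemma p5_left {m : ℝ → ℝ} (hm : NW m) {s y x : ℝ} (hs : 0 ≤ s) (hy : 0 ≤ y) (hsy : s + 1 ≤ m (-y))
    (hx : x < 0) : Real.exp (-(s * x)) ≤ Real.exp (s * y) * wm m x := by
  obtain ⟨_, hint, _, hanti, h0, hpos, hmul, _, _⟩ := wm_props hm
  by_cases hxy : -y ≤ x
  · have h1 : 1 ≤ wm m x := by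
      rw [← h0]
      exact hanti hx.le
    calc Real.exp (-(s * x)) ≤ Real.exp (s * y) := Real.exp_le_exp.mpr (by nlinarith)
      _ = Real.exp (s * y) * 1 := (mul_one _).symm
      _ ≤ _ := mul_le_mul_of_nonneg_left h1 (Real.exp_pos _).le
  · push Not at hxy
    have h1 := hmul x (-y)
    have h2 : s * (-y - x) ≤ ∫ u in x..(-y), m u := by
      have h3 : ∫ u in x..(-y), s = s * (-y - x) := by
        rw [intervalIntegral.integral_const, smul_eq_mul, mul_comm]
      rw [← h3]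
      apply intervalIntegral.integral_mono_on hxy.le (by simp) (hint x (-y))
      intro u hu
      have h4 := hm.anti (show u ∈ Iic (0 : ℝ) from hu.2.trans (by linarith))
        (show -y ∈ Iic (0 : ℝ) from (by simpa using hy)) hu.2
      linarith
    have h5 : 1 ≤ wm m (-y) := by
      rw [← h0]
      exact hanti (by linarith)
    have h6 : wm m x = wm m (-y) * Real.exp (∫ u in x..(-y), m u) := by
      rw [h1, mul_assoc, ← Real.exp_add, neg_add_cancel, Real.exp_zero, mul_one]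
    rw [h6]
    have h7 : Real.exp (s * (-y - x)) ≤ Real.exp (∫ u in x..(-y), m u) := Real.exp_le_exp.mpr h2
    calc Real.exp (-(s * x)) = Real.exp (s * y) * (1 * Real.exp (s * (-y - x))) := by
          rw [one_mul, ← Real.exp_add]
          congr 1
          ring
      _ ≤ Real.exp (s * y) * (wm m (-y) * Real.exp (∫ u in x..(-y), m u)) := by
          apply mul_le_mul_of_nonneg_left _ (Real.exp_pos _).le
          exact mul_le_mul h5 h7 (Real.exp_pos _).le (by linarith)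

lemma P5 {m : ℝ → ℝ} {f k : ℝ → ℂ} {M : ℝ} (h : Dat m f k M) :
    (∀ s y : ℝ, 0 ≤ s → 0 ≤ y → s + 1 ≤ m y → ∀ ζ : ℂ, ζ.re ≤ s →
      ‖GLap k ζ‖ ≤ M * (1 + y) * Real.exp (s * y)) ∧
    (∀ s y : ℝ, 0 ≤ s → 0 ≤ y → s + 1 ≤ m (-y) → ∀ ζ : ℂ, ζ.re ≤ s →
      ‖FLap f ζ‖ ≤ (∫ x, ‖f x‖ * wm m x) * (1 + y) * Real.exp (s * y)) := by
  obtain ⟨_, hint, hcont, hanti, h0, hpos, hmul, _, _⟩ := wm_props h.nw
  obtain ⟨hF, hG, _⟩ := laplace_entire h
  constructor
  · intro s y hs hy hsy ζ hζ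
    have hI := hG ζ
    have hu : Ioc (0 : ℝ) y ∪ Ioi y = Ioi 0 := Ioc_union_Ioi_eq_Ioi hy
    have hI1 : IntegrableOn (fun t : ℝ => k t * cexp (ζ * (t : ℂ))) (Ioc 0 y) :=
      hI.mono_set (by rw [← hu]; exact subset_union_left)
    have hI2 : IntegrableOn (fun t : ℝ => k t * cexp (ζ * (t : ℂ))) (Ioi y) :=
      hI.mono_set (by rw [← hu]; exact subset_union_right)
    have hdis : Disjoint (Ioc (0 : ℝ) y) (Ioi y) := by
      rw [Set.disjoint_left]
      intro t ht ht2
      exact absurd ht2 (not_lt.mpr ht.2)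
    have hsplit : GLap k ζ = (∫ t in Ioc 0 y, k t * cexp (ζ * (t : ℂ)))
        + ∫ t in Ioi y, k t * cexp (ζ * (t : ℂ)) := by
      unfold GLap
      rw [← hu]
      exact setIntegral_union hdis measurableSet_Ioi hI1 hI2
    have hnorm : ∀ t : ℝ, 0 < t → ‖k t * cexp (ζ * (t : ℂ))‖ ≤ M * (wm m t * Real.exp (s * t)) := by
      intro t ht
      rw [norm_mul, Complex.norm_exp]
      have e1 : (ζ * (t : ℂ)).re = ζ.re * t := by simp
      rw [e1, ← mul_assoc]
      apply mul_le_mul (h.kb t) _ (Real.exp_pos _).le (mul_nonneg h.M0 (hpos t).le)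
      exact Real.exp_le_exp.mpr (mul_le_mul_of_nonneg_right hζ ht.le)
    have h1 : ‖∫ t in Ioc 0 y, k t * cexp (ζ * (t : ℂ))‖ ≤ M * Real.exp (s * y) * y := by
      have h2 := norm_setIntegral_le_of_norm_le_const (μ := volume) (s := Ioc (0 : ℝ) y)
        (f := fun t : ℝ => k t * cexp (ζ * (t : ℂ))) (C := M * Real.exp (s * y))
        measure_Ioc_lt_top (by
          intro t ht
          refine (hnorm t ht.1).trans ?_
          apply mul_le_mul_of_nonneg_left _ h.M0
          have e2 : wm m t ≤ 1 := by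
            rw [← h0]
            exact hanti ht.1.le
          calc wm m t * Real.exp (s * t) ≤ 1 * Real.exp (s * y) := by
                apply mul_le_mul e2 _ (Real.exp_pos _).le zero_le_one
                exact Real.exp_le_exp.mpr (mul_le_mul_of_nonneg_left ht.2 hs)
            _ = _ := one_mul _)
      have h3 : (volume : Measure ℝ).real (Ioc 0 y) = y := by
        rw [Real.volume_real_Ioc_of_le hy, sub_zero]
      rw [h3] at h2
      exact h2
    have h4 : ‖∫ t in Ioi y, k t * cexp (ζ * (t : ℂ))‖ ≤ M * Real.exp (s * y) := by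
      have hgi : IntegrableOn (fun t : ℝ => M * Real.exp (s * y) * Real.exp y * Real.exp (-t))
          (Ioi y) := (integrableOn_exp_neg_Ioi y).const_mul _
      have h5 := norm_integral_le_of_norm_le (μ := volume.restrict (Ioi y))
        (f := fun t : ℝ => k t * cexp (ζ * (t : ℂ)))
        (g := fun t : ℝ => M * Real.exp (s * y) * Real.exp y * Real.exp (-t)) hgi (by
          rw [ae_restrict_iff' measurableSet_Ioi]
          refine Filter.Eventually.of_forall (fun t ht => ?_)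
          have ht' : y < t := ht
          refine (hnorm t (by linarith)).trans ?_
          have e3 := p5_right h.nw (s := s) hy hsy ht'.le
          calc M * (wm m t * Real.exp (s * t)) ≤ M * (Real.exp (s * y) * Real.exp (-(t - y))) :=
                mul_le_mul_of_nonneg_left e3 h.M0
            _ = M * Real.exp (s * y) * Real.exp y * Real.exp (-t) := by
                have : Real.exp (-(t - y)) = Real.exp y * Real.exp (-t) := by
                  rw [← Real.exp_add]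
                  congr 1
                  ring
                rw [this]
                ring)
      refine h5.trans (le_of_eq ?_)
      rw [integral_const_mul, integral_exp_neg_Ioi]
      rw [mul_assoc, ← Real.exp_add, add_neg_cancel, Real.exp_zero, mul_one]
    rw [hsplit]
    refine (norm_add_le _ _).trans ?_
    calc _ ≤ M * Real.exp (s * y) * y + M * Real.exp (s * y) := add_le_add h1 h4
      _ = M * (1 + y) * Real.exp (s * y) := by ring
  · intro s y hs hy hsy ζ hζ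
    have hfi : Integrable (fun x => Real.exp (s * y) * (‖f x‖ * wm m x)) := h.fi.const_mul _
    have hnn : ∀ x, 0 ≤ Real.exp (s * y) * (‖f x‖ * wm m x) := fun x =>
      mul_nonneg (Real.exp_pos _).le (mul_nonneg (norm_nonneg _) (hpos x).le)
    have h5 := norm_integral_le_of_norm_le (μ := volume.restrict (Iio (0 : ℝ)))
        (f := fun x : ℝ => f x * cexp (-ζ * (x : ℂ)))
        (g := fun x : ℝ => Real.exp (s * y) * (‖f x‖ * wm m x)) hfi.integrableOn (by
          rw [ae_restrict_iff' measurableSet_Iio]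
          refine Filter.Eventually.of_forall (fun x hx => ?_)
          have hx' : x < 0 := hx
          rw [norm_mul, Complex.norm_exp]
          have e1 : (-ζ * (x : ℂ)).re = -(ζ.re * x) := by simp
          rw [e1]
          have e2 : Real.exp (-(ζ.re * x)) ≤ Real.exp (-(s * x)) :=
            Real.exp_le_exp.mpr (by nlinarith)
          have e3 := p5_left h.nw hs hy hsy hx'
          calc ‖f x‖ * Real.exp (-(ζ.re * x)) ≤ ‖f x‖ * (Real.exp (s * y) * wm m x) :=
                mul_le_mul_of_nonneg_left (e2.trans e3) (norm_nonneg _)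
            _ = _ := by ring)
    have h6 : ∫ x in Iio (0 : ℝ), Real.exp (s * y) * (‖f x‖ * wm m x)
        ≤ ∫ x, Real.exp (s * y) * (‖f x‖ * wm m x) :=
      setIntegral_le_integral hfi (Filter.Eventually.of_forall hnn)
    have h7 : ∫ x, Real.exp (s * y) * (‖f x‖ * wm m x)
        = Real.exp (s * y) * ∫ x, ‖f x‖ * wm m x := integral_const_mul _ _
    have h8 : 0 ≤ ∫ x, ‖f x‖ * wm m x :=
      integral_nonneg (fun x => mul_nonneg (norm_nonneg _) (hpos x).le)
    have h9 : ‖FLap f ζ‖ ≤ Real.exp (s * y) * ∫ x, ‖f x‖ * wm m x := by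
      rw [← h7]
      exact h5.trans h6
    refine h9.trans ?_
    have h10 : 0 ≤ Real.exp (s * y) * ∫ x, ‖f x‖ * wm m x := mul_nonneg (Real.exp_pos _).le h8
    nlinarith

end

end Pool.Agent.Helper311.TI.J6791

namespace Pool.Agent.Helper311.TI

alias P5 := J6791.P5

end Pool.Agent.Helper311.TI

namespace Pool.Agent.Helper311.TI.J6792

noncomputable section

open scoped FourierTransform SchwartzMap ContDiff RealInnerProductSpace in
theorem fourier_injective6792 {k : ℝ → ℂ} (hk : Integrable k)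
    (h : ∀ t : ℝ, ∫ x, k x * Complex.exp ((t:ℂ) * (x:ℂ) * Complex.I) = 0) :
    k =ᵐ[volume] 0 := by
  have hF : ∀ ξ : ℝ,
      VectorFourier.fourierIntegral Real.fourierChar volume (innerₗ ℝ) k ξ = 0 := by
    intro ξ
    rw [← h (-2 * Real.pi * ξ)]
    unfold VectorFourier.fourierIntegral
    congr 1
    ext x
    rw [Circle.smul_def, Real.fourierChar_apply, smul_eq_mul, mul_comm]
    congr 2
    have : (innerₗ ℝ) x ξ = x * ξ := by
      rw [innerₗ_apply_apply]
      simp [mul_comm]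
    rw [this]
    push_cast
    ring
  refine ae_eq_zero_of_integral_contDiff_smul_eq_zero hk.locallyIntegrable ?_
  intro g hg hgc
  have hg₁ : HasCompactSupport (Complex.ofRealCLM ∘ g) := hgc.comp_left rfl
  have hg₂ : ContDiff ℝ ∞ (Complex.ofRealCLM ∘ g) := by fun_prop
  let G : 𝓢(ℝ, ℂ) := hg₁.toSchwartzMap hg₂
  have h1 := VectorFourier.integral_fourierIntegral_smul_eq_flip (L := innerₗ ℝ) (f := k)
    (g := ((𝓕⁻ G : 𝓢(ℝ, ℂ)) : ℝ → ℂ)) Real.continuous_fourierChar continuous_inner hk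
    ((𝓕⁻ G : 𝓢(ℝ, ℂ)).integrable (μ := volume))
  simp only [hF, zero_smul, integral_zero] at h1
  have h2 : ∀ x, VectorFourier.fourierIntegral Real.fourierChar volume (innerₗ ℝ).flip
      ((𝓕⁻ G : 𝓢(ℝ, ℂ)) : ℝ → ℂ) x = (g x : ℂ) := by
    intro x
    have h3 : (𝓕 (𝓕⁻ G) : 𝓢(ℝ, ℂ)) = G := FourierTransform.fourier_fourierInv_eq G
    have h4 : (𝓕 (𝓕⁻ G) : 𝓢(ℝ, ℂ)) x = (g x : ℂ) := by rw [h3]; rfl
    rw [← h4, flip_innerₗ]
    rfl
  simp only [h2] at h1
  rw [h1]
  congr 1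
  ext x
  show (g x : ℝ) • k x = k x • (g x : ℂ)
  rw [Complex.real_smul, smul_eq_mul, mul_comm]


lemma lap_vanish6792 (S : Set ℝ) (hS : MeasurableSet S) (f : ℝ → ℂ) (hfm : Measurable f)
    (hfi : IntegrableOn f S) (σ : ℝ) (hσ : ∀ x ∈ S, σ * x < 0) (L : ℂ → ℂ)
    (hL : ∀ ζ, L ζ = ∫ x in S, f x * cexp (ζ * (x : ℂ))) (hLd : Differentiable ℂ L)
    (hLb : ∃ B : ℝ, ∀ ζ, ‖L ζ‖ ≤ B) : ∀ᵐ x : ℝ, x ∈ S → f x = 0 := by
  obtain ⟨B, hB⟩ := hLb
  have hbd : Bornology.IsBounded (range L) := by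
    rw [isBounded_iff_forall_norm_le]
    exact ⟨B, by rintro _ ⟨ζ, rfl⟩; exact hB ζ⟩
  have hconst : ∀ z w, L z = L w := fun z w => hLd.apply_eq_apply_of_bounded hbd z w
  have hlim : Tendsto (fun n : ℕ => L ((n : ℂ) * (σ : ℂ))) atTop (𝓝 0) := by
    have h1 : Tendsto (fun n : ℕ => ∫ x in S, f x * cexp (((n : ℂ) * (σ : ℂ)) * (x : ℂ))) atTop
        (𝓝 (∫ x in S, (0 : ℂ))) := by
      apply tendsto_integral_of_dominated_convergence (fun x => ‖f x‖)
      · intro n
        exact (hfm.mul (by fun_prop)).aestronglyMeasurable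
      · exact hfi.norm
      · intro n
        refine (ae_restrict_iff' hS).2 (Eventually.of_forall fun x hx => ?_)
        rw [norm_mul, Complex.norm_exp]
        have h2 : (((n : ℂ) * (σ : ℂ)) * (x : ℂ)).re = n * (σ * x) := by
          have : ((n : ℂ) * (σ : ℂ)) * (x : ℂ) = ((n * (σ * x) : ℝ) : ℂ) := by
            push_cast; ring
          rw [this, Complex.ofReal_re]
        rw [h2]
        have h3 : Real.exp (n * (σ * x)) ≤ 1 := by
          rw [Real.exp_le_one_iff]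
          exact mul_nonpos_of_nonneg_of_nonpos (Nat.cast_nonneg n) (hσ x hx).le
        exact mul_le_of_le_one_right (norm_nonneg _) h3
      · refine (ae_restrict_iff' hS).2 (Eventually.of_forall fun x hx => ?_)
        rw [tendsto_zero_iff_norm_tendsto_zero]
        have h2 : ∀ n : ℕ, ‖f x * cexp (((n : ℂ) * (σ : ℂ)) * (x : ℂ))‖ =
            ‖f x‖ * (Real.exp (σ * x)) ^ n := by
          intro n
          rw [norm_mul, Complex.norm_exp, ← Real.exp_nat_mul]
          congr 2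
          have : ((n : ℂ) * (σ : ℂ)) * (x : ℂ) = ((n * (σ * x) : ℝ) : ℂ) := by
            push_cast; ring
          rw [this, Complex.ofReal_re]
        simp only [h2]
        have h3 : Real.exp (σ * x) < 1 := by
          rw [Real.exp_lt_one_iff]
          exact hσ x hx
        have h4 := (tendsto_pow_atTop_nhds_zero_of_lt_one (Real.exp_pos _).le h3).const_mul ‖f x‖
        rwa [mul_zero] at h4
    rw [integral_zero] at h1
    simp only [hL]
    exact h1
  have hL0 : ∀ ζ, L ζ = 0 := by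
    intro ζ
    have h1 : Tendsto (fun n : ℕ => L ((n : ℂ) * (σ : ℂ))) atTop (𝓝 (L ζ)) := by
      refine tendsto_const_nhds.congr fun n => ?_
      exact hconst _ _
    exact tendsto_nhds_unique h1 hlim
  have hk : Integrable (S.indicator f) := (integrable_indicator_iff hS).2 hfi
  have hz := fourier_injective6792 hk (fun t => by
    have h1 := hL0 ((t : ℂ) * I)
    rw [hL, ← integral_indicator hS] at h1
    rw [← h1]
    congr 1
    funext x
    by_cases hx : x ∈ S
    · rw [indicator_of_mem hx, indicator_of_mem hx]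
      congr 2
      ring
    · rw [indicator_of_notMem hx, indicator_of_notMem hx, zero_mul])
  filter_upwards [hz] with x hx hxS
  rw [indicator_of_mem hxS] at hx
  exact hx

lemma unbounded {m : ℝ → ℝ} {f k : ℝ → ℂ} {M : ℝ} (h : Dat m f k M) :
    ((∃ B : ℝ, ∀ ζ : ℂ, ‖FLap f ζ‖ ≤ B) → ∀ᵐ x : ℝ, x < 0 → f x = 0) ∧
    ((∃ B : ℝ, ∀ ζ : ℂ, ‖GLap k ζ‖ ≤ B) → ∀ᵐ x : ℝ, 0 < x → k x = 0) := by
  obtain ⟨i1, i2, -, -, d1, d2, -, -⟩ := laplace_entire h
  constructor
  · rintro ⟨B, hB⟩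
    have hfi : IntegrableOn f (Iio 0) := by
      have := i1 0
      simpa using this
    have hd : Differentiable ℂ (fun ζ => FLap f (-ζ)) := d1.comp differentiable_neg
    exact lap_vanish6792 (Iio 0) measurableSet_Iio f h.fm hfi 1
      (fun x hx => by rw [one_mul]; exact hx) (fun ζ => FLap f (-ζ))
      (fun ζ => by unfold FLap; simp only [neg_neg]) hd ⟨B, fun ζ => hB _⟩
  · rintro ⟨B, hB⟩
    have hki : IntegrableOn k (Ioi 0) := by
      have := i2 0
      simpa using this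
    exact lap_vanish6792 (Ioi 0) measurableSet_Ioi k h.km hki (-1)
      (fun x hx => by
        have : 0 < x := hx
        linarith) (fun ζ => GLap k ζ)
      (fun ζ => rfl) d2 ⟨B, fun ζ => hB _⟩

end

end Pool.Agent.Helper311.TI.J6792

namespace Pool.Agent.Helper311.TI

alias unbounded := J6792.unbounded

end Pool.Agent.Helper311.TI
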