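import Mathlib
import Pool.Agent.Helper311.TI.Defs
import Pool.Agent.Helper311.TI.Weight
import Pool.Agent.Helper311.TI.Trans
import Pool.Agent.Helper311.TI.Abs

set_option autoImplicit false

open MeasureTheory Filter Topology Complex Set

namespace Pool.Agent.Helper311.TI.J6790

noncomputable section

lemma key_bound {m : ℝ → ℝ} {f k : ℝ → ℂ} {M : ℝ} (h : Dat m f k M) (C : ℝ)
    (hC1 : ∫ x, ‖f x‖ * wm m x ≤ C) (hC2 : 8 * Real.pi * M * (1 + ∫ x, ‖f x‖ * wm m x) ≤ C)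
    (hC0 : 0 ≤ C)
    (σ₁ σ₂ ρ τ₀ : ℝ) (h0 : m 0 ≤ σ₁) (h12 : σ₁ ≤ σ₂) (hρ : 0 < ρ) :
    ∫⁻ σ in Ioo σ₁ σ₂, ∫⁻ τ : ℝ,
      (ENNReal.ofReal (‖FS m f σ ((σ : ℂ) + (τ : ℂ) * I) - FLap f ((σ : ℂ) + (τ : ℂ) * I)‖ - C) +
        ENNReal.ofReal (‖GS m k σ ((σ : ℂ) + (τ : ℂ) * I) - GLap k ((σ : ℂ) + (τ : ℂ) * I)‖ - C) +
        ‖FS m f σ ((σ : ℂ) + (τ : ℂ) * I) * GS m k σ ((σ : ℂ) + (τ : ℂ) * I)‖ₑ) *
      ENNReal.ofReal (ρ / (ρ ^ 2 + (τ - τ₀) ^ 2)) ≤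
    ENNReal.ofReal (C * √((σ₂ - σ₁) / ρ)) := by
  obtain ⟨Nf, hNf⟩ : ∃ Nf : ℝ, Nf = ∫ x, ‖f x‖ * wm m x := ⟨_, rfl⟩
  rw [← hNf] at hC1 hC2
  have hwm0 : ∀ x, 0 ≤ wm m x := fun x => (Real.exp_pos _).le
  have hNf0 : 0 ≤ Nf := by
    rw [hNf]; exact integral_nonneg (fun x => mul_nonneg (norm_nonneg _) (hwm0 x))
  obtain ⟨-, -, -, -, hF, hG, -⟩ := FG_bounds h
  have hM := h.M0
  let E : ℝ → ℝ → ℝ → ENNReal := fun σ x τ => ‖KR m k σ x ((σ : ℂ) + (τ : ℂ) * I)‖ₑ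
  let P : ℝ → ENNReal := fun τ => ENNReal.ofReal (ρ / (ρ ^ 2 + (τ - τ₀) ^ 2))
  have hPm : Measurable P := by
    refine ENNReal.measurable_ofReal.comp ?_
    fun_prop
  have hEm : Measurable (fun q : ℝ × ℝ × ℝ => E q.1 q.2.1 q.2.2) := (KR_meas h.nw.meas h.km).enorm
  obtain ⟨Q, hQ⟩ : ∃ Q : ℝ, Q = 8 * Real.pi * M * √((σ₂ - σ₁) / ρ) := ⟨_, rfl⟩
  have hQ0 : 0 ≤ Q := by rw [hQ]; positivity
  have hJ : ∀ x, ∫⁻ σ in Ioo σ₁ σ₂, ∫⁻ τ, E σ x τ * P τ ≤ ENNReal.ofReal (Q * wm m x) := by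
    intro x
    calc ∫⁻ σ in Ioo σ₁ σ₂, ∫⁻ τ, E σ x τ * P τ
        ≤ ∫⁻ σ in Ioo σ₁ σ₂, ENNReal.ofReal (2 * Real.pi / √ρ * (M * wm m x)) * NN m σ x ^ (1 / 2 : ℝ) :=
          lintegral_mono (fun σ => KR_line h.nw h.km hM h.kb σ x ρ τ₀ hρ)
      _ = ENNReal.ofReal (2 * Real.pi / √ρ * (M * wm m x)) *
            ∫⁻ σ in Ioo σ₁ σ₂, NN m σ x ^ (1 / 2 : ℝ) :=
          lintegral_const_mul' _ _ ENNReal.ofReal_ne_top
      _ ≤ ENNReal.ofReal (2 * Real.pi / √ρ * (M * wm m x)) * ENNReal.ofReal (4 * √(σ₂ - σ₁)) := by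
          gcongr
          exact NN_int h.nw x σ₁ σ₂ h12
      _ = ENNReal.ofReal (Q * wm m x) := by
          rw [← ENNReal.ofReal_mul (by have := hwm0 x; positivity)]
          congr 1
          rw [hQ, Real.sqrt_div (by linarith)]
          ring
  have hFm : Measurable (fun q : ℝ × ℝ × ℝ => ‖f q.2.2‖ₑ * (E q.1 q.2.2 q.2.1 * P q.2.1)) := by
    have h1 : Measurable (fun q : ℝ × ℝ × ℝ => E q.1 q.2.2 q.2.1) :=
      hEm.comp (by fun_prop : Measurable (fun q : ℝ × ℝ × ℝ => (q.1, q.2.2, q.2.1)))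
    have h2 : Measurable (fun q : ℝ × ℝ × ℝ => ‖f q.2.2‖ₑ) :=
      (h.fm.comp (by fun_prop : Measurable (fun q : ℝ × ℝ × ℝ => q.2.2))).enorm
    have h3 : Measurable (fun q : ℝ × ℝ × ℝ => P q.2.1) := hPm.comp (by fun_prop)
    exact h2.mul (h1.mul h3)
  have hpt : ∀ σ ∈ Ioo σ₁ σ₂, ∀ τ : ℝ,
      (ENNReal.ofReal (‖FS m f σ ((σ : ℂ) + (τ : ℂ) * I) - FLap f ((σ : ℂ) + (τ : ℂ) * I)‖ - C) +
        ENNReal.ofReal (‖GS m k σ ((σ : ℂ) + (τ : ℂ) * I) - GLap k ((σ : ℂ) + (τ : ℂ) * I)‖ - C) +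
        ‖FS m f σ ((σ : ℂ) + (τ : ℂ) * I) * GS m k σ ((σ : ℂ) + (τ : ℂ) * I)‖ₑ) *
      ENNReal.ofReal (ρ / (ρ ^ 2 + (τ - τ₀) ^ 2)) ≤
      E σ 0 τ * P τ + ∫⁻ x, ‖f x‖ₑ * (E σ x τ * P τ) := by
    intro σ hσ τ
    have hre : ((σ : ℂ) + (τ : ℂ) * I).re = σ := by simp
    have h1 : ENNReal.ofReal (‖FS m f σ ((σ : ℂ) + (τ : ℂ) * I) - FLap f ((σ : ℂ) + (τ : ℂ) * I)‖ - C) = 0 := by
      rw [ENNReal.ofReal_eq_zero]
      have := hF σ ((σ : ℂ) + (τ : ℂ) * I) (by rw [hre])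
      rw [← hNf] at this
      linarith
    have h2 : ENNReal.ofReal (‖GS m k σ ((σ : ℂ) + (τ : ℂ) * I) - GLap k ((σ : ℂ) + (τ : ℂ) * I)‖ - C) ≤
        E σ 0 τ := by
      rw [hG σ ((σ : ℂ) + (τ : ℂ) * I) (h0.trans hσ.1.le)]
      show _ ≤ ‖KR m k σ 0 ((σ : ℂ) + (τ : ℂ) * I)‖ₑ
      rw [← ofReal_norm]
      exact ENNReal.ofReal_le_ofReal (by linarith)
    have h3 := prod_formula h σ ((σ : ℂ) + (τ : ℂ) * I)
    have h4 : (∫⁻ x, ‖f x‖ₑ * ‖KR m k σ x ((σ : ℂ) + (τ : ℂ) * I)‖ₑ) * P τ =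
        ∫⁻ x, ‖f x‖ₑ * (E σ x τ * P τ) := by
      rw [← lintegral_mul_const' _ _ ENNReal.ofReal_ne_top]
      refine lintegral_congr (fun x => ?_)
      show _ * _ * P τ = _
      rw [mul_assoc]
    rw [h1, zero_add, add_mul]
    refine add_le_add ?_ ?_
    · exact mul_le_mul_left h2 _
    · rw [← h4]
      exact mul_le_mul_left h3 _
  have hA : ∫⁻ σ in Ioo σ₁ σ₂, ∫⁻ τ : ℝ, (E σ 0 τ * P τ + ∫⁻ x, ‖f x‖ₑ * (E σ x τ * P τ)) =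
      (∫⁻ σ in Ioo σ₁ σ₂, ∫⁻ τ : ℝ, E σ 0 τ * P τ) +
        ∫⁻ σ in Ioo σ₁ σ₂, ∫⁻ τ : ℝ, ∫⁻ x, ‖f x‖ₑ * (E σ x τ * P τ) := by
    have hm2 : Measurable (fun q : ℝ × ℝ => E q.1 0 q.2 * P q.2) := by
      have h1 : Measurable (fun q : ℝ × ℝ => E q.1 0 q.2) :=
        hEm.comp (by fun_prop : Measurable (fun q : ℝ × ℝ => (q.1, (0 : ℝ), q.2)))
      exact h1.mul (hPm.comp measurable_snd)
    have e1 : ∀ σ : ℝ, ∫⁻ τ : ℝ, (E σ 0 τ * P τ + ∫⁻ x, ‖f x‖ₑ * (E σ x τ * P τ)) =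
        (∫⁻ τ : ℝ, E σ 0 τ * P τ) + ∫⁻ τ : ℝ, ∫⁻ x, ‖f x‖ₑ * (E σ x τ * P τ) := fun σ =>
      lintegral_add_left (hm2.comp (by fun_prop : Measurable (fun τ : ℝ => (σ, τ)))) _
    simp_rw [e1]
    exact lintegral_add_left hm2.lintegral_prod_right' _
  have hB : ∫⁻ σ in Ioo σ₁ σ₂, ∫⁻ τ : ℝ, ∫⁻ x, ‖f x‖ₑ * (E σ x τ * P τ) =
      ∫⁻ x, ‖f x‖ₑ * ∫⁻ σ in Ioo σ₁ σ₂, ∫⁻ τ : ℝ, E σ x τ * P τ := by
    have e1 : ∀ σ : ℝ, ∫⁻ τ : ℝ, ∫⁻ x, ‖f x‖ₑ * (E σ x τ * P τ) =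
        ∫⁻ x, ∫⁻ τ : ℝ, ‖f x‖ₑ * (E σ x τ * P τ) := fun σ => by
      refine lintegral_lintegral_swap (f := fun τ x => ‖f x‖ₑ * (E σ x τ * P τ)) ?_
      exact (hFm.comp (by fun_prop : Measurable (fun q : ℝ × ℝ => (σ, q.1, q.2)))).aemeasurable
    simp_rw [e1]
    have e2 : ∫⁻ σ in Ioo σ₁ σ₂, ∫⁻ x, ∫⁻ τ : ℝ, ‖f x‖ₑ * (E σ x τ * P τ) =
        ∫⁻ x, ∫⁻ σ in Ioo σ₁ σ₂, ∫⁻ τ : ℝ, ‖f x‖ₑ * (E σ x τ * P τ) := by
      refine lintegral_lintegral_swap (f := fun σ x => ∫⁻ τ : ℝ, ‖f x‖ₑ * (E σ x τ * P τ)) ?_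
      have hm3 : Measurable (fun q : (ℝ × ℝ) × ℝ => ‖f q.1.2‖ₑ * (E q.1.1 q.1.2 q.2 * P q.2)) :=
        hFm.comp (by fun_prop : Measurable (fun q : (ℝ × ℝ) × ℝ => (q.1.1, q.2, q.1.2)))
      exact hm3.lintegral_prod_right'.aemeasurable
    rw [e2]
    refine lintegral_congr (fun x => ?_)
    have e3 : ∀ σ : ℝ, ∫⁻ τ : ℝ, ‖f x‖ₑ * (E σ x τ * P τ) = ‖f x‖ₑ * ∫⁻ τ : ℝ, E σ x τ * P τ := fun σ =>
      lintegral_const_mul' _ _ enorm_ne_top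
    simp_rw [e3]
    exact lintegral_const_mul' _ _ enorm_ne_top
  have hwm00 : wm m 0 = 1 := by simp [wm]
  calc _ ≤ ∫⁻ σ in Ioo σ₁ σ₂, ∫⁻ τ : ℝ, (E σ 0 τ * P τ + ∫⁻ x, ‖f x‖ₑ * (E σ x τ * P τ)) :=
        setLIntegral_mono' measurableSet_Ioo (fun σ hσ => lintegral_mono (fun τ => hpt σ hσ τ))
    _ = (∫⁻ σ in Ioo σ₁ σ₂, ∫⁻ τ : ℝ, E σ 0 τ * P τ) +
        ∫⁻ x, ‖f x‖ₑ * ∫⁻ σ in Ioo σ₁ σ₂, ∫⁻ τ : ℝ, E σ x τ * P τ := by rw [hA, hB]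
    _ ≤ ENNReal.ofReal (Q * wm m 0) + ∫⁻ x, ‖f x‖ₑ * ENNReal.ofReal (Q * wm m x) :=
        add_le_add (hJ 0) (lintegral_mono (fun x => mul_le_mul_right (hJ x) _))
    _ = ENNReal.ofReal Q + ENNReal.ofReal (Q * Nf) := by
        rw [hwm00, mul_one]
        congr 1
        have e1 : ∀ x, ‖f x‖ₑ * ENNReal.ofReal (Q * wm m x) =
            ENNReal.ofReal (Q * (‖f x‖ * wm m x)) := fun x => by
          rw [← ofReal_norm, ← ENNReal.ofReal_mul (norm_nonneg _)]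
          congr 1; ring
        simp_rw [e1]
        rw [← ofReal_integral_eq_lintegral_ofReal (h.fi.const_mul Q)
          (Filter.Eventually.of_forall (fun x => mul_nonneg hQ0 (mul_nonneg (norm_nonneg _) (hwm0 x)))),
          integral_const_mul, ← hNf]
    _ = ENNReal.ofReal (Q + Q * Nf) := by rw [ENNReal.ofReal_add hQ0 (by positivity)]
    _ ≤ ENNReal.ofReal (C * √((σ₂ - σ₁) / ρ)) := by
        refine ENNReal.ofReal_le_ofReal ?_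
        have e1 : Q + Q * Nf = 8 * Real.pi * M * (1 + Nf) * √((σ₂ - σ₁) / ρ) := by rw [hQ]; ring
        rw [e1]
        exact mul_le_mul_of_nonneg_right hC2 (Real.sqrt_nonneg _)

end

end Pool.Agent.Helper311.TI.J6790

namespace Pool.Agent.Helper311.TI

alias key_bound := J6790.key_bound

end Pool.Agent.Helper311.TI

namespace Pool.Agent.Helper311.TI.J6793

noncomputable section

lemma build_pair {m : ℝ → ℝ} {f k : ℝ → ℂ} {M : ℝ} (h : Dat m f k M) :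
    ∃ σ₀ C₀ : ℝ, Pair (FLap f) (GLap k) (FS m f) (GS m k) σ₀ C₀ ∧
      Pair (GLap k) (FLap f) (GS m k) (FS m f) σ₀ C₀ ∧
      (∀ s y : ℝ, 0 ≤ s → 0 ≤ y → s + 1 ≤ m y → ∀ ζ : ℂ, ζ.re ≤ s →
        ‖GLap k ζ‖ ≤ C₀ * (1 + y) * Real.exp (s * y)) ∧
      (∀ s y : ℝ, 0 ≤ s → 0 ≤ y → s + 1 ≤ m (-y) → ∀ ζ : ℂ, ζ.re ≤ s →
        ‖FLap f ζ‖ ≤ C₀ * (1 + y) * Real.exp (s * y)) := by
  obtain ⟨hpos, -, -, -, -, hwpos, -, -, -⟩ := wm_props h.nw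
  obtain ⟨hms1, hms2⟩ := FS_meas (f := f) h.nw.meas h.fm
  obtain ⟨-, hms3⟩ := FS_meas (f := k) h.nw.meas h.km
  obtain ⟨-, -, -, -, hFd, hGd, hFSd, hGSd⟩ := laplace_entire h
  obtain ⟨hb1, hb2, hb3, hb4, hb5, -, hb7⟩ := FG_bounds h
  obtain ⟨hP1, hP2⟩ := P5 h
  obtain ⟨Nf, hNf⟩ : ∃ Nf, Nf = ∫ x, ‖f x‖ * wm m x := ⟨_, rfl⟩
  obtain ⟨Iw, hIw⟩ : ∃ Iw, Iw = ∫ t in Ioi (0 : ℝ), wm m t := ⟨_, rfl⟩
  have hNf0 : 0 ≤ Nf := by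
    rw [hNf]
    exact integral_nonneg (fun x => mul_nonneg (norm_nonneg _) (hwpos x).le)
  have hIw0 : 0 ≤ Iw := by
    rw [hIw]
    exact integral_nonneg (fun x => (hwpos x).le)
  have hM0 := h.M0
  obtain ⟨C₀, hC₀⟩ : ∃ C₀, C₀ = 1 + Nf + M * Iw + 8 * Real.pi * M * (1 + Nf) + M := ⟨_, rfl⟩
  have hMI : 0 ≤ M * Iw := mul_nonneg hM0 hIw0
  have hPM : 0 ≤ 8 * Real.pi * M * (1 + Nf) := by positivity
  have c1 : 1 ≤ C₀ := by rw [hC₀]; linarith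
  have c2 : Nf ≤ C₀ := by rw [hC₀]; linarith
  have c3 : M * Iw ≤ C₀ := by rw [hC₀]; linarith
  have c4 : 8 * Real.pi * M * (1 + Nf) ≤ C₀ := by rw [hC₀]; linarith
  have c5 : M ≤ C₀ := by rw [hC₀]; linarith
  have c0 : 0 ≤ C₀ := by linarith
  rw [← hNf] at hb1 hb5 hP2
  rw [← hIw] at hb2
  have hkey := key_bound h C₀ (by rw [← hNf]; exact c2) (by rw [← hNf]; exact c4) c0
  have hF_sub : ∀ σ : ℝ, max 1 (m 0) ≤ σ → ∀ ζ : ℂ, σ < ζ.re →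
      ‖FS m f σ ζ - FLap f ζ‖ ≤ C₀ * (1 + 1 / (ζ.re - σ)) := by
    intro σ _ ζ hζ
    have e1 := hb5 σ ζ hζ.le
    have e2 : 0 ≤ 1 / (ζ.re - σ) := by
      have : 0 < ζ.re - σ := by linarith
      positivity
    nlinarith
  have hG_sub : ∀ σ : ℝ, max 1 (m 0) ≤ σ → ∀ ζ : ℂ, σ < ζ.re →
      ‖GS m k σ ζ - GLap k ζ‖ ≤ C₀ * (1 + 1 / (ζ.re - σ)) := by
    intro σ hσ ζ hζ
    have e1 := hb7 σ ζ ((le_max_right _ _).trans hσ) hζ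
    have e2 : 0 ≤ 1 / (ζ.re - σ) := by
      have : 0 < ζ.re - σ := by linarith
      positivity
    nlinarith
  refine ⟨max 1 (m 0), C₀, ?_, ?_, ?_, ?_⟩
  · exact
      { hσ := le_max_left _ _
        hC := c1
        F_diff := hFd
        G_diff := hGd
        F_le := fun ζ hζ => (hb1 ζ hζ).trans c2
        G_le := fun ζ hζ => (hb2 ζ hζ).trans c3
        F_bd := hb3
        G_bd := hb4
        Fs_diff := fun σ _ => hFSd σ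
        Gs_diff := fun σ _ => hGSd σ
        Fs_sub := hF_sub
        Gs_sub := hG_sub
        Fs_meas := hms1
        Gs_meas := hms3
        key := fun σ₁ σ₂ ρ τ₀ h1 h2 h3 =>
          hkey σ₁ σ₂ ρ τ₀ ((le_max_right _ _).trans h1) h2 h3 }
  · exact
      { hσ := le_max_left _ _
        hC := c1
        F_diff := hGd
        G_diff := hFd
        F_le := fun ζ hζ => (hb2 ζ hζ).trans c3
        G_le := fun ζ hζ => (hb1 ζ hζ).trans c2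
        F_bd := hb4
        G_bd := hb3
        Fs_diff := fun σ _ => hGSd σ
        Gs_diff := fun σ _ => hFSd σ
        Fs_sub := hG_sub
        Gs_sub := hF_sub
        Fs_meas := hms3
        Gs_meas := hms1
        key := fun σ₁ σ₂ ρ τ₀ h1 h2 h3 => by
          refine le_trans (le_of_eq ?_) (hkey σ₁ σ₂ ρ τ₀ ((le_max_right _ _).trans h1) h2 h3)
          refine lintegral_congr (fun σ => ?_)
          refine lintegral_congr (fun τ => ?_)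
          rw [mul_comm (GS m k σ ((σ : ℂ) + (τ : ℂ) * I)),
            add_comm (ENNReal.ofReal (‖GS m k σ ((σ : ℂ) + (τ : ℂ) * I)
              - GLap k ((σ : ℂ) + (τ : ℂ) * I)‖ - C₀))] }
  · intro s y hs hy hm ζ hζ
    refine (hP1 s y hs hy hm ζ hζ).trans ?_
    gcongr
  · intro s y hs hy hm ζ hζ
    refine (hP2 s y hs hy hm ζ hζ).trans ?_
    gcongr

end

end Pool.Agent.Helper311.TI.J6793

namespace Pool.Agent.Helper311.TI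

alias build_pair := J6793.build_pair

end Pool.Agent.Helper311.TI

namespace Pool.Agent.Helper311.TI.J6794

noncomputable section

theorem core0 {m : ℝ → ℝ} {f k : ℝ → ℂ} {M : ℝ} (h : Dat m f k M)
    (hdiv : ∫⁻ x in Ioi (1 : ℝ), ENNReal.ofReal (m x / x ^ 2) = ⊤ ∨
      ∫⁻ x in Ioi (1 : ℝ), ENNReal.ofReal (m (-x) / x ^ 2) = ⊤) :
    (∀ᵐ x : ℝ, x < 0 → f x = 0) ∨ (∀ᵐ x : ℝ, 0 < x → k x = 0) := by
  by_contra hcon
  rw [not_or] at hcon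
  obtain ⟨hu1, hu2⟩ := unbounded h
  have hF : ¬ ∃ B : ℝ, ∀ ζ : ℂ, ‖FLap f ζ‖ ≤ B := fun hB => hcon.1 (hu1 hB)
  have hG : ¬ ∃ B : ℝ, ∀ ζ : ℂ, ‖GLap k ζ‖ ≤ B := fun hB => hcon.2 (hu2 hB)
  obtain ⟨hm0, -⟩ := wm_props h.nw
  obtain ⟨σ₀, C₀, hP1, hP2, h1, h2⟩ := build_pair h
  have hA := theoremY hP1 m h.nw.mono (fun x _ => hm0 x) h1 hF hG
  have hB := theoremY hP2 (fun x => m (-x))
    (by
      intro a ha b hb hab
      have ha' : -a ∈ Iic (0 : ℝ) := by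
        have := ha
        simp only [mem_Ici] at this
        simp only [mem_Iic]
        linarith
      have hb' : -b ∈ Iic (0 : ℝ) := by
        have := hb
        simp only [mem_Ici] at this
        simp only [mem_Iic]
        linarith
      exact h.nw.anti hb' ha' (by linarith))
    (fun x _ => hm0 (-x)) h2 hG hF
  rcases hdiv with hd | hd
  · rw [hd] at hA
    exact lt_irrefl _ hA
  · rw [hd] at hB
    exact lt_irrefl _ hB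

end

end Pool.Agent.Helper311.TI.J6794

namespace Pool.Agent.Helper311.TI

alias core0 := J6794.core0

end Pool.Agent.Helper311.TI
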