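import Mathlib
import Pool.Agent.Helper311.TI.Defs
import Pool.Agent.Helper311.TI.Weight

set_option autoImplicit false

open MeasureTheory Filter Topology Complex Set

namespace Pool.Agent.Helper311.TI.J6795

noncomputable section

/-- one sided facts for a convex function -/
lemma nf_one (g : ℝ → ℝ) (b : ℝ) (hg : ConvexOn ℝ (Ici b) g) (hc : Continuous g)
    (ht : Tendsto (fun x => g x / x) atTop atTop) :
    ∃ K0 : ℝ, ∀ K : ℝ, K0 ≤ K →
      (∀ x, K ≤ x → 0 ≤ derivWithin g (Ioi x) x) ∧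
      (MonotoneOn (fun x => derivWithin g (Ioi x) x) (Ici K)) ∧
      (Tendsto (fun x => derivWithin g (Ioi x) x) atTop atTop) ∧
      (∀ x, K ≤ x → ∫ t in K..x, derivWithin g (Ioi t) t = g x - g K) ∧
      (∫⁻ x in Ici b, ENNReal.ofReal (deriv g x / (1 + x ^ 2)) = ⊤ →
        ∫⁻ x in Ioi K, ENNReal.ofReal (derivWithin g (Ioi x) x / x ^ 2) = ⊤) := by
  have hmono : MonotoneOn (fun x => derivWithin g (Ioi x) x) (Ioi b) := by
    have := hg.monotoneOn_rightDeriv
    rwa [interior_Ici] at this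
  have hlow : ∀ x, b + 1 < x → (g x - g (b + 1)) / (x - (b + 1)) ≤ derivWithin g (Ioi x) x := by
    intro x hx
    have hxi : x ∈ interior (Ici b) := by
      rw [interior_Ici]; exact lt_trans (by linarith : b < b + 1) hx
    have h1 := hg.slope_le_leftDeriv_of_mem_interior (x := b + 1) (y := x) (by
      show b ≤ b + 1
      linarith) hxi hx
    have h2 := hg.leftDeriv_le_rightDeriv_of_mem_interior hxi
    rw [slope_def_field] at h1
    exact h1.trans h2
  have htop : Tendsto (fun x => derivWithin g (Ioi x) x) atTop atTop := by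
    rw [tendsto_atTop]
    intro M
    have e1 := (tendsto_atTop.mp ht) (2 * |M| + |g (b + 1)|)
    filter_upwards [e1, eventually_gt_atTop (b + 1), eventually_ge_atTop (|b + 1|), eventually_ge_atTop (1 : ℝ)]
      with x h1 h2 h3 h4
    refine le_trans ?_ (hlow x h2)
    have hx0 : 0 < x := by linarith
    rw [le_div_iff₀ hx0] at h1
    have hpos : 0 < x - (b + 1) := by linarith
    rw [le_div_iff₀ hpos]
    have h5 := neg_abs_le (b + 1)
    have h6 : x - (b + 1) ≤ 2 * x := by linarith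
    have h7 := le_abs_self (g (b + 1))
    have h8 : M * (x - (b + 1)) ≤ |M| * (2 * x) := by
      calc M * (x - (b + 1)) ≤ |M| * (x - (b + 1)) := mul_le_mul_of_nonneg_right (le_abs_self M) hpos.le
        _ ≤ |M| * (2 * x) := mul_le_mul_of_nonneg_left h6 (abs_nonneg M)
    have h9 : |g (b + 1)| * 1 ≤ |g (b + 1)| * x := mul_le_mul_of_nonneg_left h4 (abs_nonneg _)
    nlinarith
  obtain ⟨K1, hK1⟩ := eventually_atTop.mp ((tendsto_atTop.mp htop) 0)
  refine ⟨max K1 (max (b + 1) 1), ?_⟩
  intro K hK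
  have hKK1 : K1 ≤ K := (le_max_left _ _).trans hK
  have hKb : b + 1 ≤ K := ((le_max_left _ _).trans (le_max_right _ _)).trans hK
  have hK1' : 1 ≤ K := ((le_max_right _ _).trans (le_max_right _ _)).trans hK
  refine ⟨fun x hx => hK1 x (hKK1.trans hx), ?_, htop, ?_, ?_⟩
  · apply hmono.mono
    intro x hx
    have : K ≤ x := hx
    show b < x
    linarith
  · intro x hx
    apply intervalIntegral.integral_eq_sub_of_hasDeriv_right_of_le hx hc.continuousOn
    · intro y hy
      apply hg.hasDerivWithinAt_rightDeriv_of_mem_interior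
      rw [interior_Ici]
      show b < y
      linarith [hy.1]
    · apply MonotoneOn.intervalIntegrable
      apply hmono.mono
      intro y hy
      rw [uIcc_of_le hx] at hy
      show b < y
      linarith [hy.1]
  · intro hdiv
    have hd : ∀ x, b < x → deriv g x = derivWithin g (Ioi x) x ∨ deriv g x = 0 := by
      intro x _
      by_cases h : DifferentiableAt ℝ g x
      · left
        exact (h.hasDerivAt.hasDerivWithinAt.derivWithin (uniqueDiffWithinAt_Ioi x)).symm
      · right
        exact deriv_zero_of_not_differentiableAt h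
    have e1 : ∫⁻ x in Ici b, ENNReal.ofReal (deriv g x / (1 + x ^ 2)) =
        ∫⁻ x in Ioi b, ENNReal.ofReal (deriv g x / (1 + x ^ 2)) := setLIntegral_congr Ioi_ae_eq_Ici.symm
    have e2 : Ioi b = Ioc b K ∪ Ioi K := (Ioc_union_Ioi_eq_Ioi (by linarith)).symm
    rw [e1, e2] at hdiv
    have h1 := lintegral_union_le (μ := volume) (fun x => ENNReal.ofReal (deriv g x / (1 + x ^ 2))) (Ioc b K) (Ioi K)
    rw [hdiv, top_le_iff] at h1
    have h2 : ∫⁻ x in Ioc b K, ENNReal.ofReal (deriv g x / (1 + x ^ 2)) ≤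
        ∫⁻ x in Ioc b K, ENNReal.ofReal (derivWithin g (Ioi K) K) := by
      apply setLIntegral_mono' measurableSet_Ioc
      intro x hx
      apply ENNReal.ofReal_le_ofReal
      have hpos : 0 < 1 + x ^ 2 := by positivity
      rw [div_le_iff₀ hpos]
      have hq0 : 0 ≤ derivWithin g (Ioi K) K := hK1 K hKK1
      have hle : deriv g x ≤ derivWithin g (Ioi K) K := by
        rcases hd x hx.1 with h | h
        · rw [h]
          exact hmono hx.1 (show b < K by linarith) hx.2
        · rw [h]; exact hq0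
      nlinarith [sq_nonneg x]
    have h3 : ∫⁻ x in Ioc b K, ENNReal.ofReal (deriv g x / (1 + x ^ 2)) < ⊤ := by
      refine lt_of_le_of_lt h2 ?_
      rw [setLIntegral_const, Real.volume_Ioc]
      exact ENNReal.mul_lt_top ENNReal.ofReal_lt_top ENNReal.ofReal_lt_top
    have h4 : ∫⁻ x in Ioi K, ENNReal.ofReal (deriv g x / (1 + x ^ 2)) = ⊤ := by
      rcases ENNReal.add_eq_top.mp h1 with h | h
      · exact absurd h h3.ne
      · exact h
    rw [← top_le_iff, ← h4]
    apply setLIntegral_mono' measurableSet_Ioi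
    intro x hx
    apply ENNReal.ofReal_le_ofReal
    have hxK : K < x := hx
    have hx0 : 0 < x := by linarith
    have hq0 : 0 ≤ derivWithin g (Ioi x) x := hK1 x (by linarith)
    rcases hd x (by linarith) with h | h
    · rw [h]
      apply div_le_div_of_nonneg_left hq0 (by positivity)
      linarith
    · rw [h, zero_div]
      positivity

lemma nf_meas {m : ℝ → ℝ} (h1 : MonotoneOn m (Ici 0)) (h2 : AntitoneOn m (Iic 0)) : Measurable m := by
  have e : m = fun x => if (0 : ℝ) ≤ x then m (max x 0) else m (min x 0) := by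
    funext x
    split_ifs with h
    · rw [max_eq_left h]
    · push Not at h
      rw [min_eq_left h.le]
  rw [e]
  apply Measurable.ite measurableSet_Ici
  · apply Monotone.measurable
    intro x y hxy
    exact h1 (show (0 : ℝ) ≤ max x 0 from le_max_right _ _) (show (0 : ℝ) ≤ max y 0 from le_max_right _ _)
      (max_le_max_right 0 hxy)
  · apply Antitone.measurable
    intro x y hxy
    exact h2 (show min x 0 ≤ (0 : ℝ) from min_le_right _ _) (show min y 0 ≤ (0 : ℝ) from min_le_right _ _)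
      (min_le_min_right 0 hxy)

lemma nf_neg (F : ℝ → ENNReal) (c : ℝ) : ∫⁻ x in Iic c, F x = ∫⁻ x in Ici (-c), F (-x) := by
  rw [← lintegral_indicator measurableSet_Iic, ← lintegral_indicator measurableSet_Ici]
  rw [← lintegral_neg_eq_self]
  apply lintegral_congr
  intro x
  by_cases h : -c ≤ x
  · have h1 : x ∈ Ici (-c) := h
    have h2 : -x ∈ Iic c := by show -x ≤ c; linarith
    simp only [indicator_of_mem h1, indicator_of_mem h2]
  · have h1 : x ∉ Ici (-c) := h
    have h2 : -x ∉ Iic c := by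
      intro h3
      have h4 : -x ≤ c := h3
      exact h (by linarith)
    simp only [indicator_of_notMem h1, indicator_of_notMem h2]

lemma nice_of_frozen (w : ℝ → ℝ) (hw : FrozenW w) :
    ∃ (m : ℝ → ℝ) (c C : ℝ), NW m ∧ 0 < c ∧ 0 < C ∧
      (∀ x, c * wm m x ≤ w x ∧ w x ≤ C * wm m x) ∧
      (∫⁻ x in Ioi (1 : ℝ), ENNReal.ofReal (m x / x ^ 2) = ⊤ ∨
        ∫⁻ x in Ioi (1 : ℝ), ENNReal.ofReal (m (-x) / x ^ 2) = ⊤) := by
  obtain ⟨hwc, hw0, ⟨a, b, hconv, hconc, hdiv⟩, htend⟩ := hw
  have hφc : Continuous (fun x => Real.log (w x)) := hwc.log (fun x => (hw0 x).ne')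
  rw [cocompact_eq_atBot_atTop, tendsto_sup] at htend
  obtain ⟨htb, htt⟩ := htend
  -- right side
  obtain ⟨g₁, hg₁⟩ : ∃ g₁ : ℝ → ℝ, g₁ = fun x => -Real.log (w x) := ⟨_, rfl⟩
  obtain ⟨g₂, hg₂⟩ : ∃ g₂ : ℝ → ℝ, g₂ = fun x => Real.log (w (-x)) := ⟨_, rfl⟩
  have hg₁conv : ConvexOn ℝ (Ici b) g₁ := by rw [hg₁]; exact hconc.neg
  have hg₂conv : ConvexOn ℝ (Ici (-a)) g₂ := by
    rw [hg₂]
    refine ⟨convex_Ici _, ?_⟩
    intro x hx y hy s t hs ht hst
    have hx' : -x ∈ Iic a := by have : -a ≤ x := hx; show -x ≤ a; linarith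
    have hy' : -y ∈ Iic a := by have : -a ≤ y := hy; show -y ≤ a; linarith
    have := hconv.2 hx' hy' hs ht hst
    simp only [smul_eq_mul] at this ⊢
    rw [show -(s * x + t * y) = s * -x + t * -y by ring]
    exact this
  have hg₁c : Continuous g₁ := by rw [hg₁]; exact hφc.neg
  have hg₂c : Continuous g₂ := by rw [hg₂]; exact hφc.comp continuous_neg
  have hg₁t : Tendsto (fun x => g₁ x / x) atTop atTop := by
    have h := tendsto_neg_atBot_atTop.comp htt
    refine h.congr ?_
    intro x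
    rw [hg₁]
    simp only [Function.comp_apply]
    ring
  have hg₂t : Tendsto (fun x => g₂ x / x) atTop atTop := by
    have h := tendsto_neg_atBot_atTop.comp (htb.comp tendsto_neg_atTop_atBot)
    refine h.congr ?_
    intro x
    rw [hg₂]
    simp only [Function.comp_apply]
    rw [div_neg, neg_neg]
  obtain ⟨K₁, hK₁⟩ := nf_one g₁ b hg₁conv hg₁c hg₁t
  obtain ⟨K₂, hK₂⟩ := nf_one g₂ (-a) hg₂conv hg₂c hg₂t
  obtain ⟨K, hK⟩ : ∃ K, K = max (max K₁ K₂) 1 := ⟨_, rfl⟩
  have hK1 : 1 ≤ K := by rw [hK]; exact le_max_right _ _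
  obtain ⟨p1, p2, p3, p4, p5⟩ := hK₁ K (by rw [hK]; exact (le_max_left _ _).trans (le_max_left _ _))
  obtain ⟨q1, q2, q3, q4, q5⟩ := hK₂ K (by rw [hK]; exact (le_max_right _ _).trans (le_max_left _ _))
  obtain ⟨m, hm⟩ : ∃ m : ℝ → ℝ, m = fun x => if K < x then derivWithin g₁ (Ioi x) x else
    if x < -K then derivWithin g₂ (Ioi (-x)) (-x) else 0 := ⟨_, rfl⟩
  have m1 : ∀ x, K < x → m x = derivWithin g₁ (Ioi x) x := by
    intro x hx; rw [hm]; simp only [if_pos hx]
  have m2 : ∀ x, x < -K → m x = derivWithin g₂ (Ioi (-x)) (-x) := by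
    intro x hx; rw [hm]
    simp only [if_neg (show ¬ K < x by linarith), if_pos hx]
  have m3 : ∀ x, -K ≤ x → x ≤ K → m x = 0 := by
    intro x hx hx'; rw [hm]
    simp only [if_neg (not_lt.mpr hx'), if_neg (not_lt.mpr hx)]
  have hmono : MonotoneOn m (Ici 0) := by
    intro x hx y hy hxy
    have hx0 : 0 ≤ x := hx
    rcases le_or_gt x K with h | h
    · rw [m3 x (by linarith) h]
      rcases le_or_gt y K with h' | h'
      · rw [m3 y (by linarith) h']
      · rw [m1 y h']; exact p1 y h'.le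
    · rw [m1 x h, m1 y (lt_of_lt_of_le h hxy)]
      exact p2 (show K ≤ x from h.le) (show K ≤ y by linarith) hxy
  have hanti : AntitoneOn m (Iic 0) := by
    intro x hx y hy hxy
    have hy0 : y ≤ 0 := hy
    rcases le_or_gt (-K) y with h | h
    · rw [m3 y h (by linarith)]
      rcases le_or_gt (-K) x with h' | h'
      · rw [m3 x h' (by linarith)]
      · rw [m2 x h']; exact q1 (-x) (by linarith)
    · rw [m2 x (by linarith), m2 y h]
      exact q2 (show K ≤ -y by linarith) (show K ≤ -x by linarith) (by linarith)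
  have hNW : NW m := by
    refine ⟨nf_meas hmono hanti, ?_, hmono, hanti, ?_, ?_⟩
    · rw [m3 0 (by linarith) (by linarith)]
    · refine p3.congr' ?_
      filter_upwards [eventually_gt_atTop K] with x hx
      rw [m1 x hx]
    · refine (q3.comp tendsto_neg_atBot_atTop).congr' ?_
      filter_upwards [eventually_lt_atBot (-K)] with x hx
      rw [m2 x hx]; rfl
  obtain ⟨-, hint, -, -, -, hwmpos, -, -, -⟩ := wm_props hNW
  -- bounds for w on the compact part
  have hne : (Icc (-K) K).Nonempty := ⟨0, by constructor <;> linarith⟩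
  obtain ⟨x₀, hx₀, hmin⟩ := isCompact_Icc.exists_isMinOn hne hwc.continuousOn
  obtain ⟨x₁, hx₁, hmax⟩ := isCompact_Icc.exists_isMaxOn hne hwc.continuousOn
  have hmin' : ∀ x, -K ≤ x → x ≤ K → w x₀ ≤ w x := fun x h h' => hmin (show x ∈ Icc (-K) K from ⟨h, h'⟩)
  have hmax' : ∀ x, -K ≤ x → x ≤ K → w x ≤ w x₁ := fun x h h' => hmax (show x ∈ Icc (-K) K from ⟨h, h'⟩)
  -- values of wm
  have hI0 : ∀ x, -K ≤ x → x ≤ K → ∫ t in (0 : ℝ)..x, m t = 0 := by
    intro x hx hx'
    have : ∫ t in (0 : ℝ)..x, m t = ∫ t in (0 : ℝ)..x, (0 : ℝ) := by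
      apply intervalIntegral.integral_congr
      intro t ht
      have h1 : t ∈ Icc (-K) K := by
        have h2 : uIcc 0 x ⊆ Icc (-K) K :=
          uIcc_subset_Icc ⟨by linarith, by linarith⟩ ⟨hx, hx'⟩
        exact h2 ht
      exact m3 t h1.1 h1.2
    rw [this, intervalIntegral.integral_zero]
  have hwm0 : ∀ x, -K ≤ x → x ≤ K → wm m x = 1 := by
    intro x hx hx'
    unfold wm
    rw [hI0 x hx hx']; simp
  have hwmr : ∀ x, K ≤ x → w x = w K * wm m x := by
    intro x hx
    have e1 : ∫ t in (0 : ℝ)..x, m t = ∫ t in K..x, m t := by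
      rw [← intervalIntegral.integral_add_adjacent_intervals (hint 0 K) (hint K x),
        hI0 K (by linarith) le_rfl, zero_add]
    have e2 : ∫ t in K..x, m t = ∫ t in K..x, derivWithin g₁ (Ioi t) t := by
      rw [intervalIntegral.integral_of_le hx, intervalIntegral.integral_of_le hx]
      apply setIntegral_congr_fun measurableSet_Ioc
      intro t ht
      exact m1 t ht.1
    unfold wm
    rw [e1, e2, p4 x hx, hg₁]
    simp only
    rw [show -(-Real.log (w x) - -Real.log (w K)) = Real.log (w x) - Real.log (w K) by ring,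
      Real.exp_sub, Real.exp_log (hw0 x), Real.exp_log (hw0 K)]
    have := (hw0 K).ne'
    field_simp
  have hwml : ∀ x, x ≤ -K → w x = w (-K) * wm m x := by
    intro x hx
    have e1 : ∫ t in (0 : ℝ)..x, m t = -∫ t in x..(-K), m t := by
      rw [← intervalIntegral.integral_add_adjacent_intervals (hint 0 (-K)) (hint (-K) x),
        hI0 (-K) le_rfl (by linarith), zero_add, intervalIntegral.integral_symm]
    have e2 : ∫ t in x..(-K), m t = ∫ t in K..(-x), m (-t) := by
      rw [intervalIntegral.integral_comp_neg, neg_neg]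
    have e3 : ∫ t in K..(-x), m (-t) = ∫ t in K..(-x), derivWithin g₂ (Ioi t) t := by
      rw [intervalIntegral.integral_of_le (by linarith), intervalIntegral.integral_of_le (by linarith)]
      apply setIntegral_congr_fun measurableSet_Ioc
      intro t ht
      have := m2 (-t) (by linarith [ht.1])
      rw [neg_neg] at this
      exact this
    unfold wm
    rw [e1, e2, e3, q4 (-x) (by linarith), hg₂]
    simp only
    rw [neg_neg, neg_neg, Real.exp_sub, Real.exp_log (hw0 x), Real.exp_log (hw0 (-K))]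
    have := (hw0 (-K)).ne'
    field_simp
  refine ⟨m, w x₀, w x₁, hNW, hw0 _, hw0 _, ?_, ?_⟩
  · intro x
    rcases le_or_gt K x with h | h
    · rw [hwmr x h]
      exact ⟨mul_le_mul_of_nonneg_right (hmin' K (by linarith) le_rfl) (hwmpos x).le,
        mul_le_mul_of_nonneg_right (hmax' K (by linarith) le_rfl) (hwmpos x).le⟩
    · rcases le_or_gt x (-K) with h' | h'
      · rw [hwml x h']
        exact ⟨mul_le_mul_of_nonneg_right (hmin' (-K) le_rfl (by linarith)) (hwmpos x).le,
          mul_le_mul_of_nonneg_right (hmax' (-K) le_rfl (by linarith)) (hwmpos x).le⟩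
      · rw [hwm0 x h'.le h.le, mul_one, mul_one]
        exact ⟨hmin' x h'.le h.le, hmax' x h'.le h.le⟩
  · rcases ENNReal.add_eq_top.mp hdiv with h | h
    · right
      have e1 : ∫⁻ x in Ici (-a), ENNReal.ofReal (deriv g₂ x / (1 + x ^ 2)) = ⊤ := by
        rw [nf_neg] at h
        rw [← h]
        apply lintegral_congr
        intro x
        have : deriv g₂ x = -deriv (fun y => Real.log (w y)) (-x) := by
          rw [hg₂]
          exact deriv_comp_neg (fun y => Real.log (w y)) x
        rw [this, neg_sq]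
      have e2 := q5 e1
      rw [← top_le_iff, ← e2]
      calc ∫⁻ x in Ioi K, ENNReal.ofReal (derivWithin g₂ (Ioi x) x / x ^ 2)
          = ∫⁻ x in Ioi K, ENNReal.ofReal (m (-x) / x ^ 2) := by
            apply setLIntegral_congr_fun measurableSet_Ioi
            intro x hx
            have hx' : K < x := hx
            have := m2 (-x) (by linarith)
            rw [neg_neg] at this
            simp only
            rw [this]
        _ ≤ ∫⁻ x in Ioi 1, ENNReal.ofReal (m (-x) / x ^ 2) :=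
            lintegral_mono_set (Ioi_subset_Ioi hK1)
    · left
      have e1 : ∫⁻ x in Ici b, ENNReal.ofReal (deriv g₁ x / (1 + x ^ 2)) = ⊤ := by
        rw [← h]
        apply lintegral_congr
        intro x
        have : deriv g₁ x = -deriv (fun y => Real.log (w y)) x := by
          rw [hg₁]
          exact deriv.fun_neg
        rw [this]
      have e2 := p5 e1
      rw [← top_le_iff, ← e2]
      calc ∫⁻ x in Ioi K, ENNReal.ofReal (derivWithin g₁ (Ioi x) x / x ^ 2)
          = ∫⁻ x in Ioi K, ENNReal.ofReal (m x / x ^ 2) := by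
            apply setLIntegral_congr_fun measurableSet_Ioi
            intro x hx
            simp only
            rw [m1 x hx]
        _ ≤ ∫⁻ x in Ioi 1, ENNReal.ofReal (m x / x ^ 2) :=
            lintegral_mono_set (Ioi_subset_Ioi hK1)

end

end Pool.Agent.Helper311.TI.J6795

namespace Pool.Agent.Helper311.TI

alias nice_of_frozen := J6795.nice_of_frozen

end Pool.Agent.Helper311.TI

namespace Pool.Agent.Helper311.TI.J6796

noncomputable section

lemma shift_lint (s s' : Set ℝ) (hs : MeasurableSet s) (hs' : MeasurableSet s') (c : ℝ)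
    (hss : ∀ x, x ∈ s' ↔ x + c ∈ s) (φ : ℝ → ℝ) :
    ENNReal.ofReal (1 / (2 * (1 + c ^ 2))) * ∫⁻ x in s, ENNReal.ofReal (-deriv φ x / (1 + x ^ 2)) ≤
      ∫⁻ x in s', ENNReal.ofReal (-deriv (fun y => φ (y + c)) x / (1 + x ^ 2)) := by
  have h1 : ∫⁻ x in s', ENNReal.ofReal (-deriv (fun y => φ (y + c)) x / (1 + x ^ 2)) =
      ∫⁻ x in s, ENNReal.ofReal (-deriv φ x / (1 + (x - c) ^ 2)) := by
    rw [← lintegral_indicator hs, ← lintegral_indicator hs']
    rw [← lintegral_add_right_eq_self (s.indicator fun x => ENNReal.ofReal (-deriv φ x / (1 + (x - c) ^ 2))) c]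
    congr 1
    funext x
    by_cases hx : x ∈ s'
    · rw [Set.indicator_of_mem hx, Set.indicator_of_mem ((hss x).mp hx), deriv_comp_add_const,
        add_sub_cancel_right]
    · rw [Set.indicator_of_notMem hx, Set.indicator_of_notMem (fun h => hx ((hss x).mpr h))]
  rw [h1, ← lintegral_const_mul' _ _ ENNReal.ofReal_ne_top]
  apply lintegral_mono
  intro x
  simp only
  have hκ : 0 < 1 / (2 * (1 + c ^ 2)) := by positivity
  rw [← ENNReal.ofReal_mul hκ.le]
  by_cases hd : 0 ≤ -deriv φ x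
  · apply ENNReal.ofReal_le_ofReal
    have h2 : 1 + (x - c) ^ 2 ≤ 2 * (1 + c ^ 2) * (1 + x ^ 2) := by
      nlinarith [sq_nonneg (x + c), mul_nonneg (sq_nonneg c) (sq_nonneg x)]
    have h3 : 1 / (2 * (1 + c ^ 2)) * (-deriv φ x / (1 + x ^ 2)) = -deriv φ x / (2 * (1 + c ^ 2) * (1 + x ^ 2)) := by
      field_simp
    rw [h3]
    exact div_le_div_of_nonneg_left hd (by positivity) h2
  · push Not at hd
    rw [ENNReal.ofReal_of_nonpos]
    · exact bot_le
    · apply mul_nonpos_of_nonneg_of_nonpos hκ.le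
      exact div_nonpos_of_nonpos_of_nonneg hd.le (by positivity)

lemma frozen_shift (w : ℝ → ℝ) (hw : FrozenW w) (c : ℝ) : FrozenW (fun x => w (x + c)) := by
  obtain ⟨hc, hpos, ⟨a, b, hcx, hcv, hint⟩, hlim⟩ := hw
  refine ⟨hc.comp (continuous_id.add continuous_const), fun x => hpos _, ⟨a - c, b - c, ?_, ?_, ?_⟩, ?_⟩
  · have h := hcx.translate_left c
    have h1 : (fun z : ℝ => c + z) ⁻¹' Set.Iic a = Set.Iic (a - c) := by
      ext z
      simp only [Set.mem_preimage, Set.mem_Iic]
      constructor <;> intro h <;> linarith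
    rw [h1] at h
    exact h
  · have h := hcv.translate_left c
    have h1 : (fun z : ℝ => c + z) ⁻¹' Set.Ici b = Set.Ici (b - c) := by
      ext z
      simp only [Set.mem_preimage, Set.mem_Ici]
      constructor <;> intro h <;> linarith
    rw [h1] at h
    exact h
  · rw [eq_top_iff]
    have h1 := shift_lint (Set.Iic a) (Set.Iic (a - c)) measurableSet_Iic measurableSet_Iic c (by
      intro x
      simp only [Set.mem_Iic]
      constructor <;> intro h <;> linarith) (fun y => Real.log (w y))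
    have h2 := shift_lint (Set.Ici b) (Set.Ici (b - c)) measurableSet_Ici measurableSet_Ici c (by
      intro x
      simp only [Set.mem_Ici]
      constructor <;> intro h <;> linarith) (fun y => Real.log (w y))
    have h3 := add_le_add h1 h2
    rw [← mul_add, hint, ENNReal.mul_top] at h3
    · exact h3
    · have : 0 < 1 / (2 * (1 + c ^ 2)) := by positivity
      exact (ENNReal.ofReal_pos.mpr this).ne'
  · have hsh : Tendsto (fun x : ℝ => x + c) (cocompact ℝ) (cocompact ℝ) :=
      (Homeomorph.addRight c).isClosedEmbedding.tendsto_cocompact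
    have h1 := hlim.comp hsh
    have h2 : Tendsto (fun x : ℝ => 1 + c * x⁻¹) (cocompact ℝ) (𝓝 1) := by
      have h3 : Tendsto (fun x : ℝ => x⁻¹) (cocompact ℝ) (𝓝 0) := by
        rw [← Metric.cobounded_eq_cocompact]
        exact tendsto_inv₀_cobounded
      have h4 := (h3.const_mul c).const_add 1
      simpa using h4
    have h3 := h1.atBot_mul_pos one_pos h2
    refine h3.congr' ?_
    have h4 : ∀ᶠ x in cocompact ℝ, x ≠ 0 := by
      rw [← Metric.cobounded_eq_cocompact]
      exact Bornology.eventually_ne_cobounded 0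
    have h5 : ∀ᶠ x in cocompact ℝ, x + c ≠ 0 := hsh.eventually h4
    filter_upwards [h4, h5] with x hx hxc
    simp only [Function.comp_apply]
    field_simp

end

end Pool.Agent.Helper311.TI.J6796

namespace Pool.Agent.Helper311.TI

alias frozen_shift := J6796.frozen_shift

end Pool.Agent.Helper311.TI

namespace Pool.Agent.Helper311.TI.J6798

noncomputable section

theorem dual_sep_rep {α : Type*} [MeasurableSpace α] {μ : Measure α} [IsFiniteMeasure μ]
    (Λ : Lp ℂ 1 μ →L[ℂ] ℂ) :
    ∃ κ : α → ℂ, Measurable κ ∧ (∀ x, ‖κ x‖ ≤ ‖Λ‖) ∧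
      ∀ f : Lp ℂ 1 μ, Λ f = ∫ x, f x * κ x ∂μ := by
  classical
  let B : ℂ →L[ℂ] ℂ →L[ℂ] ℂ := ContinuousLinearMap.mul ℂ ℂ
  let T : Lp ℂ 2 μ →L[ℂ] Lp ℂ 1 μ := (B.holderL μ 2 2 1) (Lp.const 2 μ (1 : ℂ))
  have hT : ∀ f : Lp ℂ 2 μ, (T f : α → ℂ) =ᵐ[μ] f := by
    intro f
    have h1 : (T f : α → ℂ) =ᵐ[μ] fun x => B ((Lp.const 2 μ (1 : ℂ) : Lp ℂ 2 μ) x) (f x) :=
      ContinuousLinearMap.coeFn_holder B _ _
    have h2 := Lp.coeFn_const (p := 2) (μ := μ) (c := (1 : ℂ))
    filter_upwards [h1, h2] with x hx1 hx2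
    rw [hx1, hx2]
    simp [B]
  let Λ2 : Lp ℂ 2 μ →L[ℂ] ℂ := Λ.comp T
  let g : Lp ℂ 2 μ := (InnerProductSpace.toDual ℂ (Lp ℂ 2 μ)).symm Λ2
  have hg : ∀ f : Lp ℂ 2 μ, Λ2 f = inner ℂ g f := by
    intro f
    exact (InnerProductSpace.toDual_symm_apply).symm
  let κ0 : α → ℂ := fun x => (starRingEnd ℂ) (g x)
  have hgm : Measurable (g : α → ℂ) := (Lp.stronglyMeasurable g).measurable
  have hκ0m : Measurable κ0 := Complex.continuous_conj.measurable.comp hgm
  have hκ0L2 : MemLp κ0 2 μ := by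
    have h1 : MemLp (g : α → ℂ) 2 μ := Lp.memLp g
    refine h1.of_le hκ0m.aestronglyMeasurable ?_
    filter_upwards with x
    simp [κ0]
  have hκ0i : Integrable κ0 μ := hκ0L2.integrable (by norm_num)
  -- (I)
  have hI : ∀ (f0 : α → ℂ) (h1 : MemLp f0 1 μ) (_ : MemLp f0 2 μ),
      Λ (h1.toLp f0) = ∫ x, f0 x * κ0 x ∂μ := by
    intro f0 h1 h2
    have h3 : T (h2.toLp f0) = h1.toLp f0 := by
      apply Lp.ext
      exact (hT _).trans (h2.coeFn_toLp.trans h1.coeFn_toLp.symm)
    rw [← h3]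
    show Λ2 _ = _
    rw [hg, L2.inner_def]
    refine integral_congr_ae ?_
    filter_upwards [h2.coeFn_toLp] with x hx
    rw [hx]
    simp [κ0]
  -- (II)
  have hII : μ {x | ‖Λ‖ < ‖κ0 x‖} = 0 := by
    set A : Set α := {x | ‖Λ‖ < ‖κ0 x‖} with hA
    have hAm : MeasurableSet A := measurableSet_lt measurable_const hκ0m.norm
    let v : α → ℂ := A.indicator fun x => (starRingEnd ℂ) (κ0 x) / (‖κ0 x‖ : ℂ)
    have hvm : Measurable v := by
      refine Measurable.indicator ?_ hAm
      exact (Complex.continuous_conj.measurable.comp hκ0m).div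
        (Complex.measurable_ofReal.comp hκ0m.norm)
    have hvle : ∀ x, ‖v x‖ ≤ A.indicator (fun _ => (1 : ℝ)) x := by
      intro x
      by_cases hx : x ∈ A
      · simp only [v, Set.indicator_of_mem hx]
        rw [norm_div]
        simp only [RCLike.norm_conj, Complex.norm_real, norm_norm]
        exact div_self_le_one _
      · simp [v, Set.indicator_of_notMem hx]
    have hvle1 : ∀ x, ‖v x‖ ≤ 1 := fun x => (hvle x).trans (by
      by_cases hx : x ∈ A <;> simp [hx])
    have hv1 : MemLp v 1 μ := MemLp.of_bound hvm.aestronglyMeasurable 1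
      (Filter.Eventually.of_forall hvle1)
    have hv2 : MemLp v 2 μ := MemLp.of_bound hvm.aestronglyMeasurable 1
      (Filter.Eventually.of_forall hvle1)
    have h3 := hI v hv1 hv2
    have h4 : ∫ x, v x * κ0 x ∂μ = ((∫ x in A, ‖κ0 x‖ ∂μ : ℝ) : ℂ) := by
      rw [← integral_complex_ofReal, ← integral_indicator hAm]
      refine integral_congr_ae (Filter.Eventually.of_forall fun x => ?_)
      by_cases hx : x ∈ A
      · simp only [v, Set.indicator_of_mem hx]
        have h5 : (‖κ0 x‖ : ℂ) ≠ 0 := by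
          have : 0 < ‖κ0 x‖ := lt_of_le_of_lt (norm_nonneg _) hx
          exact_mod_cast this.ne'
        rw [div_mul_eq_mul_div, Complex.conj_mul']
        field_simp
      · simp only [v, Set.indicator_of_notMem hx, zero_mul]
    have h6 : ‖Λ (hv1.toLp v)‖ = ∫ x in A, ‖κ0 x‖ ∂μ := by
      rw [h3, h4, Complex.norm_real, Real.norm_of_nonneg]
      exact integral_nonneg fun x => norm_nonneg _
    have h7 : ‖hv1.toLp v‖ ≤ μ.real A := by
      have h8 : ‖hv1.toLp v‖ = ∫ x, ‖v x‖ ∂μ := by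
        rw [L1.norm_eq_integral_norm]
        refine integral_congr_ae ?_
        filter_upwards [hv1.coeFn_toLp] with x hx
        rw [hx]
      rw [h8]
      calc ∫ x, ‖v x‖ ∂μ ≤ ∫ x, A.indicator (fun _ => (1 : ℝ)) x ∂μ := by
            refine integral_mono (hv1.integrable le_rfl).norm ?_ hvle
            exact (integrable_const (1 : ℝ)).indicator hAm
        _ = μ.real A := by
            rw [integral_indicator hAm]
            simp
    have h9 : ∫ x in A, ‖κ0 x‖ ∂μ ≤ ‖Λ‖ * μ.real A := by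
      rw [← h6]
      exact (Λ.le_opNorm _).trans (mul_le_mul_of_nonneg_left h7 (norm_nonneg _))
    have h10 : ∫ x in A, (‖κ0 x‖ - ‖Λ‖) ∂μ ≤ 0 := by
      rw [integral_sub hκ0i.norm.integrableOn (integrable_const _).integrableOn]
      simp only [setIntegral_const, smul_eq_mul]
      linarith
    by_contra hne
    have hpos : 0 < μ (Function.support (fun x => ‖κ0 x‖ - ‖Λ‖) ∩ A) := by
      have : Function.support (fun x => ‖κ0 x‖ - ‖Λ‖) ∩ A = A := by
        apply Set.inter_eq_right.2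
        intro x hx
        have hx' : ‖Λ‖ < ‖κ0 x‖ := hx
        simp only [Function.mem_support]
        linarith
      rw [this]
      exact pos_iff_ne_zero.2 hne
    have h11 := (setIntegral_pos_iff_support_of_nonneg_ae (μ := μ) (s := A)
      (f := fun x => ‖κ0 x‖ - ‖Λ‖) ?_ ?_).2 hpos
    · linarith
    · rw [Filter.EventuallyLE, ae_restrict_iff' hAm]
      filter_upwards with x hx
      have hx' : ‖Λ‖ < ‖κ0 x‖ := hx
      simp only [Pi.zero_apply]
      linarith
    · exact (hκ0i.norm.sub (integrable_const _)).integrableOn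
  -- (III)
  let κ : α → ℂ := fun x => if ‖κ0 x‖ ≤ ‖Λ‖ then κ0 x else 0
  have hκm : Measurable κ :=
    Measurable.ite (measurableSet_le hκ0m.norm measurable_const) hκ0m measurable_const
  have hκb : ∀ x, ‖κ x‖ ≤ ‖Λ‖ := by
    intro x
    simp only [κ]
    split_ifs with h
    · exact h
    · simp
  have hκae : κ =ᵐ[μ] κ0 := by
    have : ∀ᵐ x ∂μ, ¬ (‖Λ‖ < ‖κ0 x‖) := by
      rw [ae_iff]
      simpa using hII
    filter_upwards [this] with x hx
    simp only [κ]
    rw [if_pos (not_lt.1 hx)]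
  have hκtop : MemLp κ ⊤ μ := memLp_top_of_bound hκm.aestronglyMeasurable ‖Λ‖
    (Filter.Eventually.of_forall hκb)
  refine ⟨κ, hκm, hκb, ?_⟩
  -- (IV)
  let Λ' : Lp ℂ 1 μ →L[ℂ] ℂ := (B.lpPairing μ 1 ⊤).flip (hκtop.toLp κ)
  have hΛ' : ∀ f : Lp ℂ 1 μ, Λ' f = ∫ x, f x * κ x ∂μ := by
    intro f
    show B.lpPairing μ 1 ⊤ f (hκtop.toLp κ) = _
    rw [ContinuousLinearMap.lpPairing_eq_integral]
    refine integral_congr_ae ?_
    filter_upwards [hκtop.coeFn_toLp] with x hx
    rw [hx]
    simp [B]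
  intro f
  rw [← hΛ']
  refine Lp.induction (p := 1) (by norm_num) (fun f => Λ f = Λ' f) ?_ ?_ ?_ f
  · intro c s hs hμs
    have h1 : MemLp (s.indicator fun _ => c) 1 μ := memLp_indicator_const 1 hs c (Or.inr hμs.ne)
    have h2 : MemLp (s.indicator fun _ => c) 2 μ := memLp_indicator_const 2 hs c (Or.inr hμs.ne)
    have h3 : ((Lp.simpleFunc.indicatorConst 1 hs hμs.ne c : Lp.simpleFunc ℂ 1 μ) : Lp ℂ 1 μ) =
        h1.toLp _ := by
      rw [Lp.simpleFunc.coe_indicatorConst]
      rfl
    rw [h3, hI _ h1 h2, hΛ']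
    refine integral_congr_ae ?_
    filter_upwards [h1.coeFn_toLp, hκae] with x hx1 hx2
    rw [hx1, hx2]
  · intro f g hf hg _ h1 h2
    rw [map_add, map_add, h1, h2]
  · exact isClosed_eq Λ.continuous Λ'.continuous

/-- the density of the auxiliary finite measure -/
def dsq (x : ℝ) : NNReal := Real.toNNReal ((1 + x ^ 2)⁻¹)

lemma dsq_meas : Measurable dsq := by
  unfold dsq
  fun_prop

lemma dsq_coe (x : ℝ) : ((dsq x : NNReal) : ℝ) = (1 + x ^ 2)⁻¹ :=
  Real.coe_toNNReal _ (by positivity)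

lemma dsq_pos (x : ℝ) : 0 < ((dsq x : NNReal) : ℝ) := by
  rw [dsq_coe]; positivity

/-- auxiliary finite measure -/
def dsnu : Measure ℝ := (volume : Measure ℝ).withDensity (fun x => (dsq x : ENNReal))

instance dsnu_finite : IsFiniteMeasure dsnu :=
  isFiniteMeasure_withDensity_ofReal integrable_inv_one_add_sq.2

lemma dsnu_ac : dsnu ≪ (volume : Measure ℝ) := withDensity_absolutelyContinuous _ _

lemma ds_ac' : (volume : Measure ℝ) ≪ dsnu := by
  refine withDensity_absolutelyContinuous' ?_ ?_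
  · exact dsq_meas.coe_nnreal_ennreal.aemeasurable
  · refine Filter.Eventually.of_forall fun x => ?_
    have := dsq_pos x
    simp only [ne_eq, ENNReal.coe_eq_zero]
    intro h
    rw [h] at this
    simp at this

lemma ds_integrable {F : ℝ → ℂ} : Integrable F dsnu ↔ Integrable (fun x => ((dsq x : ℝ) : ℂ) * F x) := by
  unfold dsnu
  rw [integrable_withDensity_iff_integrable_smul dsq_meas]
  rfl

lemma ds_integral (F : ℝ → ℂ) : ∫ x, F x ∂dsnu = ∫ x, ((dsq x : ℝ) : ℂ) * F x := by
  unfold dsnu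
  rw [integral_withDensity_eq_integral_smul dsq_meas]
  rfl

lemma ds_integral_real (F : ℝ → ℝ) : ∫ x, F x ∂dsnu = ∫ x, (dsq x : ℝ) * F x := by
  unfold dsnu
  rw [integral_withDensity_eq_integral_smul dsq_meas]
  rfl

lemma dual_sep (w : ℝ → ℝ) (hw : Continuous w) (hpos : ∀ x, 0 < w x) (S : Set (ℝ → ℂ))
    (hint : ∀ f ∈ S, Integrable (fun x => (w x : ℂ) * f x))
    (hadd : ∀ f ∈ S, ∀ g ∈ S, f + g ∈ S)
    (hsmul : ∀ c : ℂ, ∀ f ∈ S, c • f ∈ S)
    (hae : ∀ f ∈ S, ∀ g : ℝ → ℂ, g =ᵐ[volume] f → g ∈ S)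
    (hcl : ∀ (u : ℕ → ℝ → ℂ) (f : ℝ → ℂ), (∀ n, u n ∈ S) →
        Integrable (fun x => (w x : ℂ) * f x) →
        Tendsto (fun n => ∫ x, ‖u n x - f x‖ * w x) atTop (𝓝 0) → f ∈ S)
    (hne : S.Nonempty) (g : ℝ → ℂ) (hg : Integrable (fun x => (w x : ℂ) * g x)) (hgS : g ∉ S) :
    ∃ k : ℝ → ℂ, Measurable k ∧ (∃ M : ℝ, ∀ x, ‖k x‖ ≤ M * w x) ∧
      (∀ f ∈ S, ∫ x, f x * k x = 0) ∧ ∫ x, g x * k x ≠ 0 := by
  classical
  have hwc : ∀ x, (w x : ℂ) ≠ 0 := fun x => by exact_mod_cast (hpos x).ne'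
  have hqc : ∀ x, ((dsq x : ℝ) : ℂ) ≠ 0 := fun x => by exact_mod_cast (dsq_pos x).ne'
  -- transfer maps
  let A : (ℝ → ℂ) → (ℝ → ℂ) := fun F x => (((dsq x : ℝ) : ℂ) / (w x : ℂ)) * F x
  let Bm : (ℝ → ℂ) → (ℝ → ℂ) := fun f x => ((w x : ℂ) / ((dsq x : ℝ) : ℂ)) * f x
  have hAB : ∀ f x, A (Bm f) x = f x := by
    intro f x
    simp only [A, Bm]
    have h1 := hwc x
    have h2 := hqc x
    field_simp
  have hBint : ∀ f : ℝ → ℂ, Integrable (fun x => (w x : ℂ) * f x) → Integrable (Bm f) dsnu := by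
    intro f hf
    rw [ds_integrable]
    refine hf.congr (Filter.Eventually.of_forall fun x => ?_)
    simp only [Bm]
    have h2 := hqc x
    field_simp
  have hB1 : ∀ f : ℝ → ℂ, Integrable (fun x => (w x : ℂ) * f x) → MemLp (Bm f) 1 dsnu :=
    fun f hf => memLp_one_iff_integrable.mpr (hBint f hf)
  have hAae : ∀ F G : ℝ → ℂ, F =ᵐ[dsnu] G → A F =ᵐ[volume] A G := by
    intro F G h
    have h' : F =ᵐ[volume] G := ds_ac'.ae_eq h
    filter_upwards [h'] with x hx
    simp only [A, hx]
  let V : Submodule ℂ (Lp ℂ 1 dsnu) :=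
    { carrier := {F | A F ∈ S}
      add_mem' := by
        intro F G hF hG
        have hF' : A F ∈ S := hF
        have hG' : A G ∈ S := hG
        show A (F + G : Lp ℂ 1 dsnu) ∈ S
        refine hae _ (hadd _ hF' _ hG') _ ?_
        refine (hAae _ _ (Lp.coeFn_add F G)).trans (Filter.Eventually.of_forall fun x => ?_)
        simp only [A, Pi.add_apply]
        ring
      zero_mem' := by
        obtain ⟨f0, hf0⟩ := hne
        show A (0 : Lp ℂ 1 dsnu) ∈ S
        refine hae _ (hsmul 0 f0 hf0) _ ?_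
        refine (hAae _ _ (Lp.coeFn_zero ℂ 1 dsnu)).trans (Filter.Eventually.of_forall fun x => ?_)
        simp [A]
      smul_mem' := by
        intro c F hF
        have hF' : A F ∈ S := hF
        show A (c • F : Lp ℂ 1 dsnu) ∈ S
        refine hae _ (hsmul c _ hF') _ ?_
        refine (hAae _ _ (Lp.coeFn_smul c F)).trans (Filter.Eventually.of_forall fun x => ?_)
        simp only [A, Pi.smul_apply, smul_eq_mul]
        ring }
  have hVmem : ∀ F : Lp ℂ 1 dsnu, F ∈ V ↔ A F ∈ S := fun F => Iff.rfl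
  have hAint : ∀ F : Lp ℂ 1 dsnu, Integrable (fun x => (w x : ℂ) * A F x) := by
    intro F
    have h1 : Integrable F dsnu := L1.integrable_coeFn F
    rw [ds_integrable] at h1
    refine h1.congr (Filter.Eventually.of_forall fun x => ?_)
    simp only [A]
    have h2 := hwc x
    field_simp
  have hVcl : IsClosed (V : Set (Lp ℂ 1 dsnu)) := by
    refine IsSeqClosed.isClosed ?_
    intro u F hu hF
    show A F ∈ S
    refine hcl (fun n => A (u n)) (A F) (fun n => hu n) (hAint F) ?_
    have h1 : Tendsto (fun n => ‖u n - F‖) atTop (𝓝 0) := tendsto_iff_norm_sub_tendsto_zero.mp hF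
    refine h1.congr fun n => ?_
    rw [L1.norm_eq_integral_norm]
    have h2 : ∫ x, ‖(u n - F : Lp ℂ 1 dsnu) x‖ ∂dsnu = ∫ x, ‖u n x - F x‖ ∂dsnu := by
      refine integral_congr_ae ?_
      filter_upwards [Lp.coeFn_sub (u n) F] with x hx
      rw [hx]; rfl
    rw [h2, ds_integral_real]
    refine integral_congr_ae (Filter.Eventually.of_forall fun x => ?_)
    simp only [A]
    rw [← mul_sub, norm_mul, norm_div, Complex.norm_real, Complex.norm_real,
      Real.norm_of_nonneg (dsq_pos x).le, Real.norm_of_nonneg (hpos x).le]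
    have h3 := (hpos x).ne'
    field_simp
  set G : Lp ℂ 1 dsnu := (hB1 g hg).toLp (Bm g) with hG
  have hGV : G ∉ V := by
    intro h
    have h1 : A G ∈ S := h
    apply hgS
    refine hae _ h1 _ ?_
    have h2 : A G =ᵐ[volume] A (Bm g) := hAae _ _ (hB1 g hg).coeFn_toLp
    refine (h2.trans (Filter.Eventually.of_forall fun x => hAB g x)).symm
  obtain ⟨Λ, hΛV, hΛG⟩ : ∃ Λ : Lp ℂ 1 dsnu →L[ℂ] ℂ, (∀ F ∈ V, Λ F = 0) ∧ Λ G ≠ 0 := by
    have hx : ‖(Submodule.Quotient.mk G : Lp ℂ 1 dsnu ⧸ V)‖ ≠ 0 := by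
      rw [norm_ne_zero_iff]
      intro h
      exact hGV ((Submodule.Quotient.mk_eq_zero V).mp h)
    obtain ⟨φ, hφ1, hφ2⟩ := exists_dual_vector ℂ (Submodule.Quotient.mk G : Lp ℂ 1 dsnu ⧸ V) hx
    refine ⟨φ.comp V.mkQL, ?_, ?_⟩
    · intro F hF
      show φ (V.mkQ F) = 0
      have : V.mkQ F = 0 := by
        rw [Submodule.mkQ_apply, Submodule.Quotient.mk_eq_zero]; exact hF
      rw [this, map_zero]
    · show φ (V.mkQ G) ≠ 0
      rw [Submodule.mkQ_apply, hφ2]
      intro h
      exact hx (Complex.ofReal_eq_zero.mp h)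
  obtain ⟨κ, hκm, hκb, hκ⟩ := dual_sep_rep Λ
  have hrep : ∀ f : ℝ → ℂ, ∀ hf : Integrable (fun x => (w x : ℂ) * f x),
      Λ ((hB1 f hf).toLp (Bm f)) = ∫ x, f x * (κ x * (w x : ℂ)) := by
    intro f hf
    rw [hκ]
    have h1 : ∫ x, ((hB1 f hf).toLp (Bm f) : ℝ → ℂ) x * κ x ∂dsnu = ∫ x, Bm f x * κ x ∂dsnu := by
      refine integral_congr_ae ?_
      filter_upwards [(hB1 f hf).coeFn_toLp] with x hx
      rw [hx]
    rw [h1, ds_integral]
    refine integral_congr_ae (Filter.Eventually.of_forall fun x => ?_)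
    simp only [Bm]
    have h2 := hqc x
    field_simp
  refine ⟨fun x => κ x * (w x : ℂ), ?_, ⟨‖Λ‖, ?_⟩, ?_, ?_⟩
  · exact hκm.mul (Complex.measurable_ofReal.comp hw.measurable)
  · intro x
    rw [norm_mul, Complex.norm_real, Real.norm_of_nonneg (hpos x).le]
    exact mul_le_mul_of_nonneg_right (hκb x) (hpos x).le
  · intro f hf
    have h1 := hrep f (hint f hf)
    have h2 : (hB1 f (hint f hf)).toLp (Bm f) ∈ V := by
      rw [hVmem]
      refine hae f hf _ ?_
      exact (hAae _ _ (hB1 f (hint f hf)).coeFn_toLp).trans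
        (Filter.Eventually.of_forall fun x => hAB f x)
    rw [← h1]
    exact hΛV _ h2
  · have h1 := hrep g hg
    rw [← h1]
    exact hΛG

end

end Pool.Agent.Helper311.TI.J6798

namespace Pool.Agent.Helper311.TI

alias dual_sep := J6798.dual_sep

end Pool.Agent.Helper311.TI
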