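import Mathlib
import Pool.Agent.Helper311.TI.Defs
import Pool.Agent.Helper311.TI.Core
import Pool.Agent.Helper311.TI.Frozen

set_option autoImplicit false

open MeasureTheory Filter Topology Complex Set

namespace Pool.Agent.Helper311.TI.J6797

noncomputable section

lemma ii_m_6797 {m : ℝ → ℝ} (h : NW m) (a b : ℝ) : IntervalIntegrable m volume a b := by
  have h0 : ∀ x : ℝ, IntervalIntegrable m volume 0 x := by
    intro x
    rcases le_total 0 x with hx | hx
    · apply MonotoneOn.intervalIntegrable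
      apply h.mono.mono
      rw [Set.uIcc_of_le hx]
      intro t ht; exact ht.1
    · apply AntitoneOn.intervalIntegrable
      apply h.anti.mono
      rw [Set.uIcc_of_ge hx]
      intro t ht; exact ht.2
  exact (h0 a).symm.trans (h0 b)

lemma cont_wm_6797 {m : ℝ → ℝ} (h : NW m) : Continuous (wm m) := by
  unfold wm
  exact Real.continuous_exp.comp (intervalIntegral.continuous_primitive (ii_m_6797 h) 0).neg

lemma core_c (w : ℝ → ℝ) (hw : FrozenW w) (f k : ℝ → ℂ) (hf : AEStronglyMeasurable f volume)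
    (hk : Measurable k) (hfi : Integrable (fun x => ‖f x‖ * w x)) (M : ℝ)
    (hkb : ∀ x, ‖k x‖ ≤ M * w x)
    (hann : ∀ y : ℝ, 0 ≤ y → ∫ x, f x * k (x + y) = 0) (c : ℝ) :
    (∀ᵐ x : ℝ, x < c → f x = 0) ∨ (∀ᵐ x : ℝ, c < x → k x = 0) := by
  obtain ⟨m, c1, C1, hm, hc1, hC1, hbd, hdiv⟩ := nice_of_frozen _ (frozen_shift w hw c)
  obtain ⟨hwc, hwpos, -, -⟩ := hw
  have hM : 0 ≤ M := by
    have h1 : 0 ≤ M * w 0 := (norm_nonneg _).trans (hkb 0)
    by_contra hneg
    push Not at hneg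
    have := mul_neg_of_neg_of_pos hneg (hwpos 0)
    linarith
  have hgm : Measurable (hf.mk f) := hf.stronglyMeasurable_mk.measurable
  have hfg : f =ᵐ[volume] hf.mk f := hf.ae_eq_mk
  set g := hf.mk f with hg
  have hgi : Integrable (fun x => ‖g x‖ * w x) := by
    refine hfi.congr ?_
    filter_upwards [hfg] with x hx
    rw [hx]
  have hgi' : Integrable (fun x => ‖g (x + c)‖ * w (x + c)) := hgi.comp_add_right c
  have hdat : Dat m (fun x => g (x + c)) (fun x => k (x + c)) (M * C1) := by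
    refine ⟨hm, hgm.comp (measurable_id.add_const c), hk.comp (measurable_id.add_const c), ?_,
      mul_nonneg hM hC1.le, ?_, ?_⟩
    · refine (hgi'.const_mul (1 / c1)).mono' ?_ ?_
      · exact (((hgm.comp (measurable_id.add_const c)).norm).mul
          (cont_wm_6797 hm).measurable).aestronglyMeasurable
      · refine Filter.Eventually.of_forall fun x => ?_
        have hw0 : 0 ≤ wm m x := (Real.exp_pos _).le
        rw [Real.norm_of_nonneg (mul_nonneg (norm_nonneg _) hw0)]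
        have h1 := (hbd x).1
        have h2 : wm m x ≤ 1 / c1 * w (x + c) := by
          rw [one_div, ← div_eq_inv_mul, le_div_iff₀ hc1]
          linarith
        calc ‖g (x + c)‖ * wm m x ≤ ‖g (x + c)‖ * (1 / c1 * w (x + c)) :=
              mul_le_mul_of_nonneg_left h2 (norm_nonneg _)
          _ = 1 / c1 * (‖g (x + c)‖ * w (x + c)) := by ring
    · intro x
      calc ‖k (x + c)‖ ≤ M * w (x + c) := hkb _
        _ ≤ M * (C1 * wm m x) := mul_le_mul_of_nonneg_left (hbd x).2 hM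
        _ = M * C1 * wm m x := by ring
    · rw [ae_restrict_iff' measurableSet_Ioi]
      refine Filter.Eventually.of_forall fun y hy => ?_
      have h1 : ∫ x, g (x + c) * k (x + y + c) = ∫ x, g x * k (x + y) := by
        rw [← integral_add_right_eq_self (fun x => g x * k (x + y)) c]
        congr 1
        ext x
        congr 2
        ring
      show ∫ x, g (x + c) * k (x + y + c) = 0
      rw [h1, ← hann y (le_of_lt hy)]
      apply integral_congr_ae
      filter_upwards [hfg] with x hx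
      rw [hx]
  have hq := (measurePreserving_add_right (volume : Measure ℝ) (-c)).quasiMeasurePreserving
  rcases core0 hdat hdiv with h | h
  · left
    have h2 := hq.ae h
    filter_upwards [h2, hfg] with x hx hx2 hlt
    rw [hx2]
    have := hx (by linarith)
    simpa using this
  · right
    have h2 := hq.ae h
    filter_upwards [h2] with x hx hlt
    have := hx (by linarith)
    simpa using this

end

end Pool.Agent.Helper311.TI.J6797

namespace Pool.Agent.Helper311.TI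

alias core_c := J6797.core_c

end Pool.Agent.Helper311.TI

namespace Pool.Agent.Helper311.TI.J6799

noncomputable section

theorem S_final : ¬ (∃ w : ℝ → ℝ, Continuous w ∧ (∀ x, 0 < w x) ∧
    (∃ a b : ℝ, ConvexOn ℝ (Set.Iic a) (fun x => Real.log (w x)) ∧
      ConcaveOn ℝ (Set.Ici b) (fun x => Real.log (w x)) ∧
      (∫⁻ x in Set.Iic a, ENNReal.ofReal (-deriv (fun y => Real.log (w y)) x / (1 + x ^ 2))) +
      (∫⁻ x in Set.Ici b, ENNReal.ofReal (-deriv (fun y => Real.log (w y)) x / (1 + x ^ 2))) = ⊤) ∧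
    Tendsto (fun x => Real.log (w x) / x) (cocompact ℝ) atBot ∧
    ∃ S : Set (ℝ → ℂ),
      (∀ f ∈ S, Integrable (fun x => (w x : ℂ) * f x)) ∧
      (∀ f ∈ S, ∀ g ∈ S, f + g ∈ S) ∧
      (∀ c : ℂ, ∀ f ∈ S, c • f ∈ S) ∧
      (∀ f ∈ S, ∀ g : ℝ → ℂ, g =ᵐ[volume] f → g ∈ S) ∧
      (∀ f ∈ S, ∀ t : ℝ, 0 ≤ t → (fun x => f (x - t)) ∈ S) ∧
      (∀ (u : ℕ → ℝ → ℂ) (f : ℝ → ℂ), (∀ n, u n ∈ S) →
        Integrable (fun x => (w x : ℂ) * f x) →
        Tendsto (fun n => ∫ x, ‖u n x - f x‖ * w x) atTop (𝓝 0) → f ∈ S) ∧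
      (∃ f ∈ S, ¬ f =ᵐ[volume] 0) ∧
      (∃ f : ℝ → ℂ, Integrable (fun x => (w x : ℂ) * f x) ∧ f ∉ S) ∧
      ∀ a : ℝ, S ≠ {f : ℝ → ℂ | Integrable (fun x => (w x : ℂ) * f x) ∧
        ∀ᵐ x ∂volume, x < a → f x = 0}) := by
  rintro ⟨w, hwc, hwpos, hab, hlim, S, hint, hadd, hsmul, hae, htr, hcl, ⟨f0, hf0S, hf0⟩,
    ⟨g0, hg0i, hg0S⟩, hne⟩
  have hF : FrozenW w := ⟨hwc, hwpos, hab, hlim⟩
  have hds : ∀ g : ℝ → ℂ, Integrable (fun x => (w x : ℂ) * g x) → g ∉ S →
      ∃ k : ℝ → ℂ, Measurable k ∧ (∃ M : ℝ, ∀ x, ‖k x‖ ≤ M * w x) ∧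
        (∀ f ∈ S, ∫ x, f x * k x = 0) ∧ ∫ x, g x * k x ≠ 0 := fun g hg hgS =>
    dual_sep w hwc hwpos S hint hadd hsmul hae hcl ⟨f0, hf0S⟩ g hg hgS
  have hmeas : ∀ f ∈ S, AEStronglyMeasurable f volume := by
    intro f hf
    have h1 : Continuous (fun x => ((w x : ℂ))⁻¹) :=
      (Complex.continuous_ofReal.comp hwc).inv₀ (fun x => by
        show (w x : ℂ) ≠ 0
        exact_mod_cast (hwpos x).ne')
    have h2 := h1.aestronglyMeasurable (μ := volume).mul (hint f hf).aestronglyMeasurable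
    refine h2.congr (Filter.Eventually.of_forall fun x => ?_)
    have h3 : (w x : ℂ) ≠ 0 := by exact_mod_cast (hwpos x).ne'
    show (w x : ℂ)⁻¹ * ((w x : ℂ) * f x) = f x
    rw [inv_mul_cancel_left₀ h3]
  have hnint : ∀ f ∈ S, Integrable (fun x => ‖f x‖ * w x) := by
    intro f hf
    refine (hint f hf).norm.congr (Filter.Eventually.of_forall fun x => ?_)
    show ‖(w x : ℂ) * f x‖ = ‖f x‖ * w x
    rw [norm_mul, Complex.norm_real, Real.norm_of_nonneg (hwpos x).le, mul_comm]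
  have hcore : ∀ f ∈ S, ∀ k : ℝ → ℂ, Measurable k → (∃ M : ℝ, ∀ x, ‖k x‖ ≤ M * w x) →
      (∀ f ∈ S, ∫ x, f x * k x = 0) → ∀ c : ℝ,
      (∀ᵐ x : ℝ, x < c → f x = 0) ∨ (∀ᵐ x : ℝ, c < x → k x = 0) := by
    intro f hf k hk hM hperp c
    obtain ⟨M, hM⟩ := hM
    refine core_c w hF f k (hmeas f hf) hk (hnint f hf) M hM ?_ c
    intro y hy
    have h1 := hperp _ (htr f hf y hy)
    have h2 := integral_sub_right_eq_self (μ := volume) (fun x => f x * k (x + y)) y
    rw [← h2, ← h1]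
    refine integral_congr_ae (Filter.Eventually.of_forall fun x => ?_)
    show f (x - y) * k (x - y + y) = f (x - y) * k x
    rw [sub_add_cancel]
  set Z : Set ℝ := {c | ∀ f ∈ S, ∀ᵐ x : ℝ, x < c → f x = 0} with hZ
  have hZne : Z.Nonempty := by
    obtain ⟨k0, hk0m, hk0M, hk0p, hk0g⟩ := hds g0 hg0i hg0S
    have h1 : ∃ c : ℝ, ¬ (∀ᵐ x : ℝ, c < x → k0 x = 0) := by
      by_contra hcon
      push Not at hcon
      apply hk0g
      have h2 : ∀ᵐ x : ℝ, ∀ n : ℕ, -(n : ℝ) < x → k0 x = 0 := ae_all_iff.2 fun n => hcon _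
      rw [← integral_zero ℝ ℂ (μ := volume)]
      refine integral_congr_ae ?_
      filter_upwards [h2] with x hx
      obtain ⟨n, hn⟩ := exists_nat_gt (-x)
      rw [hx n (by linarith), mul_zero]
    obtain ⟨c, hc⟩ := h1
    exact ⟨c, fun f hf => (hcore f hf k0 hk0m hk0M hk0p c).resolve_right hc⟩
  have hZbd : BddAbove Z := by
    have h1 : ∃ c : ℝ, ¬ (∀ᵐ x : ℝ, x < c → f0 x = 0) := by
      by_contra hcon
      push Not at hcon
      apply hf0
      have h2 : ∀ᵐ x : ℝ, ∀ n : ℕ, x < (n : ℝ) → f0 x = 0 := ae_all_iff.2 fun n => hcon _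
      filter_upwards [h2] with x hx
      obtain ⟨n, hn⟩ := exists_nat_gt x
      exact hx n hn
    obtain ⟨c, hc⟩ := h1
    refine ⟨c, fun z hz => ?_⟩
    by_contra hcz
    rw [not_le] at hcz
    apply hc
    filter_upwards [hz f0 hf0S] with x hx hxc
    exact hx (hxc.trans hcz)
  set a := sSup Z with ha
  have haZ : a ∈ Z := by
    intro f hf
    have h1 : ∀ᵐ x : ℝ, ∀ n : ℕ, x < a - 1 / ((n : ℝ) + 1) → f x = 0 := by
      rw [ae_all_iff]
      intro n
      have h2 : a - 1 / ((n : ℝ) + 1) < sSup Z := by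
        have : (0 : ℝ) < 1 / ((n : ℝ) + 1) := by positivity
        rw [← ha]
        linarith
      obtain ⟨z, hz, hz2⟩ := exists_lt_of_lt_csSup hZne h2
      filter_upwards [hz f hf] with x hx hxa
      exact hx (hxa.trans hz2)
    filter_upwards [h1] with x hx hxa
    obtain ⟨n, hn⟩ := exists_nat_one_div_lt (sub_pos.2 hxa)
    exact hx n (by linarith)
  apply hne a
  ext g
  constructor
  · intro hg
    exact ⟨hint g hg, haZ g hg⟩
  · rintro ⟨hgi, hgv⟩
    by_contra hgS
    obtain ⟨k, hkm, hkM, hkp, hkg⟩ := hds g hgi hgS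
    have h1 : ∀ c, a < c → ∀ᵐ x : ℝ, c < x → k x = 0 := by
      intro c hc
      have h2 : c ∉ Z := fun h => absurd (le_csSup hZbd h) (not_le.2 hc)
      have h2' : ∃ f, ∃ hf : f ∈ S, ¬ ∀ᵐ x : ℝ, x < c → f x = 0 := by
        by_contra hcon
        apply h2
        intro f hf
        by_contra hf2
        exact hcon ⟨f, hf, hf2⟩
      obtain ⟨f, hf, hfc⟩ := h2'
      exact (hcore f hf k hkm hkM hkp c).resolve_left hfc
    have h3 : ∀ᵐ x : ℝ, ∀ n : ℕ, a + 1 / ((n : ℝ) + 1) < x → k x = 0 :=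
      ae_all_iff.2 fun n => h1 _ (by
        have : (0 : ℝ) < 1 / ((n : ℝ) + 1) := by positivity
        linarith)
    have h4 : ∀ᵐ x : ℝ, x ≠ a := by
      rw [ae_iff]
      simp
    apply hkg
    rw [← integral_zero ℝ ℂ (μ := volume)]
    refine integral_congr_ae ?_
    filter_upwards [h3, h4, hgv] with x hx hxa hxg
    rcases lt_or_gt_of_ne hxa with h | h
    · rw [hxg h, zero_mul]
    · obtain ⟨n, hn⟩ := exists_nat_one_div_lt (sub_pos.2 h)
      rw [hx n (by linarith), mul_zero]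

end

end Pool.Agent.Helper311.TI.J6799

namespace Pool.Agent.Helper311.TI

alias S_final := J6799.S_final

end Pool.Agent.Helper311.TI
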